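import Pool.Agent.H36.DG.QA

/-!
QB (a lift in the coordinate of a Riemann map).  `ψ`, `v` are holomorphic, inverse to each other, so `ψ' ≠ 0`, `v' ≠ 0`; `fderiv ℝ (v ∘ G ∘ ψ) z w =
v' (G (ψ z)) * DG (ψ z) (ψ' z * w)`; norm and determinant of the derivative change by conformal factors, so the constant of `qc_lift` for `G` and for
`Gi` (use `Lift.symm`; take the maximum of the two constants) works.  `G` and `Gi` map `fil X U` to itself (`fil_G` in CV/B1).  Determinant positive: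
`L.area` and `ρpos`.
-/

namespace CV

open Metric Set Filter Topology Function DS TN

section

/-- multiplication by `c` as a real linear map -/
noncomputable abbrev QB_m (c : ℂ) : ℂ →L[ℝ] ℂ :=
  (ContinuousLinearMap.toSpanSingleton ℂ c).restrictScalars ℝ

theorem QB_norm (c : ℂ) : ‖QB_m c‖ ≤ ‖c‖ := by
  refine ContinuousLinearMap.opNorm_le_bound _ (norm_nonneg c) fun x => ?_
  have h : QB_m c x = x * c := rfl
  rw [h, norm_mul, mul_comm]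

variable {W : Set ℂ} {ψ v H : ℂ → ℂ}

theorem QB_hψ (R : Riem W ψ v) {z : ℂ} (hz : z ∈ ball (0:ℂ) 1) :
    HasDerivAt ψ (deriv ψ z) z :=
  (R.dψ.differentiableAt (isOpen_ball.mem_nhds hz)).hasDerivAt

theorem QB_hv (hW : IsOpen W) (R : Riem W ψ v) {w : ℂ} (hw : w ∈ W) :
    HasDerivAt v (deriv v w) w :=
  (R.dv.differentiableAt (hW.mem_nhds hw)).hasDerivAt

theorem QB_ψne (hW : IsOpen W) (R : Riem W ψ v) {z : ℂ} (hz : z ∈ ball (0:ℂ) 1) :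
    deriv ψ z ≠ 0 := by
  have h1 : HasDerivAt (fun z => v (ψ z)) (deriv v (ψ z) * deriv ψ z) z :=
    (QB_hv hW R (R.mψ hz)).comp z (QB_hψ R hz)
  have h2 : HasDerivAt (fun z => v (ψ z)) 1 z := by
    refine (hasDerivAt_id z).congr_of_eventuallyEq ?_
    filter_upwards [isOpen_ball.mem_nhds hz] with y hy
    exact R.vψ y hy
  intro h
  have h3 := h1.unique h2
  rw [h, mul_zero] at h3
  exact zero_ne_one h3

theorem QB_vne (hW : IsOpen W) (R : Riem W ψ v) {w : ℂ} (hw : w ∈ W) :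
    deriv v w ≠ 0 := by
  have h1 : HasDerivAt (fun w => ψ (v w)) (deriv ψ (v w) * deriv v w) w :=
    (QB_hψ R (R.mv hw)).comp w (QB_hv hW R hw)
  have h2 : HasDerivAt (fun w => ψ (v w)) 1 w := by
    refine (hasDerivAt_id w).congr_of_eventuallyEq ?_
    filter_upwards [hW.mem_nhds hw] with y hy
    exact R.ψv y hy
  intro h
  have h3 := h1.unique h2
  rw [h, mul_zero] at h3
  exact zero_ne_one h3

theorem QB_fd (hW : IsOpen W) (R : Riem W ψ v) (hH : ∀ w ∈ W, DifferentiableAt ℝ H w)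
    (mH : MapsTo H W W) {z : ℂ} (hz : z ∈ ball (0:ℂ) 1) :
    fderiv ℝ (fun z => v (H (ψ z))) z =
      (QB_m (deriv v (H (ψ z)))).comp ((fderiv ℝ H (ψ z)).comp (QB_m (deriv ψ z))) := by
  have h1 : HasFDerivAt ψ (QB_m (deriv ψ z)) z := (QB_hψ R hz).hasFDerivAt.restrictScalars ℝ
  have h2 : HasFDerivAt H (fderiv ℝ H (ψ z)) (ψ z) := (hH _ (R.mψ hz)).hasFDerivAt
  have h3 : HasFDerivAt v (QB_m (deriv v (H (ψ z)))) (H (ψ z)) :=
    (QB_hv hW R (mH (R.mψ hz))).hasFDerivAt.restrictScalars ℝ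
  exact (h3.comp z (h2.comp z h1)).fderiv

theorem QB_det (hW : IsOpen W) (R : Riem W ψ v) (hH : ∀ w ∈ W, DifferentiableAt ℝ H w)
    (mH : MapsTo H W W) {z : ℂ} (hz : z ∈ ball (0:ℂ) 1) :
    (fderiv ℝ (fun z => v (H (ψ z))) z).det =
      ‖deriv v (H (ψ z))‖ ^ 2 * ((fderiv ℝ H (ψ z)).det * ‖deriv ψ z‖ ^ 2) := by
  rw [QB_fd hW R hH mH hz, ← LA_det (deriv v (H (ψ z))), ← LA_det (deriv ψ z)]
  have h1 : ∀ S T : ℂ →L[ℝ] ℂ, (S.comp T).det = S.det * T.det := fun S T =>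
    LinearMap.det_comp _ _
  rw [h1, h1]

theorem QB_qc (hW : IsOpen W) (R : Riem W ψ v) (hH : ∀ w ∈ W, DifferentiableAt ℝ H w)
    (mH : MapsTo H W W) {Kq K' : ℝ} (hK : ∀ w ∈ W, ‖fderiv ℝ H w‖ ^ 2 ≤ Kq * |(fderiv ℝ H w).det|)
    (hle : Kq ≤ K') {z : ℂ} (hz : z ∈ ball (0:ℂ) 1) :
    ‖fderiv ℝ (fun z => v (H (ψ z))) z‖ ^ 2 ≤
      K' * |(fderiv ℝ (fun z => v (H (ψ z))) z).det| := by
  have hn : ‖fderiv ℝ (fun z => v (H (ψ z))) z‖ ≤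
      ‖deriv v (H (ψ z))‖ * (‖fderiv ℝ H (ψ z)‖ * ‖deriv ψ z‖) := by
    rw [QB_fd hW R hH mH hz]
    refine (ContinuousLinearMap.opNorm_comp_le _ _).trans ?_
    refine mul_le_mul (QB_norm _) ?_ (norm_nonneg _) (norm_nonneg _)
    refine (ContinuousLinearMap.opNorm_comp_le _ _).trans ?_
    exact mul_le_mul_of_nonneg_left (QB_norm _) (norm_nonneg _)
  rw [QB_det hW R hH mH hz, abs_mul, abs_mul, abs_of_nonneg (sq_nonneg ‖deriv v (H (ψ z))‖),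
    abs_of_nonneg (sq_nonneg ‖deriv ψ z‖)]
  have h1 := hK _ (R.mψ hz)
  have h2 : Kq * |(fderiv ℝ H (ψ z)).det| ≤ K' * |(fderiv ℝ H (ψ z)).det| :=
    mul_le_mul_of_nonneg_right hle (abs_nonneg _)
  calc ‖fderiv ℝ (fun z => v (H (ψ z))) z‖ ^ 2
      ≤ (‖deriv v (H (ψ z))‖ * (‖fderiv ℝ H (ψ z)‖ * ‖deriv ψ z‖)) ^ 2 :=
        pow_le_pow_left₀ (norm_nonneg _) hn 2
    _ = ‖deriv v (H (ψ z))‖ ^ 2 * ‖deriv ψ z‖ ^ 2 * ‖fderiv ℝ H (ψ z)‖ ^ 2 := by ring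
    _ ≤ ‖deriv v (H (ψ z))‖ ^ 2 * ‖deriv ψ z‖ ^ 2 * (K' * |(fderiv ℝ H (ψ z)).det|) :=
        mul_le_mul_of_nonneg_left (h1.trans h2) (by positivity)
    _ = K' * (‖deriv v (H (ψ z))‖ ^ 2 * (|(fderiv ℝ H (ψ z)).det| * ‖deriv ψ z‖ ^ 2)) := by
        ring

theorem QB_cd (hW : IsOpen W) (R : Riem W ψ v) (hH : ContDiffOn ℝ 1 H W)
    (mH : MapsTo H W W) : ContDiffOn ℝ 1 (fun z => v (H (ψ z))) (ball 0 1) := by
  have h1 : ContDiffOn ℝ 1 ψ (ball 0 1) :=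
    (R.dψ.contDiffOn isOpen_ball : ContDiffOn ℂ 1 ψ (ball 0 1)).restrict_scalars ℝ
  have h2 : ContDiffOn ℝ 1 v W :=
    (R.dv.contDiffOn hW : ContDiffOn ℂ 1 v W).restrict_scalars ℝ
  exact h2.comp (hH.comp h1 R.mψ) fun z hz => mH (R.mψ hz)

end

section
variable {S : Type} [MetricSpace S] [CompactSpace S] {X : Set ℂ} {Γ : Type} [Group Γ]
  {A : Γ → ℂ → ℂ} {p : ℂ → S} {g gi : S → S} {G Gi : ℂ → ℂ} {θ : Γ ≃* Γ} {ρ : ℂ → ℝ}
  {U : Set ℂ} {N : Subgroup Γ} {ψ v : ℂ → ℂ}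

theorem fil_maps (D : Deck X A p) (L : Lift X A p g gi G Gi θ ρ) (M : Dom X A p g G U N) :
    MapsTo G (fil X U) (fil X U) ∧ MapsTo Gi (fil X U) (fil X U) := by
  have h := fil_G D L M
  refine ⟨fun x hx => h ▸ mem_image_of_mem G hx, fun x hx => ?_⟩
  rw [← h] at hx
  obtain ⟨y, hy, rfl⟩ := hx
  rw [L.GiG y hy.1]
  exact hy

theorem riem_coord (D : Deck X A p) (L : Lift X A p g gi G Gi θ ρ) (M : Dom X A p g G U N)
    (R : Riem (fil X U) ψ v) :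
    ContDiffOn ℝ 1 (fun z => v (G (ψ z))) (ball 0 1) ∧
      ContDiffOn ℝ 1 (fun z => v (Gi (ψ z))) (ball 0 1) ∧
      MapsTo (fun z => v (G (ψ z))) (ball 0 1) (ball 0 1) ∧
      MapsTo (fun z => v (Gi (ψ z))) (ball 0 1) (ball 0 1) ∧
      (∀ z ∈ ball (0:ℂ) 1, v (Gi (ψ (v (G (ψ z))))) = z) ∧
      (∀ z ∈ ball (0:ℂ) 1, v (G (ψ (v (Gi (ψ z))))) = z) ∧
      (∃ Kq : ℝ, (∀ z ∈ ball (0:ℂ) 1, ‖fderiv ℝ (fun z => v (G (ψ z))) z‖ ^ 2 ≤
        Kq * |(fderiv ℝ (fun z => v (G (ψ z))) z).det|) ∧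
        ∀ z ∈ ball (0:ℂ) 1, ‖fderiv ℝ (fun z => v (Gi (ψ z))) z‖ ^ 2 ≤
          Kq * |(fderiv ℝ (fun z => v (Gi (ψ z))) z).det|) ∧
      ∀ z ∈ ball (0:ℂ) 1, 0 < (fderiv ℝ (fun z => v (G (ψ z))) z).det := by
  have hW : IsOpen (fil X U) := fil_open D M
  have hsub : fil X U ⊆ X := fun x hx => hx.1
  obtain ⟨mG, mGi⟩ := fil_maps D L M
  have dG : ∀ w ∈ fil X U, DifferentiableAt ℝ G w := fun w hw =>
    (L.c1.differentiableOn one_ne_zero).differentiableAt (D.opn.mem_nhds (hsub hw))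
  have dGi : ∀ w ∈ fil X U, DifferentiableAt ℝ Gi w := fun w hw =>
    (L.c1i.differentiableOn one_ne_zero).differentiableAt (D.opn.mem_nhds (hsub hw))
  obtain ⟨K1, hK1⟩ := qc_lift D L
  obtain ⟨K2, hK2⟩ := qc_lift D (L.symm D)
  refine ⟨QB_cd hW R (L.c1.mono hsub) mG, QB_cd hW R (L.c1i.mono hsub) mGi,
    fun z hz => R.mv (mG (R.mψ hz)), fun z hz => R.mv (mGi (R.mψ hz)), fun z hz => ?_,
    fun z hz => ?_, ⟨max K1 K2, fun z hz => ?_, fun z hz => ?_⟩, fun z hz => ?_⟩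
  · rw [R.ψv _ (mG (R.mψ hz)), L.GiG _ (hsub (R.mψ hz)), R.vψ z hz]
  · rw [R.ψv _ (mGi (R.mψ hz)), L.GGi _ (hsub (R.mψ hz)), R.vψ z hz]
  · exact QB_qc hW R dG mG (fun w hw => hK1 w (hsub hw)) (le_max_left _ _) hz
  · exact QB_qc hW R dGi mGi (fun w hw => hK2 w (hsub hw)) (le_max_right _ _) hz
  · rw [QB_det hW R dG mG hz]
    have h1 : 0 < ‖deriv v (G (ψ z))‖ := norm_pos_iff.2 (QB_vne hW R (mG (R.mψ hz)))
    have h2 : 0 < ‖deriv ψ z‖ := norm_pos_iff.2 (QB_ψne hW R hz)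
    have h3 : 0 < (fderiv ℝ G (ψ z)).det := by
      have hx : ψ z ∈ X := hsub (R.mψ hz)
      have h4 := L.area _ hx
      have h5 := L.ρpos _ hx
      have h6 := L.ρpos _ (L.mG hx)
      rw [← h4] at h5
      exact (pos_iff_pos_of_mul_pos h5).1 h6
    positivity

end

end CV
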