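import Pool.Agent.H36.DG.MA
import Pool.Agent.H36.DG.QB

/-!
AMa (the invariant measure in the coordinate of the disc).  Measure on the disc: `μ = Measure.map v ((mX X ρ).restrict (fil X U))`, so `μ B = mX X ρ (ψ '' B)` for measurable `B ⊆ ball 0 1` (`v ⁻¹' B ∩ fil X U = ψ '' B`;
`v` is measurable on the open set `fil X U`: `ContinuousOn.aemeasurable`; `Measure.map_apply_of_aemeasurable`).  With `h z = v (G (ψ z))`: `μ (h '' B) = μ B` for measurable `B ⊆ ball 0 1`
(`ψ '' (h '' B) = G '' (ψ '' B)`, `mX_G`; `h '' B` is measurable: continuous injective image, or preimage of `B` under the continuous inverse `fun z => v (Gi (ψ z))`, `riem_coord`); `μ O > 0` for nonempty open `O ⊆ ball 0 1`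
(`mX_pos`; `ψ '' O` is open: it is `fil X U ∩ v ⁻¹' O`).
-/

namespace CV

open Metric Set Filter Topology Function DS TN MeasureTheory

section
variable {S : Type} [MetricSpace S] [CompactSpace S] {X : Set ℂ} {Γ : Type} [Group Γ]
  {A : Γ → ℂ → ℂ} {p : ℂ → S} {g gi : S → S} {G Gi : ℂ → ℂ} {θ : Γ ≃* Γ} {ρ : ℂ → ℝ}
  {U : Set ℂ} {N : Subgroup Γ} {ψ v : ℂ → ℂ} {F : Fuchs N}

/-- the measure on the disc -/
theorem disc_measure (D : Deck X A p) (L : Lift X A p g gi G Gi θ ρ)
    (M : Dom X A p g G U N) (R : Riem (fil X U) ψ v) : ∃ μ : Measure ℂ,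
      (∀ B ⊆ ball (0:ℂ) 1, MeasurableSet B → μ B = mX X ρ (ψ '' B)) ∧
      (∀ B ⊆ ball (0:ℂ) 1, MeasurableSet B → μ ((fun z => v (G (ψ z))) '' B) = μ B) ∧
      ∀ O ⊆ ball (0:ℂ) 1, IsOpen O → O.Nonempty → 0 < μ O := by
  have hW : IsOpen (fil X U) := fil_open D M
  have hWX : fil X U ⊆ X := fil_sub
  have hGW : MapsTo G (fil X U) (fil X U) := by
    intro x hx
    rw [← fil_G D L M]
    exact ⟨x, hx, rfl⟩
  obtain ⟨r1, -, r3, -, r5, -, -, -⟩ := riem_coord D L M R
  have hvm : AEMeasurable v ((mX X ρ).restrict (fil X U)) :=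
    R.dv.continuousOn.aemeasurable hW.measurableSet
  have hpre : ∀ B ⊆ ball (0:ℂ) 1, v ⁻¹' B ∩ fil X U = ψ '' B := by
    intro B hB
    ext w
    constructor
    · rintro ⟨h1, h2⟩
      exact ⟨v w, h1, R.ψv w h2⟩
    · rintro ⟨z, hz, rfl⟩
      refine ⟨?_, R.mψ (hB hz)⟩
      show v (ψ z) ∈ B
      rw [R.vψ z (hB hz)]
      exact hz
  have hψinj : InjOn ψ (ball 0 1) := by
    intro x hx y hy h
    rw [← R.vψ x hx, h, R.vψ y hy]
  have h1 : ∀ B ⊆ ball (0:ℂ) 1, MeasurableSet B →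
      Measure.map v ((mX X ρ).restrict (fil X U)) B = mX X ρ (ψ '' B) := by
    intro B hB hBm
    rw [Measure.map_apply_of_aemeasurable hvm hBm, Measure.restrict_apply' hW.measurableSet,
      hpre B hB]
  refine ⟨Measure.map v ((mX X ρ).restrict (fil X U)), h1, ?_, ?_⟩
  · intro B hB hBm
    have hinj : InjOn (fun z => v (G (ψ z))) (ball 0 1) := by
      intro x hx y hy h
      simp only at h
      rw [← r5 x hx, h, r5 y hy]
    have hm1 : MeasurableSet ((fun z => v (G (ψ z))) '' B) :=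
      hBm.image_of_continuousOn_injOn (r1.continuousOn.mono hB) (hinj.mono hB)
    have hm2 : MeasurableSet (ψ '' B) :=
      hBm.image_of_continuousOn_injOn (R.dψ.continuousOn.mono hB) (hψinj.mono hB)
    have hsub : (fun z => v (G (ψ z))) '' B ⊆ ball (0:ℂ) 1 := by
      rintro _ ⟨z, hz, rfl⟩
      exact r3 (hB hz)
    have hsub2 : ψ '' B ⊆ X := by
      rintro _ ⟨z, hz, rfl⟩
      exact hWX (R.mψ (hB hz))
    rw [h1 _ hsub hm1, h1 B hB hBm, ← (mX_G D L hsub2 hm2).2]
    congr 1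
    rw [image_image, image_image]
    exact image_congr fun z hz => R.ψv _ (hGW (R.mψ (hB hz)))
  · intro O hO hOo hne
    rw [h1 O hO hOo.measurableSet]
    refine mX_pos D L ?_ ?_ (hne.image _)
    · rintro _ ⟨z, hz, rfl⟩
      exact hWX (R.mψ (hO hz))
    · rw [← hpre O hO, inter_comm]
      exact R.dv.continuousOn.isOpen_inter_preimage hW hOo

end

end CV
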