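import Pool.Agent.H36.DS.PBase
import Pool.Agent.H36.DS.HA

/-!
AMb (the two sides of a circular arc in the disc).  `W = ball 0 1`, arc `A = {z | ‖z‖ < 1 ∧ dist z ζ = s}`, `Δ = {z | ‖z‖ < 1 ∧ dist z ζ < s}` is convex (intersection of two balls) and nonempty, `M = {z | ‖z‖ < 1 ∧ s < dist z ζ}` is connected by
`disc_minus_ball` (DS/HA) with `p = ζ`, `r = s < 1 = ‖p‖`.  `Δ ∪ M = W \ A`, disjoint, open.  Closures: let `z ∈ A`; for `t` close to `1` the point `ζ + t (z - ζ)` is in the disc (open) and its distance to `ζ` is `t s`: `t ↑ 1` gives `z ∈ closure Δ`, `t ↓ 1` gives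
`z ∈ closure M`.
-/

namespace CV

open Metric Set Filter Topology Function DS

theorem AMb_tend {ζ z : ℂ} {P : ℝ → Prop} (hz : ‖z‖ < 1) {l : Filter ℝ} (hl : l ≤ 𝓝 1) [l.NeBot]
    (hP : ∀ᶠ t in l, P t) : z ∈ closure {w : ℂ | ‖w‖ < 1 ∧ ∃ t, P t ∧ w = ζ + t * (z - ζ)} := by
  have ht : Tendsto (fun t : ℝ => ζ + (t : ℂ) * (z - ζ)) l (𝓝 z) := by
    have hc : Continuous (fun t : ℝ => ζ + (t : ℂ) * (z - ζ)) := by fun_prop
    have h1 := (hc.tendsto 1).mono_left hl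
    have h2 : ζ + ((1:ℝ) : ℂ) * (z - ζ) = z := by push_cast; ring
    rwa [h2] at h1
  refine mem_closure_of_tendsto ht ?_
  have h3 : ∀ᶠ t : ℝ in l, ‖ζ + (t : ℂ) * (z - ζ)‖ < 1 := ht.norm.eventually_lt_const hz
  filter_upwards [h3, hP] with t h4 h5
  exact ⟨h4, t, h5, rfl⟩

theorem AMb_dist {ζ z : ℂ} {t : ℝ} (ht : 0 ≤ t) : dist (ζ + t * (z - ζ)) ζ = t * dist z ζ := by
  rw [dist_eq_norm, add_sub_cancel_left, norm_mul, Complex.norm_real, Real.norm_of_nonneg ht,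
    dist_eq_norm]

theorem arc_sides {ζ : ℂ} (hζ : ‖ζ‖ = 1) {s : ℝ} (hs : 0 < s) (hs1 : s < 1) :
    Sides (ball 0 1) {z : ℂ | ‖z‖ < 1 ∧ dist z ζ = s} {z : ℂ | ‖z‖ < 1 ∧ dist z ζ < s}
      {z : ℂ | ‖z‖ < 1 ∧ s < dist z ζ} := by
  have hd : Continuous fun z : ℂ => dist z ζ := continuous_id.dist continuous_const
  have eΔ : {z : ℂ | ‖z‖ < 1 ∧ dist z ζ < s} = ball 0 1 ∩ ball ζ s := by
    ext z
    simp [mem_ball]
  have eM : {z : ℂ | ‖z‖ < 1 ∧ s < dist z ζ} = ball 0 1 \ closedBall ζ s := by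
    ext z
    simp [mem_ball, mem_closedBall]
  refine ⟨?_, ?_, ?_, ?_, ?_, ?_, ?_, ?_⟩
  · rw [eΔ]
    exact isOpen_ball.inter isOpen_ball
  · rw [eM]
    exact isOpen_ball.sdiff isClosed_closedBall
  · rw [eΔ]
    refine ⟨⟨(1 - s / 2 : ℝ) * ζ, ?_, ?_⟩, ((convex_ball _ _).inter (convex_ball _ _)).isPreconnected⟩
    · rw [mem_ball_zero_iff, norm_mul, hζ, mul_one, Complex.norm_real,
        Real.norm_of_nonneg (by linarith)]
      linarith
    · rw [mem_ball, dist_eq_norm]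
      have : ((1 - s / 2 : ℝ) : ℂ) * ζ - ζ = -((s / 2 : ℝ) * ζ) := by push_cast; ring
      rw [this, norm_neg, norm_mul, hζ, mul_one, Complex.norm_real,
        Real.norm_of_nonneg (by linarith)]
      linarith
  · exact disc_minus_ball hs.le (by rw [hζ]; exact hs1)
  · rw [disjoint_left]
    intro z h1 h2
    have := h1.2
    have := h2.2
    linarith
  · ext z
    constructor
    · rintro (⟨h1, h2⟩ | ⟨h1, h2⟩)
      · exact ⟨mem_ball_zero_iff.2 h1, fun h => h2.ne h.2⟩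
      · exact ⟨mem_ball_zero_iff.2 h1, fun h => h2.ne' h.2⟩
    · rintro ⟨h1, h2⟩
      have h1' : ‖z‖ < 1 := mem_ball_zero_iff.1 h1
      rcases lt_or_gt_of_ne (fun h => h2 ⟨h1', h⟩ : dist z ζ ≠ s) with h | h
      · exact Or.inl ⟨h1', h⟩
      · exact Or.inr ⟨h1', h⟩
  · rintro z ⟨h1, h2⟩
    have h3 := AMb_tend (ζ := ζ) (P := fun t => 0 < t ∧ t < 1) h1 (l := 𝓝[<] 1) nhdsWithin_le_nhds
      (by
        filter_upwards [self_mem_nhdsWithin, mem_nhdsWithin_of_mem_nhds (Ioi_mem_nhds one_pos)]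
          with t ht1 ht2
        exact ⟨ht2, ht1⟩)
    refine closure_mono ?_ h3
    rintro w ⟨hw, t, ht, rfl⟩
    refine ⟨hw, ?_⟩
    rw [AMb_dist ht.1.le, h2]
    nlinarith [ht.2]
  · rintro z ⟨h1, h2⟩
    have h3 := AMb_tend (ζ := ζ) (P := fun t => 1 < t) h1 (l := 𝓝[>] 1) nhdsWithin_le_nhds
      self_mem_nhdsWithin
    refine closure_mono ?_ h3
    rintro w ⟨hw, t, ht, rfl⟩
    refine ⟨hw, ?_⟩
    rw [AMb_dist (zero_le_one.trans (le_of_lt ht)), h2]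
    nlinarith [ht]

end CV
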