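import Pool.Agent.H36.DG.Defs
import Pool.Agent.H12.CV.RM

/-!
FK (the complement of the filled set, seen from a point of it, is a continuum).  `W = fil X U`, `E = {w | w = 0 ∨ w₀ + w⁻¹ ∉ W}` (so `E \ {0}` is the image of
`Wᶜ` by `x ↦ (x - w₀)⁻¹`, and `0` stands for infinity).
Compact: `W` is open (`fil_isOpen`) and contains `ball w₀ r`, so `E ⊆ closedBall 0 r⁻¹`; closed: near `w ≠ 0` the map `w ↦ w₀ + w⁻¹` is continuous.
Connected: it suffices to connect each `w ∈ E \ {0}`, `x = w₀ + w⁻¹ ∉ W`, to `0` by a connected subset of `E`.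
(1) `x ∉ X` (so `X = ball 0 1`, `‖x‖ ≥ 1`): the ray `{x + t x | t ≥ 0}` misses `X`; its image in `E` together with `0` is connected (it is the image of `[0, 1)` and the
limit point `0`).
(2) `x ∈ X \ W`: then `x ∈ X \ U` and `C = connectedComponentIn (X \ U) x` is not compact (`TB_iff`), disjoint from `W` (`fil_comp`), connected, closed in `X`.  If
`X = univ`, `C` is closed, so unbounded: the image of `C` in `E` is connected and has `0` in its closure.  If `X = ball 0 1`: `C` is bounded; it is not closed (else compact), so its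
closure contains a point `y` not in `C`; `C` is closed in `X` (components are closed in `X \ U`, which is closed in `X`), so `y ∉ X`; the closure of `C` minus ... : `C ∪ {y}` is connected and
`C ∪ {y} ∪ ray of y` is a connected subset of the complement of `W` containing `x`; continue as in (1).
Nontrivial: `W ≠ univ`.
-/

namespace CV

open Metric Set Filter Topology Function DS TN

section
variable {S : Type} [MetricSpace S] {X : Set ℂ} {Γ : Type} [Group Γ]
  {A : Γ → ℂ → ℂ} {p : ℂ → S} {g : S → S} {G : ℂ → ℂ} {U : Set ℂ} {N : Subgroup Γ}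

theorem fil_compl_conn (D : Deck X A p) (M : Dom X A p g G U N) {w₀ : ℂ} (hw : w₀ ∈ fil X U)
    (hW : fil X U ≠ univ) :
    IsCompact {w : ℂ | w = 0 ∨ w₀ + w⁻¹ ∉ fil X U} ∧
      IsConnected {w : ℂ | w = 0 ∨ w₀ + w⁻¹ ∉ fil X U} ∧
      ({w : ℂ | w = 0 ∨ w₀ + w⁻¹ ∉ fil X U}).Nontrivial := by
  obtain ⟨h1, h2, h3, -, -⟩ := KW_props_fil D M hW hw
  exact ⟨h1, h2, h3⟩

end

end CV
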