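import Pool.Agent.H36.DG.MA
import Pool.Agent.H36.DG.FK

/-!
MB (sets on which the covering is injective have bounded measure).  `Γ` is countable: by `Deck.proper` applied to an exhaustion of `X` by compact sets `C_n` (for a point `x ∈ C_0`, every `g` has
`A g x ∈ C_n` for some `n`; finitely many `g` for each `n`).  Let `C ⊆ X` be compact with `∀ x ∈ X, ∃ c, A c x ∈ C` (`Deck.coc`), `m = mX X ρ C < ⊤` (`mX_cpt`).  Let `B ⊆ X` be measurable, `p` injective
on `B`.  With an enumeration `c_n` of `Γ` let `B_n = {x ∈ B | A c_n x ∈ C} \ ⋃_{k < n} B_k`: measurable, disjoint, with union `B`.  The sets `A c_n '' B_n ⊆ C` are measurable of the same measure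
(`mX_A`) and pairwise disjoint: `A c_n x = A c_k y` implies `p x = p y` (`Deck.fibre`), `x = y`, so `n = k`.  Sum.
`Γ` may be finite or trivial as a type; `Countable Γ` is enough (`exists_surjective_nat` or `Encodable`); `disjointed`.
-/

namespace CV

open Metric Set Filter Topology Function DS TN MeasureTheory

section
variable {S : Type} [MetricSpace S] {X : Set ℂ} {Γ : Type} [Group Γ]
  {A : Γ → ℂ → ℂ} {p : ℂ → S} {g gi : S → S} {G Gi : ℂ → ℂ} {θ : Γ ≃* Γ} {ρ : ℂ → ℝ}

/-- a countable exhaustion of `X` -/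
theorem MB_exh (D : Deck X A p) : ∃ C : ℕ → Set ℂ, (∀ n, IsCompact (C n)) ∧ (∀ n, C n ⊆ X) ∧
    Monotone C ∧ ∀ x ∈ X, ∃ n, x ∈ C n := by
  rcases D.hX with ⟨h, -⟩ | ⟨h, -⟩
  · refine ⟨fun n => closedBall 0 n, fun n => isCompact_closedBall _ _, fun n => ?_, ?_, ?_⟩
    · rw [h]; exact subset_univ _
    · intro a b hab
      exact closedBall_subset_closedBall (by exact_mod_cast hab)
    · intro x _
      obtain ⟨n, hn⟩ := exists_nat_ge ‖x‖
      exact ⟨n, by rw [mem_closedBall_zero_iff]; exact hn⟩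
  · refine ⟨fun n => closedBall 0 (1 - 1 / ((n : ℝ) + 1)), fun n => isCompact_closedBall _ _,
      fun n => ?_, ?_, ?_⟩
    · rw [h]
      refine closedBall_subset_ball ?_
      have : 0 < 1 / ((n : ℝ) + 1) := Nat.one_div_pos_of_nat
      linarith
    · intro a b hab
      refine closedBall_subset_closedBall ?_
      have := Nat.one_div_le_one_div (α := ℝ) hab
      linarith
    · intro x hx
      rw [h, mem_ball_zero_iff] at hx
      obtain ⟨n, hn⟩ := exists_nat_one_div_lt (sub_pos.2 hx)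
      refine ⟨n, ?_⟩
      rw [mem_closedBall_zero_iff]
      linarith

theorem Deck.countable (D : Deck X A p) : Countable Γ := by
  obtain ⟨C, hC, hCX, hmono, hcov⟩ := MB_exh D
  obtain ⟨x₀, hx₀⟩ := D.conn.nonempty
  have h1 : (univ : Set Γ) ⊆ ⋃ n, {g | ∃ x ∈ C n, A g x ∈ C n} := by
    intro g _
    obtain ⟨a, ha⟩ := hcov x₀ hx₀
    obtain ⟨b, hb⟩ := hcov _ (D.maps g hx₀)
    rw [mem_iUnion]
    exact ⟨max a b, x₀, hmono (le_max_left a b) ha, hmono (le_max_right a b) hb⟩
  have h2 : (⋃ n, {g | ∃ x ∈ C n, A g x ∈ C n}).Countable :=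
    countable_iUnion fun n => (D.proper (C n) (hCX n) (hC n)).countable
  exact countable_univ_iff.1 (h2.mono h1)

theorem mX_fin [CompactSpace S] (D : Deck X A p) (L : Lift X A p g gi G Gi θ ρ) :
    ∃ m : ENNReal, m < ⊤ ∧ ∀ B ⊆ X, MeasurableSet B → InjOn p B → mX X ρ B ≤ m := by
  obtain ⟨C, hCX, hC, hcov⟩ := D.coc
  refine ⟨mX X ρ C, mX_cpt D L hC hCX, fun B hBX hB hinj => ?_⟩
  have := D.countable
  obtain ⟨e, he⟩ := exists_surjective_nat Γ
  obtain ⟨E, hE⟩ : ∃ E : ℕ → Set ℂ, E = fun n => {x ∈ B | A (e n) x ∈ C} := ⟨_, rfl⟩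
  have hEm : ∀ n, MeasurableSet (E n) := by
    intro n
    have h1 : E n = B \ (X ∩ A (e n) ⁻¹' Cᶜ) := by
      rw [hE]
      ext x
      constructor
      · rintro ⟨h1, h2⟩
        exact ⟨h1, fun h => h.2 h2⟩
      · rintro ⟨h1, h2⟩
        refine ⟨h1, ?_⟩
        by_contra h3
        exact h2 ⟨hBX h1, h3⟩
    rw [h1]
    exact hB.diff ((D.cont (e n)).isOpen_inter_preimage D.opn hC.isClosed.isOpen_compl).measurableSet
  have hEB : ∀ n, E n ⊆ B := fun n x hx => by
    rw [hE] at hx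
    exact hx.1
  have hEC : ∀ n, ∀ x ∈ E n, A (e n) x ∈ C := fun n x hx => by
    rw [hE] at hx
    exact hx.2
  have hdm : ∀ n, MeasurableSet (disjointed E n) := fun n => MeasurableSet.disjointed hEm n
  have hdB : ∀ n, disjointed E n ⊆ B := fun n => (disjointed_subset E n).trans (hEB n)
  have hU : B = ⋃ n, disjointed E n := by
    rw [iUnion_disjointed]
    apply Subset.antisymm
    · intro x hx
      obtain ⟨c, hc⟩ := hcov x (hBX hx)
      obtain ⟨n, rfl⟩ := he c
      rw [mem_iUnion]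
      refine ⟨n, ?_⟩
      rw [hE]
      exact ⟨hx, hc⟩
    · exact iUnion_subset hEB
  have hdisj := disjoint_disjointed E
  have h1 : mX X ρ B = ∑' n, mX X ρ (disjointed E n) := by
    conv_lhs => rw [hU]
    exact measure_iUnion hdisj hdm
  have h2 : ∀ n, mX X ρ (disjointed E n) = mX X ρ (A (e n) '' disjointed E n) := fun n =>
    (mX_A D L (e n) ((hdB n).trans hBX) (hdm n)).2.symm
  have h3 : ∑' n, mX X ρ (A (e n) '' disjointed E n) =
      mX X ρ (⋃ n, A (e n) '' disjointed E n) := by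
    refine (measure_iUnion ?_ fun n => (mX_A D L (e n) ((hdB n).trans hBX) (hdm n)).1).symm
    intro a b hab
    rw [Function.onFun, Set.disjoint_left]
    rintro _ ⟨x, hx, rfl⟩ ⟨y, hy, hxy⟩
    have hpx : p x = p y := by
      rw [← D.fibre (e a) (hBX (hdB a hx)), ← D.fibre (e b) (hBX (hdB b hy)), hxy]
    have hxy' := hinj (hdB a hx) (hdB b hy) hpx
    subst hxy'
    exact Set.disjoint_left.1 (hdisj hab) hx hy
  rw [h1]
  simp only [h2]
  rw [h3]
  refine measure_mono (iUnion_subset fun n => ?_)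
  rintro _ ⟨x, hx, rfl⟩
  exact hEC n x (disjointed_subset E n hx)

end

end CV
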