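import Pool.Agent.H36.DG.WB
import Pool.Agent.H36.DG.MB
import Pool.Agent.H36.DG.AMa
import Pool.Agent.H36.DG.AMb
import Pool.Agent.H12.TN.FN
import Pool.Agent.H36.DS.PF
import Pool.Agent.H36.DS.HA

/-!
AM (small arcs about a fixed prime end meet their images).  Measure on the disc: `μ = Measure.map v ((mX X ρ).restrict (fil X U))`, so `μ B = mX X ρ (ψ '' B)` for measurable `B ⊆ ball 0 1` (`v ⁻¹' B ∩ fil X U = ψ '' B`;
`v` is measurable on the open set `fil X U`: `ContinuousOn.aemeasurable`; `Measure.map_apply_of_aemeasurable`).  With `h z = v (G (ψ z))`: `μ (h '' B) = μ B` for measurable `B ⊆ ball 0 1`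
(`ψ '' (h '' B) = G '' (ψ '' B)`, `mX_G`); `μ O > 0` for nonempty open `O ⊆ ball 0 1` (`mX_pos`; `ψ '' O` is open: it is `fil X U ∩ v ⁻¹' O`).  By `inj_near` and `mX_fin` `μ (ball 0 1 ∩ ball ζ r₀) < ⊤`, so
`μ (ball 0 1 ∩ ball ζ s) → 0` for `s → 0` (decreasing sets with empty intersection, `tendsto_measure_iInter`).  For small `s < 1`: `W = ball 0 1`, arc `A = {z | ‖z‖ < 1 ∧ dist z ζ = s}` (connected, `arc_connected` in DS/HA),
`Δ = {z ∈ W | dist z ζ < s}`, `M = {z ∈ W | s < dist z ζ}` (connected: `Δ` is convex; `M`: `disc_minus_ball`-like, DS/HA, or a limit/union of such sets: `M = {z | ‖z‖ < 1 ∧ s < dist z ζ}` is star shaped about `0`? no; use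
`disc_minus_ball` with centre `ζ`: its hypothesis `r < ‖p‖` is `s < 1`), `Sides W A Δ M` (closures: a point of the arc is a limit of points of the disc on the segment towards `ζ` and away from it).
`μ Δ < μ M` for small `s` (`M ⊇ ball 0 (1/2)` for `s < 1/2`).  `(Δ ∩ h '' Δ).Nonempty`: by continuity of `e.H` at `ζ`, `e.H ζ = ζ`, points of the disc close to `ζ` have images in `Δ`.
`area_abstract` (DS/PF) with `h = fun z => v (G (ψ z))`, `hi = fun z => v (Gi (ψ z))` (`riem_coord`) gives `x, h x ∈ A`.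
-/

namespace CV

open Metric Set Filter Topology Function DS TN MeasureTheory

section
variable {S : Type} [MetricSpace S] [CompactSpace S] {X : Set ℂ} {Γ : Type} [Group Γ]
  {A : Γ → ℂ → ℂ} {p : ℂ → S} {g gi : S → S} {G Gi : ℂ → ℂ} {θ : Γ ≃* Γ} {ρ : ℂ → ℝ}
  {U : Set ℂ} {N : Subgroup Γ} {ψ v : ℂ → ℂ} {F : Fuchs N}

theorem AM_fin (D : Deck X A p) (L : Lift X A p g gi G Gi θ ρ)
    (M : Dom X A p g G U N) (R : Riem (fil X U) ψ v) (hF : Act A ψ v F) {ζ : ℂ} (hζ : ‖ζ‖ = 1)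
    (h : ζ ∉ F.lim) {μ : Measure ℂ}
    (hμ : ∀ B ⊆ ball (0:ℂ) 1, MeasurableSet B → μ B = mX X ρ (ψ '' B)) :
    ∃ r > 0, μ (ball 0 1 ∩ ball ζ r) < ⊤ := by
  obtain ⟨r₀, hr₀, hinj⟩ := inj_near D M R hF hζ h
  obtain ⟨m, hm, hmB⟩ := mX_fin D L
  refine ⟨r₀, hr₀, ?_⟩
  set Q : Set ℂ := ball 0 1 ∩ ball ζ r₀ with hQ
  have hQo : IsOpen Q := isOpen_ball.inter isOpen_ball
  have hQs : Q ⊆ ball (0:ℂ) 1 := inter_subset_left
  have himg : ψ '' Q = fil X U ∩ v ⁻¹' Q := by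
    ext x
    constructor
    · rintro ⟨z, hz, rfl⟩
      refine ⟨R.mψ (hQs hz), ?_⟩
      rw [mem_preimage, R.vψ z (hQs hz)]
      exact hz
    · rintro ⟨h1, h2⟩
      exact ⟨v x, h2, R.ψv x h1⟩
  have hop : IsOpen (ψ '' Q) := by
    rw [himg]
    exact R.dv.continuousOn.isOpen_inter_preimage (fil_open D M) hQo
  have hsub : ψ '' Q ⊆ X := by
    rintro _ ⟨z, hz, rfl⟩
    exact fil_sub (R.mψ (hQs hz))
  have hpi : InjOn p (ψ '' Q) := by
    rintro _ ⟨z, hz, rfl⟩ _ ⟨w, hw, rfl⟩ he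
    rw [hinj hz hw he]
  rw [hμ Q hQs hQo.measurableSet]
  exact (hmB _ hsub hop.measurableSet hpi).trans_lt hm

theorem AM_small {μ : Measure ℂ} {ζ : ℂ} (hζ : ‖ζ‖ = 1) {r : ℝ} (hr : 0 < r)
    (hfin : μ (ball 0 1 ∩ ball ζ r) < ⊤) {a : ENNReal} (ha : 0 < a) :
    ∃ s > 0, s ≤ r ∧ μ (ball 0 1 ∩ ball ζ s) < a := by
  set T : ℕ → Set ℂ := fun n => ball 0 1 ∩ ball ζ (r / (n + 1)) with hT
  have hanti : Antitone T := by
    intro m n hmn
    refine inter_subset_inter_right _ (ball_subset_ball ?_)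
    have h1 : (m : ℝ) ≤ n := by exact_mod_cast hmn
    gcongr
  have h1 : Tendsto (μ ∘ T) atTop (𝓝 (μ (⋂ n, T n))) := by
    refine tendsto_measure_iInter_atTop
      (fun n => (isOpen_ball.inter isOpen_ball).measurableSet.nullMeasurableSet) hanti ⟨0, ?_⟩
    have : T 0 = ball 0 1 ∩ ball ζ r := by simp [hT]
    rw [this]
    exact hfin.ne
  have h2 : (⋂ n, T n) = ∅ := by
    rw [Set.eq_empty_iff_forall_notMem]
    intro z hz
    rw [mem_iInter] at hz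
    have hz1 : ‖z‖ < 1 := by simpa using (hz 0).1
    have hd : 0 < dist z ζ := by
      rw [dist_pos]
      rintro rfl
      linarith
    obtain ⟨n, hn⟩ := exists_nat_gt (r / dist z ζ)
    have h3 : dist z ζ < r / (n + 1) := (hz n).2
    rw [lt_div_iff₀ (by positivity)] at h3
    rw [div_lt_iff₀ hd] at hn
    nlinarith
  rw [h2, measure_empty] at h1
  obtain ⟨n, hn⟩ := (h1.eventually (gt_mem_nhds ha)).exists
  refine ⟨r / (n + 1), by positivity, ?_, hn⟩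
  exact div_le_self hr.le (by linarith [(Nat.cast_nonneg n : (0:ℝ) ≤ n)])

theorem arc_meet (D : Deck X A p) (L : Lift X A p g gi G Gi θ ρ)
    (M : Dom X A p g G U N) (R : Riem (fil X U) ψ v) (hF : Act A ψ v F) {e : Elt N}
    (he : Norm F e) (heH : ∀ z ∈ ball (0:ℂ) 1, e.H z = v (G (ψ z))) {ζ : ℂ} (hζ : ‖ζ‖ = 1)
    (h : ζ ∉ F.lim) (hf : e.H ζ = ζ) : ∃ r₁ > 0, ∀ s, 0 < s → s < r₁ →
      ∃ z ∈ ball (0:ℂ) 1, dist z ζ = s ∧ dist (e.H z) ζ = s := by
  obtain ⟨μ, hμ1, hμ2, hμ3⟩ := disc_measure D L M R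
  obtain ⟨hc1, hc2, hm1, hm2, hli, hri, -, -⟩ := riem_coord D L M R
  obtain ⟨r, hr, hfin⟩ := AM_fin D L M R hF hζ h hμ1
  have hpos : 0 < μ (ball (0:ℂ) (1/2)) :=
    hμ3 _ (ball_subset_ball (by norm_num)) isOpen_ball ⟨0, by simp⟩
  obtain ⟨s₁, hs₁, -, hs1⟩ := AM_small hζ hr hfin hpos
  refine ⟨min s₁ (1/2), lt_min hs₁ (by norm_num), fun s hs hsr => ?_⟩
  have hsa : s < s₁ := hsr.trans_le (min_le_left _ _)
  have hsb : s < 1/2 := hsr.trans_le (min_le_right _ _)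
  have hΔ : μ {z : ℂ | ‖z‖ < 1 ∧ dist z ζ < s} < μ (ball (0:ℂ) (1/2)) := by
    refine lt_of_le_of_lt (measure_mono ?_) hs1
    rintro z ⟨hz1, hz2⟩
    exact ⟨by simpa using hz1, hz2.trans hsa⟩
  have hMs : μ (ball (0:ℂ) (1/2)) ≤ μ {z : ℂ | ‖z‖ < 1 ∧ s < dist z ζ} := by
    refine measure_mono ?_
    intro z hz
    have hz' : ‖z‖ < 1/2 := by simpa using hz
    refine ⟨by linarith, ?_⟩
    rw [dist_eq_norm]
    have h1 := norm_sub_norm_le ζ z
    rw [norm_sub_rev] at h1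
    linarith
  have hne : ({z : ℂ | ‖z‖ < 1 ∧ dist z ζ < s} ∩
      (fun z => v (G (ψ z))) '' {z : ℂ | ‖z‖ < 1 ∧ dist z ζ < s}).Nonempty := by
    have hζc : ζ ∈ closedBall (0:ℂ) 1 := by simpa using hζ.le
    obtain ⟨δ, hδ, hcont⟩ := Metric.continuousOn_iff.1 he.cont ζ hζc s hs
    set t : ℝ := min (min δ s) 1 / 2 with ht
    have h0 : 0 < min (min δ s) 1 := lt_min (lt_min hδ hs) one_pos
    have ht0 : 0 < t := half_pos h0
    have htm : t < min (min δ s) 1 := half_lt_self h0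
    have ht1 : t < 1 := htm.trans_le (min_le_right _ _)
    have htδ : t < δ := htm.trans_le ((min_le_left _ _).trans (min_le_left _ _))
    have hts : t < s := htm.trans_le ((min_le_left _ _).trans (min_le_right _ _))
    have hzn : ‖((1 - t : ℝ) : ℂ) * ζ‖ < 1 := by
      rw [norm_mul, hζ, mul_one, Complex.norm_real, Real.norm_eq_abs, abs_of_pos (by linarith)]
      linarith
    have hzd : dist (((1 - t : ℝ) : ℂ) * ζ) ζ = t := by
      have e1 : ((1 - t : ℝ) : ℂ) * ζ - ζ = ((-t : ℝ) : ℂ) * ζ := by push_cast; ring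
      rw [dist_eq_norm, e1, norm_mul, hζ, mul_one, Complex.norm_real, Real.norm_eq_abs, abs_neg,
        abs_of_pos ht0]
    have hzb : ((1 - t : ℝ) : ℂ) * ζ ∈ ball (0:ℂ) 1 := by
      rw [mem_ball_zero_iff]; exact hzn
    have h1 := hcont _ (ball_subset_closedBall hzb) (by rw [hzd]; exact htδ)
    rw [hf] at h1
    refine ⟨e.H (((1 - t : ℝ) : ℂ) * ζ), ⟨?_, h1⟩, _, ⟨hzn, ?_⟩, (heH _ hzb).symm⟩
    · exact mem_ball_zero_iff.1 (he.mapB hzb)
    · rw [hzd]; exact hts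
  obtain ⟨z, hz1, w, hw, hwz⟩ := area_abstract isOpen_ball (arc_sides hζ hs (by linarith))
    (arc_connected hζ hs (by linarith)) (fun z hz => by simpa using hz.1) hc1.continuousOn hm1
    hc2.continuousOn hm2 hli hri hμ2 hμ3 (hΔ.trans_le hMs) hΔ.ne_top hne
  have hwb : w ∈ ball (0:ℂ) 1 := by simpa using hw.1
  refine ⟨w, hwb, hw.2, ?_⟩
  rw [heH w hwb]
  have h2 : v (G (ψ w)) = z := hwz
  rw [h2]
  exact hz1.2

end

end CV
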