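import Pool.Agent.H36.DG.LLc

/-!
FX (fixed points of `g` on `S` are finite in number).
`fix_finite`: if the closed set `{s | g s = s}` in the compact space `S` is infinite it has an accumulation point `s` in it (`Set.Infinite.exists_accPt_of_subset_isCompact`): `s_j → s`, `s_j ≠ s`, `g s_j = s_j`.  Let
`p x = s`, `x ∈ X` (`Deck.ps`).  As `p` is open (`Deck.pop`), there are `x_j ∈ X`, `x_j → x`, `p x_j = s_j` (for `j` large, after passing to a subsequence; or argue with neighbourhoods: for each ball about `x` its image is a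
neighbourhood of `s`).  `p (G x_j) = g s_j = p x_j`, so `G x_j = A c_j x_j` (`Deck.fib`), and `G x = A c x`.  By `Deck.loc` at `G x` (or at `x`): `A c x_j → A c x = G x`, `G x_j = A (c_j c⁻¹) (A c x_j)`, both `G x_j` and
`A c x_j` are in the small ball about `G x` for `j` large, so `c_j = c`.  So `x_j ≠ x` are fixed points of `G' = A c⁻¹ ∘ G`, converging to the fixed point `x`.  By `Cond.mul`, `Cond.one`:
`det (DG' x) = 1`, `|tr| ≠ 2`, so `DG' x - 1` is invertible (`det (B - 1) = 2 - tr B`), and a fixed point with invertible `DG' x - 1` is isolated (`HasFDerivAt`; `‖(B - 1) w‖ ≥ c ‖w‖`): contradiction.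
-/

namespace CV

open Metric Set Filter Topology Function DS TN

section
variable {S : Type} [MetricSpace S] [CompactSpace S] {X : Set ℂ} {Γ : Type} [Group Γ]
  {A : Γ → ℂ → ℂ} {p : ℂ → S} {g gi : S → S} {G Gi : ℂ → ℂ} {θ : Γ ≃* Γ} {ρ : ℂ → ℝ}
  {Hyp : S → Prop}

/-- a linear map of the plane with determinant one and trace different from two has no eigenvalue one -/
private theorem FX_inj (B : ℂ →L[ℝ] ℂ) (hdet : B.det = 1)
    (htr : LinearMap.trace ℝ ℂ (B : ℂ →ₗ[ℝ] ℂ) ≠ 2) :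
    ∃ κ : NNReal, AntilipschitzWith κ (B - ContinuousLinearMap.id ℝ ℂ) := by
  set M := LinearMap.toMatrix Complex.basisOneI Complex.basisOneI (B : ℂ →ₗ[ℝ] ℂ) with hM
  have h1 : M.det = 1 := by
    rw [hM, LinearMap.det_toMatrix]; exact hdet
  have h2 : LinearMap.trace ℝ ℂ (B : ℂ →ₗ[ℝ] ℂ) = M.trace := by
    rw [hM, LinearMap.trace_eq_matrix_trace ℝ Complex.basisOneI]
  have h3 : LinearMap.det ((B : ℂ →ₗ[ℝ] ℂ) - LinearMap.id) = (M - 1).det := by
    rw [← LinearMap.det_toMatrix Complex.basisOneI, map_sub, LinearMap.toMatrix_id]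
  have h4 : LinearMap.det ((B : ℂ →ₗ[ℝ] ℂ) - LinearMap.id) ≠ 0 := by
    rw [h3]
    rw [h2, Matrix.trace_fin_two] at htr
    rw [Matrix.det_fin_two] at h1 ⊢
    simp only [Matrix.sub_apply, Matrix.one_apply_eq]
    have e1 : (1 : Matrix (Fin 2) (Fin 2) ℝ) 0 1 = 0 := by simp
    have e2 : (1 : Matrix (Fin 2) (Fin 2) ℝ) 1 0 = 0 := by simp
    rw [e1, e2]
    intro h
    apply htr
    linarith
  set e := (LinearMap.equivOfDetNeZero ((B : ℂ →ₗ[ℝ] ℂ) - LinearMap.id) h4).toContinuousLinearEquiv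
    with he
  exact ⟨_, e.antilipschitz⟩

theorem fix_finite (D : Deck X A p) (L : Lift X A p g gi G Gi θ ρ)
    (C : Cond X A p g gi G Hyp) : {s : S | g s = s}.Finite := by
  by_contra hinf
  have hcl : IsClosed {s : S | g s = s} := isClosed_eq L.cg continuous_id
  obtain ⟨s, hs, hacc⟩ := Set.Infinite.exists_accPt_of_subset_isCompact hinf hcl.isCompact
    Subset.rfl
  have hs' : g s = s := hs
  obtain ⟨x, hx, hxs⟩ := D.ps s
  have hGx : G x ∈ X := L.mG hx
  obtain ⟨c, hc⟩ := (D.fib x hx (G x) hGx).1 (by rw [L.lift x hx, hxs, hs'])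
  obtain ⟨r, hr, hrX, hdis⟩ := D.loc hGx
  -- nearby fixed points have the same deck transformation
  have hcG : ContinuousAt G x := L.c1.continuousOn.continuousAt (D.opn.mem_nhds hx)
  have hcA : ContinuousAt (A c) x := (D.cont c).continuousAt (D.opn.mem_nhds hx)
  have ev1 : ∀ᶠ y in 𝓝 x, G y ∈ ball (G x) r := hcG.eventually (ball_mem_nhds _ hr)
  have ev2 : ∀ᶠ y in 𝓝 x, A c y ∈ ball (G x) r := by
    apply hcA.eventually
    rw [hc]
    exact ball_mem_nhds _ hr
  have ev3 : ∀ᶠ y in 𝓝 x, y ∈ X := D.opn.mem_nhds hx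
  have ev : ∀ᶠ y in 𝓝 x, g (p y) = p y → A c⁻¹ (G y) = y := by
    filter_upwards [ev1, ev2, ev3] with y h1 h2 h3 h4
    obtain ⟨d, hd⟩ := (D.fib y h3 (G y) (L.mG h3)).1 (by rw [L.lift y h3, h4])
    have h5 : A (d * c⁻¹) (A c y) = G y := by
      rw [← D.mul _ _ y h3, inv_mul_cancel_right, hd]
    have h6 : d * c⁻¹ = 1 := by
      by_contra hne
      exact Set.disjoint_left.1 (hdis _ hne) ⟨A c y, h2, h5⟩ h1
    have h7 : d = c := mul_inv_eq_one.1 h6
    rw [← hd, h7, D.inv_left c h3]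
  have hfix : A c⁻¹ (G x) = x := by rw [← hc, D.inv_left c hx]
  -- the derivative
  have L' := Lift.mul D L c⁻¹
  have C' := Cond.mul D L C c⁻¹
  obtain ⟨hdet, htr⟩ := Cond.one D L' C' hx hfix
  have hd : DifferentiableAt ℝ (fun y => A c⁻¹ (G y)) x :=
    (L'.c1.differentiableOn one_ne_zero).differentiableAt (D.opn.mem_nhds hx)
  set B := fderiv ℝ (fun y => A c⁻¹ (G y)) x with hB
  have htr2 : LinearMap.trace ℝ ℂ (B : ℂ →ₗ[ℝ] ℂ) ≠ 2 := by
    intro h
    rw [h] at htr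
    have h2 : |(2:ℝ)| = 2 := abs_of_pos two_pos
    rcases htr with h1 | ⟨_, h1⟩
    · rw [h2] at h1; exact lt_irrefl _ h1
    · rw [h2] at h1; exact lt_irrefl _ h1
  obtain ⟨κ, hκ⟩ := FX_inj B hdet htr2
  have hdd : HasFDerivAt (fun y => A c⁻¹ (G y) - y) (B - ContinuousLinearMap.id ℝ ℂ) x :=
    hd.hasFDerivAt.sub (hasFDerivAt_id x)
  have hev : ∀ᶠ y in 𝓝[≠] x, A c⁻¹ (G y) - y ≠ 0 := hdd.eventually_ne ⟨κ, hκ⟩
  -- the accumulation of fixed points
  have hall : ∀ᶠ y in 𝓝 x, g (p y) = p y → y = x := by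
    rw [eventually_nhdsWithin_iff] at hev
    filter_upwards [ev, hev] with y h1 h2 h3
    by_contra hne
    exact h2 hne (sub_eq_zero.2 (h1 h3))
  obtain ⟨O, hO1, hO2, hO3⟩ := _root_.mem_nhds_iff.1 (Filter.inter_mem hall ev3)
  have hOX : O ⊆ X := fun y hy => (hO1 hy).2
  have hpO : IsOpen (p '' O) := D.pop O hOX hO2
  have hsO : s ∈ p '' O := ⟨x, hO3, hxs⟩
  rw [accPt_iff_nhds] at hacc
  obtain ⟨s', ⟨⟨y, hy, hys⟩, hs'F⟩, hne⟩ := hacc (p '' O) (hpO.mem_nhds hsO)
  have h1 : g (p y) = p y := by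
    rw [hys]; exact hs'F
  have h2 : y = x := (hO1 hy).1 h1
  apply hne
  rw [← hys, h2, hxs]

end

end CV
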