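import Mathlib

/-!
FXa (convergence of almost fixed chains).
`conv_of_steps`: the set of cluster points of `s` is nonempty, contained in the finite set `{a | g a = a}` (first hypothesis and continuity).  If `s n` does not converge to the cluster point `a`: let `r > 0` be smaller than a third of the
distances of points of the finite set and such that `dist (s n) a ≥ r` infinitely often; `dist (s n) a < r / 2` infinitely often too; by the second hypothesis the sequence is infinitely often in the shell
`r / 2 ≤ dist · a ≤ r`, hence has a cluster point there: contradiction.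
-/

namespace CV

open Metric Set Filter Topology Function

theorem FXa_sep {S : Type} [MetricSpace S] {F : Set S} (hF : F.Finite) :
    ∃ r > 0, ∀ a ∈ F, ∀ b ∈ F, dist a b < 3 * r → a = b := by
  classical
  rcases (hF.toFinset.offDiag).eq_empty_or_nonempty with he | hne
  · refine ⟨1, one_pos, fun a ha b hb _ => ?_⟩
    by_contra hab
    have h1 : (a, b) ∈ hF.toFinset.offDiag :=
      Finset.mem_offDiag.2 ⟨hF.mem_toFinset.2 ha, hF.mem_toFinset.2 hb, hab⟩
    rw [he] at h1
    exact absurd h1 (Finset.notMem_empty _)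
  · obtain ⟨⟨x, y⟩, hxy, hmin⟩ := Finset.exists_min_image _ (fun q : S × S => dist q.1 q.2) hne
    have hne' : x ≠ y := (Finset.mem_offDiag.1 hxy).2.2
    have hpos : 0 < dist x y := dist_pos.2 hne'
    refine ⟨dist x y / 3, by positivity, fun a ha b hb hab => ?_⟩
    by_contra hab'
    have h1 : (a, b) ∈ hF.toFinset.offDiag :=
      Finset.mem_offDiag.2 ⟨hF.mem_toFinset.2 ha, hF.mem_toFinset.2 hb, hab'⟩
    have h2 := hmin (a, b) h1
    simp only at h2
    linarith

theorem FXa_near {S : Type} [MetricSpace S] [CompactSpace S] {g : S → S}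
    (hg : Continuous g) {s : ℕ → S}
    (h1 : Tendsto (fun n => dist (s n) (g (s n))) atTop (𝓝 0)) {ε : ℝ}
    (hε : 0 < ε) : ∀ᶠ n in atTop, ∃ a, g a = a ∧ dist (s n) a < ε := by
  have hK : IsCompact {x : S | ∀ a, g a = a → ε ≤ dist x a} := by
    apply IsClosed.isCompact
    have e : {x : S | ∀ a, g a = a → ε ≤ dist x a} =
        ⋂ a : {a // g a = a}, {x : S | ε ≤ dist x a} := by
      ext x
      simp only [mem_ofPred_eq, mem_iInter, Subtype.forall]
    rw [e]
    exact isClosed_iInter fun a => isClosed_le continuous_const (continuous_id.dist continuous_const)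
  have hc : ContinuousOn (fun x : S => dist x (g x)) {x : S | ∀ a, g a = a → ε ≤ dist x a} :=
    (continuous_id.dist hg).continuousOn
  have key : ∃ m > 0, ∀ x : S, (∀ a, g a = a → ε ≤ dist x a) → m ≤ dist x (g x) ∨ ε ≤ 0 := by
    rcases ({x : S | ∀ a, g a = a → ε ≤ dist x a}).eq_empty_or_nonempty with he | hne
    · refine ⟨1, one_pos, fun x hx => ?_⟩
      have h2 : x ∈ {x : S | ∀ a, g a = a → ε ≤ dist x a} := hx
      rw [he] at h2
      exact absurd h2 (notMem_empty x)
    · obtain ⟨y, hy, hmin⟩ := hK.exists_isMinOn hne hc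
      by_cases hgy : g y = y
      · refine ⟨1, one_pos, fun x _ => Or.inr ?_⟩
        have h3 := hy y hgy
        rwa [dist_self] at h3
      · refine ⟨dist y (g y), dist_pos.2 (Ne.symm hgy), fun x hx => Or.inl ?_⟩
        exact hmin hx
  obtain ⟨m, hm, hmin⟩ := key
  have h2 : ∀ᶠ n in atTop, dist (s n) (g (s n)) < m := h1.eventually (gt_mem_nhds hm)
  filter_upwards [h2] with n hn
  by_contra hcon
  push Not at hcon
  rcases hmin (s n) hcon with h3 | h3
  · linarith
  · linarith

theorem conv_of_steps {S : Type} [MetricSpace S] [CompactSpace S] {g : S → S}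
    (hg : Continuous g) (hfin : {s | g s = s}.Finite) {s : ℕ → S}
    (h1 : Tendsto (fun n => dist (s n) (g (s n))) atTop (𝓝 0))
    (h2 : Tendsto (fun n => dist (s n) (s (n + 1))) atTop (𝓝 0)) :
    ∃ a, g a = a ∧ Tendsto s atTop (𝓝 a) := by
  obtain ⟨r, hr, hsep⟩ := FXa_sep hfin
  have e1 := FXa_near hg h1 hr
  have e2 : ∀ᶠ n in atTop, dist (s n) (s (n + 1)) < r := h2.eventually (gt_mem_nhds hr)
  obtain ⟨N, hN⟩ := eventually_atTop.1 (e1.and e2)
  obtain ⟨a, ha, haN⟩ := (hN N le_rfl).1
  have hall : ∀ n, N ≤ n → dist (s n) a < r := by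
    intro n hn
    induction n, hn using Nat.le_induction with
    | base => exact haN
    | succ n hn ih =>
      obtain ⟨b, hb, hbn⟩ := (hN (n + 1) (by omega)).1
      have h3 := (hN n hn).2
      have h4 : a = b := by
        refine hsep a ha b hb ?_
        have t1 := dist_triangle a (s n) b
        have t2 := dist_triangle (s n) (s (n + 1)) b
        rw [dist_comm a (s n)] at t1
        linarith
      rw [h4]
      exact hbn
  refine ⟨a, ha, ?_⟩
  rw [Metric.tendsto_atTop]
  intro ε hε
  obtain ⟨M, hM⟩ := eventually_atTop.1 (FXa_near hg h1 (lt_min hε hr))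
  refine ⟨max N M, fun n hn => ?_⟩
  obtain ⟨b, hb, hbn⟩ := hM n ((le_max_right _ _).trans hn)
  have h3 := hall n ((le_max_left _ _).trans hn)
  have h4 : a = b := by
    refine hsep a ha b hb ?_
    have t1 := dist_triangle a (s n) b
    rw [dist_comm a (s n)] at t1
    have := min_le_right ε r
    linarith
  rw [h4]
  exact lt_of_lt_of_le hbn (min_le_left _ _)

end CV
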