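import Pool.Agent.H36.DG.LT
import Pool.Agent.H36.DG.AM
import Pool.Agent.H36.DG.FX
import Pool.Agent.H36.DG.FXa

/-!
PT (the arcs about a fixed prime end outside the limit set converge to a fixed point).  For `n ∈ ℕ` let `r_n = 2 ^ (-n) r_*`.  By `small_S` (with `ε → 0`) choose for all large `n` radii `s_n ∈ (r_n / 2, r_n)` such that
`diam_S (p (ψ (arc s_n))) → 0`, and angles `t_n`, `|t_n| < π / 4`, such that the segment `R_n = {ζ * (1 - LA_pt s t_n) | s ∈ (r_n / 4, r_n)}` has `diam_S (p (ψ R_n)) → 0`.  `R_n` meets the arcs `s_n` and `s_(n+1)`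
(`s_n, s_(n+1) ∈ (r_n / 4, r_n)`; `dist (ζ * (1 - LA_pt s t)) ζ = s`).  By `arc_meet` there is `z_n` in the arc `s_n` with `e.H z_n` in the arc `s_n`; `p (ψ (e.H z_n)) = p (G (ψ z_n)) = g (p (ψ z_n))`.
So `σ_n = p (ψ z_n)` satisfies `dist σ_n (g σ_n) → 0`, `dist σ_n σ_(n+1) → 0`: `σ_n → a`, `g a = a` (`conv_of_steps`, `fix_finite`).  Hence `p (ψ x) → a` uniformly for `x` in `T_n = arc s_n ∪ R_n`, `n → ∞`.
Let `p x₀ = a`, `x₀ ∈ X`, and `r` as in `Deck.loc` for `x₀`.  For `0 < r' ≤ r` the set `p '' ball x₀ r'` is an open neighbourhood of `a`, so for `n ≥ n(r')` `ψ '' T_n ⊆ p ⁻¹' (p '' ball x₀ r') ∩ X = ⋃ c, A c '' ball x₀ r'`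
(disjoint open sets: `Deck.loc`); `⋃_{n ≥ n(r')} T_n` is connected (arcs are connected, `arc_connected`; consecutive ones are joined by `R_n`), so `ψ` of it is contained in one `A c '' ball x₀ r'`.  For `r' = r` call the element `c`; for smaller `r'` the
element is the same, because `A c' '' ball x₀ r' ∩ A c '' ball x₀ r` is nonempty.  So `ψ (arc s_n) → P = A c x₀` (continuity of `A c`): `Principal ψ ζ P`.  `P ∈ X`.  `ψ z_n → P`, `ψ (e.H z_n) = G (ψ z_n) → P`, so `G P = P`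
(`G` continuous at `P`).  `P ∉ fil X U`: otherwise `v` is continuous at `P` and `z_n = v (ψ z_n) → v P ∈ ball 0 1`, but `z_n → ζ`.
-/

namespace CV

open Metric Set Filter Topology Function DS TN MeasureTheory

section
variable {S : Type} [MetricSpace S] [CompactSpace S] {X : Set ℂ} {Γ : Type} [Group Γ]
  {A : Γ → ℂ → ℂ} {p : ℂ → S} {g gi : S → S} {G Gi : ℂ → ℂ} {θ : Γ ≃* Γ} {ρ : ℂ → ℝ}
  {U : Set ℂ} {N : Subgroup Γ} {ψ v : ℂ → ℂ} {F : Fuchs N} {Hyp : S → Prop}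

private theorem PT_norm {ζ : ℂ} (hζ : ‖ζ‖ = 1) {s t : ℝ} (hs : 0 < s) (hs1 : s < 1)
    (ht : |t| < Real.pi / 4) :
    ζ * (1 - LA_pt s t) ∈ ball (0:ℂ) 1 ∧ dist (ζ * (1 - LA_pt s t)) ζ = s := by
  have h0 : ‖LA_pt s t‖ = s := by
    rw [LA_pt_eq, norm_mul, Complex.norm_exp_ofReal_mul_I, mul_one, Complex.norm_real,
      Real.norm_of_nonneg hs.le]
  constructor
  · have hc : s / 2 < Real.cos t := by
      have h1 : Real.cos (Real.pi / 4) ≤ Real.cos |t| :=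
        Real.cos_le_cos_of_nonneg_of_le_pi (abs_nonneg t) (by linarith [Real.pi_pos]) ht.le
      rw [Real.cos_abs, Real.cos_pi_div_four] at h1
      have h2 : 1 < √2 := by
        rw [Real.lt_sqrt (by norm_num)]
        norm_num
      linarith
    have h2 := (LA_lens (t := t) hs).2 hc
    rw [mem_ball, dist_eq_norm] at h2
    rw [mem_ball_zero_iff, norm_mul, hζ, one_mul, norm_sub_rev]
    exact h2
  · have h1 : ζ * (1 - LA_pt s t) - ζ = -(ζ * LA_pt s t) := by ring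
    rw [dist_eq_norm, h1, norm_neg, norm_mul, hζ, one_mul, h0]

private theorem PT_seq {Q : ℕ → ℝ → Prop} (hm : ∀ n ε ε', ε ≤ ε' → Q n ε → Q n ε')
    (h1 : ∀ n, Q n 1) (h : ∀ ε > 0, ∃ n₀, ∀ n ≥ n₀, Q n ε) :
    ∃ e : ℕ → ℝ, Tendsto e atTop (𝓝 0) ∧ ∀ n, Q n (e n) := by
  set e : ℕ → ℝ := fun n => sInf {ε | 0 < ε ∧ Q n ε} + 1 / (n + 1) with he
  have hbd : ∀ n, BddBelow {ε | 0 < ε ∧ Q n ε} := fun n => ⟨0, fun ε hε => hε.1.le⟩
  have hne : ∀ n, {ε | 0 < ε ∧ Q n ε}.Nonempty := fun n => ⟨1, one_pos, h1 n⟩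
  have h0 : ∀ n, 0 ≤ sInf {ε | 0 < ε ∧ Q n ε} := fun n =>
    le_csInf (hne n) fun ε hε => hε.1.le
  refine ⟨e, ?_, ?_⟩
  · have h2 : Tendsto (fun n : ℕ => sInf {ε | 0 < ε ∧ Q n ε}) atTop (𝓝 0) := by
      rw [Metric.tendsto_atTop]
      intro ε hε
      obtain ⟨n₀, hn₀⟩ := h (ε / 2) (half_pos hε)
      refine ⟨n₀, fun n hn => ?_⟩
      have h3 : sInf {ε | 0 < ε ∧ Q n ε} ≤ ε / 2 := csInf_le (hbd n) ⟨half_pos hε, hn₀ n hn⟩
      rw [Real.dist_eq, sub_zero, abs_of_nonneg (h0 n)]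
      linarith
    have h3 := h2.add (tendsto_one_div_add_atTop_nhds_zero_nat (𝕜 := ℝ))
    simpa [he] using h3
  · intro n
    have hpos : (0:ℝ) < 1 / (n + 1) := by positivity
    obtain ⟨ε, hε, hlt⟩ := exists_lt_of_csInf_lt (hne n)
      (show sInf {ε | 0 < ε ∧ Q n ε} < e n by simp only [he]; linarith)
    exact hm n ε (e n) hlt.le hε.2

private theorem PT_conn {ζ : ℂ} (hζ : ‖ζ‖ = 1) {r s t : ℕ → ℝ} (hr1 : ∀ n, r n < 1)
    (hr : ∀ n, 0 < r n) (hrs : ∀ n, r (n + 1) = r n / 2) (hs1 : ∀ n, r n / 2 < s n)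
    (hs2 : ∀ n, s n < r n) (ht : ∀ n, |t n| < Real.pi / 4) (m : ℕ) :
    IsPreconnected (⋃ n : ℕ, ({z : ℂ | ‖z‖ < 1 ∧ dist z ζ = s (m + n)} ∪
      (fun x : ℝ => ζ * (1 - LA_pt x (t (m + n)))) '' Ioo (r (m + n) / 4) (r (m + n)))) := by
  have hs0 : ∀ n, 0 < s n := fun n => by have := hr n; have := hs1 n; linarith
  apply IsPreconnected.iUnion_of_chain
  · intro n
    have hk := hr (m + n)
    have h1 := hs1 (m + n)
    have h2 := hs2 (m + n)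
    have h3 := hr1 (m + n)
    have hc1 : IsPreconnected {z : ℂ | ‖z‖ < 1 ∧ dist z ζ = s (m + n)} :=
      (arc_connected hζ (hs0 _) (by linarith)).isPreconnected
    have hc2 : IsPreconnected ((fun x : ℝ => ζ * (1 - LA_pt x (t (m + n)))) ''
        Ioo (r (m + n) / 4) (r (m + n))) := by
      apply isPreconnected_Ioo.image
      apply Continuous.continuousOn
      unfold LA_pt
      fun_prop
    have hp := PT_norm hζ (hs0 (m + n)) (by linarith) (ht (m + n))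
    refine hc1.union (ζ * (1 - LA_pt (s (m + n)) (t (m + n)))) ?_ ?_ hc2
    · exact ⟨mem_ball_zero_iff.1 hp.1, hp.2⟩
    · exact ⟨s (m + n), ⟨by linarith, h2⟩, rfl⟩
  · intro n
    have hk := hr (m + n)
    have h1 := hs1 (m + n)
    have h2 := hs2 (m + n)
    have h3 := hr1 (m + n)
    have h4 := hs1 (m + n + 1)
    have h5 := hs2 (m + n + 1)
    rw [hrs (m + n)] at h4 h5
    have hp := PT_norm hζ (hs0 (m + n + 1)) (by linarith) (ht (m + n))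
    refine ⟨ζ * (1 - LA_pt (s (m + n + 1)) (t (m + n))), Or.inr ?_, Or.inl ?_⟩
    · exact ⟨s (m + n + 1), ⟨by linarith, by linarith⟩, rfl⟩
    · exact ⟨mem_ball_zero_iff.1 hp.1, hp.2⟩

theorem arcs_to_pt (D : Deck X A p) (L : Lift X A p g gi G Gi θ ρ)
    (C : Cond X A p g gi G Hyp) (M : Dom X A p g G U N) (R : Riem (fil X U) ψ v)
    (hF : Act A ψ v F) {e : Elt N} (he : Norm F e)
    (heH : ∀ z ∈ ball (0:ℂ) 1, e.H z = v (G (ψ z))) {ζ : ℂ} (hζ : ‖ζ‖ = 1)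
    (h : ζ ∉ F.lim) (hf : e.H ζ = ζ) :
    ∃ P ∈ X, G P = P ∧ P ∉ fil X U ∧ Principal ψ ζ P := by
  obtain ⟨ra, hra0, hra⟩ := arc_meet D L M R hF he heH hζ h hf
  obtain ⟨rb, hrb0, hrb1, hrb⟩ := small_S D L M R hF hζ h one_pos
  set r₀ : ℝ := min ra rb / 2 with hr₀
  have hr₀0 : 0 < r₀ := by rw [hr₀]; exact half_pos (lt_min hra0 hrb0)
  have hr₀a : r₀ < ra := by
    rw [hr₀]; have := min_le_left ra rb; have := lt_min hra0 hrb0; linarith
  have hr₀b : r₀ < rb := by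
    rw [hr₀]; have := min_le_right ra rb; have := lt_min hra0 hrb0; linarith
  set r : ℕ → ℝ := fun n => r₀ * (1 / 2) ^ n with hr
  have hr0 : ∀ n, 0 < r n := fun n => by simp only [hr]; positivity
  have hrs : ∀ n, r (n + 1) = r n / 2 := fun n => by simp only [hr]; ring
  have hrle : ∀ n, r n ≤ r₀ := fun n => by
    simp only [hr]
    exact mul_le_of_le_one_right hr₀0.le (pow_le_one₀ (by norm_num) (by norm_num))
  have hrt : Tendsto r atTop (𝓝 0) := by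
    have := (tendsto_pow_atTop_nhds_zero_of_lt_one (r := (1 / 2 : ℝ)) (by norm_num)
      (by norm_num)).const_mul r₀
    simpa [hr] using this
  obtain ⟨ε, hε0, hQ⟩ := PT_seq (Q := fun n ε =>
      (∃ s, r n / 2 < s ∧ s < r n ∧ ∀ z ∈ ball (0:ℂ) 1, ∀ w ∈ ball (0:ℂ) 1, dist z ζ = s →
        dist w ζ = s → dist (p (ψ z)) (p (ψ w)) < ε) ∧
      ∃ t, |t| < Real.pi / 4 ∧ ∀ s ∈ Ioo (r n / 4) (r n), ∀ s' ∈ Ioo (r n / 4) (r n),
        dist (p (ψ (ζ * (1 - LA_pt s t)))) (p (ψ (ζ * (1 - LA_pt s' t)))) < ε)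
    (by
      rintro n ε ε' hle ⟨⟨s, h1, h2, h3⟩, t, h4, h5⟩
      exact ⟨⟨s, h1, h2, fun z hz w hw hzs hws => (h3 z hz w hw hzs hws).trans_le hle⟩, t, h4,
        fun s hs s' hs' => (h5 s hs s' hs').trans_le hle⟩)
    (fun n => hrb (r n) (hr0 n) ((hrle n).trans_lt hr₀b))
    (by
      intro ε hε
      obtain ⟨rc, hrc0, -, hrc⟩ := small_S D L M R hF hζ h hε
      obtain ⟨n₀, hn₀⟩ := Filter.eventually_atTop.1 (hrt.eventually (gt_mem_nhds hrc0))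
      exact ⟨n₀, fun n hn => hrc (r n) (hr0 n) (hn₀ n hn)⟩)
  choose hQ1 hQ2 using hQ
  choose s hs1 hs2 hs3 using hQ1
  choose t ht1 ht2 using hQ2
  have hs0 : ∀ n, 0 < s n := fun n => by have := hr0 n; have := hs1 n; linarith
  have hrlt1 : ∀ n, r n < 1 := fun n => (hrle n).trans_lt (hr₀b.trans hrb1)
  have hslt1 : ∀ n, s n < 1 := fun n => (hs2 n).trans (hrlt1 n)
  have hz : ∀ n, ∃ z ∈ ball (0:ℂ) 1, dist z ζ = s n ∧ dist (e.H z) ζ = s n := fun n =>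
    hra (s n) (hs0 n) ((hs2 n).trans ((hrle n).trans_lt hr₀a))
  choose z hzb hzs hHz using hz
  have hst : Tendsto s atTop (𝓝 0) :=
    squeeze_zero (fun n => (hs0 n).le) (fun n => (hs2 n).le) hrt
  -- the images
  have hψW : ∀ x ∈ ball (0:ℂ) 1, ψ x ∈ fil X U := R.mψ
  have hψX : ∀ x ∈ ball (0:ℂ) 1, ψ x ∈ X := fun x hx => fil_sub (hψW x hx)
  have hGW : ∀ x ∈ ball (0:ℂ) 1, G (ψ x) ∈ fil X U := fun x hx => by
    rw [← fil_G D L M]
    exact ⟨_, hψW x hx, rfl⟩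
  have hHb : ∀ n, e.H (z n) ∈ ball (0:ℂ) 1 := fun n => he.mapB (hzb n)
  have hψH : ∀ n, ψ (e.H (z n)) = G (ψ (z n)) := fun n => by
    rw [heH _ (hzb n), R.ψv _ (hGW _ (hzb n))]
  have hgσ : ∀ n, p (ψ (e.H (z n))) = g (p (ψ (z n))) := fun n => by
    rw [hψH, L.lift _ (hψX _ (hzb n))]
  have hy : ∀ n, ζ * (1 - LA_pt (s n) (t n)) ∈ ball (0:ℂ) 1 ∧
      dist (ζ * (1 - LA_pt (s n) (t n))) ζ = s n := fun n =>
    PT_norm hζ (hs0 n) (hslt1 n) (ht1 n)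
  have hy' : ∀ n, ζ * (1 - LA_pt (s (n + 1)) (t n)) ∈ ball (0:ℂ) 1 ∧
      dist (ζ * (1 - LA_pt (s (n + 1)) (t n))) ζ = s (n + 1) := fun n =>
    PT_norm hζ (hs0 (n + 1)) (hslt1 (n + 1)) (ht1 n)
  have hm1 : ∀ n, s n ∈ Ioo (r n / 4) (r n) := fun n =>
    ⟨by have := hr0 n; have := hs1 n; linarith, hs2 n⟩
  have hm2 : ∀ n, s (n + 1) ∈ Ioo (r n / 4) (r n) := fun n => by
    have h1 := hs1 (n + 1)
    have h2 := hs2 (n + 1)
    have h3 := hr0 n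
    rw [hrs] at h1 h2
    exact ⟨by linarith, by linarith⟩
  have hd1 : ∀ n, dist (p (ψ (z n))) (g (p (ψ (z n)))) ≤ ε n := fun n => by
    rw [← hgσ]
    exact (hs3 n _ (hzb n) _ (hHb n) (hzs n) (hHz n)).le
  have hd2 : ∀ n, dist (p (ψ (z n))) (p (ψ (z (n + 1)))) ≤ ε n + ε n + ε (n + 1) := fun n => by
    have h1 := hs3 n _ (hzb n) _ (hy n).1 (hzs n) (hy n).2
    have h2 := ht2 n _ (hm1 n) _ (hm2 n)
    have h3 := hs3 (n + 1) _ (hy' n).1 _ (hzb (n + 1)) (hy' n).2 (hzs (n + 1))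
    have h4 := dist_triangle4 (p (ψ (z n))) (p (ψ (ζ * (1 - LA_pt (s n) (t n)))))
      (p (ψ (ζ * (1 - LA_pt (s (n + 1)) (t n))))) (p (ψ (z (n + 1))))
    linarith
  obtain ⟨a, hga, hσa⟩ := conv_of_steps L.cg (fix_finite D L C) (s := fun n => p (ψ (z n)))
    (squeeze_zero (fun n => dist_nonneg) hd1 hε0)
    (squeeze_zero (fun n => dist_nonneg) hd2 (by
      have := (hε0.add hε0).add ((tendsto_add_atTop_iff_nat 1).2 hε0)
      simpa using this))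
  obtain ⟨x₀, hx₀, hpx₀⟩ := D.ps a
  obtain ⟨l, hl0, hlX, hl⟩ := D.loc hx₀
  set T : ℕ → Set ℂ := fun n => {z : ℂ | ‖z‖ < 1 ∧ dist z ζ = s n} ∪
      (fun x : ℝ => ζ * (1 - LA_pt x (t n))) '' Ioo (r n / 4) (r n) with hT
  have hTb : ∀ n, T n ⊆ ball (0:ℂ) 1 := by
    rintro n x (hx | ⟨y, hy, rfl⟩)
    · exact mem_ball_zero_iff.2 hx.1
    · have := hr0 n
      exact (PT_norm hζ (by linarith [hy.1]) (hy.2.trans (hrlt1 n)) (ht1 n)).1
  have hTd : ∀ n, ∀ x ∈ T n, dist (p (ψ x)) (p (ψ (z n))) ≤ ε n + ε n := by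
    rintro n x (hx | ⟨y, hy', rfl⟩)
    · have h1 := hs3 n _ (mem_ball_zero_iff.2 hx.1) _ (hzb n) hx.2 (hzs n)
      have h2 : 0 ≤ ε n := dist_nonneg.trans h1.le
      linarith
    · have h1 := ht2 n _ hy' _ (hm1 n)
      have h2 := hs3 n _ (hy n).1 _ (hzb n) (hy n).2 (hzs n)
      have h3 := dist_triangle (p (ψ (ζ * (1 - LA_pt y (t n)))))
        (p (ψ (ζ * (1 - LA_pt (s n) (t n))))) (p (ψ (z n)))
      show dist (p (ψ (ζ * (1 - LA_pt y (t n))))) (p (ψ (z n))) ≤ ε n + ε n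
      linarith
  -- uniform convergence in `S`
  have hunif : ∀ O : Set S, IsOpen O → a ∈ O → ∃ m, ∀ n ≥ m, ∀ x ∈ T n, p (ψ x) ∈ O := by
    intro O hO haO
    obtain ⟨δ, hδ, hδO⟩ := Metric.isOpen_iff.1 hO a haO
    have h1 : Tendsto (fun n => ε n + ε n + dist (p (ψ (z n))) a) atTop (𝓝 0) := by
      have := (hε0.add hε0).add (tendsto_iff_dist_tendsto_zero.1 hσa)
      simpa using this
    obtain ⟨m, hm⟩ := Filter.eventually_atTop.1 (h1.eventually (gt_mem_nhds hδ))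
    refine ⟨m, fun n hn x hx => hδO ?_⟩
    rw [mem_ball]
    have h2 := dist_triangle (p (ψ x)) (p (ψ (z n))) a
    have h3 := hTd n x hx
    have h4 := hm n hn
    linarith
  have hball : ∀ l', 0 < l' → l' ≤ l → ∃ m, ∀ n ≥ m, ∀ x ∈ T n, p (ψ x) ∈ p '' ball x₀ l' := by
    intro l' h1 h2
    exact hunif _ (D.pop _ ((ball_subset_ball h2).trans hlX) isOpen_ball)
      ⟨x₀, mem_ball_self h1, hpx₀⟩
  obtain ⟨m, hm⟩ := hball l hl0 le_rfl
  -- one sheet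
  have hAo : ∀ c, IsOpen (A c '' ball x₀ l) := by
    intro c
    have h1 : A c '' ball x₀ l = X ∩ A c⁻¹ ⁻¹' ball x₀ l := by
      ext x
      constructor
      · rintro ⟨y, hy, rfl⟩
        refine ⟨D.maps c (hlX hy), ?_⟩
        show A c⁻¹ (A c y) ∈ ball x₀ l
        rw [D.inv_left c (hlX hy)]
        exact hy
      · rintro ⟨hx, hxU⟩
        exact ⟨A c⁻¹ x, hxU, D.inv_right c hx⟩
    rw [h1]
    exact (D.cont c⁻¹).isOpen_inter_preimage D.opn isOpen_ball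
  have hsheet : ∀ x ∈ X, p x ∈ p '' ball x₀ l → ∃ c, x ∈ A c '' ball x₀ l := by
    rintro x hx ⟨y, hy, hyx⟩
    obtain ⟨c, hc⟩ := (D.fib y (hlX hy) x hx).1 hyx
    exact ⟨c, y, hy, hc⟩
  have huniq : ∀ c c', ∀ y ∈ ball x₀ l, ∀ y' ∈ ball x₀ l, A c y = A c' y' → c = c' := by
    intro c c' y hy y' hy' hcc
    by_contra hne
    have h1 : c'⁻¹ * c ≠ 1 := fun h2 => hne (inv_mul_eq_one.1 h2).symm
    refine disjoint_left.1 (hl _ h1) ⟨y, hy, rfl⟩ ?_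
    rw [D.mul _ _ _ (hlX hy), hcc, D.inv_left _ (hlX hy')]
    exact hy'
  have hYc : IsPreconnected (⋃ n : ℕ, T (m + n)) := PT_conn hζ hrlt1 hr0 hrs hs1 hs2 ht1 m
  have hYb : (⋃ n : ℕ, T (m + n)) ⊆ ball (0:ℂ) 1 := iUnion_subset fun n => hTb (m + n)
  have hψY : IsPreconnected (ψ '' ⋃ n : ℕ, T (m + n)) :=
    hYc.image ψ (R.dψ.continuousOn.mono hYb)
  have hzT : ∀ n, z n ∈ T n := fun n => Or.inl ⟨mem_ball_zero_iff.1 (hzb n), hzs n⟩
  have hHT : ∀ n, e.H (z n) ∈ T n := fun n => Or.inl ⟨mem_ball_zero_iff.1 (hHb n), hHz n⟩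
  obtain ⟨c, hc⟩ := hsheet _ (hψX _ (hzb m)) (hm m le_rfl _ (hzT m))
  have hsub : (ψ '' ⋃ n : ℕ, T (m + n)) ⊆ A c '' ball x₀ l := by
    refine hψY.subset_left_of_subset_union (v := ⋃ c' ∈ {c' | c' ≠ c}, A c' '' ball x₀ l)
      (hAo c) (isOpen_biUnion fun c' _ => hAo c') ?_ ?_ ?_
    · rw [disjoint_left]
      rintro x ⟨y, hy, rfl⟩ hx
      simp only [mem_iUnion] at hx
      obtain ⟨c', hc', y', hy', hx⟩ := hx
      exact hc' (huniq c' c y' hy' y hy hx)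
    · rintro _ ⟨x, hx, rfl⟩
      obtain ⟨n, hn⟩ := mem_iUnion.1 hx
      obtain ⟨c', hc'⟩ := hsheet _ (hψX _ (hTb _ hn)) (hm (m + n) (Nat.le_add_right _ _) _ hn)
      by_cases hcc : c' = c
      · left
        rw [← hcc]
        exact hc'
      · right
        exact mem_biUnion (show c' ∈ {c' | c' ≠ c} from hcc) hc'
    · exact ⟨ψ (z m), ⟨z m, mem_iUnion.2 ⟨0, hzT m⟩, rfl⟩, hc⟩
  have hPX : A c x₀ ∈ X := D.maps c hx₀
  -- uniform convergence in `X`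
  have hconv : ∀ δ > 0, ∃ k, ∀ n ≥ k, ∀ x ∈ T n, dist (ψ x) (A c x₀) < δ := by
    intro δ hδ
    have hcA : ContinuousAt (A c) x₀ := (D.cont c).continuousAt (D.opn.mem_nhds hx₀)
    obtain ⟨l₁, hl₁, hl₁'⟩ := Metric.continuousAt_iff.1 hcA δ hδ
    obtain ⟨k, hk⟩ := hball (min l₁ l) (lt_min hl₁ hl0) (min_le_right _ _)
    refine ⟨max k m, fun n hn x hx => ?_⟩
    have hkn : k ≤ n := (le_max_left _ _).trans hn
    have hmn : m ≤ n := (le_max_right _ _).trans hn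
    obtain ⟨y, hy, hyx⟩ := hk n hkn x hx
    have hy1 : y ∈ ball x₀ l := ball_subset_ball (min_le_right _ _) hy
    have hy2 : dist y x₀ < l₁ := lt_of_lt_of_le (mem_ball.1 hy) (min_le_left _ _)
    have hxb := hTb n hx
    obtain ⟨c', hc'⟩ := (D.fib y (hlX hy1) _ (hψX _ hxb)).1 hyx
    obtain ⟨y', hy', hyy⟩ := hsub ⟨x, mem_iUnion.2 ⟨n - m, by
      rw [Nat.add_sub_cancel' hmn]; exact hx⟩, rfl⟩
    have hcc : c' = c := huniq c' c y hy1 y' hy' (by rw [hc', hyy])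
    rw [← hc', hcc]
    exact hl₁' hy2
  have hlim1 : Tendsto (fun n => ψ (z n)) atTop (𝓝 (A c x₀)) := by
    rw [Metric.tendsto_atTop]
    intro δ hδ
    obtain ⟨k, hk⟩ := hconv δ hδ
    exact ⟨k, fun n hn => hk n hn _ (hzT n)⟩
  have hlim2 : Tendsto (fun n => G (ψ (z n))) atTop (𝓝 (A c x₀)) := by
    rw [Metric.tendsto_atTop]
    intro δ hδ
    obtain ⟨k, hk⟩ := hconv δ hδ
    refine ⟨k, fun n hn => ?_⟩
    rw [← hψH]
    exact hk n hn _ (hHT n)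
  refine ⟨A c x₀, hPX, ?_, ?_, ?_⟩
  · have hGc : ContinuousAt G (A c x₀) := L.c1.continuousOn.continuousAt (D.opn.mem_nhds hPX)
    exact tendsto_nhds_unique (hGc.tendsto.comp hlim1) hlim2
  · intro hPW
    have hvc : ContinuousAt v (A c x₀) :=
      R.dv.continuousOn.continuousAt ((fil_open D M).mem_nhds hPW)
    have h1 : Tendsto (fun n => v (ψ (z n))) atTop (𝓝 (v (A c x₀))) := hvc.tendsto.comp hlim1
    have h2 : Tendsto z atTop (𝓝 ζ) := by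
      rw [tendsto_iff_dist_tendsto_zero]
      simp only [hzs]
      exact hst
    have h3 : v (A c x₀) = ζ := by
      refine tendsto_nhds_unique h1 (h2.congr fun n => ?_)
      rw [R.vψ _ (hzb n)]
    have h4 := R.mv hPW
    rw [h3, mem_ball_zero_iff, hζ] at h4
    exact lt_irrefl _ h4
  · intro δ hδ
    obtain ⟨k, hk⟩ := hconv δ hδ
    obtain ⟨k', hk'⟩ := Filter.eventually_atTop.1 (hst.eventually (gt_mem_nhds hδ))
    refine ⟨s (max k k'), hs0 _, hk' _ (le_max_right _ _), fun x hx hxs => ?_⟩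
    exact hk _ (le_max_left _ _) x (Or.inl ⟨mem_ball_zero_iff.1 hx, hxs⟩)

end

end CV
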