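import Pool.Agent.H36.DG.HE
import Pool.Agent.H36.DG.PT

/-!
FLa (`fl_loc`).  For `m > 0`, `e.H^[m] ζ = ζ`: `e' = e.iter (m - 1)` (TN/FN: `Elt.iter_H`, `Norm.iter`) has `Norm F e'`, `e'.H = e.H^[m]`, `e'.H z = v (G^[m] (ψ z))` on the disc (induction; `fil_maps`, `Riem`); with `Lift.pow`, `Cond.pow`, `Dom.pow`
`arcs_to_pt` gives `P ∈ X`, `G^[m] P = P`, `P ∉ W = fil X U`, `Principal ψ ζ P`, so `Principal (q ∘ ψ) ζ (q P)` (`q` continuous: for `ε` take `δ` with `dist w P < δ → dist (q w) (q P) < ε` and apply `Principal ψ ζ P` with `min ε δ`), `q P ∉ q '' W` (`q` injective).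
`Cond.one` for the power: `ell_end` or `hyp_end` (`V = X`, `P' = O ∈ (q '' W)ᶜ`, `j = q`, `hKc`: a connected `T ⊆ X \ U` with a point not in `W` has no point in `W`, `fil_pre` in CV/TB) for `gs^[m]` (`gs^[m] (q z) = q (G^[m] z)` for `z ∈ X`, induction); `spx_pow` to
replace `SPS X p (g^[m]) Hyp q` by `SPS X p g Hyp q`, `(gs^[m])^[2] = gs^[2 * m]` (`Function.iterate_mul`).
-/

namespace CV

open Metric Set Filter Topology Function DS TN MeasureTheory

section
variable {S : Type} [MetricSpace S] [CompactSpace S] {X : Set ℂ} {Γ : Type} [Group Γ]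
  {A : Γ → ℂ → ℂ} {p : ℂ → S} {g gi : S → S} {G Gi : ℂ → ℂ} {θ : Γ ≃* Γ} {ρ : ℂ → ℝ}
  {Hyp : S → Prop} {U : Set ℂ} {N : Subgroup Γ} {ψ v : ℂ → ℂ} {F : Fuchs N}

/-- the local data at a fixed prime end outside the limit set -/
theorem fl_loc (D : Deck X A p) (L : Lift X A p g gi G Gi θ ρ) (C : Cond X A p g gi G Hyp)
    (M : Dom X A p g G U N) (R : Riem (fil X U) ψ v) (hF : Act A ψ v F) {e : Elt N}
    (he : Norm F e) (heH : ∀ z ∈ ball (0:ℂ) 1, e.H z = v (G (ψ z)))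
    {O : S2} {pp : S2 → ℂ} {q : ℂ → S2} (hS : SC O pp q) {gs : S2 → S2}
    (hgs : ∀ z ∈ X, gs (q z) = q (G z)) {ζ : ℂ} (hζ : ‖ζ‖ = 1) (hζl : ζ ∉ F.lim) {m : ℕ}
    (hm : 0 < m) (hf : e.H^[m] ζ = ζ) :
    ∃ P ∈ (q '' fil X U)ᶜ, Principal (fun z => q (ψ z)) ζ P ∧ (EllPt (q '' fil X U)ᶜ (gs^[m]) P ∨
      ∃ (P' : S2) (χ : S2 → ℂ) (κ : ℂ → S2) (r lp km kp : ℝ),
        HypChart (q '' fil X U)ᶜ (SPS X p g Hyp q) (gs^[2 * m]) P P' χ κ r lp km kp) := by
  have he' : Norm F (e.iter (m - 1)) := he.iter (m - 1)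
  have hH' : (e.iter (m - 1)).H = e.H^[m] := by
    rw [Elt.iter_H, Nat.sub_add_cancel hm]
  have hfm := (fil_maps D L M).1
  have hit : ∀ k : ℕ, ∀ x ∈ fil X U, G^[k] x ∈ fil X U := by
    intro k
    induction k with
    | zero => intro x hx; exact hx
    | succ k ih =>
      intro x hx
      rw [Function.iterate_succ_apply']
      exact hfm (ih x hx)
  have hk : ∀ k : ℕ, ∀ z ∈ ball (0:ℂ) 1, e.H^[k] z = v (G^[k] (ψ z)) := by
    intro k
    induction k with
    | zero => intro z hz; exact (R.vψ z hz).symm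
    | succ k ih =>
      intro z hz
      have h1 : G^[k] (ψ z) ∈ fil X U := hit k _ (R.mψ hz)
      rw [Function.iterate_succ_apply', Function.iterate_succ_apply', ih z hz,
        heH _ (R.mv h1), R.ψv _ h1]
  have heH' : ∀ z ∈ ball (0:ℂ) 1, (e.iter (m - 1)).H z = v (G^[m] (ψ z)) := by
    intro z hz
    rw [hH']
    exact hk m z hz
  obtain ⟨θn, -, L'⟩ := L.pow D m
  have C' : Cond X A p (g^[m]) (gi^[m]) (G^[m]) Hyp := C.pow D L hm
  have M' : Dom X A p (g^[m]) (G^[m]) U N := M.pow L.cg hm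
  obtain ⟨P, hPX, hGP, hPf, hPr⟩ := arcs_to_pt D L' C' M' R hF he' heH' hζ hζl
    (by rw [hH']; exact hf)
  have hqi : Injective q := fun a b h => by rw [← hS.pq a, h, hS.pq b]
  have hqK : ∀ x, q x ∈ (q '' fil X U)ᶜ ↔ x ∉ fil X U := by
    intro x
    rw [mem_compl_iff, hqi.mem_set_image]
  have hOK : O ∈ (q '' fil X U)ᶜ := by
    rintro ⟨x, -, hx⟩
    exact hS.q_ne x hx
  have hgs' : ∀ z ∈ X, gs^[m] (q z) = q (G^[m] z) := by
    have h1 : ∀ k : ℕ, ∀ z ∈ X, gs^[k] (q z) = q (G^[k] z) := by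
      intro k
      induction k with
      | zero => intro z _; rfl
      | succ k ih =>
        intro z hz
        rw [Function.iterate_succ_apply, Function.iterate_succ_apply, hgs z hz]
        exact ih (G z) (L.mG hz)
    exact h1 m
  refine ⟨q P, (hqK P).2 hPf, ?_, ?_⟩
  · intro ε hε
    have hqc : ContinuousAt q P := hS.q_smooth.continuous.continuousAt
    obtain ⟨δ, hδ, h1⟩ := Metric.continuousAt_iff.1 hqc ε hε
    obtain ⟨s, hs0, hs1, hs2⟩ := hPr (min ε δ) (lt_min hε hδ)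
    exact ⟨s, hs0, hs1.trans_le (min_le_left _ _), fun z hz hzs =>
      h1 ((hs2 z hz hzs).trans_le (min_le_right _ _))⟩
  · rcases (Cond.one D L' C' hPX hGP).2 with htr | ⟨hH, htr⟩
    · exact Or.inl (ell_end D L' C' hS hOK hPX hGP ((hqK P).2 hPf) (hS.q_ne P) D.opn hPX
        Subset.rfl hgs' htr)
    · refine Or.inr ⟨O, ?_⟩
      have h1 := hyp_end D L' C' M' hS hOK hPX hGP ((hqK P).2 hPf) (hS.q_ne P)
        (fun T hT hTc x hx hxK y hy => (hqK y).2 fun hyf =>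
          (hqK x).1 hxK ((fil_pre hTc hT hy hyf).2.2 hx))
        D.opn hPX Subset.rfl hgs' (j := q) (fun z _ => rfl) hqi.injOn hH htr
      have h2 : SPS X p (g^[m]) Hyp q = SPS X p g Hyp q := by
        funext s
        simp only [SPS, spx_pow L.cg hm]
      have h3 : (gs^[m])^[2] = gs^[2 * m] := by
        rw [Nat.mul_comm, Function.iterate_mul]
      rw [h2, h3] at h1
      exact h1

end

end CV
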