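import Pool.Agent.H36.DS.Base

/-!
FMa (a `DiscMap` composed with a homeomorphism of a compact metric space is a `DiscMap`).  `T` and `Ti` are uniformly continuous (`CompactSpace.uniformContinuous_of_continuous`).  `φ_maps`, `u_cont`, ...: `(T '' K)ᶜ = Ti ⁻¹' Kᶜ`.
L0: for `ε` let `δ` be from `H.L0`; `δ'` such that `dist x y < δ'` implies `dist (Ti x) (Ti y) < δ`.  L1: for `ε` let `ε' ≤ ε` be such that `dist x y < ε'` implies `dist (T x) (T y) < ε`; apply `H.L1` with `ε'`.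
-/

namespace CV

open Metric Set Filter Topology Function DS

theorem discMap_homeo {X : Type*} [MetricSpace X] [CompactSpace X] {K : Set X} {φ : ℂ → X}
    {u : X → ℂ} (H : DiscMap K φ u) {T Ti : X → X} (hT : Continuous T) (hTi : Continuous Ti)
    (h1 : ∀ x, Ti (T x) = x) (h2 : ∀ x, T (Ti x) = x) :
    DiscMap (T '' K) (fun z => T (φ z)) (fun x => u (Ti x)) := by
  have hTu := CompactSpace.uniformContinuous_of_continuous hT
  have hTiu := CompactSpace.uniformContinuous_of_continuous hTi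
  have hK : ∀ x, x ∈ (T '' K)ᶜ ↔ Ti x ∈ Kᶜ := by
    intro x
    simp only [mem_compl_iff, mem_image, not_iff_not]
    constructor
    · rintro ⟨y, hy, rfl⟩; rwa [h1]
    · intro h; exact ⟨Ti x, h, h2 x⟩
  refine ⟨hT.comp_continuousOn H.φ_cont, ?_, ?_, ?_, ?_, ?_, ?_, ?_⟩
  · intro z hz
    rw [hK]
    simp only [h1]
    exact H.φ_maps hz
  · exact H.u_cont.comp hTi.continuousOn fun x hx => (hK x).1 hx
  · intro x hx
    exact H.u_maps ((hK x).1 hx)
  · intro z hz
    simp only [h1]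
    exact H.uφ z hz
  · intro x hx
    rw [H.φu _ ((hK x).1 hx), h2]
  · intro ε hε
    obtain ⟨δ, hδ, hL⟩ := H.L0 ε hε
    obtain ⟨δ', hδ', hu⟩ := Metric.uniformContinuous_iff.1 hTiu δ hδ
    refine ⟨δ', hδ', fun γ hγ hγc hd => hL γ hγ hγc fun z hz w hw => ?_⟩
    have := hu (hd z hz w hw)
    simpa only [h1] using this
  · intro ζ hζ ε hε
    obtain ⟨δ, hδ, hu⟩ := Metric.uniformContinuous_iff.1 hTu ε hε
    obtain ⟨ρ, hρ, hρ', hL⟩ := H.L1 ζ hζ (min ε δ) (lt_min hε hδ)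
    refine ⟨ρ, hρ, hρ'.trans_le (min_le_left _ _), fun z hz w hw h3 h4 => ?_⟩
    exact hu ((hL z hz w hw h3 h4).trans_le (min_le_right _ _))

end CV
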