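import Pool.Agent.H36.DG.FK
import Pool.Agent.H36.DG.FMa
import Pool.Agent.H36.DS.XB

/-!
FM (the Riemann map of the filled set satisfies `DiscMap` on the sphere).  `W = fil X U ≠ univ`: otherwise `v` is a bounded entire function, constant by Liouville
(`Differentiable.apply_eq_apply_of_bounded`), contradiction to `v (ψ z) = z`.
Put `w₀ = ψ 0`, `K' = {w | w = 0 ∨ w₀ + w⁻¹ ∉ W}` (`fil_compl_conn`).  Then `extDom K' = {w | w₀ + w ∈ W}` (for `w ≠ 0`: `w⁻¹ ∉ K'` iff `w₀ + w ∈ W`; for `w = 0` both hold), and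
`ExtMap K' (fun z => ψ z - w₀) (fun w => v (w₀ + w))`.  By `discMap_ext` (DS/XB) with `k₀ = 0`: `DiscMap (q '' K') φ' u'`, `φ' z = if z = 0 then O else q ((ψ z - w₀)⁻¹)`.
The map `T : S2 → S2`, `T O = q w₀`, `T (q 0) = O`, `T (q w) = q (w₀ + w⁻¹)` (`w ≠ 0`) is a homeomorphism of the sphere (`q_lim`, `p_lim`), `T (φ' z) = q (ψ z)` for all `z` in the disc,
`u' (T⁻¹ x) = v (pp x)` for `x ∈ q '' W`, and `T '' (q '' K') = (q '' W)ᶜ`.
General lemma (`discMap_homeo`): a `DiscMap` composed with a homeomorphism of a compact metric space is a `DiscMap` (L0, L1: uniform continuity of `T` and `T⁻¹`).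
-/

namespace CV

open Metric Set Filter Topology Function DS TN

theorem FM_congr {X : Type*} [MetricSpace X] {K : Set X} {φ φ₂ : ℂ → X} {u u₂ : X → ℂ}
    (H : DiscMap K φ u) (h1 : ∀ z ∈ ball (0:ℂ) 1, φ₂ z = φ z) (h2 : ∀ x ∈ Kᶜ, u₂ x = u x) :
    DiscMap K φ₂ u₂ where
  φ_cont := H.φ_cont.congr h1
  φ_maps := fun z hz => by
    rw [h1 z hz]
    exact H.φ_maps hz
  u_cont := H.u_cont.congr h2
  u_maps := fun x hx => by
    rw [h2 x hx]
    exact H.u_maps hx
  uφ := fun z hz => by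
    rw [h1 z hz, h2 _ (H.φ_maps hz)]
    exact H.uφ z hz
  φu := fun x hx => by
    rw [h2 x hx, h1 _ (H.u_maps hx)]
    exact H.φu x hx
  L0 := fun ε hε => by
    obtain ⟨δ, hδ, h⟩ := H.L0 ε hε
    refine ⟨δ, hδ, fun γ hγ hc hd => h γ hγ hc fun z hz w hw => ?_⟩
    rw [← h1 z (hγ hz), ← h1 w (hγ hw)]
    exact hd z hz w hw
  L1 := fun ζ hζ ε hε => by
    obtain ⟨ρ, h0, hρ, h⟩ := H.L1 ζ hζ ε hε
    refine ⟨ρ, h0, hρ, fun z hz w hw hzd hwd => ?_⟩
    rw [h1 z hz, h1 w hw]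
    exact h z hz w hw hzd hwd

/-- the inversion of the sphere -/
theorem FM_T {O : S2} {pp : S2 → ℂ} {q : ℂ → S2} (hS : SC O pp q) (w₀ : ℂ) :
    ∃ T Ti : S2 → S2, Continuous T ∧ Continuous Ti ∧ (∀ x, Ti (T x) = x) ∧ (∀ x, T (Ti x) = x) ∧
      T O = q w₀ ∧ T (q 0) = O ∧ (∀ w, w ≠ 0 → T (q w) = q (w₀ + w⁻¹)) := by
  classical
  have hqc : Continuous q := hS.q_smooth.continuous
  have hpc : ∀ x, x ≠ O → ContinuousAt pp x := fun x hx =>
    hS.p_smooth.continuousOn.continuousAt (isOpen_compl_singleton.mem_nhds hx)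
  obtain ⟨T, hT⟩ : ∃ T : S2 → S2, T = fun x => if x = O then q w₀ else
    if pp x = 0 then O else q (w₀ + (pp x)⁻¹) := ⟨_, rfl⟩
  obtain ⟨Ti, hTi⟩ : ∃ Ti : S2 → S2, Ti = fun x => if x = O then q 0 else
    if pp x = w₀ then O else q ((pp x - w₀)⁻¹) := ⟨_, rfl⟩
  have T1 : T O = q w₀ := by rw [hT]; exact if_pos rfl
  have T2 : T (q 0) = O := by
    rw [hT]
    show (if q 0 = O then q w₀ else if pp (q 0) = 0 then O else q (w₀ + (pp (q 0))⁻¹)) = O
    rw [if_neg (hS.q_ne 0), if_pos (hS.pq 0)]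
  have T3 : ∀ w, w ≠ 0 → T (q w) = q (w₀ + w⁻¹) := by
    intro w hw
    rw [hT]
    show (if q w = O then q w₀ else if pp (q w) = 0 then O else q (w₀ + (pp (q w))⁻¹)) = _
    rw [if_neg (hS.q_ne w), hS.pq, if_neg hw]
  have I1 : Ti O = q 0 := by rw [hTi]; exact if_pos rfl
  have I2 : Ti (q w₀) = O := by
    rw [hTi]
    show (if q w₀ = O then q 0 else if pp (q w₀) = w₀ then O else q ((pp (q w₀) - w₀)⁻¹)) = O
    rw [if_neg (hS.q_ne w₀), if_pos (hS.pq w₀)]
  have I3 : ∀ w, w ≠ w₀ → Ti (q w) = q ((w - w₀)⁻¹) := by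
    intro w hw
    rw [hTi]
    show (if q w = O then q 0 else if pp (q w) = w₀ then O else q ((pp (q w) - w₀)⁻¹)) = _
    rw [if_neg (hS.q_ne w), hS.pq, if_neg hw]
  have hcase : ∀ x : S2, x = O ∨ ∃ w, x = q w := by
    intro x
    by_cases hx : x = O
    · exact Or.inl hx
    · exact Or.inr ⟨pp x, (hS.qp x hx).symm⟩
  have hIT : ∀ x, Ti (T x) = x := by
    intro x
    rcases hcase x with rfl | ⟨w, rfl⟩
    · rw [T1, I2]
    · by_cases hw : w = 0
      · rw [hw, T2, I1]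
      · rw [T3 w hw, I3 _ (by
          intro h
          exact inv_ne_zero hw (add_eq_left.1 h)), add_sub_cancel_left, inv_inv]
  have hTI : ∀ x, T (Ti x) = x := by
    intro x
    rcases hcase x with rfl | ⟨w, rfl⟩
    · rw [I1, T2]
    · by_cases hw : w = w₀
      · rw [hw, I2, T1]
      · rw [I3 w hw, T3 _ (inv_ne_zero (sub_ne_zero.2 hw)), inv_inv, add_sub_cancel]
  have hinv : ∀ y : S2, y ≠ O → pp y ≠ 0 → q (w₀ + (pp y)⁻¹) = T y := by
    intro y hy hy0
    conv_rhs => rw [← hS.qp y hy]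
    rw [T3 _ hy0]
  have hTc : Continuous T := by
    rw [continuous_iff_continuousAt]
    intro x
    by_cases hx : x = O
    · subst hx
      rw [continuousAt_iff_punctured_nhds, T1]
      have h1 := hS.p_lim
      rw [← Metric.cobounded_eq_cocompact] at h1
      have h3 : Tendsto (fun y => (pp y)⁻¹) (𝓝[≠] x) (𝓝 0) := tendsto_inv₀_cobounded.comp h1
      have h4 : Tendsto (fun y => w₀ + (pp y)⁻¹) (𝓝[≠] x) (𝓝 w₀) := by
        have h5 := h3.const_add w₀
        rwa [add_zero] at h5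
      have h6 : Tendsto (fun y => q (w₀ + (pp y)⁻¹)) (𝓝[≠] x) (𝓝 (q w₀)) :=
        (hqc.tendsto w₀).comp h4
      refine h6.congr' ?_
      have h7 : ∀ᶠ y in 𝓝[≠] x, pp y ≠ 0 := h1.eventually (Bornology.eventually_ne_cobounded 0)
      filter_upwards [self_mem_nhdsWithin, h7] with y hy hy0
      exact hinv y hy hy0
    · by_cases hx0 : pp x = 0
      · rw [continuousAt_iff_punctured_nhds]
        have hTx : T x = O := by
          rw [← hS.qp x hx, hx0, T2]
        rw [hTx]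
        have h1 : Tendsto pp (𝓝[≠] x) (𝓝[≠] 0) := by
          rw [tendsto_nhdsWithin_iff]
          constructor
          · have h2 := (hpc x hx).tendsto
            rw [hx0] at h2
            exact h2.mono_left nhdsWithin_le_nhds
          · have h3 : ∀ᶠ y in 𝓝[≠] x, y ≠ O :=
              mem_nhdsWithin_of_mem_nhds (isOpen_ne.mem_nhds hx)
            filter_upwards [h3, self_mem_nhdsWithin] with y hy hyx
            intro h4
            apply hyx
            have h5 : pp y = 0 := h4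
            show y = x
            rw [← hS.qp y hy, h5, ← hx0, hS.qp x hx]
        have h2 : Tendsto (fun y => (pp y)⁻¹) (𝓝[≠] x) (Bornology.cobounded ℂ) :=
          tendsto_inv₀_nhdsNE_zero.comp h1
        have h3 : Tendsto (fun y => w₀ + (pp y)⁻¹) (𝓝[≠] x) (Bornology.cobounded ℂ) :=
          (tendsto_const_add_cobounded w₀).comp h2
        rw [Metric.cobounded_eq_cocompact] at h3
        refine (hS.q_lim.comp h3).congr' ?_
        have h4 : ∀ᶠ y in 𝓝[≠] x, y ≠ O :=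
          mem_nhdsWithin_of_mem_nhds (isOpen_ne.mem_nhds hx)
        have h5 := h1.eventually (self_mem_nhdsWithin (a := (0:ℂ)) (s := {0}ᶜ))
        filter_upwards [h4, h5] with y hy hy0
        exact hinv y hy hy0
      · have h1 : ContinuousAt (fun y => q (w₀ + (pp y)⁻¹)) x :=
          hqc.continuousAt.comp (continuousAt_const.add ((hpc x hx).inv₀ hx0))
        refine h1.congr ?_
        have h2 : ∀ᶠ y in 𝓝 x, y ≠ O := isOpen_ne.mem_nhds hx
        have h3 : ∀ᶠ y in 𝓝 x, pp y ≠ 0 := (hpc x hx).eventually_ne hx0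
        filter_upwards [h2, h3] with y hy hy0
        exact hinv y hy hy0
  have hTic : Continuous Ti := by
    let e : S2 ≃ S2 := ⟨T, Ti, hIT, hTI⟩
    exact (hTc.homeoOfEquivCompactToT2 (f := e)).symm.continuous
  exact ⟨T, Ti, hTc, hTic, hIT, hTI, T1, T2, T3⟩

section
variable {S : Type} [MetricSpace S] {X : Set ℂ} {Γ : Type} [Group Γ]
  {A : Γ → ℂ → ℂ} {p : ℂ → S} {g : S → S} {G : ℂ → ℂ} {U : Set ℂ} {N : Subgroup Γ}
  {ψ v : ℂ → ℂ}

theorem riem_ne_univ {W : Set ℂ} (R : Riem W ψ v) : W ≠ univ := by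
  intro hW
  rw [hW] at R
  have hd : Differentiable ℂ v := fun x => (R.dv x (mem_univ x)).differentiableAt univ_mem
  have hb : Bornology.IsBounded (range v) := by
    refine (isBounded_ball (x := (0:ℂ)) (r := 1)).subset ?_
    rintro _ ⟨x, rfl⟩
    exact R.mv (mem_univ x)
  have h1 := hd.apply_eq_apply_of_bounded hb (ψ 0) (ψ (1 / 2))
  rw [R.vψ 0 (by simp), R.vψ (1 / 2) (by rw [mem_ball_zero_iff]; norm_num)] at h1
  norm_num at h1

theorem fil_discMap (D : Deck X A p) (M : Dom X A p g G U N) (R : Riem (fil X U) ψ v)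
    {O : S2} {pp : S2 → ℂ} {q : ℂ → S2} (hS : SC O pp q) :
    DiscMap (q '' fil X U)ᶜ (fun z => q (ψ z)) (fun x => v (pp x)) := by
  have hW := riem_ne_univ R
  obtain ⟨w₀, hw₀⟩ : ∃ w₀, w₀ = ψ 0 := ⟨_, rfl⟩
  have h0b : (0:ℂ) ∈ ball (0:ℂ) 1 := mem_ball_self one_pos
  have hw : w₀ ∈ fil X U := by
    rw [hw₀]
    exact R.mψ h0b
  obtain ⟨hKc, hKconn, hKn⟩ := fil_compl_conn D M hw hW
  obtain ⟨K, hK⟩ : ∃ K : Set ℂ, K = {w : ℂ | w = 0 ∨ w₀ + w⁻¹ ∉ fil X U} := ⟨_, rfl⟩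
  rw [← hK] at hKc hKconn hKn
  have hKmem : ∀ w, w ∈ K ↔ w = 0 ∨ w₀ + w⁻¹ ∉ fil X U := fun w => by rw [hK]; exact Iff.rfl
  have h0K : (0:ℂ) ∈ K := (hKmem 0).2 (Or.inl rfl)
  have hext : ∀ w, w ∈ extDom K ↔ w₀ + w ∈ fil X U := by
    intro w
    show (w = 0 ∨ w⁻¹ ∉ K) ↔ _
    by_cases h : w = 0
    · rw [h, add_zero]
      exact ⟨fun _ => hw, fun _ => Or.inl rfl⟩
    · rw [hKmem, inv_inv]
      constructor
      · rintro (h1 | h1)
        · exact absurd h1 h
        · by_contra h2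
          exact h1 (Or.inr h2)
      · intro h1
        refine Or.inr ?_
        rintro (h2 | h2)
        · exact inv_ne_zero h h2
        · exact h2 h1
  have hE : ExtMap K (fun z => ψ z - w₀) (fun w => v (w₀ + w)) := by
    refine ⟨R.dψ.sub_const w₀, ?_, fun z hz => ?_, fun w hw' => ?_, fun z hz => ?_, fun w hw' => ?_, ?_⟩
    · refine R.dv.comp (differentiable_id.const_add w₀).differentiableOn fun w hw' => ?_
      exact (hext w).1 hw'
    · rw [hext, add_sub_cancel]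
      exact R.mψ hz
    · exact R.mv ((hext w).1 hw')
    · show v (w₀ + (ψ z - w₀)) = z
      rw [add_sub_cancel]
      exact R.vψ z hz
    · show ψ (v (w₀ + w)) - w₀ = w
      rw [R.ψv _ ((hext w).1 hw'), add_sub_cancel_left]
    · show ψ 0 - w₀ = 0
      rw [hw₀, sub_self]
  have hD := discMap_ext hS hKc hKconn h0K hKn hE 0
  obtain ⟨T, Ti, hTc, hTic, hIT, hTI, T1, T2, T3⟩ := FM_T hS w₀
  have hD2 := discMap_homeo hD hTc hTic hIT hTI
  have hqinj : ∀ a b, q a = q b → a = b := fun a b h => by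
    rw [← hS.pq a, h, hS.pq]
  have I2 : Ti (q w₀) = O := by rw [← T1, hIT]
  have I3 : ∀ w, w ≠ w₀ → Ti (q w) = q ((w - w₀)⁻¹) := by
    intro w hw'
    have h1 := T3 (w - w₀)⁻¹ (inv_ne_zero (sub_ne_zero.2 hw'))
    rw [inv_inv, add_sub_cancel] at h1
    rw [← h1, hIT]
  have hset : T '' (q '' ((fun z => 0 + z) '' K)) = (q '' fil X U)ᶜ := by
    have h1 : (fun z : ℂ => 0 + z) '' K = K := by
      simp only [zero_add, image_id']
    rw [h1]
    ext y
    constructor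
    · rintro ⟨_, ⟨w, hwK, rfl⟩, rfl⟩
      rintro ⟨b, hb, hbe⟩
      rcases (hKmem w).1 hwK with h | h
      · rw [h, T2] at hbe
        exact hS.q_ne b hbe
      · by_cases h2 : w = 0
        · rw [h2, T2] at hbe
          exact hS.q_ne b hbe
        · rw [T3 w h2] at hbe
          exact h (hqinj _ _ hbe ▸ hb)
    · intro hy
      by_cases hyO : y = O
      · exact ⟨q 0, ⟨0, h0K, rfl⟩, by rw [T2, hyO]⟩
      · have hb : pp y ∉ fil X U := fun h => hy ⟨pp y, h, hS.qp y hyO⟩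
        have hne : pp y ≠ w₀ := fun h => hb (h ▸ hw)
        refine ⟨q ((pp y - w₀)⁻¹), ⟨(pp y - w₀)⁻¹, (hKmem _).2 (Or.inr ?_), rfl⟩, ?_⟩
        · rw [inv_inv, add_sub_cancel]
          exact hb
        · rw [T3 _ (inv_ne_zero (sub_ne_zero.2 hne)), inv_inv, add_sub_cancel, hS.qp y hyO]
  rw [hset] at hD2
  refine FM_congr hD2 (fun z hz => ?_) fun x hx => ?_
  · by_cases hz0 : z = 0
    · simp only [if_pos hz0]
      rw [T1, hz0, hw₀]
    · simp only [if_neg hz0, zero_add]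
      have hne : ψ z ≠ w₀ := by
        intro h
        have h1 := R.vψ z hz
        rw [h, hw₀, R.vψ 0 h0b] at h1
        exact hz0 h1.symm
      rw [T3 _ (inv_ne_zero (sub_ne_zero.2 hne)), inv_inv, add_sub_cancel]
  · rw [compl_compl] at hx
    obtain ⟨w, hwW, rfl⟩ := hx
    by_cases hwe : w = w₀
    · rw [hwe, I2, hS.pq]
      simp only [if_true]
      rw [hw₀, R.vψ 0 h0b]
    · rw [I3 w hwe, hS.pq, if_neg (hS.q_ne _), hS.pq, sub_zero, inv_inv, add_sub_cancel]

end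

end CV
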