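import Pool.Agent.H36.DG.GA
import Pool.Agent.H36.DS.HB

/-!
GB (quasiconformal homeomorphisms of the disc extend to the closed disc).  Proof (compare `DS.end_homeo`,
Pool/Agent/H36/DS/HB.lean): `h` is a homeomorphism of the open disc.  Let `ζ` be on the circle and `0 < ε < 1/4`.  `h` is proper: for
`ρ` small it maps `ball 0 1 ∩ closedBall ζ ρ` into `{‖z‖ > 1/2}`.  By `qc_small_arc` there is such a `ρ < 1` with
`dist (h z) (h w) < ε` on `C = {z ∈ ball 0 1 | dist z ζ = ρ}`; `h '' C` is connected (`arc_connected`), contained in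
`closedBall p ε` for `p = h z₀`, `‖p‖ > 1/2`, and `E = {z | ‖z‖ < 1 ∧ ε < dist z p}` is connected (`disc_minus_ball`), contains
`0`, misses `h '' C`; so `hi '' E` misses `C` and contains `hi 0 ∉ ball ζ ρ`, hence misses `ball ζ ρ`: `h '' (ball 0 1 ∩ ball ζ ρ) ⊆
closedBall p ε`.  So `h` has a limit at `ζ`.  The same for `hi`.  `extendFrom` gives `hb`, `hbi`; the rest as in `end_homeo`.
-/

namespace DG
open Metric Set Filter Topology DS

/-- a homeomorphism of the disc with small images of arcs is nearly constant near a boundary point -/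
theorem GB_small {h hi : ℂ → ℂ} (hhc : ContinuousOn h (ball 0 1)) (hic : ContinuousOn hi (ball 0 1))
    (hhm : MapsTo h (ball 0 1) (ball 0 1)) (him : MapsTo hi (ball 0 1) (ball 0 1))
    (hih : ∀ z ∈ ball (0:ℂ) 1, hi (h z) = z) (hhi' : ∀ z ∈ ball (0:ℂ) 1, h (hi z) = z)
    {ζ : ℂ} (hζ : ‖ζ‖ = 1)
    (harc : ∀ ε > 0, ∃ ρ, 0 < ρ ∧ ρ < ε ∧ ∀ z w : ℂ, z ∈ ball (0:ℂ) 1 → w ∈ ball (0:ℂ) 1 →
      dist z ζ = ρ → dist w ζ = ρ → dist (h z) (h w) < ε) {ε : ℝ} (hε : 0 < ε)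
    (hε4 : ε < 1 / 4) :
    ∃ ρ > 0, ∀ z ∈ ball (0:ℂ) 1, ∀ w ∈ ball (0:ℂ) 1, dist z ζ < ρ → dist w ζ < ρ →
      dist (h z) (h w) < 2 * ε := by
  have hhalf : closedBall (0:ℂ) (1/2) ⊆ ball 0 1 := closedBall_subset_ball (by norm_num)
  set Q : Set ℂ := hi '' closedBall 0 (1/2) with hQ
  have hQc : IsCompact Q := (isCompact_closedBall _ _).image_of_continuousOn (hic.mono hhalf)
  have hQb : Q ⊆ ball 0 1 := by
    rintro _ ⟨z, hz, rfl⟩
    exact him (hhalf hz)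
  have hζQ : ζ ∉ Q := by
    intro hc
    have := hQb hc
    rw [mem_ball_zero_iff, hζ] at this
    exact lt_irrefl _ this
  obtain ⟨r0, hr0, hr0Q⟩ := Metric.isOpen_iff.1 hQc.isClosed.isOpen_compl ζ hζQ
  have hbig : ∀ z ∈ ball (0:ℂ) 1, dist z ζ < r0 → 1 / 2 < ‖h z‖ := by
    intro z hz hzr
    by_contra hc
    push Not at hc
    have h1 : z ∈ Q := ⟨h z, by rwa [mem_closedBall_zero_iff], hih z hz⟩
    exact hr0Q (mem_ball.2 hzr) h1
  obtain ⟨ρ, hρ, hρ2, hL1⟩ := harc (min ε (min r0 1)) (by positivity)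
  have hρη : min ε (min r0 1) ≤ ε := min_le_left _ _
  have hρr : min ε (min r0 1) ≤ r0 := (min_le_right _ _).trans (min_le_left _ _)
  have hρ1 : min ε (min r0 1) ≤ 1 := (min_le_right _ _).trans (min_le_right _ _)
  have hC := arc_connected hζ hρ (by linarith)
  set Cc : Set ℂ := {z : ℂ | ‖z‖ < 1 ∧ dist z ζ = ρ} with hCc
  have hCb : Cc ⊆ ball 0 1 := fun z hz => mem_ball_zero_iff.2 hz.1
  obtain ⟨z₀, hz₀⟩ := hC.nonempty
  have hp : 1 / 2 < ‖h z₀‖ := hbig z₀ (hCb hz₀) (by rw [hz₀.2]; linarith)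
  have hCsmall : ∀ a ∈ Cc, ∀ b ∈ Cc, dist (h a) (h b) < ε := by
    intro a ha b hb
    exact lt_of_lt_of_le (hL1 a b (hCb ha) (hCb hb) ha.2 hb.2) hρη
  have hE := disc_minus_ball' (p := h z₀) hε.le (by linarith)
  set E : Set ℂ := {z : ℂ | ‖z‖ < 1 ∧ ε ≤ dist z (h z₀)} with hEdef
  have hEb : E ⊆ ball 0 1 := fun z hz => mem_ball_zero_iff.2 hz.1
  have h0E : (0:ℂ) ∈ E := by
    refine ⟨by simp, ?_⟩
    rw [dist_zero_left]
    linarith
  have hEi : IsPreconnected (hi '' E) := hE.isPreconnected.image hi (hic.mono hEb)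
  have hEρ : ∀ x ∈ hi '' E, dist x ζ ≠ ρ := by
    rintro _ ⟨e, he, rfl⟩ hc
    have h4 : hi e ∈ Cc := ⟨mem_ball_zero_iff.1 (him (hEb he)), hc⟩
    have h5 := hCsmall _ h4 _ hz₀
    rw [hhi' e (hEb he)] at h5
    exact absurd he.2 (not_le.2 h5)
  have h0big : ρ < dist (hi 0) ζ := by
    have h6 : hi 0 ∈ Q := ⟨0, by simp, rfl⟩
    by_contra hc
    push Not at hc
    exact hr0Q (mem_ball.2 (lt_of_le_of_lt hc (by linarith))) h6
  have hEbig : ∀ x ∈ hi '' E, ρ < dist x ζ := by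
    intro x hx
    by_contra hc
    push Not at hc
    have h7 := hEi.intermediate_value hx ⟨0, h0E, rfl⟩
      (f := fun y => dist y ζ) (by fun_prop)
    obtain ⟨y, hy, hyρ⟩ := h7 ⟨hc, h0big.le⟩
    exact hEρ y hy hyρ
  have hin : ∀ z ∈ ball (0:ℂ) 1, dist z ζ < ρ → dist (h z) (h z₀) < ε := by
    intro z hz hzρ
    by_contra hc
    push Not at hc
    have h8 : h z ∈ E := ⟨mem_ball_zero_iff.1 (hhm hz), hc⟩
    have h9 := hEbig (hi (h z)) ⟨h z, h8, rfl⟩
    rw [hih z hz] at h9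
    exact absurd hzρ (not_lt.2 h9.le)
  refine ⟨ρ, hρ, fun z hz w hw hz1 hw1 => ?_⟩
  have h10 := hin z hz hz1
  have h11 := hin w hw hw1
  calc dist (h z) (h w) ≤ dist (h z) (h z₀) + dist (h w) (h z₀) := dist_triangle_right _ _ _
    _ < 2 * ε := by linarith

/-- the limits exist -/
theorem GB_lim {h hi : ℂ → ℂ} (hhc : ContinuousOn h (ball 0 1)) (hic : ContinuousOn hi (ball 0 1))
    (hhm : MapsTo h (ball 0 1) (ball 0 1)) (him : MapsTo hi (ball 0 1) (ball 0 1))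
    (hih : ∀ z ∈ ball (0:ℂ) 1, hi (h z) = z) (hhi' : ∀ z ∈ ball (0:ℂ) 1, h (hi z) = z)
    (harc : ∀ ζ : ℂ, ‖ζ‖ = 1 → ∀ ε > 0, ∃ ρ, 0 < ρ ∧ ρ < ε ∧ ∀ z w : ℂ, z ∈ ball (0:ℂ) 1 →
      w ∈ ball (0:ℂ) 1 → dist z ζ = ρ → dist w ζ = ρ → dist (h z) (h w) < ε)
    (x : ℂ) (hx : x ∈ closedBall (0:ℂ) 1) :
    ∃ y, Tendsto h (𝓝[ball 0 1] x) (𝓝 y) := by
  by_cases hxb : x ∈ ball (0:ℂ) 1
  · exact ⟨_, hhc x hxb⟩
  · have hx1 : ‖x‖ = 1 := by
      rw [mem_closedBall_zero_iff] at hx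
      rw [mem_ball_zero_iff, not_lt] at hxb
      exact le_antisymm hx hxb
    have hcl : x ∈ closure (ball (0:ℂ) 1) := by
      rw [closure_ball _ one_ne_zero]
      exact hx
    have hne : (𝓝[ball 0 1] x).NeBot := mem_closure_iff_nhdsWithin_neBot.1 hcl
    have hcau : Cauchy (map h (𝓝[ball 0 1] x)) := by
      rw [Metric.cauchy_iff]
      refine ⟨hne.map _, fun e he => ?_⟩
      obtain ⟨ρ, hρ, hρ2⟩ := GB_small hhc hic hhm him hih hhi' hx1 (harc x hx1)
        (ε := min (e / 2) (1 / 8)) (by positivity)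
        (lt_of_le_of_lt (min_le_right _ _) (by norm_num))
      refine ⟨h '' (ball x ρ ∩ ball 0 1), ?_, ?_⟩
      · apply image_mem_map
        rw [inter_comm]
        exact inter_mem_nhdsWithin _ (ball_mem_nhds x hρ)
      · rintro _ ⟨a, ha, rfl⟩ _ ⟨b, hb, rfl⟩
        have h1 := hρ2 a ha.2 b hb.2 ha.1 hb.1
        have h2 : min (e / 2) (1 / 8) ≤ e / 2 := min_le_left _ _
        exact lt_of_lt_of_le h1 (by linarith)
    exact cauchy_map_iff_exists_tendsto.1 hcau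

theorem qc_extend {h hi : ℂ → ℂ} (hh : ContDiffOn ℝ 1 h (ball 0 1))
    (hhi : ContDiffOn ℝ 1 hi (ball 0 1)) (hm : MapsTo h (ball 0 1) (ball 0 1))
    (hmi : MapsTo hi (ball 0 1) (ball 0 1)) (hih : ∀ z ∈ ball (0:ℂ) 1, hi (h z) = z)
    (hhi' : ∀ z ∈ ball (0:ℂ) 1, h (hi z) = z) {Kq : ℝ}
    (hq : ∀ z ∈ ball (0:ℂ) 1, ‖fderiv ℝ h z‖ ^ 2 ≤ Kq * |(fderiv ℝ h z).det|)
    (hqi : ∀ z ∈ ball (0:ℂ) 1, ‖fderiv ℝ hi z‖ ^ 2 ≤ Kq * |(fderiv ℝ hi z).det|) :
    ∃ hb hbi : ℂ → ℂ, EndMap (fun z : ℂ => z) (fun z : ℂ => z) h hi hb hbi := by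
  have hcl : closure (ball (0:ℂ) 1) = closedBall 0 1 := closure_ball _ one_ne_zero
  have hhc : ContinuousOn h (ball 0 1) := hh.continuousOn
  have hic : ContinuousOn hi (ball 0 1) := hhi.continuousOn
  have hinj : InjOn h (ball 0 1) := fun a ha b hb hab => by
    rw [← hih a ha, hab, hih b hb]
  have hinji : InjOn hi (ball 0 1) := fun a ha b hb hab => by
    rw [← hhi' a ha, hab, hhi' b hb]
  have hlim := GB_lim hhc hic hm hmi hih hhi' fun ζ hζ => qc_small_arc hh hinj hm hq hζ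
  have hlimi := GB_lim hic hhc hmi hm hhi' hih fun ζ hζ => qc_small_arc hhi hinji hmi hqi hζ
  have hbc : ContinuousOn (extendFrom (ball 0 1) h) (closedBall 0 1) :=
    continuousOn_extendFrom hcl.ge hlim
  have hbic : ContinuousOn (extendFrom (ball 0 1) hi) (closedBall 0 1) :=
    continuousOn_extendFrom hcl.ge hlimi
  have hbe : ∀ z ∈ ball (0:ℂ) 1, extendFrom (ball 0 1) h z = h z := fun z hz =>
    extendFrom_eq (subset_closure hz) (hhc z hz)
  have hbie : ∀ z ∈ ball (0:ℂ) 1, extendFrom (ball 0 1) hi z = hi z := fun z hz =>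
    extendFrom_eq (subset_closure hz) (hic z hz)
  have hbo : MapsTo (extendFrom (ball 0 1) h) (ball 0 1) (ball 0 1) := by
    intro z hz
    rw [hbe z hz]
    exact hm hz
  have hbio : MapsTo (extendFrom (ball 0 1) hi) (ball 0 1) (ball 0 1) := by
    intro z hz
    rw [hbie z hz]
    exact hmi hz
  have hbm : MapsTo (extendFrom (ball 0 1) h) (closedBall 0 1) (closedBall 0 1) := by
    have := hbo.closure_of_continuousOn (by rw [hcl]; exact hbc)
    rwa [hcl] at this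
  have hbim : MapsTo (extendFrom (ball 0 1) hi) (closedBall 0 1) (closedBall 0 1) := by
    have := hbio.closure_of_continuousOn (by rw [hcl]; exact hbic)
    rwa [hcl] at this
  have hbib : ∀ z ∈ closedBall (0:ℂ) 1,
      extendFrom (ball 0 1) hi (extendFrom (ball 0 1) h z) = z := by
    have h1 : EqOn (fun z => extendFrom (ball 0 1) hi (extendFrom (ball 0 1) h z)) id
        (ball 0 1) := by
      intro z hz
      simp only [id]
      rw [hbe z hz, hbie _ (hm hz), hih z hz]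
    exact h1.of_subset_closure (hbic.comp hbc hbm) continuousOn_id ball_subset_closedBall hcl.ge
  have hbbi : ∀ z ∈ closedBall (0:ℂ) 1,
      extendFrom (ball 0 1) h (extendFrom (ball 0 1) hi z) = z := by
    have h1 : EqOn (fun z => extendFrom (ball 0 1) h (extendFrom (ball 0 1) hi z)) id
        (ball 0 1) := by
      intro z hz
      simp only [id]
      rw [hbie z hz, hbe _ (hmi hz), hhi' z hz]
    exact h1.of_subset_closure (hbc.comp hbic hbim) continuousOn_id ball_subset_closedBall hcl.ge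
  refine ⟨extendFrom (ball 0 1) h, extendFrom (ball 0 1) hi, hbc, hbic, hbm, hbim, hbo, hbio,
    ?_, ?_, hbib, hbbi, hbe, hbie⟩
  · intro ζ hζ
    have hζ1 : ζ ∈ closedBall (0:ℂ) 1 := sphere_subset_closedBall hζ
    by_contra hc
    have h2 : extendFrom (ball 0 1) h ζ ∈ ball (0:ℂ) 1 := by
      have h3 := hbm hζ1
      rw [mem_closedBall_zero_iff] at h3
      rw [mem_ball_zero_iff]
      rw [mem_sphere_zero_iff_norm] at hc
      exact lt_of_le_of_ne h3 hc
    have h4 := hbio h2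
    rw [hbib ζ hζ1, mem_ball_zero_iff, mem_sphere_zero_iff_norm.1 hζ] at h4
    exact lt_irrefl _ h4
  · intro ζ hζ
    have hζ1 : ζ ∈ closedBall (0:ℂ) 1 := sphere_subset_closedBall hζ
    by_contra hc
    have h2 : extendFrom (ball 0 1) hi ζ ∈ ball (0:ℂ) 1 := by
      have h3 := hbim hζ1
      rw [mem_closedBall_zero_iff] at h3
      rw [mem_ball_zero_iff]
      rw [mem_sphere_zero_iff_norm] at hc
      exact lt_of_le_of_ne h3 hc
    have h4 := hbo h2
    rw [hbbi ζ hζ1, mem_ball_zero_iff, mem_sphere_zero_iff_norm.1 hζ] at h4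
    exact lt_irrefl _ h4

end DG
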