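import Pool.Agent.H36.DG.Defs

/-!
LLb (stable sets and domains for powers and composition with deck transformations).
`stabX_pow`: `(g^[n])^[m] = g^[n * m]` (`Function.iterate_mul`).  `⊇`: subsequence.  `⊆`: write `k = n m + j`, `j < n`; the maps `g^[j]`, `j < n`, are
uniformly continuous (`S` compact); so `dist (g^[j] (g^[n m] s)) (g^[j] (g^[n m] t)) → 0` uniformly in `j < n` as `m → ∞`.
`Dom.mul`: `(A c ∘ G) '' U = A c '' (G '' U) = A c '' U = U`.  `Dom.pow`: `G^[n] '' U = U` by induction, `periodicPts (g^[n]) ⊆ periodicPts g`, `stabX_pow`.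
-/

namespace CV

open Metric Set Filter Topology Function DS TN

theorem LLb_unif {S : Type} [MetricSpace S] [CompactSpace S] {g : S → S} (hg : Continuous g)
    {ε : ℝ} (hε : 0 < ε) (n : ℕ) :
    ∃ δ > 0, ∀ a b, dist a b < δ → ∀ j < n, dist (g^[j] a) (g^[j] b) < ε := by
  induction n with
  | zero => exact ⟨1, one_pos, fun a b _ j hj => absurd hj (Nat.not_lt_zero j)⟩
  | succ n ih =>
    obtain ⟨δ, hδ, h⟩ := ih
    have hu : UniformContinuous (g^[n]) :=
      CompactSpace.uniformContinuous_of_continuous (hg.iterate n)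
    obtain ⟨δ', hδ', h'⟩ := Metric.uniformContinuous_iff.1 hu ε hε
    refine ⟨min δ δ', lt_min hδ hδ', fun a b hab j hj => ?_⟩
    rcases Nat.lt_succ_iff_lt_or_eq.1 hj with h1 | h1
    · exact h a b (lt_of_lt_of_le hab (min_le_left _ _)) j h1
    · rw [h1]
      exact h' (lt_of_lt_of_le hab (min_le_right _ _))

theorem LLb_tend {S : Type} [MetricSpace S] [CompactSpace S] {g : S → S} (hg : Continuous g)
    {n : ℕ} (hn : 0 < n) (s t : S) :
    Tendsto (fun m : ℕ => dist ((g^[n])^[m] s) ((g^[n])^[m] t)) atTop (𝓝 0) ↔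
      Tendsto (fun k : ℕ => dist (g^[k] s) (g^[k] t)) atTop (𝓝 0) := by
  have e : ∀ (m : ℕ) (s : S), (g^[n])^[m] s = g^[n * m] s := fun m s => by
    rw [Function.iterate_mul]
  simp only [e]
  constructor
  · intro h
    rw [Metric.tendsto_atTop] at h ⊢
    intro ε hε
    obtain ⟨δ, hδ, hd⟩ := LLb_unif hg hε n
    obtain ⟨M, hM⟩ := h δ hδ
    refine ⟨n * M, fun k hk => ?_⟩
    have h1 : M ≤ k / n := (Nat.le_div_iff_mul_le hn).2 (by rw [mul_comm]; exact hk)
    have h2 := hM (k / n) h1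
    rw [Real.dist_eq, sub_zero, abs_of_nonneg dist_nonneg] at h2 ⊢
    have h3 := hd _ _ h2 (k % n) (Nat.mod_lt k hn)
    rw [← Function.iterate_add_apply, ← Function.iterate_add_apply, Nat.mod_add_div] at h3
    exact h3
  · intro h
    refine h.comp (tendsto_atTop_mono (fun m => ?_) tendsto_id)
    exact Nat.le_mul_of_pos_left m hn

section
variable {S : Type} [MetricSpace S] [CompactSpace S] {X : Set ℂ} {Γ : Type} [Group Γ]
  {A : Γ → ℂ → ℂ} {p : ℂ → S} {g gi : S → S} {G Gi : ℂ → ℂ} {θ : Γ ≃* Γ} {ρ : ℂ → ℝ}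
  {U : Set ℂ} {N : Subgroup Γ}

theorem stabX_pow {g : S → S} (hg : Continuous g) {n : ℕ} (hn : 0 < n) (P : ℂ) :
    StabX X p (g^[n]) P = StabX X p g P := by
  ext x
  exact and_congr_right fun _ => LLb_tend hg hn (p x) (p P)

theorem per_pow {g : S → S} {n : ℕ} (hn : 0 < n) (s : S) :
    s ∈ periodicPts (g^[n]) ↔ s ∈ periodicPts g := by
  constructor
  · rintro ⟨m, hm, h⟩
    refine ⟨n * m, Nat.mul_pos hn hm, ?_⟩
    have h1 : (g^[n])^[m] s = s := h
    show g^[n * m] s = s
    rw [Function.iterate_mul]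
    exact h1
  · rintro ⟨m, hm, h⟩
    refine ⟨m, hm, ?_⟩
    have h1 : g^[m] s = s := h
    show (g^[n])^[m] s = s
    rw [← Function.iterate_mul, mul_comm, Function.iterate_mul]
    exact Function.iterate_fixed h1 n

theorem Dom.mul (M : Dom X A p g G U N) {c : Γ} (hc : c ∈ N) :
    Dom X A p g (fun x => A c (G x)) U N := by
  refine ⟨M.opn, M.conn, M.sub, ?_, M.mem, M.comp, M.stab⟩
  have h1 : (fun x => A c (G x)) '' U = A c '' (G '' U) := (image_image (A c) G U).symm
  rw [h1, M.inv]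
  exact (M.mem c).1 hc

theorem Dom.pow (hg : Continuous g) (M : Dom X A p g G U N) {n : ℕ} (hn : 0 < n) :
    Dom X A p (g^[n]) (G^[n]) U N := by
  refine ⟨M.opn, M.conn, M.sub, ?_, M.mem, M.comp, fun P hP hper => ?_⟩
  · clear hn
    induction n with
    | zero => exact image_id U
    | succ n ih => rw [Function.iterate_succ, image_comp, M.inv, ih]
  · rw [stabX_pow hg hn]
    exact M.stab P hP ((per_pow hn _).1 hper)

/-- the predicate `SPX` for powers -/
theorem spx_pow {g : S → S} (hg : Continuous g) {n : ℕ} (hn : 0 < n) (Hyp : S → Prop) (x : ℂ) :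
    SPX X p (g^[n]) Hyp x ↔ SPX X p g Hyp x := by
  unfold SPX
  simp only [stabX_pow hg hn]

end

end CV
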