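import Pool.Agent.H36.DS.ID

/-!
QO (orientation at the boundary).  Let `B = fderiv ℝ h w₀`, `det B > 0`.  By `star_point`-like estimates (Pool/Agent/H36/DS/ID.lean: there the log of
`(g x - P)/(x - P)` near a fixed point is obtained from `det B > 0`; here apply it, or its proof, to `g x = h x + w₀`, `P = w₀`): there is a small closed
ball `closedBall w₀ r ⊆ ball 0 1` such that `h z / (z - w₀)` has a continuous logarithm on `sphere w₀ r`.  (Direct proof: `B z = a z + b conj z` with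
`‖a‖ > ‖b‖`, so `h z / (z - w₀)` is in the disc with centre `a` and radius `< ‖a‖` for `z` near `w₀`, `z ≠ w₀`; such a disc is contained in a rotated slit
plane, `IC_log_slit`.)  So it also has one on the closed ball minus ... : define `F z = h z / (z - w₀)` for `z ∈ closedBall 0 1`, `‖z - w₀‖ ≥ r`, and for `‖z - w₀‖ ≤ r`
let `F z = exp (L' z)` with `L'` a continuous extension (`IB_tietze`) of the logarithm from the circle; `F` is continuous and nowhere zero on
`closedBall 0 1` (`h z ≠ 0` for `z ≠ w₀` by injectivity), so it has a logarithm (`allLogs_closedBall`).  On the unit circle `F z = h z / (z - w₀)`, and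
`(z - w₀) / z = 1 - w₀ / z` is in the slit plane.  Multiply (`IC_log_mul`).
-/

namespace DG
open Metric Set Filter Topology DS

theorem QO_lin (A : ℂ →L[ℝ] ℂ) (h : 0 < A.det) : ∃ α : ℂ, ∃ m : ℝ, 0 < m ∧
    ∀ v, ‖A v - α * v‖ ≤ (‖α‖ - m) * ‖v‖ := by
  set a : ℂ := A 1 with ha
  set b : ℂ := A Complex.I with hb
  have hdet : A.det = a.re * b.im - b.re * a.im := by
    have h1 : A.det = LinearMap.det (A : ℂ →ₗ[ℝ] ℂ) := rfl
    rw [h1, ← LinearMap.det_toMatrix Complex.basisOneI, Matrix.det_fin_two]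
    simp only [LinearMap.toMatrix_apply, Complex.coe_basisOneI_repr, Complex.coe_basisOneI,
      Matrix.cons_val_zero, Matrix.cons_val_one, ContinuousLinearMap.coe_coe]
    rfl
  set α : ℂ := (a - Complex.I * b) / 2 with hα
  set β : ℂ := (a + Complex.I * b) / 2 with hβ
  have hAv : ∀ v : ℂ, A v - α * v = β * (starRingEnd ℂ) v := by
    intro v
    have h1 : A v = v.re * a + v.im * b := by
      have h2 : v = v.re • (1 : ℂ) + v.im • Complex.I := by
        simp [Complex.re_add_im]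
      conv_lhs => rw [h2]
      rw [map_add, map_smul, map_smul]
      simp [ha, hb]
    rw [h1, hα, hβ]
    apply Complex.ext
    · simp; ring
    · simp; ring
  have hn : ‖β‖ < ‖α‖ := by
    have h1 : ‖α‖ ^ 2 - ‖β‖ ^ 2 = A.det := by
      rw [hdet, Complex.sq_norm, Complex.sq_norm, Complex.normSq_apply, Complex.normSq_apply, hα,
        hβ]
      simp
      ring
    have h2 : ‖β‖ ^ 2 < ‖α‖ ^ 2 := by linarith
    exact lt_of_pow_lt_pow_left₀ 2 (norm_nonneg _) h2
  refine ⟨α, ‖α‖ - ‖β‖, by linarith, fun v => ?_⟩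
  rw [hAv v, norm_mul, RCLike.norm_conj]
  apply le_of_eq
  ring

theorem QO_log {f : ℂ → ℂ} {S : Set ℂ} {α : ℂ} (hf : ContinuousOn f S)
    (h : ∀ z ∈ S, ‖f z - α‖ < ‖α‖) : HasLog f S := by
  rcases S.eq_empty_or_nonempty with he | ⟨z₀, hz₀⟩
  · subst he
    exact ⟨fun _ => 0, continuousOn_const, fun z hz => absurd hz (notMem_empty z)⟩
  have hα : α ≠ 0 := norm_pos_iff.1 ((norm_nonneg _).trans_lt (h z₀ hz₀))
  have hslit : ∀ z ∈ S, f z / α ∈ Complex.slitPlane := by
    intro z hz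
    refine Complex.ball_one_subset_slitPlane ?_
    rw [mem_ball, dist_eq_norm]
    have h1 : f z / α - 1 = (f z - α) / α := by field_simp
    rw [h1, norm_div, div_lt_one (norm_pos_iff.2 hα)]
    exact h z hz
  refine ⟨fun z => Complex.log (f z / α) + Complex.log α,
    ((hf.div_const α).clog hslit).add continuousOn_const, fun z hz => ?_⟩
  rw [Complex.exp_add, Complex.exp_log (Complex.slitPlane_ne_zero (hslit z hz)),
    Complex.exp_log hα, div_mul_cancel₀ _ hα]

/-- the quotient is close to the conformal part -/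
theorem QO_near {g : ℂ → ℂ} {P : ℂ} {B : ℂ →L[ℝ] ℂ} (hg : HasFDerivAt g B P)
    (hgP : g P = P) {A : ℂ →L[ℝ] ℂ} {F : ℂ → ℂ} (hA : 0 < A.det)
    (hF : ∀ z, F z = g z - P - B (z - P) + A (z - P)) :
    ∃ α : ℂ, ∀ᶠ z in 𝓝 P, z ≠ P → ‖F z / (z - P) - α‖ < ‖α‖ := by
  obtain ⟨α, m, hm, hα⟩ := QO_lin A hA
  refine ⟨α, ?_⟩
  have h1 := hg.isLittleO.def (half_pos hm)
  filter_upwards [h1] with z hz hzP
  rw [hgP] at hz
  have hv : z - P ≠ 0 := sub_ne_zero.2 hzP
  have hv' : 0 < ‖z - P‖ := norm_pos_iff.2 hv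
  have h2 : F z / (z - P) - α = ((g z - P - B (z - P)) + (A (z - P) - α * (z - P))) / (z - P) := by
    rw [hF z]; field_simp; ring
  rw [h2, norm_div, div_lt_iff₀ hv']
  refine (norm_add_le _ _).trans_lt ?_
  have h3 := hα (z - P)
  nlinarith

theorem orient_log {h : ℂ → ℂ} (hc : ContinuousOn h (closedBall 0 1))
    (hi : InjOn h (closedBall 0 1)) {w₀ : ℂ} (hw : w₀ ∈ ball (0:ℂ) 1) (h0 : h w₀ = 0)
    (hd : DifferentiableAt ℝ h w₀) (hdet : 0 < (fderiv ℝ h w₀).det) :
    HasLog (fun z => h z / z) (sphere 0 1) := by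
  classical
  -- the logarithm near `w₀`
  have hg : HasFDerivAt (fun z => h z + w₀) (fderiv ℝ h w₀) w₀ := hd.hasFDerivAt.add_const w₀
  obtain ⟨α, hα⟩ := QO_near hg (by simp only [h0, zero_add]) (F := fun z => h z) hdet (by
    intro z
    ring)
  obtain ⟨r, hr, hball⟩ := Metric.nhds_basis_closedBall.mem_iff.1
    (hα.and (isOpen_ball.mem_nhds hw))
  have hrb : closedBall w₀ r ⊆ ball (0:ℂ) 1 := fun z hz => (hball hz).2
  have hne : ∀ z ∈ sphere w₀ r, z ≠ w₀ := by
    intro z hz h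
    rw [h, mem_sphere, dist_self] at hz
    exact hr.ne hz
  have hsub : sphere w₀ r ⊆ closedBall w₀ r := sphere_subset_closedBall
  have hq : ContinuousOn (fun z => h z / (z - w₀)) (closedBall 0 1 \ {w₀}) := by
    refine (hc.mono diff_subset).div (by fun_prop) fun z hz => ?_
    exact sub_ne_zero.2 hz.2
  have hlog : HasLog (fun z => h z / (z - w₀)) (sphere w₀ r) := by
    refine QO_log (α := α) (hq.mono fun z hz => ⟨?_, hne z hz⟩) fun z hz => ?_
    · exact ball_subset_closedBall (hrb (hsub hz))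
    · exact (hball (hsub hz)).1 (hne z hz)
  obtain ⟨L₀, hL₀, hL₀E⟩ := hlog
  -- extension
  obtain ⟨g, hgL⟩ : ∃ g : C(ℂ, ℂ), ∀ z ∈ sphere w₀ r, g z = L₀ z := by
    obtain ⟨g, hg⟩ := ContinuousMap.exists_restrict_eq (Y := ℂ)
      (Metric.isClosed_sphere (x := w₀) (ε := r)) ⟨_, hL₀.restrict⟩
    refine ⟨g, fun z hz => ?_⟩
    have := congrArg (fun f : C(sphere w₀ r, ℂ) => f ⟨z, hz⟩) hg
    exact this
  set F : ℂ → ℂ := fun z => if ‖z - w₀‖ ≤ r then Complex.exp (g z) else h z / (z - w₀) with hF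
  have hF1 : ∀ z, ‖z - w₀‖ ≤ r → F z = Complex.exp (g z) := fun z hz => if_pos hz
  have hF2 : ∀ z, r ≤ ‖z - w₀‖ → F z = h z / (z - w₀) := by
    intro z hz
    rcases hz.eq_or_lt with h1 | h1
    · rw [hF1 z h1.symm.le]
      have hzs : z ∈ sphere w₀ r := by rw [mem_sphere, dist_eq_norm]; exact h1.symm
      rw [hgL z hzs]
      exact (hL₀E z hzs).symm
    · exact if_neg (not_le.2 h1)
  have hne' : ∀ z, r ≤ ‖z - w₀‖ → z ≠ w₀ := by
    rintro z hz rfl
    rw [sub_self, norm_zero] at hz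
    exact absurd hr (not_lt.2 hz)
  have hFc : ContinuousOn F (closedBall 0 1) := by
    have hcov : closedBall (0:ℂ) 1 = (closedBall 0 1 ∩ {z | ‖z - w₀‖ ≤ r}) ∪
        (closedBall 0 1 ∩ {z | r ≤ ‖z - w₀‖}) := by
      ext z
      constructor
      · intro hz
        rcases le_total ‖z - w₀‖ r with h1 | h1
        · exact Or.inl ⟨hz, h1⟩
        · exact Or.inr ⟨hz, h1⟩
      · rintro (h1 | h1) <;> exact h1.1
    rw [hcov]
    apply ContinuousOn.union_of_isClosed
    · refine ((Complex.continuous_exp.comp g.continuous).continuousOn).congr ?_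
      rintro z ⟨-, hz⟩
      exact hF1 z hz
    · refine (hq.mono ?_).congr ?_
      · rintro z ⟨hz, hz2⟩
        exact ⟨hz, hne' z hz2⟩
      · rintro z ⟨-, hz⟩
        exact hF2 z hz
    · exact isClosed_closedBall.inter (isClosed_le (by fun_prop) continuous_const)
    · exact isClosed_closedBall.inter (isClosed_le continuous_const (by fun_prop))
  have hF0 : ∀ z ∈ closedBall (0:ℂ) 1, F z ≠ 0 := by
    intro z hz
    rcases le_total ‖z - w₀‖ r with h1 | h1
    · rw [hF1 z h1]
      exact Complex.exp_ne_zero _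
    · rw [hF2 z h1]
      refine div_ne_zero (fun h2 => hne' z h1 ?_) (sub_ne_zero.2 (hne' z h1))
      exact hi hz (ball_subset_closedBall hw) (h2.trans h0.symm)
  obtain ⟨L, hL, hLE⟩ := allLogs_closedBall 0 1 F hFc hF0
  have hs : sphere (0:ℂ) 1 ⊆ closedBall 0 1 := sphere_subset_closedBall
  have hs0 : ∀ z ∈ sphere (0:ℂ) 1, z ≠ 0 := by
    intro z hz h
    rw [h, mem_sphere, dist_self] at hz
    exact zero_ne_one hz
  have hs1 : ∀ z ∈ sphere (0:ℂ) 1, r ≤ ‖z - w₀‖ := by
    intro z hz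
    by_contra h1
    push Not at h1
    have h2 : z ∈ ball (0:ℂ) 1 := hrb (by rw [mem_closedBall, dist_eq_norm]; exact h1.le)
    rw [mem_ball] at h2
    rw [mem_sphere] at hz
    linarith
  have hsl : ∀ z ∈ sphere (0:ℂ) 1, 1 - w₀ / z ∈ Complex.slitPlane := by
    intro z hz
    refine Complex.ball_one_subset_slitPlane ?_
    rw [mem_ball, dist_eq_norm]
    have h1 : 1 - w₀ / z - 1 = -(w₀ / z) := by ring
    rw [h1, norm_neg, norm_div, mem_sphere_zero_iff_norm.1 hz, div_one]
    exact mem_ball_zero_iff.1 hw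
  refine ⟨fun z => L z + Complex.log (1 - w₀ / z), ?_, fun z hz => ?_⟩
  · refine (hL.mono hs).add (ContinuousOn.clog ?_ hsl)
    exact continuousOn_const.sub (continuousOn_const.div continuousOn_id hs0)
  · have hz0 := hs0 z hz
    have hz1 : z - w₀ ≠ 0 := sub_ne_zero.2 (hne' z (hs1 z hz))
    change h z / z = _
    rw [Complex.exp_add, Complex.exp_log (Complex.slitPlane_ne_zero (hsl z hz)),
      ← hLE z (hs hz), hF2 z (hs1 z hz)]
    field_simp

end DG
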