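import Pool.Agent.H36.DG.QB
import Pool.Agent.H36.DG.QO
import Pool.Agent.H36.DG.GB
import Pool.Agent.H36.DG.LLb

/-!
QC (extension to the closed disc; block B4).
`exists_norm`: `riem_coord` and `qc_extend` (DG/GB) give `hb`, `hbi` (EndMap of the identity); `e = ⟨hb, hbi, θN⟩` with `θN` the restriction of `θ` to
`N` (`Dom.theta_mem` in CV/DK).  The fields of `Norm` are those of `EndMap`; `equi`: for `x` in the open disc
`hb (F.act c x) = v (G (ψ (v (A c (ψ x))))) = v (G (A c (ψ x))) = v (A (θ c) (G (ψ x))) = F.act (θ c) (hb x)` (`Act`; `A c` maps `fil X U` to itself, `fil_inv`),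
both sides are continuous on the closed disc (`act_cont`), and the open disc is dense in it.  `orient`: `orient_log` with `w₀ = hbi 0` (the derivative of `hb` at a
point of the open disc is that of `v ∘ G ∘ ψ`).
`exists_lf'`: apply `exists_norm` to `Lift.mul (Lift.pow ..)` with the domain data `Dom.mul (Dom.pow ..)`.
-/

namespace CV

open Metric Set Filter Topology Function DS TN

section
variable {S : Type} [MetricSpace S] [CompactSpace S] {X : Set ℂ} {Γ : Type} [Group Γ]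
  {A : Γ → ℂ → ℂ} {p : ℂ → S} {g gi : S → S} {G Gi : ℂ → ℂ} {θ : Γ ≃* Γ} {ρ : ℂ → ℝ}
  {U : Set ℂ} {N : Subgroup Γ} {ψ v : ℂ → ℂ} {F : Fuchs N}

/-- the restriction of `θ` to the stabiliser -/
def QC_theta (D : Deck X A p) (L : Lift X A p g gi G Gi θ ρ) (M : Dom X A p g G U N) : N ≃* N where
  toFun d := ⟨θ d, (M.theta_mem D L d).2 d.2⟩
  invFun d := ⟨θ.symm d, (M.theta_mem D L (θ.symm d)).1 (by rw [MulEquiv.apply_symm_apply]; exact d.2)⟩
  left_inv d := Subtype.ext (by simp)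
  right_inv d := Subtype.ext (by simp)
  map_mul' d d' := Subtype.ext (by simp)

theorem exists_norm (D : Deck X A p) (L : Lift X A p g gi G Gi θ ρ) (M : Dom X A p g G U N)
    (R : Riem (fil X U) ψ v) (hF : Act A ψ v F) :
    ∃ e : Elt N, Norm F e ∧ (∀ z ∈ ball (0:ℂ) 1, e.H z = v (G (ψ z))) ∧
      (∀ z ∈ ball (0:ℂ) 1, e.Hi z = v (Gi (ψ z))) ∧ ∀ d : N, ((e.θ d : N) : Γ) = θ d := by
  obtain ⟨c1, c1i, m, mi, il, ir, ⟨Kq, hq, hqi⟩, hdet⟩ := riem_coord D L M R
  obtain ⟨hb, hbi, hE⟩ := DG.qc_extend c1 c1i m mi il ir hq hqi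
  obtain ⟨mG, mGi⟩ := fil_maps D L M
  have hbe : ∀ z ∈ ball (0:ℂ) 1, hb z = v (G (ψ z)) := hE.be
  have hbie : ∀ z ∈ ball (0:ℂ) 1, hbi z = v (Gi (ψ z)) := hE.bie
  have hcl : closure (ball (0:ℂ) 1) = closedBall 0 1 := closure_ball _ one_ne_zero
  have hsub : ball (0:ℂ) 1 ⊆ closedBall 0 1 := ball_subset_closedBall
  refine ⟨⟨hb, hbi, QC_theta D L M⟩, ⟨hE.bc, hE.bic, hE.bo, hE.bio, hE.bs, hE.bis, hE.bib, hE.bbi,
    ?_, ?_⟩, hbe, hbie, fun d => rfl⟩
  · intro c
    have hmaps : ∀ d : N, MapsTo (F.act d) (closedBall 0 1) (closedBall 0 1) := by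
      intro d x hx
      rw [mem_closedBall_zero_iff] at hx ⊢
      exact mob_closedBall (F.hu d) (F.hb d) hx
    have hmapsb : ∀ d : N, MapsTo (F.act d) (ball 0 1) (ball 0 1) := by
      intro d x hx
      rw [mem_ball_zero_iff] at hx ⊢
      exact mob_ball (F.hu d) (F.hb d) hx
    have hbm : MapsTo hb (closedBall 0 1) (closedBall 0 1) := hE.bm
    have key : EqOn (fun x => hb (F.act c x)) (fun x => F.act (QC_theta D L M c) (hb x))
        (ball 0 1) := by
      intro x hx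
      have hW : ψ x ∈ fil X U := R.mψ hx
      have hcW : A (c : Γ) (ψ x) ∈ fil X U := by
        rw [← fil_inv D M c.2]
        exact mem_image_of_mem _ hW
      show hb (F.act c x) = F.act (QC_theta D L M c) (hb x)
      rw [hbe _ (hmapsb c hx), hF c x hx, R.ψv _ hcW, L.equi _ _ hW.1, hbe x hx,
        hF _ _ (R.mv (mG hW)), R.ψv _ (mG hW)]
      rfl
    have h2 : EqOn (fun x => hb (F.act c x)) (fun x => F.act (QC_theta D L M c) (hb x))
        (closedBall 0 1) := by
      have hac : ∀ d : N, ContinuousOn (F.act d) (closedBall 0 1) := fun d => mob_cont (F.hb d)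
      apply key.of_subset_closure (hE.bc.comp (hac c) (hmaps c))
        ((hac _).comp hE.bc hbm) hsub
      rw [hcl]
    exact fun x hx => h2 hx
  · have h0 : (0:ℂ) ∈ ball (0:ℂ) 1 := mem_ball_self one_pos
    have hw : hbi 0 ∈ ball (0:ℂ) 1 := hE.bio h0
    have hev : hb =ᶠ[𝓝 (hbi 0)] fun z => v (G (ψ z)) := by
      filter_upwards [isOpen_ball.mem_nhds hw] with z hz
      exact hbe z hz
    have hd : DifferentiableAt ℝ (fun z => v (G (ψ z))) (hbi 0) :=
      (c1.contDiffAt (isOpen_ball.mem_nhds hw)).differentiableAt (by norm_num)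
    refine DG.orient_log hE.bc ?_ hw (hE.bbi 0 (hsub h0)) (hev.differentiableAt_iff.2 hd) ?_
    · intro a ha b hb' hab
      have hab' : hb a = hb b := hab
      rw [← hE.bib a ha, hab', hE.bib b hb']
    · rw [hev.fderiv_eq]
      exact hdet _ hw

theorem exists_lf' (D : Deck X A p) (L : Lift X A p g gi G Gi θ ρ) (M : Dom X A p g G U N)
    (R : Riem (fil X U) ψ v) (hF : Act A ψ v F) {n : ℕ} (hn : 0 < n) (c : N) :
    ∃ e, Lf A G Gi θ ψ v F n c e := by
  obtain ⟨θn, hθn, Ln⟩ := Lift.pow D L n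
  have Lm := Lift.mul D Ln (c : Γ)
  have Mm := Dom.mul (Dom.pow L.cg M hn) c.2
  obtain ⟨e, h1, h2, h3, h4⟩ := exists_norm D Lm Mm R hF
  refine ⟨e, h1, h2, h3, fun d => ?_⟩
  rw [h4, ← hθn]
  rfl

end

end CV
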