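import Pool.Agent.H36.DS.HBase

/-!
GC (cone extension of a homeomorphism of the closed disc to the plane).  `g z = hb z` for `‖z‖ ≤ 1` and
`g z = ‖z‖ * hb (z / ‖z‖)` for `‖z‖ ≥ 1` (the two agree on the circle); continuous (two closed pieces); the same formula for
`hbi` gives the inverse (`‖hb (z/‖z‖)‖ = 1`).
-/

namespace DG
open Metric Set Filter Topology DS

/-- the cone extension of a map of the closed disc -/
noncomputable def GC_ext (b : ℂ → ℂ) (z : ℂ) : ℂ :=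
  if ‖z‖ ≤ 1 then b z else ‖z‖ • b (‖z‖⁻¹ • z)

theorem GC_sphere {z : ℂ} (hz : 1 ≤ ‖z‖) : ‖z‖⁻¹ • z ∈ sphere (0:ℂ) 1 := by
  have h0 : ‖z‖ ≠ 0 := by linarith
  rw [mem_sphere_zero_iff_norm, norm_smul, norm_inv, norm_norm, inv_mul_cancel₀ h0]

theorem GC_cont {b : ℂ → ℂ} (hb : ContinuousOn b (closedBall 0 1)) : Continuous (GC_ext b) := by
  unfold GC_ext
  refine continuous_if_le continuous_norm continuous_const ?_ ?_ ?_
  · refine hb.mono fun z hz => ?_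
    rw [mem_closedBall_zero_iff]; exact hz
  · have h1 : ContinuousOn (fun z : ℂ => ‖z‖⁻¹ • z) {z | 1 ≤ ‖z‖} := by
      refine ContinuousOn.smul (continuous_norm.continuousOn.inv₀ ?_) continuousOn_id
      intro z hz h0
      have : (1:ℝ) ≤ ‖z‖ := hz
      linarith
    exact continuous_norm.continuousOn.smul
      (hb.comp h1 fun z hz => sphere_subset_closedBall (GC_sphere hz))
  · intro z hz
    rw [hz, inv_one, one_smul, one_smul]

theorem GC_in {b : ℂ → ℂ} {z : ℂ} (hz : ‖z‖ ≤ 1) : GC_ext b z = b z := if_pos hz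

theorem GC_out {b : ℂ → ℂ} {z : ℂ} (hz : 1 ≤ ‖z‖) : GC_ext b z = ‖z‖ • b (‖z‖⁻¹ • z) := by
  rcases eq_or_lt_of_le hz with h | h
  · rw [GC_in h.symm.le, ← h, inv_one, one_smul, one_smul]
  · exact if_neg (not_le.mpr h)

theorem GC_norm {b : ℂ → ℂ} (hs : MapsTo b (sphere 0 1) (sphere 0 1)) {z : ℂ} (hz : 1 ≤ ‖z‖) :
    ‖GC_ext b z‖ = ‖z‖ := by
  rw [GC_out hz, norm_smul, norm_norm, mem_sphere_zero_iff_norm.mp (hs (GC_sphere hz)), mul_one]

theorem GC_inv {b bi : ℂ → ℂ} (hm : MapsTo b (closedBall 0 1) (closedBall 0 1))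
    (hs : MapsTo b (sphere 0 1) (sphere 0 1)) (hi : ∀ z ∈ closedBall (0:ℂ) 1, bi (b z) = z)
    (z : ℂ) : GC_ext bi (GC_ext b z) = z := by
  rcases le_total ‖z‖ 1 with h | h
  · have h1 : z ∈ closedBall (0:ℂ) 1 := by rwa [mem_closedBall_zero_iff]
    rw [GC_in h, GC_in (by simpa using hm h1), hi z h1]
  · have h0 : ‖z‖ ≠ 0 := by linarith
    have h1 := GC_norm hs h
    rw [GC_out (b := bi) (by rw [h1]; exact h), h1, GC_out h, smul_smul, inv_mul_cancel₀ h0,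
      one_smul, hi _ (sphere_subset_closedBall (GC_sphere h)), smul_smul, mul_inv_cancel₀ h0,
      one_smul]

theorem cone_extend {h hi hb hbi : ℂ → ℂ}
    (hE : EndMap (fun z : ℂ => z) (fun z : ℂ => z) h hi hb hbi) :
    ∃ g gi : ℂ → ℂ, Continuous g ∧ Continuous gi ∧ (∀ z, gi (g z) = z) ∧ (∀ z, g (gi z) = z) ∧
      (∀ z ∈ closedBall (0:ℂ) 1, g z = hb z) ∧ (∀ z ∈ closedBall (0:ℂ) 1, gi z = hbi z) ∧
      (∀ z ∈ ball (0:ℂ) 1, g z = h z) ∧ (∀ z ∈ ball (0:ℂ) 1, gi z = hi z) ∧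
      ∀ z : ℂ, z ∉ ball (0:ℂ) 1 → g z ∉ ball (0:ℂ) 1 ∧ gi z ∉ ball (0:ℂ) 1 := by
  have hin : ∀ z ∈ closedBall (0:ℂ) 1, ‖z‖ ≤ 1 := fun z hz => by simpa using hz
  refine ⟨GC_ext hb, GC_ext hbi, GC_cont hE.bc, GC_cont hE.bic, GC_inv hE.bm hE.bs hE.bib,
    GC_inv hE.bim hE.bis hE.bbi, fun z hz => GC_in (hin z hz), fun z hz => GC_in (hin z hz),
    fun z hz => ?_, fun z hz => ?_, fun z hz => ?_⟩
  · rw [GC_in (hin z (ball_subset_closedBall hz)), hE.be z hz]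
  · rw [GC_in (hin z (ball_subset_closedBall hz)), hE.bie z hz]
  · rw [mem_ball_zero_iff, not_lt] at hz
    rw [mem_ball_zero_iff, mem_ball_zero_iff, not_lt, not_lt, GC_norm hE.bs hz,
      GC_norm hE.bis hz]
    exact ⟨hz, hz⟩

end DG
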