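import Pool.Agent.H36.DS.XBase

/-!
GD (homeomorphisms of the plane extend to the sphere).  `gs x = q (g (p x))` for `x ≠ O`, `gs O = O`; continuous at `O`: a
homeomorphism of the plane is proper (`g z → ∞` for `z → ∞`), `p_lim`, `q_lim`.
-/

namespace DG
open Metric Set Filter Topology DS

open Classical in
/-- the extension of a map of the plane to the sphere -/
noncomputable def GD_ext (O : S2) (p : S2 → ℂ) (q : ℂ → S2) (g : ℂ → ℂ) (x : S2) : S2 :=
  if x = O then O else q (g (p x))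

theorem GD_cont {O : S2} {p : S2 → ℂ} {q : ℂ → S2} (hS : SC O p q) {g gi : ℂ → ℂ}
    (hg : Continuous g) (hgi : Continuous gi) (h1 : ∀ z, gi (g z) = z) (h2 : ∀ z, g (gi z) = z) :
    Continuous (GD_ext O p q g) := by
  let e : ℂ ≃ₜ ℂ := ⟨⟨g, gi, h1, h2⟩, hg, hgi⟩
  have hprop : Tendsto g (cocompact ℂ) (cocompact ℂ) := e.isClosedEmbedding.tendsto_cocompact
  rw [continuous_iff_continuousAt]
  intro x
  by_cases hx : x = O
  · subst hx
    rw [continuousAt_iff_punctured_nhds]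
    have h3 : GD_ext x p q g x = x := by simp [GD_ext]
    rw [h3]
    have h4 : Tendsto (fun y => q (g (p y))) (𝓝[≠] x) (𝓝 x) :=
      hS.q_lim.comp (hprop.comp hS.p_lim)
    refine h4.congr' ?_
    filter_upwards [self_mem_nhdsWithin] with y hy
    have hy' : y ≠ x := hy
    simp [GD_ext, hy']
  · have hx' : {O}ᶜ ∈ 𝓝 x := isOpen_compl_singleton.mem_nhds hx
    have h3 : ContinuousAt (fun y => q (g (p y))) x := by
      have h4 : ContinuousAt p x := hS.p_smooth.continuousOn.continuousAt hx'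
      exact (hS.q_smooth.continuous.comp hg).continuousAt.comp h4
    refine h3.congr ?_
    filter_upwards [hx'] with y hy
    have hy' : y ≠ O := hy
    simp [GD_ext, hy']

theorem GD_q {O : S2} {p : S2 → ℂ} {q : ℂ → S2} (hS : SC O p q) (g : ℂ → ℂ) (z : ℂ) :
    GD_ext O p q g (q z) = q (g z) := by
  simp [GD_ext, hS.q_ne z, hS.pq]

theorem GD_ne {O : S2} {p : S2 → ℂ} {q : ℂ → S2} (hS : SC O p q) (g : ℂ → ℂ) (x : S2) (hx : x ≠ O) :
    GD_ext O p q g x ≠ O ∧ p (GD_ext O p q g x) = g (p x) := by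
  simp [GD_ext, hx, hS.q_ne, hS.pq]

theorem GD_inv {O : S2} {p : S2 → ℂ} {q : ℂ → S2} (hS : SC O p q) {g gi : ℂ → ℂ}
    (h1 : ∀ z, gi (g z) = z) (x : S2) : GD_ext O p q gi (GD_ext O p q g x) = x := by
  by_cases hx : x = O
  · subst hx
    simp [GD_ext]
  · have h3 : GD_ext O p q g x = q (g (p x)) := by simp [GD_ext, hx]
    rw [h3, GD_q hS, h1, hS.qp x hx]

theorem sphere_ext {O : S2} {p : S2 → ℂ} {q : ℂ → S2} (hS : SC O p q) {g gi : ℂ → ℂ}
    (hg : Continuous g) (hgi : Continuous gi) (h1 : ∀ z, gi (g z) = z) (h2 : ∀ z, g (gi z) = z) :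
    ∃ gs gsi : S2 → S2, Continuous gs ∧ Continuous gsi ∧ (∀ x, gsi (gs x) = x) ∧
      (∀ x, gs (gsi x) = x) ∧ gs O = O ∧ gsi O = O ∧ (∀ z, gs (q z) = q (g z)) ∧
      (∀ z, gsi (q z) = q (gi z)) ∧ (∀ x, x ≠ O → gs x ≠ O ∧ p (gs x) = g (p x)) ∧
      ∀ x, x ≠ O → gsi x ≠ O ∧ p (gsi x) = gi (p x) := by
  refine ⟨GD_ext O p q g, GD_ext O p q gi, GD_cont hS hg hgi h1 h2, GD_cont hS hgi hg h2 h1,
    GD_inv hS h1, GD_inv hS h2, by simp [GD_ext], by simp [GD_ext], GD_q hS g, GD_q hS gi,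
    GD_ne hS g, GD_ne hS gi⟩

end DG
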