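import Pool.Agent.H36.DG.QA
import Pool.Agent.H36.DG.GB
import Pool.Agent.H36.DG.GC
import Pool.Agent.H36.DG.GD

/-!
SE (a lift extends to a homeomorphism of the sphere).  Case `X = univ`: `sphere_ext` (DG/GD) for `G`, `Gi` (continuous, inverse to each other on `univ`).
Case `X = ball 0 1`: `qc_lift` for `G` and (by `Lift.symm`) for `Gi`, `qc_extend` (DG/GB) with `h = G`, `hi = Gi`, `cone_extend` (DG/GC), `sphere_ext`.
-/

namespace CV

open Metric Set Filter Topology Function DS TN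

section
variable {S : Type} [MetricSpace S] [CompactSpace S] {X : Set ℂ} {Γ : Type} [Group Γ]
  {A : Γ → ℂ → ℂ} {p : ℂ → S} {g gi : S → S} {G Gi : ℂ → ℂ} {θ : Γ ≃* Γ} {ρ : ℂ → ℝ}

/-- a lift extends to a homeomorphism of the plane -/
theorem plane_lift (D : Deck X A p) (L : Lift X A p g gi G Gi θ ρ) :
    ∃ H Hi : ℂ → ℂ, Continuous H ∧ Continuous Hi ∧ (∀ z, Hi (H z) = z) ∧ (∀ z, H (Hi z) = z) ∧
      (∀ z ∈ X, H z = G z) ∧ ∀ z ∈ X, Hi z = Gi z := by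
  rcases D.hX with ⟨hX, -⟩ | ⟨hX, -⟩
  · refine ⟨G, Gi, ?_, ?_, fun z => ?_, fun z => ?_, fun z _ => rfl, fun z _ => rfl⟩
    · rw [← continuousOn_univ, ← hX]
      exact L.c1.continuousOn
    · rw [← continuousOn_univ, ← hX]
      exact L.c1i.continuousOn
    · exact L.GiG z (hX ▸ mem_univ z)
    · exact L.GGi z (hX ▸ mem_univ z)
  · obtain ⟨K1, hK1⟩ := qc_lift D L
    obtain ⟨K2, hK2⟩ := qc_lift D (Lift.symm D L)
    have c1 := L.c1
    have c1i := L.c1i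
    have mG := L.mG
    have mGi := L.mGi
    have GiG := L.GiG
    have GGi := L.GGi
    rw [hX] at hK1 hK2 c1 c1i mG mGi GiG GGi
    obtain ⟨hb, hbi, hE⟩ := DG.qc_extend c1 c1i mG mGi GiG GGi (Kq := max K1 K2)
      (fun z hz => (hK1 z hz).trans
        (mul_le_mul_of_nonneg_right (le_max_left _ _) (abs_nonneg _)))
      (fun z hz => (hK2 z hz).trans
        (mul_le_mul_of_nonneg_right (le_max_right _ _) (abs_nonneg _)))
    obtain ⟨H, Hi, h1, h2, h3, h4, -, -, h7, h8, -⟩ := DG.cone_extend hE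
    rw [hX]
    exact ⟨H, Hi, h1, h2, h3, h4, h7, h8⟩

theorem sphere_lift (D : Deck X A p) (L : Lift X A p g gi G Gi θ ρ) {O : S2} {pp : S2 → ℂ}
    {q : ℂ → S2} (hS : SC O pp q) :
    ∃ gs gsi : S2 → S2, Continuous gs ∧ Continuous gsi ∧ (∀ x, gsi (gs x) = x) ∧
      (∀ x, gs (gsi x) = x) ∧ (∀ z ∈ X, gs (q z) = q (G z)) ∧ ∀ z ∈ X, gsi (q z) = q (Gi z) := by
  obtain ⟨H, Hi, h1, h2, h3, h4, h5, h6⟩ := plane_lift D L
  obtain ⟨gs, gsi, g1, g2, g3, g4, -, -, g7, g8, -, -⟩ := DG.sphere_ext hS h1 h2 h3 h4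
  exact ⟨gs, gsi, g1, g2, g3, g4, fun z hz => by rw [g7, h5 z hz], fun z hz => by rw [g8, h6 z hz]⟩

end

end CV
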