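import Pool.Agent.H36.DG.LLa

/-!
SPB (`SPX` is invariant under the inverse lift).  `x ∈ X`, `Q ∈ X`, `Hyp (p Q)`, a curve `α` in `StabX X p g Q` with `α 0 = x`, velocity `v ≠ 0`.  Take `Gi Q`, `Gi ∘ α`: `Hyp (p (Gi Q)) = Hyp (gi (p Q))`
(`(L.symm D).lift`, `C.inv`); `Gi ∘ α` is `C¹` on `Ioo (-1) 1` (`c1i`), its velocity is `DGi(x) v ≠ 0` (chain rule; `DGi(x)` is injective because `DG(Gi x) ∘ DGi(x) = 1`);
`g^[n] (p (Gi y)) = g^[n] (gi (p y)) = g^[n-1] (p y)` for `n ≥ 1`, the same for `Q`, so `Gi y ∈ StabX X p g (Gi Q)` for `y ∈ StabX X p g Q`.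
-/

namespace CV

open Metric Set Filter Topology Function DS TN

section
variable {S : Type} [MetricSpace S] {X : Set ℂ} {Γ : Type} [Group Γ]
  {A : Γ → ℂ → ℂ} {p : ℂ → S} {g gi : S → S} {G Gi : ℂ → ℂ} {θ : Γ ≃* Γ} {ρ : ℂ → ℝ}
  {Hyp : S → Prop}

theorem SPB_stab (D : Deck X A p) (L : Lift X A p g gi G Gi θ ρ) {Q y : ℂ} (hQ : Q ∈ X)
    (hy : y ∈ StabX X p g Q) : Gi y ∈ StabX X p g (Gi Q) := by
  obtain ⟨hyX, hlim⟩ := hy
  have hl := (L.symm D).lift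
  refine ⟨L.mGi hyX, ?_⟩
  rw [hl y hyX, hl Q hQ]
  rw [← tendsto_add_atTop_iff_nat 1]
  refine hlim.congr fun n => ?_
  rw [iterate_succ_apply, iterate_succ_apply, L.ggi, L.ggi]

theorem spx_back (D : Deck X A p) (L : Lift X A p g gi G Gi θ ρ) (C : Cond X A p g gi G Hyp)
    {x : ℂ} (h : SPX X p g Hyp x) : SPX X p g Hyp (Gi x) := by
  obtain ⟨hx, Q, hQ, hHyp, v, hv, α, hα, hαW, hα0, hαd⟩ := h
  have hl := (L.symm D).lift
  have hXn : X ∈ 𝓝 x := D.opn.mem_nhds hx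
  have hGix : Gi x ∈ X := L.mGi hx
  have dGi : DifferentiableAt ℝ Gi x := (L.c1i.differentiableOn one_ne_zero x hx).differentiableAt hXn
  have dG : DifferentiableAt ℝ G (Gi x) :=
    (L.c1.differentiableOn one_ne_zero (Gi x) hGix).differentiableAt (D.opn.mem_nhds hGix)
  have dα : DifferentiableAt ℝ α 0 :=
    (hα.differentiableOn one_ne_zero 0 (by constructor <;> norm_num)).differentiableAt
      (Ioo_mem_nhds (by norm_num) (by norm_num))
  have hinj : fderiv ℝ G (Gi x) (fderiv ℝ Gi x v) = v := by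
    have h1 : HasFDerivAt (fun y => G (Gi y)) ((fderiv ℝ G (Gi x)).comp (fderiv ℝ Gi x)) x :=
      dG.hasFDerivAt.comp x dGi.hasFDerivAt
    have h2 : HasFDerivAt (fun y => G (Gi y)) (ContinuousLinearMap.id ℝ ℂ) x := by
      refine (hasFDerivAt_id x).congr_of_eventuallyEq ?_
      filter_upwards [hXn] with y hy
      exact L.GGi y hy
    have h3 := h1.unique h2
    have h4 := congrArg (fun T : ℂ →L[ℝ] ℂ => T v) h3
    simpa using h4
  refine ⟨hGix, Gi Q, L.mGi hQ, ?_, fderiv ℝ Gi x v, ?_, fun t => Gi (α t), ?_, ?_, ?_, ?_⟩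
  · rw [hl Q hQ]
    exact C.inv _ hHyp
  · intro h0
    rw [h0, map_zero] at hinj
    exact hv hinj.symm
  · exact L.c1i.comp hα fun t ht => (hαW t ht).1
  · intro t ht
    exact SPB_stab D L hQ (hαW t ht)
  · simp only [hα0]
  · have h1 : HasFDerivAt Gi (fderiv ℝ Gi x) (α 0) := by rw [hα0]; exact dGi.hasFDerivAt
    have h2 := h1.comp_hasDerivAt (0 : ℝ) dα.hasDerivAt
    rw [hαd] at h2
    exact h2.deriv

end

end CV
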