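import Pool.Agent.H36.DG.HN
import Pool.Agent.H36.DG.FLa
import Pool.Agent.H36.DG.FM
import Pool.Agent.H36.DG.SE
import Pool.Agent.H36.DG.SPB
import Pool.Agent.H36.DG.QC
import Pool.Agent.H36.DS.JF
import Pool.Agent.H36.DS.XA

/-!
FL (block B5: no fixed point on the circle outside the limit set).
`fixed_lim1`: apply `no_fixed_end` (Pool/Agent/H36/DS/JF.lean) with the space `S2`, a stereographic chart `SC O pp q` (`exists_SC`, DS/XA), `W = fil X U`, `K = (q '' W)ᶜ` (closed: `q '' W` is open since it is `{x ≠ O | pp x ∈ W}`),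
`φ = q ∘ ψ`, `u = v ∘ pp` (`fil_discMap`), `gs, gsi` from `sphere_lift`, `hb = e.H`, `hbi = e.Hi` (EndMap: the fields of `Norm`; `e.H z = v (G (ψ z)) = v (pp (gs (q (ψ z))))`), `ν = Measure.map q (mX X ρ)` (`q` is a measurable embedding), `SP = SPS X p g Hyp q`,
`E = sphere 0 1 \ F.lim`.
`gs '' K = K`: `gs (q z) = q (G z)`, `G '' W = W` (`fil_G`).  `hν`: `B ⊆ Kᶜ = q '' W`: `q ⁻¹' (gs '' B) ∩ X = G '' (q ⁻¹' B ∩ X)`, `mX_G`.  `hpos`: `q ⁻¹' O` is open, nonempty, in `W ⊆ X`: `mX_pos`.  `hSP`: `spx_back`, `gsi (q x) = q (Gi x)`.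
`hEo`: `lim_closed`.  `hEb`: `Norm.lim_iff` (TN/FN).  `hfin`: `inj_near`, `mX_fin` (`q ⁻¹' (φ '' B) = ψ '' B`, open).
`hloc`: `fl_loc` (DG/FLa).
`hnext`: `gap_next` for `e.iter (m - 1)`.
`fixed_lim'`: `fixed_lim1` for `Lift.mul (Lift.pow ..)`, `Cond.mul (Cond.pow ..)`, `Dom.mul (Dom.pow ..)`.
-/

namespace CV

open Metric Set Filter Topology Function DS TN MeasureTheory

section
variable {S : Type} [MetricSpace S] [CompactSpace S] {X : Set ℂ} {Γ : Type} [Group Γ]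
  {A : Γ → ℂ → ℂ} {p : ℂ → S} {g gi : S → S} {G Gi : ℂ → ℂ} {θ : Γ ≃* Γ} {ρ : ℂ → ℝ}
  {Hyp : S → Prop} {U : Set ℂ} {N : Subgroup Γ} {ψ v : ℂ → ℂ} {F : Fuchs N}

theorem FL_qopen {O : S2} {pp : S2 → ℂ} {q : ℂ → S2} (hS : SC O pp q) {V : Set ℂ}
    (hV : IsOpen V) : IsOpen (q '' V) := by
  have h1 : q '' V = {O}ᶜ ∩ pp ⁻¹' V := by
    ext x
    constructor
    · rintro ⟨z, hz, rfl⟩
      refine ⟨hS.q_ne z, ?_⟩
      rw [mem_preimage, hS.pq]
      exact hz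
    · rintro ⟨hx, hx'⟩
      exact ⟨pp x, hx', hS.qp x hx⟩
  rw [h1]
  exact hS.p_smooth.continuousOn.isOpen_inter_preimage isOpen_compl_singleton hV

theorem FL_qinj {O : S2} {pp : S2 → ℂ} {q : ℂ → S2} (hS : SC O pp q) : Injective q := by
  intro x y h
  rw [← hS.pq x, ← hS.pq y, h]

theorem FL_iter_Hi {Γ : Type} [Group Γ] (e : Elt Γ) (n : ℕ) : (e.iter n).Hi = e.Hi^[n + 1] := by
  induction n with
  | zero => rfl
  | succ n ih =>
    rw [Function.iterate_succ', ← ih]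
    rfl

theorem fixed_lim1 (D : Deck X A p) (L : Lift X A p g gi G Gi θ ρ) (C : Cond X A p g gi G Hyp)
    (M : Dom X A p g G U N) (R : Riem (fil X U) ψ v) (hF : Act A ψ v F)
    (hI : F.Nonel → F.UC) {e : Elt N} (he : Norm F e)
    (heH : ∀ z ∈ ball (0:ℂ) 1, e.H z = v (G (ψ z)))
    (heHi : ∀ z ∈ ball (0:ℂ) 1, e.Hi z = v (Gi (ψ z))) {ξ : ℂ} (hξ : ‖ξ‖ = 1)
    (hf : e.H ξ = ξ) : ξ ∈ F.lim := by
  obtain ⟨O, hO⟩ : (sphere (0 : E3) 1).Nonempty := NormedSpace.sphere_nonempty.2 zero_le_one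
  obtain ⟨pp, q, hS⟩ := exists_SC (⟨O, hO⟩ : S2)
  have hWX : fil X U ⊆ X := fun x hx => hx.1
  have hWo : IsOpen (fil X U) := fil_open D M
  have hqi := FL_qinj hS
  have hqc : Continuous q := hS.q_smooth.continuous
  have hDM := fil_discMap D M R hS
  obtain ⟨gs, gsi, cgs, cgsi, h1, h2, h3, h4⟩ := sphere_lift D L hS
  have hGW : G '' fil X U = fil X U := fil_G D L M
  have hgsim : ∀ B : Set S2, gs '' B = gsi ⁻¹' B := by
    intro B
    ext x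
    constructor
    · rintro ⟨y, hy, rfl⟩
      rw [mem_preimage, h1]
      exact hy
    · intro hx
      exact ⟨gsi x, hx, h2 x⟩
  have hgsW : gs '' (q '' fil X U) = q '' fil X U := by
    rw [image_image, image_congr fun z hz => h3 z (hWX hz), ← image_image, hGW]
  have hK : gs '' (q '' fil X U)ᶜ = (q '' fil X U)ᶜ := by
    rw [hgsim, preimage_compl, ← hgsim, hgsW]
  have hE : EndMap (fun z => q (ψ z)) (fun x => v (pp x)) gs gsi e.H e.Hi := by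
    refine ⟨he.cont, he.conti, he.mapC, he.mapCi, he.mapB, he.mapBi, he.mapS, he.mapSi, he.left,
      he.right, fun z hz => ?_, fun z hz => ?_⟩
    · rw [h3 _ (hWX (R.mψ hz)), hS.pq, heH z hz]
    · rw [h4 _ (hWX (R.mψ hz)), hS.pq, heHi z hz]
  have hmap : ∀ B : Set S2, MeasurableSet B →
      Measure.map q (mX X ρ) B = mX X ρ (q ⁻¹' B) := fun B hB =>
    Measure.map_apply hqc.measurable hB
  by_contra hξl
  refine no_fixed_end (hK := (FL_qopen hS hWo).isClosed_compl) hDM cgs cgsi h2 h1 hK hE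
    (Measure.map q (mX X ρ)) ?_ ?_ (SP := SPS X p g Hyp q) ?_ (E := sphere 0 1 \ F.lim)
    sdiff_subset ?_ ?_ ?_ ?_ ?_ ξ ⟨mem_sphere_zero_iff_norm.2 hξ, hξl⟩ hf
  · -- invariance of the measure
    intro B hB hBm
    rw [compl_compl] at hB
    have h5 : MeasurableSet (gs '' B) := by
      rw [hgsim]
      exact cgsi.measurable hBm
    rw [hmap _ h5, hmap _ hBm]
    have h6 : q ⁻¹' (gs '' B) = G '' (q ⁻¹' B) := by
      ext z
      constructor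
      · rintro ⟨b, hb, hbz⟩
        obtain ⟨w, hw, rfl⟩ := hB hb
        rw [h3 w (hWX hw)] at hbz
        exact ⟨w, hb, hqi hbz⟩
      · rintro ⟨w, hw, rfl⟩
        have hw' : w ∈ X := by
          obtain ⟨w', hw', h7⟩ := hB hw
          rw [← hqi h7]
          exact hWX hw'
        exact ⟨q w, hw, h3 w hw'⟩
    rw [h6]
    refine (mX_G D L ?_ (hqc.measurable hBm)).2
    intro w hw
    obtain ⟨w', hw', h7⟩ := hB hw
    rw [← hqi h7]
    exact hWX hw'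
  · intro V hV hVo hVn
    rw [compl_compl] at hV
    rw [hmap _ hVo.measurableSet]
    refine mX_pos D L ?_ (hVo.preimage hqc) ?_
    · intro w hw
      obtain ⟨w', hw', h7⟩ := hV hw
      rw [← hqi h7]
      exact hWX hw'
    · obtain ⟨x, hx⟩ := hVn
      obtain ⟨w, hw, rfl⟩ := hV hx
      exact ⟨w, hx⟩
  · rintro _ ⟨x, hx, rfl, hsp⟩
    refine ⟨Gi x, L.mGi hx, (h4 x hx).symm, spx_back D L C hsp⟩
  · rintro ζ ⟨hζ, hζl⟩
    obtain ⟨r, hr, hr'⟩ := Metric.isOpen_iff.1 (lim_closed F).isOpen_compl ζ hζl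
    exact ⟨r, hr, fun x hx => ⟨hx.1, hr' hx.2⟩⟩
  · ext ζ
    constructor
    · rintro ⟨x, ⟨hx, hxl⟩, rfl⟩
      refine ⟨he.mapS hx, fun h => hxl ((he.lim_iff (mem_sphere_zero_iff_norm.1 hx)).1 h)⟩
    · rintro ⟨hζ, hζl⟩
      have h5 : e.H (e.Hi ζ) = ζ := he.right ζ (sphere_subset_closedBall hζ)
      refine ⟨e.Hi ζ, ⟨he.mapSi hζ, fun h => hζl ?_⟩, h5⟩
      rw [← h5]
      exact (he.lim_iff (mem_sphere_zero_iff_norm.1 (he.mapSi hζ))).2 h
  · rintro ζ ⟨hζ, hζl⟩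
    obtain ⟨r, hr, hinj⟩ := inj_near D M R hF (mem_sphere_zero_iff_norm.1 hζ) hζl
    obtain ⟨m, hm, hm'⟩ := mX_fin D L
    refine ⟨r, hr, ?_⟩
    have hBo : IsOpen (ψ '' (ball 0 1 ∩ ball ζ r)) := by
      have h5 : ψ '' (ball 0 1 ∩ ball ζ r) = fil X U ∩ v ⁻¹' (ball 0 1 ∩ ball ζ r) := by
        ext w
        constructor
        · rintro ⟨z, hz, rfl⟩
          refine ⟨R.mψ hz.1, ?_⟩
          rw [mem_preimage, R.vψ z hz.1]
          exact hz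
        · rintro ⟨hw, hw'⟩
          exact ⟨v w, hw', R.ψv w hw⟩
      rw [h5]
      exact R.dv.continuousOn.isOpen_inter_preimage hWo (isOpen_ball.inter isOpen_ball)
    have h6 : (fun z => q (ψ z)) '' (ball 0 1 ∩ ball ζ r) = q '' (ψ '' (ball 0 1 ∩ ball ζ r)) := by
      rw [image_image]
    rw [h6, hmap _ (FL_qopen hS hBo).measurableSet, preimage_image_eq _ hqi]
    refine lt_of_le_of_lt (hm' _ ?_ hBo.measurableSet ?_) hm
    · rintro _ ⟨z, hz, rfl⟩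
      exact hWX (R.mψ hz.1)
    · rintro _ ⟨z, hz, rfl⟩ _ ⟨w, hw, rfl⟩ h
      rw [hinj hz hw h]
  · rintro ζ ⟨hζ, hζl⟩ m hm hf'
    exact fl_loc D L C M R hF he heH hS h3 (mem_sphere_zero_iff_norm.1 hζ) hζl hm hf'
  · rintro ζ ⟨hζ, hζl⟩ m hm hf' J hJ hJc hJi hJt x hx hJx
    obtain ⟨n, rfl⟩ : ∃ n, m = n + 1 := ⟨m - 1, (Nat.succ_pred_eq_of_pos hm).symm⟩
    refine ⟨hx, ?_⟩
    rw [← Elt.iter_H] at hf' hJi hJt
    rw [← FL_iter_Hi] at hJx
    exact gap_next F hI (he.iter n) (mem_sphere_zero_iff_norm.1 hζ) hζl hf' hJ hJc hJi hJt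
      (mem_sphere_zero_iff_norm.1 hx) hJx

theorem fixed_lim' (D : Deck X A p) (L : Lift X A p g gi G Gi θ ρ) (C : Cond X A p g gi G Hyp)
    (M : Dom X A p g G U N) (R : Riem (fil X U) ψ v) (hF : Act A ψ v F)
    (hI : F.Nonel → F.UC) {n : ℕ} (hn : 0 < n) {c : N} {e : Elt N}
    (he : Lf A G Gi θ ψ v F n c e) {ξ : ℂ} (hξ : ‖ξ‖ = 1) (hf : e.H ξ = ξ) : ξ ∈ F.lim := by
  obtain ⟨θn, -, Ln⟩ := Lift.pow D L n
  exact fixed_lim1 D (Lift.mul D Ln c) (Cond.mul D Ln (Cond.pow D L C hn) c)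
    (Dom.mul (Dom.pow L.cg M hn) c.2) R hF hI he.norm he.H he.Hi hξ hf

end

end CV
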