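import Pool.Agent.H36.DG.HEa
import Pool.Agent.H36.DS.TBase
import Pool.Agent.H36.DS.ID

/-!
IS (the star property of invariant islands, block B6).
`island_star_nt`: `exists_tau`, `tau_lift`, `exists_SC`, `star_of_ends` (DS/TS) with `K = Y` (`island_top`) and `island_noend` give `Star (fun z => pp (gs (q z))) k Y`; on the neighbourhood `V ∩ G ⁻¹' V` of `Y` the map `pp ∘ gs ∘ q` is equal to `G` (`τ = id` on `V`).  Apply it with `N ∩ V ∩ G ⁻¹' V`.
`island_star_pt`: `Y = {P}`, `G P = P`.  `Cond.one`: if `Hyp (p P)`, `2 < |tr|`: `hyp_arc` gives a connected `T ⊆ StabX X p g P ⊆ X \ U` (`M.stab`, `C.per`) containing `P` and another point; it is contained in the component `Y = {P}`: contradiction.  So `|tr| < 2`,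
`det (B - 1) = 2 - tr B > 0` for `B = fderiv ℝ G P`; `star_point` (DS/ID).
`island_index'`: `L' = Lift.mul (Lift.pow ..)` etc. for `H' x = A c (G^[n] x)`, `k ∈ Y` arbitrary, `island_star` with `V ∩ X`.  If `H = H'` on `X`: direct (`frontier O ⊆ closure O ⊆ X`).  If `H = Gi^[n] (A c⁻¹ x)` on `X`: apply it with the neighbourhood `V₁ = {x ∈ V ∩ X | H' x ∈ V ∩ X}` to get `O₁`, and put
`O = H' '' O₁` (open: `H'` is a homeomorphism of `X`; `closure O = H' '' closure O₁`, `closure O₁` is compact in `X`; `frontier O = H' '' frontier O₁`; `H' '' Y = Y`).  For `x = H' y`, `y ∈ frontier O₁`: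
`(H x - x) / (x - k) = (y - H' y) / (H' y - k) = - ((H' y - y) / (y - k)) / ((H' y - k) / (y - k))` has a logarithm (`IC_log_div`, `IC_log_neg`, `IC_log_comp` with `H`).
-/

namespace CV

open Metric Set Filter Topology Function DS TN MeasureTheory

section
variable {S : Type} [MetricSpace S] [CompactSpace S] {X : Set ℂ} {Γ : Type} [Group Γ]
  {A : Γ → ℂ → ℂ} {p : ℂ → S} {g gi : S → S} {G Gi : ℂ → ℂ} {θ : Γ ≃* Γ} {ρ : ℂ → ℝ}
  {Hyp : S → Prop} {U : Set ℂ} {N : Subgroup Γ}

theorem ISb_det (B : ℂ →L[ℝ] ℂ) : (B - ContinuousLinearMap.id ℝ ℂ).det =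
    B.det - LinearMap.trace ℝ ℂ (B : ℂ →ₗ[ℝ] ℂ) + 1 := by
  have h1 : ∀ T : ℂ →ₗ[ℝ] ℂ, LinearMap.det T =
      (T 1).re * (T Complex.I).im - (T Complex.I).re * (T 1).im := by
    intro T
    rw [← LinearMap.det_toMatrix Complex.basisOneI, Matrix.det_fin_two]
    simp [LinearMap.toMatrix_apply]
  have h2 : LinearMap.trace ℝ ℂ (B : ℂ →ₗ[ℝ] ℂ) = (B 1).re + (B Complex.I).im := by
    rw [LinearMap.trace_eq_matrix_trace ℝ Complex.basisOneI, Matrix.trace_fin_two]
    simp [LinearMap.toMatrix_apply]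
  have h3 : B.det = (B 1).re * (B Complex.I).im - (B Complex.I).re * (B 1).im := h1 _
  have h4 : (B - ContinuousLinearMap.id ℝ ℂ).det = ((B 1).re - 1) * ((B Complex.I).im - 1) -
      (B Complex.I).re * (B 1).im := by
    have := h1 ((B - ContinuousLinearMap.id ℝ ℂ : ℂ →L[ℝ] ℂ) : ℂ →ₗ[ℝ] ℂ)
    refine this.trans ?_
    simp
  rw [h4, h3, h2]
  ring

theorem island_star_pt (D : Deck X A p) (L : Lift X A p g gi G Gi θ ρ)
    (C : Cond X A p g gi G Hyp) (M : Dom X A p g G U N) {P : ℂ} (hY : Island X U {P})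
    (hGY : G '' {P} = {P}) : Star G P {P} := by
  obtain ⟨x, hx, hcx⟩ := hY.comp
  have hxP : x = P := by
    have h1 : x ∈ connectedComponentIn (X \ U) x := mem_connectedComponentIn hx
    rw [← hcx] at h1
    exact h1
  subst hxP
  have hPX : x ∈ X := hx.1
  have hGP : G x = x := by
    rw [image_singleton] at hGY
    exact singleton_injective hGY
  obtain ⟨hdet, htri⟩ := Cond.one D L C hPX hGP
  have htr : |LinearMap.trace ℝ ℂ (fderiv ℝ G x : ℂ →ₗ[ℝ] ℂ)| < 2 := by
    rcases htri with h | ⟨hH, h⟩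
    · exact h
    · exfalso
      obtain ⟨T, hT, hTc, hPT, y, hy, hyne⟩ := hyp_arc D L C hPX hGP hH h
      have h1 : T ⊆ X \ U := by
        intro w hw
        refine ⟨(hT hw).1, fun hwU => ?_⟩
        exact (Set.disjoint_left.1 (M.stab x hPX (C.per _ hH))) hwU (hT hw)
      have h2 := hTc.isPreconnected.subset_connectedComponentIn hPT h1 hy
      rw [← hcx] at h2
      exact hyne h2
  have hB : HasFDerivAt G (fderiv ℝ G x) x :=
    ((L.c1.differentiableOn one_ne_zero x hPX).differentiableAt (D.opn.mem_nhds hPX)).hasFDerivAt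
  have hcont : ∀ᶠ z in 𝓝 x, ContinuousAt G z := by
    filter_upwards [D.opn.mem_nhds hPX] with z hz
    exact L.c1.continuousOn.continuousAt (D.opn.mem_nhds hz)
  have hd1 : 0 < (fderiv ℝ G x - ContinuousLinearMap.id ℝ ℂ).det := by
    rw [ISb_det, hdet]
    linarith [(abs_lt.1 htr).2]
  intro N' hN' hPN'
  obtain ⟨O, o1, o2, o3, o4, o5, o6, o7⟩ := star_point hB hGP hd1 (by rw [hdet]; exact one_pos)
    hcont hN' (hPN' rfl)
  exact ⟨O, o1, singleton_subset_iff.2 o2, o3, o4, o5, o6, fun z hz hzP => o7 z hz hzP⟩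

end

end CV
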