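import Pool.Agent.H36.DG.ISa
import Pool.Agent.H36.DG.ISb

/-!
IS (the star property of invariant islands, block B6).
`island_star_nt`: `exists_tau`, `tau_lift`, `exists_SC`, `star_of_ends` (DS/TS) with `K = Y` (`island_top`) and `island_noend` give `Star (fun z => pp (gs (q z))) k Y`; on the neighbourhood `V ∩ G ⁻¹' V` of `Y` the map `pp ∘ gs ∘ q` is equal to `G` (`τ = id` on `V`).  Apply it with `N ∩ V ∩ G ⁻¹' V`.
`island_star_pt`: `Y = {P}`, `G P = P`.  `Cond.one`: if `Hyp (p P)`, `2 < |tr|`: `hyp_arc` gives a connected `T ⊆ StabX X p g P ⊆ X \ U` (`M.stab`, `C.per`) containing `P` and another point; it is contained in the component `Y = {P}`: contradiction.  So `|tr| < 2`,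
`det (B - 1) = 2 - tr B > 0` for `B = fderiv ℝ G P`; `star_point` (DS/ID).
`island_index'`: `L' = Lift.mul (Lift.pow ..)` etc. for `H' x = A c (G^[n] x)`, `k ∈ Y` arbitrary, `island_star` with `V ∩ X`.  If `H = H'` on `X`: direct (`frontier O ⊆ closure O ⊆ X`).  If `H = Gi^[n] (A c⁻¹ x)` on `X`: apply it with the neighbourhood `V₁ = {x ∈ V ∩ X | H' x ∈ V ∩ X}` to get `O₁`, and put
`O = H' '' O₁` (open: `H'` is a homeomorphism of `X`; `closure O = H' '' closure O₁`, `closure O₁` is compact in `X`; `frontier O = H' '' frontier O₁`; `H' '' Y = Y`).  For `x = H' y`, `y ∈ frontier O₁`: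
`(H x - x) / (x - k) = (y - H' y) / (H' y - k) = - ((H' y - y) / (y - k)) / ((H' y - k) / (y - k))` has a logarithm (`IC_log_div`, `IC_log_neg`, `IC_log_comp` with `H`).
-/

namespace CV

open Metric Set Filter Topology Function DS TN MeasureTheory

section
variable {S : Type} [MetricSpace S] [CompactSpace S] {X : Set ℂ} {Γ : Type} [Group Γ]
  {A : Γ → ℂ → ℂ} {p : ℂ → S} {g gi : S → S} {G Gi : ℂ → ℂ} {θ : Γ ≃* Γ} {ρ : ℂ → ℝ}
  {Hyp : S → Prop} {U : Set ℂ} {N : Subgroup Γ}

private theorem IS_star (D : Deck X A p) (L : Lift X A p g gi G Gi θ ρ)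
    (C : Cond X A p g gi G Hyp) (M : Dom X A p g G U N) {Y : Set ℂ} (hY : Island X U Y)
    (hGY : G '' Y = Y) {k : ℂ} (hk : k ∈ Y) : Star G k Y := by
  rcases Y.subsingleton_or_nontrivial with h | h
  · have hYk : Y = {k} := h.eq_singleton_of_mem hk
    subst hYk
    exact island_star_pt D L C M hY hGY
  · exact island_star_nt D L C M hY hGY h hk

theorem island_index' (D : Deck X A p) (L : Lift X A p g gi G Gi θ ρ) (C : Cond X A p g gi G Hyp)
    (M : Dom X A p g G U N) {n : ℕ} (hn : 0 < n) (c : N) {Y : Set ℂ} (hY : Island X U Y)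
    (hHY : (fun x => A c (G^[n] x)) '' Y = Y) {V : Set ℂ} (hV : IsOpen V) (hYV : Y ⊆ V)
    {H : ℂ → ℂ} (hH : (∀ x ∈ X, H x = A c (G^[n] x)) ∨ ∀ x ∈ X, H x = Gi^[n] (A (c : Γ)⁻¹ x)) :
    ∃ O : Set ℂ, ∃ k ∈ Y, IsOpen O ∧ Y ⊆ O ∧ closure O ⊆ V ∧ Bornology.IsBounded O ∧
      HasLog (fun x => (H x - x) / (x - k)) (frontier O) ∧
      ∀ x ∈ closure O, x ∉ Y → H x ≠ x := by
  obtain ⟨hYc, hYX, -⟩ := hY.basic
  have hYX' : Y ⊆ X := fun x hx => (hYX hx).1
  obtain ⟨k, hk⟩ := hYc.nonempty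
  obtain ⟨θn, -, L1⟩ := L.pow D n
  have L2 := L1.mul D (c : Γ)
  have C2 := (C.pow D L hn).mul D L1 (c : Γ)
  have M2 := (M.pow L.cg hn).mul c.2
  set H' : ℂ → ℂ := fun x => A c (G^[n] x) with hH'
  set Hi : ℂ → ℂ := fun x => Gi^[n] (A (c : Γ)⁻¹ x) with hHi
  have hst : Star H' k Y := IS_star D L2 C2 M2 hY hHY hk
  have hXo : IsOpen X := D.opn
  have hc' : ContinuousOn H' X := L2.c1.continuousOn
  have hci : ContinuousOn Hi X := L2.c1i.continuousOn
  have hm' : MapsTo H' X X := L2.mG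
  have hmi : MapsTo Hi X X := L2.mGi
  have hiH : ∀ x ∈ X, Hi (H' x) = x := L2.GiG
  have hHi' : ∀ x ∈ X, H' (Hi x) = x := L2.GGi
  rcases hH with hH | hH
  · obtain ⟨O, h1, h2, h3, h4, h5, -, h7⟩ := hst (V ∩ X) (hV.inter hXo)
      (subset_inter hYV hYX')
    refine ⟨O, k, hk, h1, h2, h3.trans inter_subset_left, h4, ?_, ?_⟩
    · refine IC_log_congr h5 fun z hz => ?_
      rw [hH z (h3 (frontier_subset_closure hz)).2]
    · intro x hx hxY
      rw [hH x (h3 hx).2]
      exact h7 x hx hxY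
  · have hV₁ : IsOpen (X ∩ V ∩ (X ∩ H' ⁻¹' (V ∩ X))) :=
      (hXo.inter hV).inter (hc'.isOpen_inter_preimage hXo (hV.inter hXo))
    have hHYm : ∀ y ∈ Y, H' y ∈ Y := fun y hy => by
      have h : H' y ∈ H' '' Y := mem_image_of_mem _ hy
      rwa [hHY] at h
    obtain ⟨O₁, h1, h2, h3, h4, h5, h6, h7⟩ := hst _ hV₁ (fun y hy =>
      ⟨⟨hYX' hy, hYV hy⟩, hYX' hy, hYV (hHYm y hy), hYX' (hHYm y hy)⟩)
    have hO₁X : closure O₁ ⊆ X := fun x hx => (h3 hx).1.1
    have hcpt : IsCompact (closure O₁) := isCompact_of_isClosed_isBounded isClosed_closure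
      h4.closure
    have hOeq : H' '' O₁ = X ∩ Hi ⁻¹' O₁ := by
      ext y
      constructor
      · rintro ⟨x, hx, rfl⟩
        have hxX := hO₁X (subset_closure hx)
        exact ⟨hm' hxX, by simpa [hiH x hxX] using hx⟩
      · rintro ⟨hy, hy'⟩
        exact ⟨Hi y, hy', hHi' y hy⟩
    have hOo : IsOpen (H' '' O₁) := by
      rw [hOeq]
      exact hci.isOpen_inter_preimage hXo h1
    have hcl : closure (H' '' O₁) = H' '' closure O₁ := by
      apply subset_antisymm
      · exact closure_minimal (image_mono subset_closure)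
          (hcpt.image_of_continuousOn (hc'.mono hO₁X)).isClosed
      · exact (hc'.mono hO₁X).image_closure
    have hinj : InjOn H' X := fun x hx y hy h => by
      rw [← hiH x hx, ← hiH y hy, h]
    have hfr : ∀ x ∈ frontier (H' '' O₁), x ∈ X ∧ Hi x ∈ frontier O₁ := by
      intro x hx
      rw [hOo.frontier_eq, hcl] at hx
      obtain ⟨⟨y, hy, rfl⟩, hx2⟩ := hx
      have hyX := hO₁X hy
      refine ⟨hm' hyX, ?_⟩
      rw [hiH y hyX, h1.frontier_eq]
      exact ⟨hy, fun h => hx2 (mem_image_of_mem _ h)⟩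
    refine ⟨H' '' O₁, k, hk, hOo, ?_, ?_, ?_, ?_, ?_⟩
    · calc Y = H' '' Y := hHY.symm
        _ ⊆ H' '' O₁ := image_mono h2
    · rw [hcl]
      rintro _ ⟨x, hx, rfl⟩
      exact (h3 hx).2.2.1
    · exact ((hcpt.image_of_continuousOn (hc'.mono hO₁X)).isBounded).subset
        (image_mono subset_closure)
    · have hq : HasLog (fun y => ((H' y - y) / (y - k)) / ((H' y - k) / (y - k)))
          (frontier O₁) := IC_log_div h5 h6
      have hq2 : HasLog (fun x => ((H' (Hi x) - Hi x) / (Hi x - k)) /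
          ((H' (Hi x) - k) / (Hi x - k))) (frontier (H' '' O₁)) :=
        IC_log_comp (h := Hi) hq (hci.mono fun x hx => (hfr x hx).1) (fun x hx => (hfr x hx).2)
      apply IC_log_neg
      refine IC_log_congr hq2 fun x hx => ?_
      obtain ⟨hxX, hx2⟩ := hfr x hx
      have hne : Hi x - k ≠ 0 := by
        rw [h1.frontier_eq] at hx2
        intro h
        exact hx2.2 (by rw [sub_eq_zero.mp h]; exact h2 hk)
      show -((H x - x) / (x - k)) = _
      rw [hH x hxX, hHi' x hxX, div_div_div_cancel_right₀ hne]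
      show -((Hi x - x) / (x - k)) = _
      rw [← neg_div, neg_sub]
    · intro x hx hxY h
      rw [hcl] at hx
      obtain ⟨y, hy, rfl⟩ := hx
      have hyX := hO₁X hy
      have h8 : Hi (H' y) = H' y := by
        have := hH (H' y) (hm' hyX)
        rw [h] at this
        exact this.symm
      rw [hiH y hyX] at h8
      exact h7 y hy (fun hyY => hxY (hHYm y hyY)) h8.symm

end

end CV
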