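import Pool.Agent.H12.CV.B1
import Pool.Agent.H36.DS.XBase
import Pool.Agent.H36.DS.JBase

/-!
Common definitions for the blocks B4, B5, B6 of the covering part (project MP_8a27c0, helper36).
-/

namespace CV

open Metric Set Filter Topology Function DS TN MeasureTheory

/-- the measure with density `ρ` on `X` -/
noncomputable def mX (X : Set ℂ) (ρ : ℂ → ℝ) : Measure ℂ :=
  (volume.withDensity (fun x => ENNReal.ofReal (ρ x))).restrict X

/-- `x` lies on a regular curve contained in the lift of the stable set of a hyperbolic point -/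
def SPX {S : Type} [MetricSpace S] (X : Set ℂ) (p : ℂ → S) (g : S → S) (Hyp : S → Prop)
    (x : ℂ) : Prop :=
  x ∈ X ∧ ∃ Q ∈ X, Hyp (p Q) ∧ ∃ v, TanX (StabX X p g Q) x v

/-- the same predicate for points of the sphere; `j` is an embedding of `X` into the sphere -/
def SPS {S : Type} [MetricSpace S] (X : Set ℂ) (p : ℂ → S) (g : S → S) (Hyp : S → Prop)
    (j : ℂ → S2) (s : S2) : Prop :=
  ∃ x ∈ X, j x = s ∧ SPX X p g Hyp x

/-- a hyperbolic chart `k` at the fixed point `P` of `G` in `X`; `F` is `G ∘ G` in the chart -/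
structure HData (X : Set ℂ) (G : ℂ → ℂ) (P : ℂ) (k F : ℂ → ℂ) (Vo : Set ℂ)
    (r lp km kp : ℝ) : Prop where
  loc : HypLoc F r lp km kp
  opn : IsOpen Vo
  sq : Sq r ⊆ Vo
  c1 : ContDiffOn ℝ 1 k Vo
  mX : MapsTo k Vo X
  inj : ∀ z ∈ Vo, Injective (fderiv ℝ k z)
  kinj : InjOn k Vo
  k0 : k 0 = P
  conj : ∀ w ∈ Sq r, F w ∈ Sq r → k (F w) = G (G (k w))

end CV
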