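import Pool.Agent.H36.DS.LA

/-!
GA (length-area for quasiconformal maps of the disc: small images of arcs about a boundary point).
Adapt the proof of `DS.small_arc` (Pool/Agent/H36/DS/LA.lean).  Let `h` be `C¹` and injective on the disc, with values in the
disc and `‖fderiv ℝ h z‖ ^ 2 ≤ Kq * |det (fderiv ℝ h z)|`.  For `0 < s < 1` let `J s = {t | ζ + s e^{it} ∈ ball 0 1}`,
`ℓ s = ∫ t in J s, s * ‖fderiv ℝ h (ζ + s e^{it})‖`.  By Cauchy-Schwarz `ℓ s ^ 2 ≤ 2π s ∫_{J s} s ‖Dh‖² dt`, so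
`∫_0^1 ℓ s ^ 2 / s ds ≤ 2π ∫ ‖Dh‖² ≤ 2π Kq ∫ |det Dh| ≤ 2π Kq π` (polar coordinates about `ζ`; area formula
`lintegral_abs_det_fderiv_eq_addHaar_image`, image in the unit disc).  As `∫_0 ds/s = ∞`, for every `ε > 0` there is
`s < ε` with `ℓ s < ε`; two points of the arc `ball 0 1 ∩ sphere ζ s` are joined by a subarc, along which `h` moves by at most
`ℓ s`.
-/

namespace DG
open Metric Set Filter Topology DS

open MeasureTheory ENNReal in
/-- area estimate -/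
theorem GA_area {Ω : Set ℂ} (hΩ : IsOpen Ω) {G : ℂ → ℂ} (hG : DifferentiableOn ℝ G Ω)
    (hi : InjOn G Ω) {Kq : ℝ} (hq : ∀ z ∈ Ω, ‖fderiv ℝ G z‖ ^ 2 ≤ Kq * |(fderiv ℝ G z).det|) :
    ∫⁻ x in Ω, ENNReal.ofReal (‖fderiv ℝ G x‖ ^ 2) ≤ ENNReal.ofReal Kq * volume (G '' Ω) := by
  rw [← lintegral_abs_det_fderiv_eq_addHaar_image volume hΩ.measurableSet
    (f' := fun x => fderiv ℝ G x) _ hi, ← lintegral_const_mul' _ _ ENNReal.ofReal_ne_top]
  · apply setLIntegral_mono' hΩ.measurableSet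
    intro x hx
    rw [← ENNReal.ofReal_mul' (abs_nonneg _)]
    exact ENNReal.ofReal_le_ofReal (hq x hx)
  · intro x hx
    exact ((hG.differentiableAt (hΩ.mem_nhds hx)).hasFDerivAt).hasFDerivWithinAt

open MeasureTheory ENNReal in
/-- the length-area principle for circular arcs around `0` -/
theorem GA_short {Ω : Set ℂ} (hΩ : IsOpen Ω) {G : ℂ → ℂ} (hG : DifferentiableOn ℝ G Ω)
    (hi : InjOn G Ω) (hb : Bornology.IsBounded (G '' Ω)) {Kq : ℝ}
    (hq : ∀ z ∈ Ω, ‖fderiv ℝ G z‖ ^ 2 ≤ Kq * |(fderiv ℝ G z).det|)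
    {ε m : ℝ} (hε : 0 < ε) (hm : 0 < m) :
    ∃ s, 0 < s ∧ s < m ∧ ∫⁻ t in Ioo (-Real.pi) Real.pi, ENNReal.ofReal
      (Ω.indicator (fun w => s * ‖fderiv ℝ G w‖) (s * (Real.cos t + Real.sin t * Complex.I))) <
      ENNReal.ofReal ε := by
  classical
  by_contra hcon
  push Not at hcon
  set k : ℂ → ℝ := Ω.indicator (fun w => ‖fderiv ℝ G w‖) with hk
  have hkm : Measurable k := (measurable_fderiv ℝ G).norm.indicator hΩ.measurableSet
  set f : ℂ → ℝ≥0∞ := fun w => ENNReal.ofReal (k w ^ 2) with hf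
  have hfm : Measurable f := (hkm.pow_const 2).ennreal_ofReal
  have hfin : ∫⁻ p, f p < ∞ := by
    have h1 : ∫⁻ p, f p = ∫⁻ x in Ω, ENNReal.ofReal (‖fderiv ℝ G x‖ ^ 2) := by
      rw [← lintegral_indicator hΩ.measurableSet]
      apply lintegral_congr
      intro x
      simp only [hf, hk]
      by_cases hx : x ∈ Ω
      · rw [indicator_of_mem hx, indicator_of_mem hx]
      · rw [indicator_of_notMem hx, indicator_of_notMem hx]
        simp
    rw [h1]
    exact (GA_area hΩ hG hi hq).trans_lt (ENNReal.mul_lt_top ENNReal.ofReal_lt_top hb.measure_lt_top)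
  rw [← LA_polar hfm] at hfin
  have h2 : ∀ s ∈ Ioo (0:ℝ) m, ENNReal.ofReal (ε ^ 2 / (4 * Real.pi) / s) ≤
      ∫⁻ t in Ioo (-Real.pi) Real.pi,
      ENNReal.ofReal s * f (s * (Real.cos t + Real.sin t * Complex.I)) := by
    intro s hs
    have h3 := LA_amgm hε _ (hcon s hs.1 hs.2)
    have h4 : ∀ t : ℝ, ENNReal.ofReal ((Ω.indicator (fun w => s * ‖fderiv ℝ G w‖)
        (s * (Real.cos t + Real.sin t * Complex.I))) ^ 2) =
        ENNReal.ofReal s * (ENNReal.ofReal s *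
          f (s * (Real.cos t + Real.sin t * Complex.I))) := by
      intro t
      simp only [hf, hk]
      rw [← ENNReal.ofReal_mul hs.1.le, ← ENNReal.ofReal_mul hs.1.le]
      congr 1
      by_cases hx : (s * (Real.cos t + Real.sin t * Complex.I) : ℂ) ∈ Ω
      · rw [indicator_of_mem hx, indicator_of_mem hx]
        ring
      · rw [indicator_of_notMem hx, indicator_of_notMem hx]
        ring
    simp only [h4] at h3
    rw [lintegral_const_mul' _ _ ENNReal.ofReal_ne_top] at h3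
    rw [ENNReal.ofReal_div_of_pos hs.1]
    apply ENNReal.div_le_of_le_mul
    exact h3.trans_eq (mul_comm _ _)
  have h5 : ∫⁻ s in Ioo (0:ℝ) m, ENNReal.ofReal (ε ^ 2 / (4 * Real.pi) / s) ≤
      ∫⁻ s in Ioi (0:ℝ), ∫⁻ t in Ioo (-Real.pi) Real.pi,
      ENNReal.ofReal s * f (s * (Real.cos t + Real.sin t * Complex.I)) := by
    calc _ ≤ ∫⁻ s in Ioo (0:ℝ) m, ∫⁻ t in Ioo (-Real.pi) Real.pi,
        ENNReal.ofReal s * f (s * (Real.cos t + Real.sin t * Complex.I)) :=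
          setLIntegral_mono' measurableSet_Ioo h2
      _ ≤ _ := lintegral_mono_set Ioo_subset_Ioi_self
  have hpi := Real.pi_pos
  rw [LA_div (by positivity) hm] at h5
  exact absurd hfin (not_lt.2 h5)

open MeasureTheory ENNReal in
/-- length of the image of an arc -/
theorem GA_arc {Ω : Set ℂ} (hΩ : IsOpen Ω) {G : ℂ → ℂ} (hG : ContDiffOn ℝ 1 G Ω)
    {s a b : ℝ} (hs : 0 < s) (hab : a ≤ b) (ha : -Real.pi < a) (hb : b < Real.pi)
    (harc : ∀ t ∈ Icc a b, LA_pt s t ∈ Ω) :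
    ENNReal.ofReal (dist (G (LA_pt s b)) (G (LA_pt s a))) ≤
      ∫⁻ t in Ioo (-Real.pi) Real.pi, ENNReal.ofReal
      (Ω.indicator (fun w => s * ‖fderiv ℝ G w‖) (s * (Real.cos t + Real.sin t * Complex.I))) := by
  classical
  have hGd : DifferentiableOn ℝ G Ω := hG.differentiableOn one_ne_zero
  set g' : ℝ → ℂ := fun t => fderiv ℝ G (LA_pt s t) (s * (Complex.exp (t * Complex.I) * Complex.I))
    with hg'
  have hd : ∀ t ∈ uIcc a b, HasDerivAt (fun t : ℝ => G (LA_pt s t)) (g' t) t := by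
    intro t ht
    rw [uIcc_of_le hab] at ht
    have h1 : HasFDerivAt G (fderiv ℝ G (LA_pt s t)) (LA_pt s t) :=
      (hGd.differentiableAt (hΩ.mem_nhds (harc t ht))).hasFDerivAt
    exact h1.comp_hasDerivAt t (LA_pt_deriv s t)
  have hcont : ContinuousOn g' (uIcc a b) := by
    have h2 : Continuous (fun t : ℝ => LA_pt s t) := by
      unfold LA_pt
      fun_prop
    have h1 : ContinuousOn (fderiv ℝ G) Ω := hG.continuousOn_fderiv_of_isOpen hΩ le_rfl
    rw [uIcc_of_le hab]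
    exact (h1.comp h2.continuousOn harc).clm_apply (by fun_prop)
  have hint := intervalIntegral.integral_eq_sub_of_hasDerivAt hd hcont.intervalIntegrable
  rw [dist_eq_norm, ← hint, intervalIntegral.integral_of_le hab]
  have h3 : ‖∫ t in Ioc a b, g' t‖ₑ ≤ ∫⁻ t in Ioc a b, ‖g' t‖ₑ :=
    enorm_integral_le_lintegral_enorm _
  rw [ofReal_norm]
  refine h3.trans ?_
  have h4 : ∫⁻ t in Ioc a b, ‖g' t‖ₑ ≤ ∫⁻ t in Ioc a b, ENNReal.ofReal
      (Ω.indicator (fun w => s * ‖fderiv ℝ G w‖) (s * (Real.cos t + Real.sin t * Complex.I))) := by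
    apply setLIntegral_mono' measurableSet_Ioc
    intro t ht
    have hmem : (s * (Real.cos t + Real.sin t * Complex.I) : ℂ) ∈ Ω :=
      harc t ⟨ht.1.le, ht.2⟩
    rw [indicator_of_mem hmem, ← ofReal_norm]
    apply ENNReal.ofReal_le_ofReal
    simp only [hg']
    refine (ContinuousLinearMap.le_opNorm _ _).trans ?_
    rw [norm_mul, norm_mul, Complex.norm_exp_ofReal_mul_I, Complex.norm_I,
      Complex.norm_real, Real.norm_of_nonneg hs.le, mul_one, mul_one, mul_comm]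
    exact le_of_eq rfl
  exact h4.trans (lintegral_mono_set (fun t ht => ⟨ha.trans ht.1, ht.2.trans_lt hb⟩))

open MeasureTheory ENNReal in
/-- normalised version: boundary point `0` of the disc with centre `1` -/
theorem GA_norm {G : ℂ → ℂ} (hG : ContDiffOn ℝ 1 G (ball 1 1)) (hi : InjOn G (ball 1 1))
    (hb : Bornology.IsBounded (G '' (ball 1 1))) {Kq : ℝ}
    (hq : ∀ z ∈ ball (1:ℂ) 1, ‖fderiv ℝ G z‖ ^ 2 ≤ Kq * |(fderiv ℝ G z).det|)
    {ε : ℝ} (hε : 0 < ε) :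
    ∃ ρ, 0 < ρ ∧ ρ < ε ∧ ∀ z w : ℂ, z ∈ ball (1:ℂ) 1 → w ∈ ball (1:ℂ) 1 →
      ‖z‖ = ρ → ‖w‖ = ρ → dist (G z) (G w) < ε := by
  have hΩ : IsOpen (ball (1:ℂ) 1) := isOpen_ball
  obtain ⟨s, hs0, hsm, hs⟩ := GA_short hΩ (hG.differentiableOn one_ne_zero) hi hb hq hε hε
  refine ⟨s, hs0, hsm, ?_⟩
  have key : ∀ a b : ℝ, -Real.pi < a → b < Real.pi → a ≤ b → s / 2 < Real.cos a →
      s / 2 < Real.cos b → dist (G (LA_pt s b)) (G (LA_pt s a)) < ε := by
    intro a b ha hb' hab h1 h2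
    have h3 := GA_arc hΩ hG hs0 hab ha hb' (fun t ht =>
      (LA_lens hs0).2 (LA_cos ha hb' ht h1 h2))
    have h4 := h3.trans_lt hs
    exact (ENNReal.ofReal_lt_ofReal_iff hε).1 h4
  have hpol : ∀ z : ℂ, z ∈ ball (1:ℂ) 1 → ‖z‖ = s → ∃ a : ℝ, -Real.pi < a ∧ a < Real.pi ∧
      s / 2 < Real.cos a ∧ LA_pt s a = z := by
    intro z hz hzs
    have h1 : LA_pt s z.arg = z := by
      rw [LA_pt_eq, ← hzs]
      exact Complex.norm_mul_exp_arg_mul_I z
    have h2 : s / 2 < Real.cos z.arg := by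
      rw [← LA_lens hs0, h1]
      exact hz
    refine ⟨z.arg, Complex.neg_pi_lt_arg z, lt_of_le_of_ne (Complex.arg_le_pi z) ?_, h2, h1⟩
    intro h3
    rw [h3, Real.cos_pi] at h2
    linarith
  intro z w hz hw hzs hws
  obtain ⟨a, ha1, ha2, ha3, rfl⟩ := hpol z hz hzs
  obtain ⟨b, hb1, hb2, hb3, rfl⟩ := hpol w hw hws
  rcases le_total a b with h | h
  · rw [dist_comm]
    exact key a b ha1 hb2 h ha3 hb3
  · exact key b a hb1 ha2 h hb3 ha3

theorem qc_small_arc {h : ℂ → ℂ} (hh : ContDiffOn ℝ 1 h (ball 0 1)) (hi : InjOn h (ball 0 1))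
    (hm : MapsTo h (ball 0 1) (ball 0 1)) {Kq : ℝ}
    (hq : ∀ z ∈ ball (0:ℂ) 1, ‖fderiv ℝ h z‖ ^ 2 ≤ Kq * |(fderiv ℝ h z).det|) {ζ : ℂ}
    (hζ : ‖ζ‖ = 1) :
    ∀ ε > 0, ∃ ρ, 0 < ρ ∧ ρ < ε ∧ ∀ z w : ℂ, z ∈ ball (0:ℂ) 1 → w ∈ ball (0:ℂ) 1 →
      dist z ζ = ρ → dist w ζ = ρ → dist (h z) (h w) < ε := by
  intro ε hε
  have hζ0 : ζ ≠ 0 := by
    intro h
    rw [h, norm_zero] at hζ
    exact zero_ne_one hζ
  have hmaps : MapsTo (fun w : ℂ => ζ * (1 - w)) (ball 1 1) (ball 0 1) := by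
    intro w hw
    rw [mem_ball_zero_iff, norm_mul, hζ, one_mul, norm_sub_rev, ← dist_eq_norm]
    exact hw
  set L : ℂ →L[ℝ] ℂ := (ContinuousLinearMap.toSpanSingleton ℂ (-ζ)).restrictScalars ℝ with hL
  have hLd : ∀ w : ℂ, HasFDerivAt (fun w : ℂ => ζ * (1 - w)) L w := by
    intro w
    have h1 : HasDerivAt (fun w : ℂ => ζ * (1 - w)) (-ζ) w := by
      have := ((hasDerivAt_id w).const_sub 1).const_mul ζ
      simpa using this
    exact h1.hasFDerivAt.restrictScalars ℝ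
  have hLdet : L.det = 1 := by
    rw [hL, LA_det, norm_neg, hζ, one_pow]
  have hLn : ‖L‖ ≤ 1 := by
    refine ContinuousLinearMap.opNorm_le_bound _ zero_le_one fun x => ?_
    show ‖x • (-ζ)‖ ≤ 1 * ‖x‖
    rw [norm_smul, norm_neg, hζ, mul_one, one_mul]
  have hG : ContDiffOn ℝ 1 (fun w => h (ζ * (1 - w))) (ball 1 1) :=
    hh.comp (by fun_prop) hmaps
  have hfd : ∀ w ∈ ball (1:ℂ) 1, fderiv ℝ (fun w => h (ζ * (1 - w))) w =
      (fderiv ℝ h (ζ * (1 - w))).comp L := by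
    intro w hw
    have h1 : HasFDerivAt h (fderiv ℝ h (ζ * (1 - w))) (ζ * (1 - w)) :=
      ((hh.differentiableOn one_ne_zero).differentiableAt
        (isOpen_ball.mem_nhds (hmaps hw))).hasFDerivAt
    exact (h1.comp w (hLd w)).fderiv
  obtain ⟨ρ, h0, h1, h2⟩ := GA_norm (G := fun w => h (ζ * (1 - w))) hG
    (by
      intro a ha b hb' hab
      have h3 := hi (hmaps ha) (hmaps hb') hab
      have h4 := mul_left_cancel₀ hζ0 h3
      linear_combination -h4)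
    ((isBounded_ball (x := (0:ℂ)) (r := 1)).subset (by
      rintro _ ⟨w, hw, rfl⟩
      exact hm (hmaps hw))) (Kq := Kq) (by
      intro w hw
      rw [hfd w hw]
      have h5 : ((fderiv ℝ h (ζ * (1 - w))).comp L).det = (fderiv ℝ h (ζ * (1 - w))).det := by
        have h6 : ((fderiv ℝ h (ζ * (1 - w))).comp L).det =
            (fderiv ℝ h (ζ * (1 - w))).det * L.det := by
          simp only [ContinuousLinearMap.det]
          rw [← LinearMap.det_comp]
          rfl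
        rw [h6, hLdet, mul_one]
      rw [h5]
      refine le_trans ?_ (hq _ (hmaps hw))
      have h7 : ‖(fderiv ℝ h (ζ * (1 - w))).comp L‖ ≤ ‖fderiv ℝ h (ζ * (1 - w))‖ := by
        refine (ContinuousLinearMap.opNorm_comp_le _ _).trans ?_
        exact mul_le_of_le_one_right (norm_nonneg _) hLn
      exact pow_le_pow_left₀ (norm_nonneg _) h7 2) hε
  refine ⟨ρ, h0, h1, fun z w hz hw hzρ hwρ => ?_⟩
  have hinv : ∀ z : ℂ, ζ * (1 - (1 - z / ζ)) = z := by
    intro z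
    field_simp
    ring
  have hn : ∀ z : ℂ, ‖1 - z / ζ‖ = dist z ζ := by
    intro z
    have : 1 - z / ζ = (ζ - z) / ζ := by field_simp
    rw [this, norm_div, hζ, div_one, dist_comm, dist_eq_norm]
  have hm : ∀ z : ℂ, z ∈ ball (0:ℂ) 1 → 1 - z / ζ ∈ ball (1:ℂ) 1 := by
    intro z hz
    rw [mem_ball, dist_eq_norm]
    have : 1 - z / ζ - 1 = -(z / ζ) := by ring
    rw [this, norm_neg, norm_div, hζ, div_one]
    exact mem_ball_zero_iff.1 hz
  have := h2 (1 - z / ζ) (1 - w / ζ) (hm z hz) (hm w hw) (by rw [hn, hzρ]) (by rw [hn, hwρ])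
  simpa only [hinv] using this

end DG
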