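import Pool.Agent.H36.DS.XBase

/-!
GE (charts of the sphere with a prescribed pole, in terms of a fixed stereographic chart).
Case `P' = O`: `κ₀ z = q (P₀ + z)`, `χ₀ x = p x - P₀`, `c z = P₀ + z`, `ρ = 1`.
Case `P' ≠ O`: `P' = q P₁`, `P₁ = p P' ≠ P₀`.  Put `s = (P₀ - P₁)⁻¹`; `κ₀ z = q (P₁ + (z + s)⁻¹)` for `z ≠ -s`, `κ₀ (-s) = O`;
`χ₀ x = (p x - P₁)⁻¹ - s` for `x ≠ O, P'`, `χ₀ O = -s` (arbitrary at `P'`).  Mutually inverse; continuity of `κ₀` at `-s`: `(z+s)⁻¹ → ∞` and
`q_lim`; `κ₀ z ≠ P'`; continuity of `χ₀` at `O`: `p_lim`.  `c z = P₁ + (z + s)⁻¹`, holomorphic and injective on `ball 0 ‖s‖`, `c 0 = P₀`,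
`c' 0 = - s⁻²  ≠ 0`.
-/

namespace DG
open Metric Set Filter Topology DS

theorem pole_chart {O : S2} {p : S2 → ℂ} {q : ℂ → S2} (hS : SC O p q) {K : Set S2} {P₀ : ℂ}
    {P' : S2} (hP' : P' ∈ K) (hne : q P₀ ≠ P') :
    ∃ (χ₀ : S2 → ℂ) (κ₀ : ℂ → S2) (c : ℂ → ℂ) (ρ : ℝ), 0 < ρ ∧ PChart K (q P₀) P' χ₀ κ₀ ∧
      DifferentiableOn ℂ c (ball 0 ρ) ∧ c 0 = P₀ ∧ (∀ z ∈ ball (0:ℂ) ρ, deriv c z ≠ 0) ∧
      InjOn c (ball 0 ρ) ∧ ∀ z ∈ ball (0:ℂ) ρ, κ₀ z = q (c z) := by
  have hqc : Continuous q := hS.q_smooth.continuous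
  have hpc : ∀ x, x ≠ O → ContinuousAt p x := fun x hx =>
    hS.p_smooth.continuousOn.continuousAt (isOpen_compl_singleton.mem_nhds hx)
  by_cases hPO : P' = O
  · subst hPO
    refine ⟨fun x => p x - P₀, fun z => q (P₀ + z), fun z => P₀ + z, 1, one_pos, ?_, ?_, ?_, ?_, ?_, ?_⟩
    · refine ⟨hP', hqc.comp (continuous_const.add continuous_id), fun z => hS.q_ne _, ?_, ?_, ?_, ?_⟩
      · intro z
        rw [hS.pq]
        ring
      · intro x hx
        show q (P₀ + (p x - P₀)) = x
        rw [add_sub_cancel, hS.qp x hx]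
      · exact hS.p_smooth.continuousOn.sub continuousOn_const
      · simp
    · exact ((differentiable_const _).add differentiable_id).differentiableOn
    · simp
    · intro z _
      simp
    · intro z _ w _ h
      simpa using h
    · intro z _
      rfl
  · set P₁ := p P' with hP₁
    have hqP₁ : q P₁ = P' := hS.qp P' hPO
    have hne' : P₀ - P₁ ≠ 0 := by
      intro h
      apply hne
      rw [sub_eq_zero.mp h, hqP₁]
    set s : ℂ := (P₀ - P₁)⁻¹ with hs
    have hs0 : s ≠ 0 := inv_ne_zero hne'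
    have hinj : ∀ a b, q a = q b → a = b := fun a b hab => by
      have := congrArg p hab
      rwa [hS.pq, hS.pq] at this
    classical
    set κ₀ : ℂ → S2 := fun z => if z = -s then O else q (P₁ + (z + s)⁻¹) with hκ
    set χ₀ : S2 → ℂ := fun x => if x = O then -s else (p x - P₁)⁻¹ - s with hχ
    have k1 : κ₀ (-s) = O := by rw [hκ]; simp
    have k2 : ∀ z, z ≠ -s → κ₀ z = q (P₁ + (z + s)⁻¹) := fun z hz => by rw [hκ]; simp [hz]
    have c1 : χ₀ O = -s := by rw [hχ]; simp
    have c2 : ∀ x, x ≠ O → χ₀ x = (p x - P₁)⁻¹ - s := fun x hx => by rw [hχ]; simp [hx]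
    have hzs : ∀ z : ℂ, z ≠ -s → z + s ≠ 0 := fun z hz h => hz (eq_neg_of_add_eq_zero_left h)
    have hpx : ∀ x, x ≠ O → x ≠ P' → p x - P₁ ≠ 0 := by
      intro x hx hx' h
      apply hx'
      rw [← hS.qp x hx, sub_eq_zero.mp h, hqP₁]
    have hball : ∀ z ∈ ball (0:ℂ) ‖s‖, z ≠ -s := by
      intro z hz h
      rw [mem_ball_zero_iff, h, norm_neg] at hz
      exact lt_irrefl _ hz
    refine ⟨χ₀, κ₀, fun z => P₁ + (z + s)⁻¹, ‖s‖, norm_pos_iff.mpr hs0, ?_, ?_, ?_, ?_, ?_, ?_⟩
    · refine ⟨hP', ?_, ?_, ?_, ?_, ?_, ?_⟩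
      · rw [continuous_iff_continuousAt]
        intro z
        by_cases hz : z = -s
        · subst hz
          rw [continuousAt_iff_punctured_nhds, k1]
          have hev : ∀ᶠ z : ℂ in 𝓝[≠] (-s), q (P₁ + (z + s)⁻¹) = κ₀ z := by
            filter_upwards [self_mem_nhdsWithin] with z hz
            exact (k2 z hz).symm
          refine Tendsto.congr' hev ?_
          have h1 : Tendsto (fun z : ℂ => z + s) (𝓝[≠] (-s)) (𝓝[≠] 0) := by
            rw [tendsto_nhdsWithin_iff]
            constructor
            · have h2 : Tendsto (fun z : ℂ => z + s) (𝓝 (-s)) (𝓝 (-s + s)) :=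
                (continuous_id.add continuous_const).tendsto _
              rw [neg_add_cancel] at h2
              exact h2.mono_left nhdsWithin_le_nhds
            · filter_upwards [self_mem_nhdsWithin] with z hz
              exact hzs z hz
          have h2 : Tendsto (fun z : ℂ => (z + s)⁻¹) (𝓝[≠] (-s)) (Bornology.cobounded ℂ) :=
            tendsto_inv₀_nhdsNE_zero.comp h1
          have h3 : Tendsto (fun z : ℂ => P₁ + (z + s)⁻¹) (𝓝[≠] (-s)) (Bornology.cobounded ℂ) :=
            (tendsto_const_add_cobounded P₁).comp h2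
          rw [Metric.cobounded_eq_cocompact] at h3
          exact hS.q_lim.comp h3
        · have hev : (fun z => q (P₁ + (z + s)⁻¹)) =ᶠ[𝓝 z] κ₀ := by
            filter_upwards [isOpen_ne.mem_nhds hz] with w hw
            exact (k2 w hw).symm
          refine ContinuousAt.congr ?_ hev
          have h1 : ContinuousAt (fun z : ℂ => P₁ + (z + s)⁻¹) z :=
            continuousAt_const.add ((continuousAt_id.add continuousAt_const).inv₀ (hzs z hz))
          exact hqc.continuousAt.comp h1
      · intro z hz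
        by_cases hzs' : z = -s
        · rw [hzs', k1] at hz
          exact hPO hz.symm
        · rw [k2 z hzs', ← hqP₁] at hz
          have h1 := hinj _ _ hz
          have h2 : (z + s)⁻¹ = 0 := by simpa using h1
          exact inv_ne_zero (hzs z hzs') h2
      · intro z
        by_cases hz : z = -s
        · rw [hz, k1, c1]
        · rw [k2 z hz, c2 _ (hS.q_ne _), hS.pq, add_sub_cancel_left, inv_inv]
          ring
      · intro x hx
        by_cases hxO : x = O
        · rw [hxO, c1, k1]
        · have h1 := hpx x hxO hx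
          rw [c2 x hxO, k2]
          · rw [sub_add_cancel, inv_inv, add_sub_cancel, hS.qp x hxO]
          · intro h
            have h2 : (p x - P₁)⁻¹ = 0 := by
              have h3 : (p x - P₁)⁻¹ - s + s = -s + s := by rw [h]
              simpa using h3
            exact inv_ne_zero h1 h2
      · intro x hx
        have hx' : x ≠ P' := hx
        apply ContinuousAt.continuousWithinAt
        by_cases hxO : x = O
        · subst hxO
          rw [continuousAt_iff_punctured_nhds, c1]
          have hev : ∀ᶠ y : S2 in 𝓝[≠] x, (p y - P₁)⁻¹ - s = χ₀ y := by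
            filter_upwards [self_mem_nhdsWithin] with y hy
            exact (c2 y hy).symm
          refine Tendsto.congr' hev ?_
          have h1 := hS.p_lim
          rw [← Metric.cobounded_eq_cocompact] at h1
          have h2 : Tendsto (fun y => p y - P₁) (𝓝[≠] x) (Bornology.cobounded ℂ) :=
            (tendsto_sub_const_cobounded P₁).comp h1
          have h3 : Tendsto (fun y => (p y - P₁)⁻¹) (𝓝[≠] x) (𝓝 0) :=
            tendsto_inv₀_cobounded.comp h2
          have h4 := h3.sub_const s
          rwa [zero_sub] at h4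
        · have hev : (fun y => (p y - P₁)⁻¹ - s) =ᶠ[𝓝 x] χ₀ := by
            filter_upwards [isOpen_ne.mem_nhds hxO] with y hy
            exact (c2 y hy).symm
          refine ContinuousAt.congr ?_ hev
          exact (((hpc x hxO).sub continuousAt_const).inv₀ (hpx x hxO hx')).sub continuousAt_const
      · rw [k2 0 (fun h => hs0 (by simpa using h.symm)), zero_add, hs, inv_inv, add_sub_cancel]
    · intro z hz
      have h1 := hzs z (hball z hz)
      have h3 : HasDerivAt (fun z : ℂ => z + s) 1 z := (hasDerivAt_id z).add_const s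
      exact ((h3.inv h1).const_add P₁).differentiableAt.differentiableWithinAt
    · show P₁ + (0 + s)⁻¹ = P₀
      rw [zero_add, hs, inv_inv, add_sub_cancel]
    · intro z hz
      have h1 := hzs z (hball z hz)
      have h2 : HasDerivAt (fun z : ℂ => P₁ + (z + s)⁻¹) (-1 / (z + s) ^ 2) z := by
        have h3 : HasDerivAt (fun z : ℂ => z + s) 1 z := (hasDerivAt_id z).add_const s
        exact (h3.inv h1).const_add P₁
      rw [h2.deriv]
      exact div_ne_zero (by norm_num) (pow_ne_zero 2 h1)
    · intro z hz w hw h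
      have h1 : (z + s)⁻¹ = (w + s)⁻¹ := add_left_cancel h
      exact add_right_cancel (inv_injective h1)
    · intro z hz
      exact k2 z (hball z hz)

end DG
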