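import Pool.Agent.H36.DG.GE
import Pool.Agent.H36.DS.JBase
import Pool.Agent.H36.DS.FD
import Pool.Agent.H36.DS.SH

/-!
GF (local forms on the sphere from planar data).  Take `χ₀, κ₀, c, ρ` from `pole_chart`.  Near `0` the map `χ₀ ∘ gs ∘ κ₀` equals
`F = c⁻¹ ∘ G ∘ c` (`c⁻¹` the local inverse of `c` near `P₀`, holomorphic; `gs (κ₀ z) = gs (q (c z)) = q (G (c z))`, and for `w` near `P₀`
`χ₀ (q w) = c⁻¹ w`).  Its derivative at `0` is conjugate to that of `G` at `P₀` by the multiplication by `c' 0`: same determinant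
and trace.
`ell_pl`: `B₁ = fderiv F 0` satisfies `B₁² - t B₁ + 1 = 0`, `|t| < 2`; as in `DS.ell_chart` (Pool/Agent/H36/DS/SH.lean) there is a real linear
isomorphism `L` of `ℂ` with `L B₁ L⁻¹ = ` multiplication by `w₁`, `‖w₁‖ = 1`, `w₁ ≠ 1`.  `χ = L ∘ χ₀`, `κ = κ₀ ∘ L⁻¹`.
`hyp_pl`: `planar_hyp` (Pool/Agent/H36/DS/FD.lean) for `F` on a small ball gives `Φ, Φi, r`; `χ = Φ ∘ χ₀`, `κ = κ₀ ∘ Φi`, `k = c ∘ Φi` on
`Vo = Φi ⁻¹' (small ball)`; shrink `r` (HypLoc on a smaller square) so that `Sq r ⊆ Vo` and `k '' Vo ⊆ U`.  The derivative of `k` is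
injective because `Φ ∘ Φi = id` and `c' ≠ 0`.  `gs (κ w) ≠ P'` for `w ∈ Sq r`: `gs (κ w)` is near `q P₀ ≠ P'`.
-/

namespace DG
open Metric Set Filter Topology DS

/-- the domain of the local inverse of `c` -/
private def GFV (q : ℂ → S2) (P' : S2) (χ₀ : S2 → ℂ) (ρ : ℝ) : Set ℂ :=
  {w | q w ≠ P' ∧ χ₀ (q w) ∈ ball (0:ℂ) ρ}

private theorem GF_cont {O : S2} {p : S2 → ℂ} {q : ℂ → S2} (hS : SC O p q) {K : Set S2} {P₀ : ℂ}
    {P' : S2} {χ₀ : S2 → ℂ} {κ₀ : ℂ → S2} (hC : PChart K (q P₀) P' χ₀ κ₀) :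
    ContinuousOn (fun w => χ₀ (q w)) (q ⁻¹' {P'}ᶜ) :=
  hC.χ_cont.comp hS.q_smooth.continuous.continuousOn (fun _ hw => hw)

private theorem GF_open {O : S2} {p : S2 → ℂ} {q : ℂ → S2} (hS : SC O p q) {K : Set S2} {P₀ : ℂ}
    {P' : S2} {χ₀ : S2 → ℂ} {κ₀ : ℂ → S2} (hC : PChart K (q P₀) P' χ₀ κ₀) (ρ : ℝ) :
    IsOpen (GFV q P' χ₀ ρ) := by
  have h1 : IsOpen (q ⁻¹' {P'}ᶜ) := isOpen_compl_singleton.preimage hS.q_smooth.continuous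
  exact (GF_cont hS hC).isOpen_inter_preimage h1 isOpen_ball

private theorem GF_right {O : S2} {p : S2 → ℂ} {q : ℂ → S2} (hS : SC O p q) {K : Set S2} {P₀ : ℂ}
    {P' : S2} {χ₀ : S2 → ℂ} {κ₀ : ℂ → S2} (hC : PChart K (q P₀) P' χ₀ κ₀) {c : ℂ → ℂ} {ρ : ℝ}
    (hκ : ∀ z ∈ ball (0:ℂ) ρ, κ₀ z = q (c z)) {w : ℂ} (hw : w ∈ GFV q P' χ₀ ρ) :
    c (χ₀ (q w)) = w := by
  have h1 := hκ _ hw.2
  rw [hC.κχ _ hw.1] at h1
  rw [← hS.pq (c (χ₀ (q w))), ← h1, hS.pq]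

private theorem GF_deriv {O : S2} {p : S2 → ℂ} {q : ℂ → S2} (hS : SC O p q) {K : Set S2} {P₀ : ℂ}
    {P' : S2} {χ₀ : S2 → ℂ} {κ₀ : ℂ → S2} (hC : PChart K (q P₀) P' χ₀ κ₀) {c : ℂ → ℂ} {ρ : ℝ}
    (hc : DifferentiableOn ℂ c (ball 0 ρ)) (hc' : ∀ z ∈ ball (0:ℂ) ρ, deriv c z ≠ 0)
    (hκ : ∀ z ∈ ball (0:ℂ) ρ, κ₀ z = q (c z)) {w : ℂ} (hw : w ∈ GFV q P' χ₀ ρ) :
    HasDerivAt (fun w => χ₀ (q w)) (deriv c (χ₀ (q w)))⁻¹ w := by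
  have h1 : IsOpen (q ⁻¹' {P'}ᶜ) := isOpen_compl_singleton.preimage hS.q_smooth.continuous
  refine HasDerivAt.of_local_left_inverse (f := c) ?_ ?_ (hc' _ hw.2) ?_
  · exact (GF_cont hS hC).continuousAt (h1.mem_nhds hw.1)
  · exact (hc.differentiableAt (isOpen_ball.mem_nhds hw.2)).hasDerivAt
  · filter_upwards [(GF_open hS hC ρ).mem_nhds hw] with y hy
    exact GF_right hS hC hκ hy

private theorem GF_diff {O : S2} {p : S2 → ℂ} {q : ℂ → S2} (hS : SC O p q) {K : Set S2} {P₀ : ℂ}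
    {P' : S2} {χ₀ : S2 → ℂ} {κ₀ : ℂ → S2} (hC : PChart K (q P₀) P' χ₀ κ₀) {c : ℂ → ℂ} {ρ : ℝ}
    (hc : DifferentiableOn ℂ c (ball 0 ρ)) (hc' : ∀ z ∈ ball (0:ℂ) ρ, deriv c z ≠ 0)
    (hκ : ∀ z ∈ ball (0:ℂ) ρ, κ₀ z = q (c z)) :
    ContDiffOn ℝ 1 (fun w => χ₀ (q w)) (GFV q P' χ₀ ρ) := by
  have h1 : DifferentiableOn ℂ (fun w => χ₀ (q w)) (GFV q P' χ₀ ρ) := fun w hw =>
    (GF_deriv hS hC hc hc' hκ hw).differentiableAt.differentiableWithinAt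
  have h2 : ContDiffOn ℂ 1 (fun w => χ₀ (q w)) (GFV q P' χ₀ ρ) := h1.contDiffOn (GF_open hS hC ρ)
  exact h2.restrict_scalars ℝ

private theorem GF_mem {q : ℂ → S2} {K : Set S2} {P₀ : ℂ}
    {P' : S2} {χ₀ : S2 → ℂ} {κ₀ : ℂ → S2} (hC : PChart K (q P₀) P' χ₀ κ₀) {ρ : ℝ} (hρ : 0 < ρ) :
    P₀ ∈ GFV q P' χ₀ ρ := by
  refine ⟨?_, ?_⟩
  · rw [← hC.κ0]
    exact hC.κ_ne 0
  · rw [← hC.κ0, hC.χκ]
    exact mem_ball_self hρ

/-- multiplication by a nonzero number -/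
private noncomputable def GFe (a : ℂ) (ha : a ≠ 0) : ℂ ≃ₗ[ℝ] ℂ :=
  { LinearMap.mulLeft ℝ a with
    invFun := fun z => a⁻¹ * z
    left_inv := fun z => by
      change a⁻¹ * (a * z) = z
      rw [← mul_assoc, inv_mul_cancel₀ ha, one_mul]
    right_inv := fun z => by
      change a * (a⁻¹ * z) = z
      rw [← mul_assoc, mul_inv_cancel₀ ha, one_mul] }

/-- conjugation of `B` by the multiplication by `a` -/
private noncomputable def GFB (a : ℂ) (B : ℂ →L[ℝ] ℂ) : ℂ →L[ℝ] ℂ :=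
  ((ContinuousLinearMap.toSpanSingleton ℂ a⁻¹).restrictScalars ℝ : ℂ →L[ℝ] ℂ).comp
    (B.comp ((ContinuousLinearMap.toSpanSingleton ℂ a).restrictScalars ℝ : ℂ →L[ℝ] ℂ))

private theorem GFB_eq {a : ℂ} (ha : a ≠ 0) (B : ℂ →L[ℝ] ℂ) :
    (GFB a B : ℂ →ₗ[ℝ] ℂ) = (GFe a ha).symm.conj (B : ℂ →ₗ[ℝ] ℂ) := by
  apply LinearMap.ext
  intro z
  change B (z * a) * a⁻¹ = a⁻¹ * B (a * z)
  rw [mul_comm z a, mul_comm]

private theorem GFB_det {a : ℂ} (ha : a ≠ 0) (B : ℂ →L[ℝ] ℂ) : (GFB a B).det = B.det := by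
  change LinearMap.det (GFB a B : ℂ →ₗ[ℝ] ℂ) = LinearMap.det (B : ℂ →ₗ[ℝ] ℂ)
  rw [GFB_eq ha]
  exact LinearMap.det_conj (B : ℂ →ₗ[ℝ] ℂ) (GFe a ha).symm

private theorem GFB_tr {a : ℂ} (ha : a ≠ 0) (B : ℂ →L[ℝ] ℂ) :
    LinearMap.trace ℝ ℂ (GFB a B : ℂ →ₗ[ℝ] ℂ) = LinearMap.trace ℝ ℂ (B : ℂ →ₗ[ℝ] ℂ) := by
  rw [GFB_eq ha]
  exact LinearMap.trace_conj' (B : ℂ →ₗ[ℝ] ℂ) (GFe a ha).symm

/-- the derivative of the map in the chart -/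
private theorem GF_main {O : S2} {p : S2 → ℂ} {q : ℂ → S2} (hS : SC O p q) {K : Set S2} {P₀ : ℂ}
    {P' : S2} {χ₀ : S2 → ℂ} {κ₀ : ℂ → S2} (hC : PChart K (q P₀) P' χ₀ κ₀) {c : ℂ → ℂ} {ρ : ℝ}
    (hρ : 0 < ρ)
    (hc : DifferentiableOn ℂ c (ball 0 ρ)) (hc0 : c 0 = P₀)
    (hc' : ∀ z ∈ ball (0:ℂ) ρ, deriv c z ≠ 0)
    (hκ : ∀ z ∈ ball (0:ℂ) ρ, κ₀ z = q (c z)) {gs : S2 → S2} {G : ℂ → ℂ}
    (hGq : ∀ᶠ z in 𝓝 P₀, gs (q z) = q (G z)) (hGP : G P₀ = P₀) {B : ℂ →L[ℝ] ℂ}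
    (hB : HasFDerivAt G B P₀) :
    HasFDerivAt (fun z => χ₀ (gs (κ₀ z))) (GFB (deriv c 0) B) 0 := by
  have h0 : (0:ℂ) ∈ ball (0:ℂ) ρ := mem_ball_self hρ
  have hcd : HasDerivAt c (deriv c 0) 0 :=
    (hc.differentiableAt (isOpen_ball.mem_nhds h0)).hasDerivAt
  have hχP : χ₀ (q P₀) = 0 := by rw [← hC.κ0, hC.χκ]
  have h1 := GF_deriv hS hC hc hc' hκ (GF_mem hC hρ)
  rw [hχP] at h1
  have h2 : HasFDerivAt (fun z => G (c z))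
      (B.comp ((ContinuousLinearMap.toSpanSingleton ℂ (deriv c 0)).restrictScalars ℝ : ℂ →L[ℝ] ℂ))
      0 := by
    rw [← hc0] at hB
    exact hB.comp 0 (hcd.hasFDerivAt.restrictScalars ℝ)
  have h3 : HasFDerivAt (fun z => χ₀ (q (G (c z)))) (GFB (deriv c 0) B) 0 := by
    have h4 : HasFDerivAt (fun w => χ₀ (q w))
        ((ContinuousLinearMap.toSpanSingleton ℂ (deriv c 0)⁻¹).restrictScalars ℝ : ℂ →L[ℝ] ℂ)
        (G (c 0)) := by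
      rw [hc0, hGP]
      exact h1.hasFDerivAt.restrictScalars ℝ
    exact h4.comp 0 h2
  refine h3.congr_of_eventuallyEq ?_
  have h5 : ∀ᶠ z in 𝓝 (0:ℂ), gs (q (c z)) = q (G (c z)) := by
    have : Tendsto c (𝓝 0) (𝓝 P₀) := by
      rw [← hc0]
      exact hcd.continuousAt
    exact this.eventually hGq
  filter_upwards [h5, isOpen_ball.mem_nhds h0] with z hz hz'
  rw [hκ z hz', hz]

theorem ell_pl {O : S2} {p : S2 → ℂ} {q : ℂ → S2} (hS : SC O p q) {K : Set S2} {P₀ : ℂ} {P' : S2}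
    (hP' : P' ∈ K) (hPK : q P₀ ∈ K) (hne : q P₀ ≠ P') {gs : S2 → S2} {G : ℂ → ℂ}
    (hGq : ∀ᶠ z in 𝓝 P₀, gs (q z) = q (G z)) (hGP : G P₀ = P₀) {B : ℂ →L[ℝ] ℂ}
    (hB : HasFDerivAt G B P₀) (hdet : B.det = 1)
    (htr : |LinearMap.trace ℝ ℂ (B : ℂ →ₗ[ℝ] ℂ)| < 2) : EllPt K gs (q P₀) := by
  obtain ⟨χ₀, κ₀, c, ρ, hρ, hC, hc, hc0, hc', -, hκ⟩ := pole_chart hS hP' hne
  have ha : deriv c 0 ≠ 0 := hc' 0 (mem_ball_self hρ)
  have hF := GF_main hS hC hρ hc hc0 hc' hκ hGq hGP hB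
  obtain ⟨L, M, w₁, hLM, hML, hw1, hw2, hconj⟩ := SH_conj (B := GFB (deriv c 0) B)
    (by rw [GFB_det ha, hdet]) (by rw [GFB_tr ha]; exact htr)
  have hχP : χ₀ (q P₀) = 0 := by rw [← hC.κ0, hC.χκ]
  refine ⟨P', fun x => L (χ₀ x), fun z => κ₀ (M z), w₁, ?_, hw1, hw2, ?_⟩
  · exact
      { hP' := hP'
        κ_cont := hC.κ_cont.comp M.continuous
        κ_ne := fun z => hC.κ_ne _
        χκ := fun z => by rw [hC.χκ, hLM]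
        κχ := fun x hx => by rw [hML, hC.κχ x hx]
        χ_cont := L.continuous.comp_continuousOn hC.χ_cont
        κ0 := by rw [map_zero, hC.κ0] }
  · have hB' : HasFDerivAt (fun z => χ₀ (gs (κ₀ z))) (GFB (deriv c 0) B) (M 0) := by
      rw [map_zero]; exact hF
    have h1 : HasFDerivAt (fun z => χ₀ (gs (κ₀ (M z)))) ((GFB (deriv c 0) B).comp M) 0 :=
      hB'.comp 0 M.hasFDerivAt
    have h2 : HasFDerivAt (fun z => L (χ₀ (gs (κ₀ (M z)))))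
        (L.comp ((GFB (deriv c 0) B).comp M)) 0 := L.hasFDerivAt.comp 0 h1
    have h3 : HasFDerivAt (𝕜 := ℂ) (fun z => L (χ₀ (gs (κ₀ (M z)))))
        (ContinuousLinearMap.toSpanSingleton ℂ w₁) 0 := by
      apply hasFDerivAt_of_restrictScalars ℝ h2
      ext z
      · simp only [ContinuousLinearMap.coe_restrictScalars',
          ContinuousLinearMap.toSpanSingleton_apply,
          ContinuousLinearMap.comp_apply, smul_eq_mul]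
        rw [hconj, mul_comm]
    have h4 := h3.hasDerivAt
    rw [ContinuousLinearMap.toSpanSingleton_apply, one_smul] at h4
    rw [hasDerivAt_iff_tendsto_slope_zero] at h4
    have h5 : L (χ₀ (gs (κ₀ (M 0)))) = 0 := by
      rw [map_zero, hC.κ0, hGq.self_of_nhds, hGP, hχP, map_zero]
    have h6 : 𝓝[(fun z => κ₀ (M z)) ⁻¹' Kᶜ] (0:ℂ) ≤ 𝓝[≠] 0 := by
      apply nhdsWithin_mono
      intro z hz hz0
      rw [Set.mem_singleton_iff] at hz0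
      rw [hz0] at hz
      apply hz
      change κ₀ (M 0) ∈ K
      rw [map_zero, hC.κ0]
      exact hPK
    refine (h4.mono_left h6).congr fun z => ?_
    rw [zero_add, h5, sub_zero, smul_eq_mul, div_eq_inv_mul]

theorem hyp_pl {O : S2} {p : S2 → ℂ} {q : ℂ → S2} (hS : SC O p q) {K : Set S2} {P₀ : ℂ} {P' : S2}
    (hP' : P' ∈ K) (hne : q P₀ ≠ P') {gs : S2 → S2} {G : ℂ → ℂ} {U : Set ℂ} (hU : IsOpen U)
    (hPU : P₀ ∈ U) (hG : ContDiffOn ℝ 1 G U) (hGq : ∀ z ∈ U, gs (q z) = q (G z))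
    (hGP : G P₀ = P₀) (hdet : (fderiv ℝ G P₀).det = 1)
    (htr : 2 < LinearMap.trace ℝ ℂ (fderiv ℝ G P₀ : ℂ →ₗ[ℝ] ℂ)) :
    ∃ (χ : S2 → ℂ) (κ : ℂ → S2) (k : ℂ → ℂ) (Vo : Set ℂ) (r lp km kp : ℝ),
      PChart K (q P₀) P' χ κ ∧ HypLoc (fun w => χ (gs (κ w))) r lp km kp ∧
      (∀ w ∈ Sq r, gs (κ w) ≠ P') ∧ IsOpen Vo ∧ Sq r ⊆ Vo ∧ ContDiffOn ℝ 1 k Vo ∧
      (∀ z ∈ Vo, κ z = q (k z) ∧ k z ∈ U) ∧ (∀ z ∈ Vo, Function.Injective (fderiv ℝ k z)) ∧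
      k 0 = P₀ := by
  obtain ⟨χ₀, κ₀, c, ρ, hρ, hC, hc, hc0, hc', -, hκ⟩ := pole_chart hS hP' hne
  have h0 : (0:ℂ) ∈ ball (0:ℂ) ρ := mem_ball_self hρ
  have ha : deriv c 0 ≠ 0 := hc' 0 h0
  have hχP : χ₀ (q P₀) = 0 := by rw [← hC.κ0, hC.χκ]
  have hVo := GF_open hS hC ρ
  have hcC : ContDiffOn ℝ 1 c (ball 0 ρ) := by
    have h2 : ContDiffOn ℂ 1 c (ball 0 ρ) := hc.contDiffOn isOpen_ball
    exact h2.restrict_scalars ℝ
  -- the domain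
  set U₀ : Set ℂ := U ∩ G ⁻¹' (GFV q P' χ₀ ρ) with hU₀
  have hU₀o : IsOpen U₀ := hG.continuousOn.isOpen_inter_preimage hU hVo
  set U₁ : Set ℂ := ball 0 ρ ∩ c ⁻¹' U₀ with hU₁
  have hU₁o : IsOpen U₁ := hc.continuousOn.isOpen_inter_preimage isOpen_ball hU₀o
  have h0U₁ : (0:ℂ) ∈ U₁ := by
    refine ⟨h0, ?_, ?_⟩
    · rw [hc0]; exact hPU
    · change G (c 0) ∈ GFV q P' χ₀ ρ
      rw [hc0, hGP]
      exact GF_mem hC hρ
  set F : ℂ → ℂ := fun z => χ₀ (gs (κ₀ z)) with hF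
  have hFeq : ∀ z ∈ U₁, F z = χ₀ (q (G (c z))) := by
    intro z hz
    rw [hF]
    simp only
    rw [hκ z hz.1, hGq _ hz.2.1]
  have hFc : ContDiffOn ℝ 1 F U₁ := by
    have h1 : ContDiffOn ℝ 1 (fun z => G (c z)) U₁ :=
      hG.comp (hcC.mono inter_subset_left) (fun z hz => hz.2.1)
    have h2 : ContDiffOn ℝ 1 (fun z => χ₀ (q (G (c z)))) U₁ :=
      (GF_diff hS hC hc hc' hκ).comp h1 (fun z hz => hz.2.2)
    exact h2.congr hFeq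
  have hF0 : F 0 = 0 := by
    rw [hFeq 0 h0U₁, hc0, hGP, hχP]
  have hGd : HasFDerivAt G (fderiv ℝ G P₀) P₀ :=
    ((hG.differentiableOn one_ne_zero).differentiableAt (hU.mem_nhds hPU)).hasFDerivAt
  have hGq' : ∀ᶠ z in 𝓝 P₀, gs (q z) = q (G z) := by
    filter_upwards [hU.mem_nhds hPU] with z hz
    exact hGq z hz
  have hFd := GF_main hS hC hρ hc hc0 hc' hκ hGq' hGP hGd
  have hFd' : fderiv ℝ F 0 = GFB (deriv c 0) (fderiv ℝ G P₀) := hFd.fderiv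
  obtain ⟨Φ, Φi, r, lp, km, kp, c1, c2, c3, c4, c5, c6, c7⟩ := planar_hyp hU₁o h0U₁ hFc hF0
    (by rw [hFd', GFB_det ha, hdet]) (by rw [hFd', GFB_tr ha]; exact htr)
  have hΦi0 : Φi 0 = 0 := by
    have := c3 0
    rwa [c5] at this
  refine ⟨fun x => Φ (χ₀ x), fun z => κ₀ (Φi z), fun z => c (Φi z), Φi ⁻¹' U₁, r, lp, km, kp,
    ?_, c6, ?_, hU₁o.preimage c2.continuous, fun w hw => c7 w hw, ?_, ?_, ?_, ?_⟩
  · exact
      { hP' := hP'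
        κ_cont := hC.κ_cont.comp c2.continuous
        κ_ne := fun z => hC.κ_ne _
        χκ := fun z => by rw [hC.χκ, c4]
        κχ := fun x hx => by rw [c3, hC.κχ x hx]
        χ_cont := c1.continuous.comp_continuousOn hC.χ_cont
        κ0 := by rw [hΦi0, hC.κ0] }
  · intro w hw
    have hw' := c7 w hw
    simp only
    rw [hκ _ hw'.1, hGq _ hw'.2.1]
    exact hw'.2.2.1
  · exact hcC.comp c2.contDiffOn (fun z hz => hz.1)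
  · intro z hz
    exact ⟨hκ _ hz.1, hz.2.1⟩
  · intro z hz
    have h1 : HasFDerivAt Φi (fderiv ℝ Φi z) z :=
      (c2.differentiable one_ne_zero z).hasFDerivAt
    have h2 : HasFDerivAt Φ (fderiv ℝ Φ (Φi z)) (Φi z) :=
      (c1.differentiable one_ne_zero _).hasFDerivAt
    have h3 : HasFDerivAt (fun z => Φ (Φi z)) ((fderiv ℝ Φ (Φi z)).comp (fderiv ℝ Φi z)) z :=
      h2.comp z h1
    have h4 : (fun z => Φ (Φi z)) = id := funext c4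
    rw [h4] at h3
    have h5 : (fderiv ℝ Φ (Φi z)).comp (fderiv ℝ Φi z) = ContinuousLinearMap.id ℝ ℂ :=
      h3.unique (hasFDerivAt_id z)
    have h6 : HasDerivAt c (deriv c (Φi z)) (Φi z) :=
      (hc.differentiableAt (isOpen_ball.mem_nhds hz.1)).hasDerivAt
    have h7 : HasFDerivAt (fun z => c (Φi z))
        (((ContinuousLinearMap.toSpanSingleton ℂ (deriv c (Φi z))).restrictScalars ℝ :
          ℂ →L[ℝ] ℂ).comp (fderiv ℝ Φi z)) z :=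
      (h6.hasFDerivAt.restrictScalars ℝ).comp z h1
    rw [h7.fderiv]
    intro x y hxy
    have h8 : (fderiv ℝ Φi z x) * deriv c (Φi z) = (fderiv ℝ Φi z y) * deriv c (Φi z) := hxy
    have h9 := mul_right_cancel₀ (hc' _ hz.1) h8
    have h10 : ∀ x, fderiv ℝ Φ (Φi z) (fderiv ℝ Φi z x) = x := fun x => by
      have := congrArg (fun T : ℂ →L[ℝ] ℂ => T x) h5
      exact this
    rw [← h10 x, ← h10 y, h9]
  · change c (Φi 0) = P₀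
    rw [hΦi0, hc0]

end DG
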