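import Pool.Agent.H36.DG.LLb

/-!
HDA (the axes of a hyperbolic chart are in the stable and unstable sets).  Compare `axis_stable`, `axis_unstable` in Pool/Agent/H36/DS/SW.lean.
`axis_st`: `w = ⟨x, 0⟩ ∈ Sq r`; by `H.loc` (`im0`, `repos`, `reneg`, `re0`) `F w = ⟨x', 0⟩` with `|x'| ≤ lp |x| ≤ r`, so `F^[n] w = ⟨x_n, 0⟩`, `|x_n| ≤ lp ^ n |x|`, `k (F^[n] w) = (G ∘ G)^[n] (k w)` (`conj`), and
`k (F^[n] w) → k 0 = P` (`k` continuous at `0 ∈ Vo`).  So `p (G^[2 n] y) → p P` for `y = k w`, i.e. `(g^[2])^[n] (p y) → p P` (`Lift.iter`), and `g^[2]` fixes `p P`; by `stabX_pow` (DG/LLb, `n = 2`)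
`y ∈ StabX X p g P`.
`axis_un`: for `0 < |y| ≤ r` there is `y'` of the same sign, `|y'| ≤ |y| / km`, with `F ⟨0, y'⟩ = ⟨0, y⟩` (intermediate value theorem for `t ↦ (F ⟨0, t⟩).im` on `[0, y]`; `re0`, `impos`, `imneg`); so `k ⟨0, y⟩ = G (G (k ⟨0, y'⟩))`,
`Gi (Gi (k ⟨0, y⟩)) = k ⟨0, y'⟩`.  Iterate: `(Gi ∘ Gi)^[n] (k ⟨0, y⟩) = k ⟨0, y_n⟩ → P`.
-/

namespace CV

open Metric Set Filter Topology Function DS TN

section
variable {S : Type} [MetricSpace S] [CompactSpace S] {X : Set ℂ} {Γ : Type} [Group Γ]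
  {A : Γ → ℂ → ℂ} {p : ℂ → S} {g gi : S → S} {G Gi : ℂ → ℂ} {θ : Γ ≃* Γ} {ρ : ℂ → ℝ}

theorem HDA_step {P : ℂ} {k F : ℂ → ℂ} {Vo : Set ℂ} {r lp km kp : ℝ}
    (H : HData X G P k F Vo r lp km kp) {x : ℝ} (hx : |x| ≤ r) :
    ∃ x' : ℝ, |x'| ≤ lp * |x| ∧ G (G (k ⟨x, 0⟩)) = k ⟨x', 0⟩ := by
  have HL := H.loc
  have hr := HL.hr
  have hlp := HL.hlp
  have hlp1 := HL.hlp1
  have hS : (⟨x, 0⟩ : ℂ) ∈ Sq r := by
    have := abs_le.1 hx
    exact ⟨this.1, this.2, by simp only; linarith, by simp only; linarith⟩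
  have h1 : |(F ⟨x, 0⟩).re| ≤ lp * |x| := by
    rcases lt_trichotomy x 0 with h | h | h
    · have := HL.reneg _ hS h
      simp only at this
      rw [abs_of_neg h, abs_of_neg this.1]
      linarith [this.2]
    · have := HL.re0 _ hS h
      rw [this, abs_zero]
      positivity
    · have := HL.repos _ hS h
      simp only at this
      rw [abs_of_pos h, abs_of_pos this.1]
      linarith [this.2]
  have him : (F ⟨x, 0⟩).im = 0 := HL.im0 _ hS rfl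
  have e : (⟨(F ⟨x, 0⟩).re, 0⟩ : ℂ) = F ⟨x, 0⟩ := Complex.ext rfl him.symm
  have h2 : |(F ⟨x, 0⟩).re| ≤ r := by
    have : lp * |x| ≤ 1 * |x| := mul_le_mul_of_nonneg_right hlp1.le (abs_nonneg x)
    linarith
  refine ⟨(F ⟨x, 0⟩).re, h1, ?_⟩
  rw [e, H.conj _ hS]
  have := abs_le.1 h2
  exact ⟨this.1, this.2, by rw [him]; linarith, by rw [him]; linarith⟩

theorem axis_st (D : Deck X A p) (L : Lift X A p g gi G Gi θ ρ) {P : ℂ} (hP : P ∈ X)
    (hGP : G P = P) {k F : ℂ → ℂ} {Vo : Set ℂ} {r lp km kp : ℝ}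
    (H : HData X G P k F Vo r lp km kp) {x : ℝ} (hx : |x| ≤ r) :
    k ⟨x, 0⟩ ∈ StabX X p g P := by
  have HL := H.loc
  have hr := HL.hr
  have hlp := HL.hlp
  have hlp1 := HL.hlp1
  have hS : (⟨x, 0⟩ : ℂ) ∈ Sq r := by
    have := abs_le.1 hx
    exact ⟨this.1, this.2, by simp only; linarith, by simp only; linarith⟩
  have hall : ∀ n : ℕ, ∃ x' : ℝ, |x'| ≤ lp ^ n * |x| ∧ G^[2 * n] (k ⟨x, 0⟩) = k ⟨x', 0⟩ := by
    intro n
    induction n with
    | zero => exact ⟨x, by simp, rfl⟩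
    | succ n ih =>
      obtain ⟨x₁, h1, h2⟩ := ih
      have h3 : lp ^ n * |x| ≤ |x| := by
        have := pow_le_one₀ (n := n) hlp.le hlp1.le
        nlinarith [abs_nonneg x]
      obtain ⟨x₂, h4, h5⟩ := HDA_step H (h1.trans (h3.trans hx))
      refine ⟨x₂, ?_, ?_⟩
      · rw [pow_succ]
        nlinarith
      · rw [show 2 * (n + 1) = 2 * n + 1 + 1 by ring, iterate_succ_apply', iterate_succ_apply', h2,
          h5]
  choose z hz1 hz2 using hall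
  have hz : Tendsto (fun n => (⟨z n, 0⟩ : ℂ)) atTop (𝓝 0) := by
    rw [tendsto_zero_iff_norm_tendsto_zero]
    refine squeeze_zero (fun n => norm_nonneg _) (fun n => ?_)
      (g := fun n => lp ^ n * |x|) ?_
    · refine le_trans ?_ (hz1 n)
      have := Complex.norm_le_abs_re_add_abs_im (⟨z n, 0⟩ : ℂ)
      simpa using this
    · have := (tendsto_pow_atTop_nhds_zero_of_lt_one hlp.le hlp1).mul_const |x|
      rwa [zero_mul] at this
  have h0V : (0 : ℂ) ∈ Vo := by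
    apply H.sq
    exact ⟨by simpa using hr.le, by simpa using hr.le, by simpa using hr.le, by simpa using hr.le⟩
  have hk : ContinuousAt k 0 := H.c1.continuousOn.continuousAt (H.opn.mem_nhds h0V)
  have hpP : ContinuousAt p (k 0) := by
    rw [H.k0]
    exact D.pc.continuousAt (D.opn.mem_nhds hP)
  have hlim : Tendsto (fun n => p (k ⟨z n, 0⟩)) atTop (𝓝 (p P)) := by
    have h1 := (hpP.tendsto.comp hk.tendsto).comp hz
    rw [H.k0] at h1
    exact h1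
  have hyX : k ⟨x, 0⟩ ∈ X := H.mX (H.sq hS)
  rw [← stabX_pow (X := X) (p := p) L.cg (n := 2) two_pos P]
  refine ⟨hyX, ?_⟩
  have e1 : ∀ n : ℕ, ∀ y ∈ X, (g^[2])^[n] (p y) = p (G^[2 * n] y) := by
    intro n y hy
    rw [← iterate_mul]
    exact ((L.iter (2 * n)).2.2.2.2.2.2.2 y hy).symm
  have e2 : ∀ n : ℕ, G^[n] P = P := fun n => iterate_fixed hGP n
  refine (tendsto_iff_dist_tendsto_zero.1 hlim).congr fun n => ?_
  rw [e1 n _ hyX, e1 n _ hP, hz2 n, e2]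

end

end CV
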