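import Pool.Agent.H36.DG.LLb

/-!
HDB (the axes of a hyperbolic chart are in the stable and unstable sets).  Compare `axis_stable`, `axis_unstable` in Pool/Agent/H36/DS/SW.lean.
`axis_st`: `w = ⟨x, 0⟩ ∈ Sq r`; by `H.loc` (`im0`, `repos`, `reneg`, `re0`) `F w = ⟨x', 0⟩` with `|x'| ≤ lp |x| ≤ r`, so `F^[n] w = ⟨x_n, 0⟩`, `|x_n| ≤ lp ^ n |x|`, `k (F^[n] w) = (G ∘ G)^[n] (k w)` (`conj`), and
`k (F^[n] w) → k 0 = P` (`k` continuous at `0 ∈ Vo`).  So `p (G^[2 n] y) → p P` for `y = k w`, i.e. `(g^[2])^[n] (p y) → p P` (`Lift.iter`), and `g^[2]` fixes `p P`; by `stabX_pow` (DG/LLb, `n = 2`)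
`y ∈ StabX X p g P`.
`axis_un`: for `0 < |y| ≤ r` there is `y'` of the same sign, `|y'| ≤ |y| / km`, with `F ⟨0, y'⟩ = ⟨0, y⟩` (intermediate value theorem for `t ↦ (F ⟨0, t⟩).im` on `[0, y]`; `re0`, `impos`, `imneg`); so `k ⟨0, y⟩ = G (G (k ⟨0, y'⟩))`,
`Gi (Gi (k ⟨0, y⟩)) = k ⟨0, y'⟩`.  Iterate: `(Gi ∘ Gi)^[n] (k ⟨0, y⟩) = k ⟨0, y_n⟩ → P`.
-/

namespace CV

open Metric Set Filter Topology Function DS TN

section
variable {S : Type} [MetricSpace S] [CompactSpace S] {X : Set ℂ} {Γ : Type} [Group Γ]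
  {A : Γ → ℂ → ℂ} {p : ℂ → S} {g gi : S → S} {G Gi : ℂ → ℂ} {θ : Γ ≃* Γ} {ρ : ℂ → ℝ}

theorem axis_un (D : Deck X A p) (L : Lift X A p g gi G Gi θ ρ) {P : ℂ} (hP : P ∈ X)
    (hGP : G P = P) {k F : ℂ → ℂ} {Vo : Set ℂ} {r lp km kp : ℝ}
    (H : HData X G P k F Vo r lp km kp) {y : ℝ} (hy : |y| ≤ r) :
    k ⟨0, y⟩ ∈ StabX X p gi P := by
  have HL := H.loc
  have hr := HL.hr
  have hkm := HL.hkm
  have hkm0 : 0 < km := by linarith
  have hS : ∀ y : ℝ, |y| ≤ r → (⟨0, y⟩ : ℂ) ∈ Sq r := by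
    intro y hy
    have := abs_le.1 hy
    exact ⟨by simp only; linarith, by simp only; linarith, this.1, this.2⟩
  have hcont : ContinuousOn (fun y : ℝ => (F ⟨0, y⟩).im) {y | |y| ≤ r} := by
    have h1 : ContinuousOn (fun y : ℝ => F ⟨0, y⟩) {y | |y| ≤ r} := by
      refine HL.cont.comp (f := fun y : ℝ => (⟨0, y⟩ : ℂ)) ?_ (fun y hy => hS y hy)
      have : (fun y : ℝ => (⟨0, y⟩ : ℂ)) = fun y : ℝ => (y : ℂ) * Complex.I := by
        funext y
        apply Complex.ext <;> simp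
      rw [this]
      fun_prop
    exact Complex.continuous_im.comp_continuousOn h1
  have hF : ∀ y' : ℝ, |y'| ≤ r → ∀ y : ℝ, (F ⟨0, y'⟩).im = y → F ⟨0, y'⟩ = ⟨0, y⟩ := by
    intro y' hy' y h
    have hre := HL.re0 _ (hS y' hy') rfl
    exact Complex.ext hre h
  have h00 : (F ⟨0, 0⟩).im = 0 := HL.im0 _ (hS 0 (by simpa using hr.le)) rfl
  have hstep : ∀ y : ℝ, |y| ≤ r → ∃ y' : ℝ, |y'| ≤ km⁻¹ * |y| ∧ F ⟨0, y'⟩ = ⟨0, y⟩ := by
    intro y hy
    rcases lt_trichotomy y 0 with h | h | h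
    · have h1 := (HL.imneg _ (hS y hy) h).1
      simp only at h1
      have hsub : Icc y 0 ⊆ {y | |y| ≤ r} := by
        intro w hw
        have := abs_le.1 hy
        show |w| ≤ r
        exact abs_le.2 ⟨by linarith [hw.1, this.1], by linarith [hw.2, this.2]⟩
      obtain ⟨y', hy', he⟩ := intermediate_value_Icc h.le (hcont.mono hsub)
        (show y ∈ Icc _ _ from ⟨by nlinarith, by rw [h00]; exact h.le⟩)
      have he' : (F ⟨0, y'⟩).im = y := he
      refine ⟨y', ?_, hF y' (hsub hy') y he'⟩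
      have hneg : y' < 0 := by
        refine lt_of_le_of_ne hy'.2 (fun e => ?_)
        rw [e, h00] at he'
        linarith
      have h2 := (HL.imneg _ (hS y' (hsub hy')) hneg).1
      simp only at h2
      rw [he'] at h2
      rw [abs_of_neg hneg, abs_of_neg h, inv_mul_eq_div, le_div_iff₀ hkm0]
      linarith
    · subst h
      exact ⟨0, by simp, hF 0 hy 0 h00⟩
    · have h1 := (HL.impos _ (hS y hy) h).1
      simp only at h1
      have hsub : Icc 0 y ⊆ {y | |y| ≤ r} := by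
        intro w hw
        have := abs_le.1 hy
        show |w| ≤ r
        exact abs_le.2 ⟨by linarith [hw.1, this.1], by linarith [hw.2, this.2]⟩
      obtain ⟨y', hy', he⟩ := intermediate_value_Icc h.le (hcont.mono hsub)
        (show y ∈ Icc _ _ from ⟨by rw [h00]; exact h.le, by nlinarith⟩)
      have he' : (F ⟨0, y'⟩).im = y := he
      refine ⟨y', ?_, hF y' (hsub hy') y he'⟩
      have hpos : 0 < y' := by
        refine lt_of_le_of_ne hy'.1 (fun e => ?_)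
        rw [← e, h00] at he'
        linarith
      have h2 := (HL.impos _ (hS y' (hsub hy')) hpos).1
      simp only at h2
      rw [he'] at h2
      rw [abs_of_pos hpos, abs_of_pos h, inv_mul_eq_div, le_div_iff₀ hkm0]
      linarith
  have hk0 : 0 ≤ km⁻¹ := (inv_pos.2 hkm0).le
  have hk1 : km⁻¹ < 1 := inv_lt_one_of_one_lt₀ hkm
  have hkX : ∀ y : ℝ, |y| ≤ r → k ⟨0, y⟩ ∈ X := fun y hy => H.mX (H.sq (hS y hy))
  -- one step downstairs
  have hdown : ∀ y : ℝ, |y| ≤ r → ∃ y' : ℝ, |y'| ≤ km⁻¹ * |y| ∧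
      (gi^[2]) (p (k ⟨0, y⟩)) = p (k ⟨0, y'⟩) := by
    intro y hy
    obtain ⟨y', h1, h2⟩ := hstep y hy
    have hy' : |y'| ≤ r := by
      refine h1.trans (le_trans ?_ hy)
      have := abs_nonneg y
      nlinarith
    refine ⟨y', h1, ?_⟩
    have h3 := H.conj _ (hS y' hy') (by rw [h2]; exact hS y hy)
    rw [h2] at h3
    have hX' := hkX y' hy'
    rw [h3, L.lift _ (L.mG hX'), L.lift _ hX']
    show gi (gi (g (g (p (k ⟨0, y'⟩))))) = p (k ⟨0, y'⟩)
    rw [L.gig, L.gig]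
  have hall : ∀ n : ℕ, ∃ y' : ℝ, |y'| ≤ km⁻¹ ^ n * |y| ∧
      (gi^[2])^[n] (p (k ⟨0, y⟩)) = p (k ⟨0, y'⟩) := by
    intro n
    induction n with
    | zero => exact ⟨y, by simp, rfl⟩
    | succ n ih =>
      obtain ⟨y₁, h1, h2⟩ := ih
      have h3 : km⁻¹ ^ n * |y| ≤ |y| := by
        have := pow_le_one₀ (n := n) hk0 hk1.le
        nlinarith [abs_nonneg y]
      obtain ⟨y₂, h4, h5⟩ := hdown y₁ (h1.trans (h3.trans hy))
      refine ⟨y₂, ?_, ?_⟩
      · rw [pow_succ]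
        nlinarith [mul_le_mul_of_nonneg_left h1 hk0]
      · rw [Function.iterate_succ_apply', h2, h5]
  have hgi : gi (p P) = p P := by
    have h1 : g (p P) = p P := by rw [← L.lift P hP, hGP]
    have h2 := L.gig (p P)
    rwa [h1] at h2
  have hfix : (gi^[2]) (p P) = p P := by
    show gi (gi (p P)) = p P
    rw [hgi, hgi]
  have h0V : (0 : ℂ) ∈ Vo := H.sq (hS 0 (by simpa using hr.le))
  have hkc : ContinuousAt k 0 := H.c1.continuousOn.continuousAt (H.opn.mem_nhds h0V)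
  have hpc : ContinuousAt p P := by
    have hXo : IsOpen X := by
      rcases D.hX with h | h
      · rw [h.1]; exact isOpen_univ
      · rw [h.1]; exact isOpen_ball
    exact D.pc.continuousAt (hXo.mem_nhds hP)
  choose z hz1 hz2 using hall
  have hlim : Tendsto (fun n => (⟨0, z n⟩ : ℂ)) atTop (𝓝 0) := by
    rw [tendsto_zero_iff_norm_tendsto_zero]
    have h1 : Tendsto (fun n : ℕ => km⁻¹ ^ n * |y|) atTop (𝓝 0) := by
      simpa using (tendsto_pow_atTop_nhds_zero_of_lt_one hk0 hk1).mul_const (|y|)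
    refine squeeze_zero (fun n => norm_nonneg _) (fun n => ?_) h1
    refine le_trans ?_ (hz1 n)
    have := Complex.norm_le_abs_re_add_abs_im (⟨0, z n⟩ : ℂ)
    simpa using this
  have hlim2 : Tendsto (fun n => p (k ⟨0, z n⟩)) atTop (𝓝 (p P)) := by
    have h1 : Tendsto (fun n => k ⟨0, z n⟩) atTop (𝓝 P) := by
      have := hkc.tendsto.comp hlim
      rwa [H.k0] at this
    exact hpc.tendsto.comp h1
  rw [← stabX_pow (X := X) (p := p) L.cgi (two_pos) P]
  refine ⟨hkX y hy, ?_⟩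
  have hfixn : ∀ n : ℕ, (gi^[2])^[n] (p P) = p P := fun n => Function.iterate_fixed hfix n
  have h1 := (tendsto_iff_dist_tendsto_zero.1 hlim2)
  refine h1.congr fun n => ?_
  rw [hfixn, hz2]

end

end CV
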