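import Pool.Agent.H36.DG.HDB

/-!
HDC (a regular curve in a stable set crosses the unstable axis).  Compare `SL_cross`, `SL_axis` in Pool/Agent/H36/DS/SL.lean.  Put `z₀ = ⟨0, y⟩`, `b = fderiv ℝ k z₀`, injective, so bijective.
The curve `β t = k ⟨0, y + t e⟩` (`e > 0` small, `|y| + e < r`) is a regular `C¹` curve in `StabX X p gi P` (`axis_un`) with `β 0 = k z₀`, velocity `e • b I ≠ 0`: `TanX (StabX X p gi P) (k z₀) (e • b I)`.  `α` gives
`TanX (StabX X p g Q) (k z₀) (deriv α 0)`.  By `C.c2 Q P` they are linearly independent; so `deriv α 0 = b u` with `u.re ≠ 0` (otherwise `u` is a real multiple of `I`).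
`k` is `C¹` on the open set `Vo`, with invertible derivative at `z₀`: by the inverse function theorem it has a local inverse `κ'` near `k z₀`, `κ' (k z₀) = z₀`, differentiable at `k z₀` with derivative `b⁻¹`
(`ContDiffAt.toOpenPartialHomeomorph` / `HasStrictFDerivAt.to_localInverse`).  `c t = κ' (α t)` is defined for small `t`, `k (c t) = α t`, `c t ∈ Vo`, `c 0 = z₀`, `HasDerivAt c u 0`; its real part is `t u.re + o(t)`, so it takes positive and negative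
values at arbitrarily small `t`, while `c t → z₀`.
-/

namespace CV

open Metric Set Filter Topology Function DS TN

/-- a real function with nonzero derivative at a zero takes both signs near it -/
theorem HDC_sign {f : ℝ → ℝ} {a : ℝ} (hf : HasDerivAt f a 0) (h0 : f 0 = 0) (ha : a ≠ 0)
    {P : ℝ → Prop} (hP : ∀ᶠ t in 𝓝 0, P t) : (∃ t, P t ∧ 0 < f t) ∧ ∃ t, P t ∧ f t < 0 := by
  have h1 : Tendsto (slope f 0) (𝓝[≠] 0) (𝓝 a) := hasDerivAt_iff_tendsto_slope.1 hf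
  have hsl : ∀ t, slope f 0 t = t⁻¹ * f t := by
    intro t
    simp [slope, h0]
  have hr : 𝓝[>] (0:ℝ) ≤ 𝓝[≠] 0 := nhdsWithin_mono _ (fun t ht => ne_of_gt ht)
  have hl : 𝓝[<] (0:ℝ) ≤ 𝓝[≠] 0 := nhdsWithin_mono _ (fun t ht => ne_of_lt ht)
  have hPr : ∀ᶠ t in 𝓝[>] (0:ℝ), P t := nhdsWithin_le_nhds hP
  have hPl : ∀ᶠ t in 𝓝[<] (0:ℝ), P t := nhdsWithin_le_nhds hP
  have hgt : ∀ᶠ t in 𝓝[>] (0:ℝ), 0 < t := eventually_mem_nhdsWithin
  have hlt : ∀ᶠ t in 𝓝[<] (0:ℝ), t < 0 := eventually_mem_nhdsWithin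
  rcases lt_or_gt_of_ne ha with hneg | hpos
  · have h2 : ∀ᶠ t in 𝓝[≠] (0:ℝ), slope f 0 t < 0 := h1.eventually (gt_mem_nhds hneg)
    constructor
    · obtain ⟨t, ⟨ht1, ht2⟩, ht3⟩ := ((hPl.and hlt).and (hl h2)).exists
      refine ⟨t, ht1, ?_⟩
      have h3 : slope f 0 t < 0 := ht3
      rw [hsl] at h3
      have h4 : f t = t * (t⁻¹ * f t) := by
        rw [← mul_assoc, mul_inv_cancel₀ (ne_of_lt ht2), one_mul]
      rw [h4]
      exact mul_pos_of_neg_of_neg ht2 h3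
    · obtain ⟨t, ⟨ht1, ht2⟩, ht3⟩ := ((hPr.and hgt).and (hr h2)).exists
      refine ⟨t, ht1, ?_⟩
      have h3 : slope f 0 t < 0 := ht3
      rw [hsl] at h3
      have h4 : f t = t * (t⁻¹ * f t) := by
        rw [← mul_assoc, mul_inv_cancel₀ (ne_of_gt ht2), one_mul]
      rw [h4]
      exact mul_neg_of_pos_of_neg ht2 h3
  · have h2 : ∀ᶠ t in 𝓝[≠] (0:ℝ), 0 < slope f 0 t := h1.eventually (lt_mem_nhds hpos)
    constructor
    · obtain ⟨t, ⟨ht1, ht2⟩, ht3⟩ := ((hPr.and hgt).and (hr h2)).exists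
      refine ⟨t, ht1, ?_⟩
      have h3 : 0 < slope f 0 t := ht3
      rw [hsl] at h3
      have h4 : f t = t * (t⁻¹ * f t) := by
        rw [← mul_assoc, mul_inv_cancel₀ (ne_of_gt ht2), one_mul]
      rw [h4]
      exact mul_pos ht2 h3
    · obtain ⟨t, ⟨ht1, ht2⟩, ht3⟩ := ((hPl.and hlt).and (hl h2)).exists
      refine ⟨t, ht1, ?_⟩
      have h3 : 0 < slope f 0 t := ht3
      rw [hsl] at h3
      have h4 : f t = t * (t⁻¹ * f t) := by
        rw [← mul_assoc, mul_inv_cancel₀ (ne_of_lt ht2), one_mul]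
      rw [h4]
      exact mul_neg_of_neg_of_pos ht2 h3

/-- the inverse function theorem along a curve -/
theorem HDC_lift {k : ℂ → ℂ} {Vo : Set ℂ} (hVo : IsOpen Vo) (hk : ContDiffOn ℝ 1 k Vo) {z₀ : ℂ}
    (hz₀ : z₀ ∈ Vo) (hinj : Injective (fderiv ℝ k z₀)) {α : ℝ → ℂ} {a : ℂ}
    (hα : HasDerivAt α a 0) (hα0 : α 0 = k z₀) :
    ∃ (c : ℝ → ℂ) (u : ℂ), HasDerivAt c u 0 ∧ c 0 = z₀ ∧ fderiv ℝ k z₀ u = a ∧
      ∀ᶠ t in 𝓝 (0:ℝ), k (c t) = α t := by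
  have hkat : ContDiffAt ℝ 1 k z₀ := hk.contDiffAt (hVo.mem_nhds hz₀)
  let b : ℂ ≃L[ℝ] ℂ := (LinearEquiv.ofInjectiveEndo (fderiv ℝ k z₀ : ℂ →ₗ[ℝ] ℂ)
    hinj).toContinuousLinearEquiv
  have hb : (b : ℂ →L[ℝ] ℂ) = fderiv ℝ k z₀ := by
    ext x
    rfl
  have hs : HasStrictFDerivAt k (b : ℂ →L[ℝ] ℂ) z₀ := by
    rw [hb]
    exact hkat.hasStrictFDerivAt one_ne_zero
  have hinv := hs.to_localInverse
  have h1 : HasFDerivAt (hs.localInverse k b z₀) (b.symm : ℂ →L[ℝ] ℂ) (α 0) := by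
    rw [hα0]
    exact hinv.hasFDerivAt
  refine ⟨fun t => hs.localInverse k b z₀ (α t), b.symm a, h1.comp_hasDerivAt 0 hα, ?_, ?_, ?_⟩
  · show hs.localInverse k b z₀ (α 0) = z₀
    rw [hα0]
    exact hs.localInverse_apply_image
  · rw [← hb]
    exact b.apply_symm_apply a
  · have h2 := hs.eventually_right_inverse
    rw [← hα0] at h2
    exact hα.continuousAt.eventually h2

section
variable {S : Type} [MetricSpace S] [CompactSpace S] {X : Set ℂ} {Γ : Type} [Group Γ]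
  {A : Γ → ℂ → ℂ} {p : ℂ → S} {g gi : S → S} {G Gi : ℂ → ℂ} {θ : Γ ≃* Γ} {ρ : ℂ → ℝ}
  {Hyp : S → Prop}

theorem cross_pl (D : Deck X A p) (L : Lift X A p g gi G Gi θ ρ) (C : Cond X A p g gi G Hyp)
    {P : ℂ} (hP : P ∈ X) (hGP : G P = P) (hH : Hyp (p P)) {k F : ℂ → ℂ} {Vo : Set ℂ}
    {r lp km kp : ℝ} (H : HData X G P k F Vo r lp km kp) {y : ℝ} (h0 : 0 < |y|) (hy : |y| < r)
    {Q : ℂ} (hQ : Q ∈ X) (hHQ : Hyp (p Q)) {α : ℝ → ℂ} (hα : ContDiffOn ℝ 1 α (Ioo (-1) 1))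
    (hαs : ∀ t ∈ Ioo (-1:ℝ) 1, α t ∈ StabX X p g Q) (hα0 : α 0 = k ⟨0, y⟩)
    (hαd : deriv α 0 ≠ 0) {ε : ℝ} (hε : 0 < ε) :
    (∃ z ∈ ball (⟨0, y⟩ : ℂ) ε, 0 < z.re ∧ z ∈ Vo ∧ ∃ t ∈ Ioo (-1:ℝ) 1, k z = α t) ∧
      ∃ z ∈ ball (⟨0, y⟩ : ℂ) ε, z.re < 0 ∧ z ∈ Vo ∧ ∃ t ∈ Ioo (-1:ℝ) 1, k z = α t := by
  set z₀ : ℂ := ⟨0, y⟩ with hz₀
  have hr : 0 < r := (abs_nonneg y).trans_lt hy
  have hSq : ∀ s : ℝ, |s| ≤ r → (⟨0, s⟩ : ℂ) ∈ Vo := by
    intro s hs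
    have h1 := abs_le.1 hs
    refine H.sq ⟨?_, ?_, h1.1, h1.2⟩
    · show -r ≤ 0
      linarith
    · exact hr.le
  have hz₀V : z₀ ∈ Vo := hSq y hy.le
  have hinj := H.inj z₀ hz₀V
  have hIoo : Ioo (-1:ℝ) 1 ∈ 𝓝 (0:ℝ) := Ioo_mem_nhds (by norm_num) (by norm_num)
  have hαD : HasDerivAt α (deriv α 0) 0 :=
    ((hα.contDiffAt hIoo).differentiableAt one_ne_zero).hasDerivAt
  obtain ⟨c, u, hc, hc0, hu, hkc⟩ := HDC_lift H.opn H.c1 hz₀V hinj hαD hα0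
  -- the curve on the vertical axis
  set e : ℝ := (r - |y|) / 2 with he
  have he0 : 0 < e := by rw [he]; linarith
  have hline : ∀ t ∈ Ioo (-1:ℝ) 1, |y + t * e| ≤ r := by
    intro t ht
    have h1 : |t * e| ≤ e := by
      rw [abs_mul, abs_of_pos he0]
      have h2 : |t| ≤ 1 := abs_le.2 ⟨ht.1.le, ht.2.le⟩
      nlinarith
    have h2 := abs_add_le y (t * e)
    have h3 : |y| + e ≤ r := by rw [he]; linarith
    linarith
  have hlc : ∀ t : ℝ, (⟨0, y + t * e⟩ : ℂ) = z₀ + t • (e • Complex.I) := by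
    intro t
    apply Complex.ext <;> simp [hz₀]
  have hlD : HasDerivAt (fun t : ℝ => (⟨0, y + t * e⟩ : ℂ)) (e • Complex.I) 0 := by
    simp only [hlc]
    have h1 : HasDerivAt (fun t : ℝ => t • (e • Complex.I)) ((1:ℝ) • (e • Complex.I)) 0 :=
      (hasDerivAt_id (0:ℝ)).smul_const _
    rw [one_smul] at h1
    exact h1.const_add z₀
  have hlz : (⟨0, y + 0 * e⟩ : ℂ) = z₀ := by simp [hz₀]
  have hkD : HasFDerivAt k (fderiv ℝ k z₀) (⟨0, y + 0 * e⟩ : ℂ) := by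
    rw [hlz]
    exact ((H.c1.contDiffAt (H.opn.mem_nhds hz₀V)).differentiableAt one_ne_zero).hasFDerivAt
  have hβD : HasDerivAt (fun t : ℝ => k ⟨0, y + t * e⟩) (fderiv ℝ k z₀ (e • Complex.I)) 0 :=
    hkD.comp_hasDerivAt 0 hlD
  have hTβ : TanX (StabX X p gi P) (k z₀) (fderiv ℝ k z₀ (e • Complex.I)) := by
    refine ⟨?_, fun t : ℝ => k ⟨0, y + t * e⟩, ?_, ?_, ?_, hβD.deriv⟩
    · intro h
      have h1 : e • Complex.I = 0 := hinj (h.trans (map_zero _).symm)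
      rcases smul_eq_zero.1 h1 with h2 | h2
      · exact he0.ne' h2
      · exact Complex.I_ne_zero h2
    · refine H.c1.comp (f := fun t : ℝ => (⟨0, y + t * e⟩ : ℂ)) ?_ ?_
      · simp only [hlc]
        exact (contDiff_const.add (contDiff_id.smul contDiff_const)).contDiffOn
      · intro t ht
        exact hSq _ (hline t ht)
    · intro t ht
      exact axis_un D L hP hGP H (hline t ht)
    · show k ⟨0, y + 0 * e⟩ = k z₀
      rw [hlz]
  have hTα : TanX (StabX X p g Q) (k z₀) (deriv α 0) := ⟨hαd, α, hα, hαs, hα0, rfl⟩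
  have hli := C.c2 Q hQ P hP hHQ hH _ _ _ hTα hTβ
  have hure : u.re ≠ 0 := by
    intro h
    have h1 : u = u.im • Complex.I := by
      apply Complex.ext <;> simp [h]
    have h2 := LinearIndependent.pair_iff.1 hli e (-u.im) (by
      rw [← hu]
      nth_rw 1 [h1]
      rw [← map_smul, ← map_smul, ← map_add]
      have h3 : e • u.im • Complex.I + (-u.im) • e • Complex.I = 0 := by
        rw [smul_smul, smul_smul, ← add_smul]
        have h4 : e * u.im + -u.im * e = 0 := by ring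
        rw [h4, zero_smul]
      rw [h3, map_zero])
    exact he0.ne' h2.1
  have hre : HasDerivAt (fun t => (c t).re) u.re 0 := by
    have h1 := Complex.reCLM.hasFDerivAt.comp_hasDerivAt (0:ℝ) hc
    exact h1
  have hre0 : (c 0).re = 0 := by rw [hc0]
  have hcc : ContinuousAt c 0 := hc.continuousAt
  have hball : ∀ᶠ t in 𝓝 (0:ℝ), c t ∈ ball z₀ ε := by
    refine hcc.eventually ?_
    rw [hc0]
    exact ball_mem_nhds _ hε
  have hVe : ∀ᶠ t in 𝓝 (0:ℝ), c t ∈ Vo := by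
    refine hcc.eventually ?_
    rw [hc0]
    exact H.opn.mem_nhds hz₀V
  have hIe : ∀ᶠ t in 𝓝 (0:ℝ), t ∈ Ioo (-1:ℝ) 1 := hIoo
  obtain ⟨⟨t, ⟨ht1, ht2, ht3, ht4⟩, ht5⟩, s, ⟨hs1, hs2, hs3, hs4⟩, hs5⟩ :=
    HDC_sign hre hre0 hure (hball.and (hVe.and (hIe.and hkc)))
  exact ⟨⟨c t, ht1, ht5, ht2, t, ht3, ht4⟩, c s, hs1, hs5, hs2, s, hs3, hs4⟩

end

end CV
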