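import Pool.Agent.H36.DG.LLb
import Pool.Agent.H36.DG.GF

/-!
HEd (hyperbolic charts at a fixed point of a lift).  Let `G2 z = G (G z)`, `V' = V ∩ G ⁻¹' V` (open: `V ⊆ X` open, `G` continuous on `X`), `P ∈ V'`; `gs (gs (q z)) = q (G2 z)` on `V'`; `B = fderiv ℝ G P`, `fderiv ℝ G2 P = B ∘ B`, `det = 1`, trace `= (tr B) ^ 2 - 2 > 2`
(`2 < |tr B|`; for 2x2 matrices of determinant one `tr (B²) = (tr B)² - 2`, see `SH_entries` in DS/SH).  `hyp_pl` (DG/GF) for `gs ∘ gs`, `G2`, `V'` gives `χ κ k Vo r lp km kp`.  `HData X G P k F Vo r lp km kp` with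
`F w = χ (gs (gs (κ w)))`: `kinj`: `κ = q ∘ k` on `Vo` is injective (`χ (κ z) = z`); `conj`: for `w ∈ Sq r` `gs (gs (κ w)) = q (G2 (k w))` and, as it is `≠ P'` (`ne`), `κ (F w) = gs (gs (κ w))` (`κχ`); if `F w ∈ Sq r ⊆ Vo` then
`q (k (F w)) = κ (F w) = q (G2 (k w))`, `q` is injective (`pq`).
-/

namespace CV

open Metric Set Filter Topology Function DS TN

section
variable {S : Type} [MetricSpace S] [CompactSpace S] {X : Set ℂ} {Γ : Type} [Group Γ]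
  {A : Γ → ℂ → ℂ} {p : ℂ → S} {g gi : S → S} {G Gi : ℂ → ℂ} {θ : Γ ≃* Γ} {ρ : ℂ → ℝ}
  {Hyp : S → Prop} {U : Set ℂ} {N : Subgroup Γ}

/-- the hyperbolic chart at a fixed point of `G`, on the sphere and in the plane -/
theorem hyp_data (D : Deck X A p) (L : Lift X A p g gi G Gi θ ρ)
    {O : S2} {pp : S2 → ℂ} {q : ℂ → S2} (hS : SC O pp q) {K : Set S2} {P' : S2} (hP' : P' ∈ K)
    {P : ℂ} (hP : P ∈ X) (hGP : G P = P) (hne : q P ≠ P')
    {gs : S2 → S2} {V : Set ℂ} (hV : IsOpen V) (hPV : P ∈ V) (hVX : V ⊆ X)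
    (hgs : ∀ z ∈ V, gs (q z) = q (G z)) (hdet : (fderiv ℝ G P).det = 1)
    (htr : 2 < |LinearMap.trace ℝ ℂ (fderiv ℝ G P : ℂ →ₗ[ℝ] ℂ)|) :
    ∃ (χ : S2 → ℂ) (κ : ℂ → S2) (k : ℂ → ℂ) (Vo : Set ℂ) (r lp km kp : ℝ),
      PChart K (q P) P' χ κ ∧ (∀ w ∈ Sq r, gs (gs (κ w)) ≠ P') ∧
      HData X G P k (fun w => χ (gs (gs (κ w)))) Vo r lp km kp ∧ 
      (∀ z ∈ Vo, κ z = q (k z) ∧ k z ∈ V) := by
  have hcG : ContDiffOn ℝ 1 G V := L.c1.mono hVX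
  set V' : Set ℂ := V ∩ G ⁻¹' V with hV'
  have hV'o : IsOpen V' := hcG.continuousOn.isOpen_inter_preimage hV hV
  have hPV' : P ∈ V' := by
    refine ⟨hPV, ?_⟩
    change G P ∈ V
    rw [hGP]; exact hPV
  have hcG2 : ContDiffOn ℝ 1 (fun z => G (G z)) V' :=
    hcG.comp (hcG.mono inter_subset_left) (fun z hz => hz.2)
  have hq2 : ∀ z ∈ V', gs (gs (q z)) = q (G (G z)) := by
    intro z hz
    rw [hgs z hz.1, hgs (G z) hz.2]
  have hdG : DifferentiableAt ℝ G P :=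
    (hcG.contDiffAt (hV.mem_nhds hPV)).differentiableAt (by norm_num)
  have hfd : fderiv ℝ (fun z => G (G z)) P = (fderiv ℝ G P).comp (fderiv ℝ G P) := by
    have h1 : HasFDerivAt G (fderiv ℝ G P) (G P) := by
      rw [hGP]; exact hdG.hasFDerivAt
    exact (h1.comp P hdG.hasFDerivAt).fderiv
  have hdet2 : (fderiv ℝ (fun z => G (G z)) P).det = 1 := by
    rw [hfd]
    change LinearMap.det (((fderiv ℝ G P : ℂ →ₗ[ℝ] ℂ)).comp (fderiv ℝ G P : ℂ →ₗ[ℝ] ℂ)) = 1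
    rw [LinearMap.det_comp]
    have h2 : LinearMap.det (fderiv ℝ G P : ℂ →ₗ[ℝ] ℂ) = 1 := hdet
    rw [h2, one_mul]
  have htr2 : 2 < LinearMap.trace ℝ ℂ (fderiv ℝ (fun z => G (G z)) P : ℂ →ₗ[ℝ] ℂ) := by
    rw [hfd]
    have e1 := SH_entries (fderiv ℝ G P)
    have e2 := (SH_entries ((fderiv ℝ G P).comp (fderiv ℝ G P))).2
    rw [e2]
    rw [e1.2] at htr
    have hd := e1.1
    rw [hdet] at hd
    have hB := SH_apply (fderiv ℝ G P)
    rw [ContinuousLinearMap.comp_apply, ContinuousLinearMap.comp_apply,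
      hB ((fderiv ℝ G P) 1), hB ((fderiv ℝ G P) Complex.I)]
    have hsq : 4 < (((fderiv ℝ G P) 1).re + ((fderiv ℝ G P) Complex.I).im) ^ 2 := by
      have := (sq_lt_sq.2 (by rw [abs_of_pos (by norm_num : (0:ℝ) < 2)]; exact htr :
        |(2:ℝ)| < |((fderiv ℝ G P) 1).re + ((fderiv ℝ G P) Complex.I).im|))
      linarith
    simp only [Complex.add_re, Complex.add_im, Complex.mul_re, Complex.mul_im, Complex.ofReal_re,
      Complex.ofReal_im]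
    nlinarith
  obtain ⟨χ, κ, k, Vo, r, lp, km, kp, hC, hloc, hne2, hVo, hsq, hk1, hkV, hkinj, hk0⟩ :=
    DG.hyp_pl (gs := fun x => gs (gs x)) (G := fun z => G (G z)) hS hP' hne hV'o hPV' hcG2 hq2
      (by rw [hGP, hGP]) hdet2 htr2
  refine ⟨χ, κ, k, Vo, r, lp, km, kp, hC, hne2, ?_, fun z hz => ⟨(hkV z hz).1, (hkV z hz).2.1⟩⟩
  refine ⟨hloc, hVo, hsq, hk1, fun z hz => hVX (hkV z hz).2.1, hkinj, ?_, hk0, ?_⟩
  · intro z hz z' hz' h
    have h1 : κ z = κ z' := by rw [(hkV z hz).1, (hkV z' hz').1, h]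
    rw [← hC.χκ z, h1, hC.χκ]
  · intro w hw hFw
    have h1 : κ (χ (gs (gs (κ w)))) = gs (gs (κ w)) := hC.κχ _ (hne2 w hw)
    have h2 : κ (χ (gs (gs (κ w)))) = q (k (χ (gs (gs (κ w))))) := (hkV _ (hsq hFw)).1
    have h3 : gs (gs (κ w)) = q (G (G (k w))) := by
      rw [(hkV w (hsq hw)).1, hq2 (k w) (hkV w (hsq hw)).2]
    have h4 : q (k (χ (gs (gs (κ w))))) = q (G (G (k w))) := by
      rw [← h2, h1, h3]
    change k (χ (gs (gs (κ w)))) = G (G (k w))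
    rw [← hS.pq (k (χ (gs (gs (κ w))))), h4, hS.pq]

end

end CV
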