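import Pool.Agent.H36.DG.LLa
import Pool.Agent.H36.DG.LLb

/-!
LLc (the conditions for powers and compositions with deck transformations).
On `X` one has `(A c ∘ G)^[n] x = A c' (G^[n] x)` with `c'` depending only on `c` and `n` (induction; `Lift.equi`, `Deck.mul`), so near `P ∈ X` the maps
`x ↦ A d ((A c ∘ G)^[n] x)` and `x ↦ A (d * c') (G^[n] x)` are equal and have the same derivative (`Filter.EventuallyEq.fderiv_eq`, `X` open).
`Cond.pow`: `(G^[n])^[m] = G^[n * m]`; `per_pow`, `stabX_pow` (for `g` and for `gi`, both continuous).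
-/

namespace CV

open Metric Set Filter Topology Function DS TN

section
variable {S : Type} [MetricSpace S] [CompactSpace S] {X : Set ℂ} {Γ : Type} [Group Γ]
  {A : Γ → ℂ → ℂ} {p : ℂ → S} {g gi : S → S} {G Gi : ℂ → ℂ} {θ : Γ ≃* Γ} {ρ : ℂ → ℝ}
  {Hyp : S → Prop}

theorem LLc_iter (D : Deck X A p) (L : Lift X A p g gi G Gi θ ρ) (c : Γ) (n : ℕ) :
    ∃ c' : Γ, ∀ x ∈ X, (fun x => A c (G x))^[n] x = A c' (G^[n] x) := by
  induction n with
  | zero => exact ⟨1, fun x hx => (D.one x hx).symm⟩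
  | succ n ih =>
    obtain ⟨c', h⟩ := ih
    refine ⟨c * θ c', fun x hx => ?_⟩
    have h1 : G^[n] x ∈ X := (L.iter n).1 hx
    rw [Function.iterate_succ_apply', Function.iterate_succ_apply', h x hx]
    show A c (G (A c' (G^[n] x))) = _
    rw [L.equi c' _ h1, ← D.mul _ _ _ (L.mG h1)]

theorem Cond.mul (D : Deck X A p) (L : Lift X A p g gi G Gi θ ρ) (C : Cond X A p g gi G Hyp)
    (c : Γ) : Cond X A p g gi (fun x => A c (G x)) Hyp := by
  refine ⟨C.per, C.inv, fun n hn d P hP hfix => ?_, C.c2⟩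
  obtain ⟨c', h⟩ := LLc_iter D L c n
  have h1 : ∀ x ∈ X, A d ((fun x => A c (G x))^[n] x) = A (d * c') (G^[n] x) := fun x hx => by
    rw [h x hx, D.mul _ _ _ ((L.iter n).1 hx)]
  have h2 : (fun x => A d ((fun x => A c (G x))^[n] x)) =ᶠ[𝓝 P] fun x => A (d * c') (G^[n] x) := by
    filter_upwards [D.opn.mem_nhds hP] with x hx
    exact h1 x hx
  rw [h2.fderiv_eq]
  exact C.tri n hn (d * c') P hP ((h1 P hP).symm.trans hfix)

theorem Cond.pow (D : Deck X A p) (L : Lift X A p g gi G Gi θ ρ) (C : Cond X A p g gi G Hyp)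
    {n : ℕ} (hn : 0 < n) : Cond X A p (g^[n]) (gi^[n]) (G^[n]) Hyp := by
  refine ⟨fun s hs => (per_pow hn s).2 (C.per s hs), fun s hs => ?_, fun m hm c P hP hfix => ?_,
    fun P hP Q hQ hP' hQ' x v w h1 h2 => ?_⟩
  · clear hn
    induction n with
    | zero => exact hs
    | succ n ih =>
      rw [Function.iterate_succ_apply']
      exact C.inv _ ih
  · rw [← Function.iterate_mul] at hfix ⊢
    exact C.tri (n * m) (Nat.mul_pos hn hm) c P hP hfix
  · rw [stabX_pow L.cg hn] at h1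
    rw [stabX_pow L.cgi hn] at h2
    exact C.c2 P hP Q hQ hP' hQ' x v w h1 h2

/-- the trichotomy at a fixed point of `G` -/
theorem Cond.one (D : Deck X A p) (L : Lift X A p g gi G Gi θ ρ) (C : Cond X A p g gi G Hyp)
    {P : ℂ} (hP : P ∈ X) (hGP : G P = P) : (fderiv ℝ G P).det = 1 ∧
      (|LinearMap.trace ℝ ℂ (fderiv ℝ G P : ℂ →ₗ[ℝ] ℂ)| < 2 ∨
      (Hyp (p P) ∧ 2 < |LinearMap.trace ℝ ℂ (fderiv ℝ G P : ℂ →ₗ[ℝ] ℂ)|)) := by
  constructor
  · have h1 := L.area P hP
    rw [hGP] at h1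
    have h2 : ρ P ≠ 0 := (L.ρpos P hP).ne'
    exact mul_left_cancel₀ h2 (h1.trans (mul_one _).symm)
  · have h1 : (fun x => A 1 (G^[1] x)) =ᶠ[𝓝 P] G := by
      filter_upwards [D.opn.mem_nhds hP] with x hx
      exact D.one _ (L.mG hx)
    have h2 := C.tri 1 one_pos 1 P hP (by
      rw [Function.iterate_one, hGP]
      exact D.one P hP)
    rw [h1.fderiv_eq] at h2
    exact h2

end

end CV
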