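import Pool.Agent.H36.DG.HDA
import Pool.Agent.H36.DG.HEd
import Pool.Agent.H36.DG.LLc
import Pool.Agent.H36.DS.XA

/-!
HEa.  `ell_end`: `ell_pl` (DG/GF) with `B = fderiv ℝ G P`, `det B = 1` (`Cond.one`).
`hyp_arc`: `exists_SC` (DS/XA), `gs x = q (G (pp x))` (so `gs (q z) = q (G z)`), `K = univ`, `P' = O` (`q P ≠ O`), `V = X`: `hyp_data` gives `HData`; `T = k '' {⟨x, 0⟩ | 0 ≤ x ≤ r}`: connected (image of a segment in `Sq r ⊆ Vo`), in
`StabX X p g P` by `axis_st`, contains `P = k 0` and `k ⟨r, 0⟩ ≠ P` (`kinj`).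
-/

namespace CV

open Metric Set Filter Topology Function DS TN

section
variable {S : Type} [MetricSpace S] [CompactSpace S] {X : Set ℂ} {Γ : Type} [Group Γ]
  {A : Γ → ℂ → ℂ} {p : ℂ → S} {g gi : S → S} {G Gi : ℂ → ℂ} {θ : Γ ≃* Γ} {ρ : ℂ → ℝ}
  {Hyp : S → Prop} {U : Set ℂ} {N : Subgroup Γ}

theorem ell_end (D : Deck X A p) (L : Lift X A p g gi G Gi θ ρ) (C : Cond X A p g gi G Hyp)
    {O : S2} {pp : S2 → ℂ} {q : ℂ → S2} (hS : SC O pp q) {K : Set S2} {P' : S2} (hP' : P' ∈ K)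
    {P : ℂ} (hP : P ∈ X) (hGP : G P = P) (hPK : q P ∈ K) (hne : q P ≠ P') {gs : S2 → S2}
    {V : Set ℂ} (hV : IsOpen V) (hPV : P ∈ V) (hVX : V ⊆ X) (hgs : ∀ z ∈ V, gs (q z) = q (G z))
    (htr : |LinearMap.trace ℝ ℂ (fderiv ℝ G P : ℂ →ₗ[ℝ] ℂ)| < 2) : EllPt K gs (q P) := by
  have hB : HasFDerivAt G (fderiv ℝ G P) P :=
    ((L.c1.differentiableOn one_ne_zero).differentiableAt (D.opn.mem_nhds hP)).hasFDerivAt
  have hGq : ∀ᶠ z in 𝓝 P, gs (q z) = q (G z) := by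
    filter_upwards [hV.mem_nhds hPV] with z hz
    exact hgs z hz
  exact DG.ell_pl hS hP' hPK hne hGq hGP hB (C.one D L hP hGP).1 htr

/-- a connected subset of the stable set of a hyperbolic fixed point -/
theorem hyp_arc (D : Deck X A p) (L : Lift X A p g gi G Gi θ ρ) (C : Cond X A p g gi G Hyp)
    {P : ℂ} (hP : P ∈ X) (hGP : G P = P) (hH : Hyp (p P))
    (htr : 2 < |LinearMap.trace ℝ ℂ (fderiv ℝ G P : ℂ →ₗ[ℝ] ℂ)|) :
    ∃ T ⊆ StabX X p g P, IsConnected T ∧ P ∈ T ∧ ∃ y ∈ T, y ≠ P := by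
  have hne : (sphere (0 : E3) 1).Nonempty := NormedSpace.sphere_nonempty.2 zero_le_one
  obtain ⟨O⟩ : Nonempty S2 := hne.to_subtype
  obtain ⟨pp, q, hS⟩ := exists_SC O
  obtain ⟨χ, κ, k, Vo, r, lp, km, kp, -, -, H, -⟩ :=
    hyp_data D L hS (K := univ) (P' := O) (mem_univ _) hP hGP (hS.q_ne P)
      (gs := fun x => q (G (pp x))) D.opn hP Subset.rfl
      (fun z _ => by show q (G (pp (q z))) = q (G z); rw [hS.pq]) (C.one D L hP hGP).1 htr
  have hr : 0 < r := H.loc.hr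
  have hmem : ∀ x ∈ Icc (0:ℝ) r, (⟨x, 0⟩ : ℂ) ∈ Vo := by
    intro x hx
    apply H.sq
    exact ⟨by simp only; linarith [hx.1], hx.2, by simp only; linarith, by simp only; linarith⟩
  have hline : Continuous fun x : ℝ => (⟨x, 0⟩ : ℂ) := by
    have h1 : (fun x : ℝ => (⟨x, 0⟩ : ℂ)) = fun x : ℝ => (x : ℂ) := by
      funext x
      exact Complex.ext (by simp) (by simp)
    rw [h1]
    exact Complex.continuous_ofReal
  have h0 : k ⟨0, 0⟩ = P := H.k0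
  refine ⟨(fun x : ℝ => k ⟨x, 0⟩) '' Icc 0 r, ?_, ?_, ⟨0, left_mem_Icc.2 hr.le, h0⟩,
    k ⟨r, 0⟩, ⟨r, right_mem_Icc.2 hr.le, rfl⟩, ?_⟩
  · rintro _ ⟨x, hx, rfl⟩
    exact axis_st D L hP hGP H (by rw [abs_of_nonneg hx.1]; exact hx.2)
  · refine (isConnected_Icc hr.le).image _ ?_
    exact H.c1.continuousOn.comp hline.continuousOn hmem
  · intro h1
    rw [← h0] at h1
    have h2 := H.kinj (hmem r (right_mem_Icc.2 hr.le)) (hmem 0 (left_mem_Icc.2 hr.le)) h1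
    have h3 := congrArg Complex.re h2
    simp only at h3
    exact hr.ne' h3

end

end CV
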