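import Pool.Agent.H36.DG.HDC
import Pool.Agent.H36.DG.HEa

/-!
HE (hyperbolic local form at a fixed point of a lift, on the sphere).  `j = q` on `V`; `K` is a subset of the sphere such that a connected subset `T` of `X \ U` with a point in `q⁻¹ K` is in `q⁻¹ K` (`hKc`).
`hyp_data` (DG/HEd; `det = 1` by `Cond.one`) gives `χ κ k Vo r lp km kp`; `gs^[2] = gs ∘ gs`.
`HypChart` for `gs^[2]`: `axis`: `T = {k ⟨x', 0⟩ : x' between 0 and x}` is connected, in `StabX X p g P` (`axis_st`) so in `X \ U` (`M.stab`, `C.per`), contains `P = k 0`, `q P ∈ K`: so `q (k ⟨x, 0⟩) ∈ K`.  `sp`: `SPX` at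
`k ⟨x, 0⟩` with `Q = P` and the curve `t ↦ k ⟨x + t e, 0⟩`, `e` small (regular by `inj`); `j (k ..) = q (k ..)` as `k z ∈ V`.  `cross`: `κ ⟨0, y⟩ ∈ K` with `SPS`: some `x₁ ∈ X` with `j x₁ = κ ⟨0, y⟩`, `SPX x₁`, i.e. `Q`, `v`, `α` in
`StabX X p g Q`, `α 0 = x₁`; `j x₁ = q (k ⟨0, y⟩) = j (k ⟨0, y⟩)`, so `x₁ = k ⟨0, y⟩` by injectivity of `j` on `X` (`hji`).  `cross_pl` gives `z` with `k z = α t`; the set `α '' Ioo (-1) 1` is connected, in `X \ U`, contains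
`k ⟨0, y⟩` with `q (k ⟨0, y⟩) ∈ K`, so `κ z = q (k z) = q (α t) ∈ K`.
-/

namespace CV

open Metric Set Filter Topology Function DS TN

section
variable {S : Type} [MetricSpace S] [CompactSpace S] {X : Set ℂ} {Γ : Type} [Group Γ]
  {A : Γ → ℂ → ℂ} {p : ℂ → S} {g gi : S → S} {G Gi : ℂ → ℂ} {θ : Γ ≃* Γ} {ρ : ℂ → ℝ}
  {Hyp : S → Prop} {U : Set ℂ} {N : Subgroup Γ}

omit [CompactSpace S] in
theorem HE_sub (C : Cond X A p g gi G Hyp) (M : Dom X A p g G U N) {Q : ℂ} (hQ : Q ∈ X)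
    (hHQ : Hyp (p Q)) {x : ℂ} (hx : x ∈ StabX X p g Q) : x ∈ X \ U :=
  ⟨hx.1, fun hxU => disjoint_left.1 (M.stab Q hQ (C.per _ hHQ)) hxU hx⟩

theorem HE_sq {r x : ℝ} (h : |x| ≤ r) : ((x : ℝ) : ℂ) ∈ Sq r := by
  have h1 := abs_le.1 h
  have h2 : 0 ≤ r := (abs_nonneg _).trans h
  refine ⟨h1.1, h1.2, ?_, ?_⟩
  · simp [h2]
  · simp [h2]

theorem HE_sp (D : Deck X A p) (L : Lift X A p g gi G Gi θ ρ) {P : ℂ} (hP : P ∈ X)
    (hGP : G P = P) (hH : Hyp (p P)) {k F : ℂ → ℂ} {Vo : Set ℂ} {r lp km kp : ℝ}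
    (H : HData X G P k F Vo r lp km kp) {x : ℝ} (hx : |x| < r) :
    SPX X p g Hyp (k ⟨x, 0⟩) := by
  have hz₀ : (⟨x, 0⟩ : ℂ) ∈ Vo := H.sq (HE_sq hx.le)
  have he : 0 < r - |x| := by linarith
  obtain ⟨e, hee⟩ : ∃ e, e = r - |x| := ⟨_, rfl⟩
  rw [← hee] at he
  have hline : ∀ t ∈ Ioo (-1:ℝ) 1, |x + t * e| ≤ r := by
    intro t ht
    have h1 : |t| ≤ 1 := (abs_lt.2 ht).le
    calc |x + t * e| ≤ |x| + |t * e| := abs_add_le _ _
      _ = |x| + |t| * e := by rw [abs_mul, abs_of_pos he]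
      _ ≤ |x| + 1 * e := by
          have := mul_le_mul_of_nonneg_right h1 he.le
          linarith
      _ = r := by rw [hee]; ring
  have hdl : HasDerivAt (fun t : ℝ => (((x + t * e : ℝ)) : ℂ)) (e : ℂ) 0 := by
    have h1 : HasDerivAt (fun t : ℝ => x + t * e) e 0 := by
      simpa using ((hasDerivAt_id (0:ℝ)).mul_const e).const_add x
    exact h1.ofReal_comp
  have hkd : HasFDerivAt k (fderiv ℝ k ⟨x, 0⟩) ((fun t : ℝ => (((x + t * e : ℝ)) : ℂ)) 0) := by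
    have h2 : ((fun t : ℝ => (((x + t * e : ℝ)) : ℂ)) 0) = ⟨x, 0⟩ := by
      simp only [zero_mul, add_zero]
      rfl
    rw [h2]
    exact ((H.c1.contDiffAt (H.opn.mem_nhds hz₀)).differentiableAt (by norm_num)).hasFDerivAt
  have hd : HasDerivAt (fun t : ℝ => k ((x + t * e : ℝ) : ℂ)) (fderiv ℝ k ⟨x, 0⟩ (e : ℂ)) 0 :=
    HasFDerivAt.comp_hasDerivAt (f := fun t : ℝ => (((x + t * e : ℝ)) : ℂ)) (0:ℝ) hkd hdl
  refine ⟨H.mX hz₀, P, hP, hH, fderiv ℝ k ⟨x, 0⟩ (e : ℂ), ?_, fun t => k ((x + t * e : ℝ) : ℂ),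
    ?_, ?_, ?_, hd.deriv⟩
  · intro h0
    have h1 := H.inj _ hz₀ (h0.trans (map_zero (fderiv ℝ k ⟨x, 0⟩)).symm)
    exact he.ne' (by exact_mod_cast h1)
  · have hc : ContDiff ℝ 1 (fun t : ℝ => (((x + t * e : ℝ)) : ℂ)) :=
      Complex.ofRealCLM.contDiff.comp (contDiff_const.add (contDiff_id.mul contDiff_const))
    exact H.c1.comp hc.contDiffOn fun t ht => H.sq (HE_sq (hline t ht))
  · intro t ht
    exact axis_st D L hP hGP H (hline t ht)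
  · simp only [zero_mul, add_zero]
    rfl

theorem hyp_end (D : Deck X A p) (L : Lift X A p g gi G Gi θ ρ) (C : Cond X A p g gi G Hyp)
    (M : Dom X A p g G U N) {O : S2} {pp : S2 → ℂ} {q : ℂ → S2} (hS : SC O pp q) {K : Set S2}
    {P' : S2} (hP' : P' ∈ K) {P : ℂ} (hP : P ∈ X) (hGP : G P = P) (hPK : q P ∈ K)
    (hne : q P ≠ P')
    (hKc : ∀ T ⊆ X \ U, IsPreconnected T → ∀ x ∈ T, q x ∈ K → ∀ y ∈ T, q y ∈ K)
    {gs : S2 → S2} {V : Set ℂ} (hV : IsOpen V) (hPV : P ∈ V) (hVX : V ⊆ X)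
    (hgs : ∀ z ∈ V, gs (q z) = q (G z)) {j : ℂ → S2} (hj : ∀ z ∈ V, j z = q z)
    (hji : InjOn j X) (hH : Hyp (p P))
    (htr : 2 < |LinearMap.trace ℝ ℂ (fderiv ℝ G P : ℂ →ₗ[ℝ] ℂ)|) :
    ∃ (χ : S2 → ℂ) (κ : ℂ → S2) (r lp km kp : ℝ),
      HypChart K (SPS X p g Hyp j) (gs^[2]) (q P) P' χ κ r lp km kp := by
  have hdet := (Cond.one D L C hP hGP).1
  obtain ⟨χ, κ, k, Vo, r, lp, km, kp, hch, hne', H, hk⟩ :=
    hyp_data D L hS hP' hP hGP hne hV hPV hVX hgs hdet htr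
  refine ⟨χ, κ, r, lp, km, kp, hch, H.loc, hne', ?_, ?_, ?_⟩
  · intro x hx
    have hz : (⟨x, 0⟩ : ℂ) ∈ Vo := H.sq (HE_sq hx)
    rw [(hk _ hz).1]
    have hline : ∀ s ∈ Icc (0:ℝ) 1, |s * x| ≤ r := by
      intro s hs
      rw [abs_mul, abs_of_nonneg hs.1]
      exact (mul_le_of_le_one_left (abs_nonneg _) hs.2).trans hx
    have hc : ContinuousOn (fun s : ℝ => k ((s * x : ℝ) : ℂ)) (Icc 0 1) := by
      refine H.c1.continuousOn.comp ?_ fun s hs => H.sq (HE_sq (hline s hs))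
      exact (Complex.continuous_ofReal.comp (continuous_id.mul continuous_const)).continuousOn
    refine hKc ((fun s : ℝ => k ((s * x : ℝ) : ℂ)) '' Icc 0 1) ?_ (isPreconnected_Icc.image _ hc)
      P ⟨0, ⟨le_rfl, zero_le_one⟩, ?_⟩ hPK _ ⟨1, ⟨zero_le_one, le_rfl⟩, ?_⟩
    · rintro _ ⟨s, hs, rfl⟩
      exact HE_sub C M hP hH (axis_st D L hP hGP H (hline s hs))
    · simp only [zero_mul, Complex.ofReal_zero]
      exact H.k0
    · simp only [one_mul]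
      rfl
  · intro x hx0 hx
    have hz : (⟨x, 0⟩ : ℂ) ∈ Vo := H.sq (HE_sq hx.le)
    obtain ⟨h1, h2⟩ := hk _ hz
    exact ⟨k ⟨x, 0⟩, H.mX hz, by rw [hj _ h2, h1], HE_sp D L hP hGP hH H hx⟩
  · rintro y hy0 hy hyK ⟨x₁, hx₁X, hj₁, -, Q, hQ, hHQ, v, hv0, α, hα, hαs, hα0, hαd⟩ ε hε
    have hz : (⟨0, y⟩ : ℂ) ∈ Vo := by
      apply H.sq
      have h1 := abs_le.1 hy.le
      have h2 : 0 ≤ r := (abs_nonneg _).trans hy.le
      exact ⟨by simpa using h2, by simpa using h2, h1.1, h1.2⟩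
    obtain ⟨h1, h2⟩ := hk _ hz
    have hx₁ : x₁ = k ⟨0, y⟩ := by
      apply hji hx₁X (H.mX hz)
      rw [hj₁, hj _ h2, h1]
    have hT : ∀ t ∈ Ioo (-1:ℝ) 1, q (α t) ∈ K := by
      intro t ht
      refine hKc (α '' Ioo (-1) 1) ?_ (isPreconnected_Ioo.image α hα.continuousOn) (k ⟨0, y⟩)
        ⟨0, ⟨by norm_num, by norm_num⟩, hα0.trans hx₁⟩ (by rw [← h1]; exact hyK) _ ⟨t, ht, rfl⟩
      rintro _ ⟨s, hs, rfl⟩
      exact HE_sub C M hQ hHQ (hαs s hs)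
    obtain ⟨⟨z, a1, a2, a3, t, a4, a5⟩, z', b1, b2, b3, t', b4, b5⟩ :=
      cross_pl D L C hP hGP hH H hy0 hy hQ hHQ hα hαs (hα0.trans hx₁) (by rw [hαd]; exact hv0) hε
    refine ⟨⟨z, a1, a2, ?_⟩, z', b1, b2, ?_⟩
    · rw [(hk z a3).1, a5]; exact hT t a4
    · rw [(hk z' b3).1, b5]; exact hT t' b4

end

end CV
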