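import Pool.Agent.H12.TN.FN
import Pool.Agent.H12.TN.FE
import Pool.Agent.H12.TN.FF
import Pool.Agent.H12.TN.FD
import Pool.Agent.H12.TN.CO
import Pool.Agent.H12.TN.GP

/-!
HN (the next fixed prime end is in the same gap).  Write `T` for the circle, `Λ = F.lim` (closed).  Suppose `x ∈ Λ`.  Then `F` is not the trivial group (`Λ = ∅` if `∀ g, g = 1`).
`J` is a connected subset of `T \ Λ` and `ζ ∈ closure J` (limit of the iterates of a point of `J` in `J`), `x ∈ closure J`; `ζ ∉ Λ`, so `J ∪ {ζ}` is connected and is contained in the component `I` of `ζ` in `T \ Λ`; `x ∈ closure I`.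
Claim: there is `d ∈ Γ` with `e.θ d = d`, `F.act (d ^ n) ζ → x`, `F.act (d ^ n) ζ ∈ I` for all `n`.
(Cyclic case, `elem`: `Γ = zpowers κ`, `F.AR κ p q`, `Λ = {p, q}`.  Nonelementary case: `F.UC` by `hI`; `gaps` (TN/GP): there are `g`, `i` with `F.act g ζ` in the gap `i`; conjugate `κ_i`, `p_i`, `q_i` by `g⁻¹`: `κ ∈ Γ`, `F.AR κ p q`, `Fix`-stabiliser
`F.act c p = p ↔ c ∈ zpowers κ`, and the gap is the arc `{ξ | 0 < eta p q ξ}` (image of the gap `i` by `F.act g⁻¹`), which contains `ζ` and no point of `Λ`.)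
In both cases: `I` is the open arc `{ξ ∈ T | 0 < (eta p q ξ).re}` or `{ξ ∈ T | (eta p q ξ).re < 0}` with end points `p, q ∈ Λ` (`eta p q` is a homeomorphism of `T \ {p}` onto the real line, `eta p q (act κ ξ) = λ * eta p q ξ`, `λ > 0`), so
`x ∈ {p, q}` (`x ∈ closure I`, `x ∉ I`), `act κ '' I = I`, `act (κ ^ n) ζ → p`, `act (κ⁻¹ ^ n) ζ → q` (`AR.att`).  Commuting: `e.H` maps `Λ` to `Λ` and `T \ Λ` to itself, hence components to components, fixes `ζ`: `e.H '' I = I`, so `e.H` permutes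
`{p, q}`; it is an orientation preserving homeomorphism of the circle (`he.orient`; see TN/CO, `CircleDeg1`; helper files TN/CO, TN/CP) with a fixed point `ζ`, so it fixes `p` and `q` (it preserves each of the two arcs of `I \ {ζ}`; in a lift to the line with fixed point it is
increasing).  Then `e.θ κ` satisfies `act (e.θ κ) p = e.H (act κ (e.Hi p)) = p`, so `e.θ κ ∈ zpowers κ`, and it has the attracting fixed point `p`; the same for `e.θ.symm`; so `e.θ κ = κ` (an automorphism of the infinite cyclic group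
`zpowers κ` which preserves the attracting fixed point is the identity).  `d = κ` or `κ⁻¹`.
Contradiction: the points `ζ_n = act (d ^ n) ζ` are fixed by `e.H` (`e.H (act (d^n) ζ) = act (e.θ (d^n)) (e.H ζ)`), converge to `x`, lie in `I`, are different from `ζ` for `n ≥ 1`.  `J` is a connected subset of the arc `I \ {ζ}` with `ζ` and `x` in its closure,
so it contains the open arc between `ζ` and `x` in `I`, hence `ζ_n` for large `n` (these lie on the side of `x`).  But points of `J` converge to `ζ` under `e.H`, and `ζ_n ≠ ζ` is fixed.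
-/

namespace TN
open Metric Set Filter Topology DS

variable {Γ : Type} [Group Γ]

theorem HN_eta_ne {p q : ℂ} (hp : ‖p‖ = 1) (hq : ‖q‖ = 1) (hpq : p ≠ q) {ξ : ℂ} (hξ : ‖ξ‖ = 1)
    (h1 : ξ ≠ p) (h2 : ξ ≠ q) : (eta p q ξ).re ≠ 0 := by
  intro h
  apply eta_ne hp hq hpq h1 h2
  apply Complex.ext
  · exact h
  · rw [eta_im hp hq, hξ]; simp

theorem HN_eta_cont {p q : ℂ} {ξ : ℂ} (h1 : ξ ≠ p) :
    ContinuousAt (fun x => (eta p q x).re) ξ := by
  have h : ContinuousAt (eta p q) ξ := by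
    unfold eta
    exact (continuousAt_const.mul (continuousAt_id.sub continuousAt_const)).div
      (continuousAt_const.sub continuousAt_id) (sub_ne_zero.2 (Ne.symm h1))
  exact Complex.continuous_re.continuousAt.comp h

/-- on the circle `eta` is real -/
theorem HN_real {p q : ℂ} (hp : ‖p‖ = 1) (hq : ‖q‖ = 1) {ξ : ℂ} (hξ : ‖ξ‖ = 1) :
    eta p q ξ = ((eta p q ξ).re : ℂ) := by
  apply Complex.ext
  · simp
  · rw [eta_im hp hq, hξ]; simp

theorem HN_inj {p q : ℂ} (hp : ‖p‖ = 1) (hq : ‖q‖ = 1) (hpq : p ≠ q) {ξ ξ' : ℂ} (hξ : ‖ξ‖ = 1)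
    (hξ' : ‖ξ'‖ = 1) (h1 : ξ ≠ p) (h1' : ξ' ≠ p) (h : (eta p q ξ).re = (eta p q ξ').re) :
    ξ = ξ' := by
  have h2 : eta p q ξ = eta p q ξ' := by
    rw [HN_real hp hq hξ, HN_real hp hq hξ', h]
  have h3 := eta_sub (q := q) h1 h1'
  rw [h2, sub_self] at h3
  have hd : (p - ξ) * (p - ξ') ≠ 0 :=
    mul_ne_zero (sub_ne_zero.2 (Ne.symm h1)) (sub_ne_zero.2 (Ne.symm h1'))
  have h4 := (div_eq_zero_iff.1 h3.symm).resolve_right hd
  have hc : (1 - p * (starRingEnd ℂ) q) ≠ 0 := by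
    rw [← norm_ne_zero_iff, pq_norm hp hq]
    exact norm_ne_zero_iff.2 (sub_ne_zero.2 hpq)
  have h5 : Complex.I * (1 - p * (starRingEnd ℂ) q) * (p - q) ≠ 0 :=
    mul_ne_zero (mul_ne_zero Complex.I_ne_zero hc) (sub_ne_zero.2 hpq)
  exact sub_eq_zero.1 ((mul_eq_zero.1 h4).resolve_left h5)

/-- near `p` the coordinate is large -/
theorem HN_large {p q : ℂ} (hp : ‖p‖ = 1) (hq : ‖q‖ = 1) (hpq : p ≠ q) {J : Set ℂ}
    (hJ1 : ∀ ξ ∈ J, ‖ξ‖ = 1) (hJp : p ∉ J) (hJ0 : ∀ ξ ∈ J, 0 < (eta p q ξ).re)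
    (hcl : p ∈ closure J) (v : ℝ) : ∃ ξ ∈ J, v < (eta p q ξ).re := by
  set D : ℝ := ‖p - q‖ with hD
  have hD0 : 0 < D := norm_pos_iff.2 (sub_ne_zero.2 hpq)
  set ε : ℝ := min (D / 2) (D ^ 2 / (2 * (|v| + 1))) with hε
  have hv : 0 < |v| + 1 := by positivity
  have hε0 : 0 < ε := by positivity
  obtain ⟨ξ, hξ, hd⟩ := Metric.mem_closure_iff.1 hcl ε hε0
  refine ⟨ξ, hξ, ?_⟩
  rw [dist_eq_norm] at hd
  have hξp : p - ξ ≠ 0 := sub_ne_zero.2 fun h => hJp (h ▸ hξ)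
  have hn0 : 0 < ‖p - ξ‖ := norm_pos_iff.2 hξp
  have h1 : (eta p q ξ).re = D * ‖ξ - q‖ / ‖p - ξ‖ := by
    have h2 : ‖eta p q ξ‖ = (eta p q ξ).re := by
      rw [HN_real hp hq (hJ1 ξ hξ), Complex.norm_real, Real.norm_eq_abs,
        abs_of_pos (hJ0 ξ hξ), Complex.ofReal_re]
    rw [← h2, eta, norm_div, norm_mul, norm_mul, Complex.norm_I, one_mul, pq_norm hp hq]
  have h3 : D / 2 ≤ ‖ξ - q‖ := by
    have h4 : D ≤ ‖p - ξ‖ + ‖ξ - q‖ := norm_sub_le_norm_sub_add_norm_sub p ξ q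
    have h5 : ‖p - ξ‖ < D / 2 := hd.trans_le (min_le_left _ _)
    linarith
  rw [h1, lt_div_iff₀ hn0]
  have h6 : ‖p - ξ‖ < D ^ 2 / (2 * (|v| + 1)) := hd.trans_le (min_le_right _ _)
  rw [lt_div_iff₀ (by positivity)] at h6
  have h7 : v * ‖p - ξ‖ ≤ |v| * ‖p - ξ‖ := mul_le_mul_of_nonneg_right (le_abs_self v) hn0.le
  have h8 : D * (D / 2) ≤ D * ‖ξ - q‖ := mul_le_mul_of_nonneg_left h3 hD0.le
  nlinarith

/-- the main step: an arc in a gap from `ζ` to an end point contains a translate of `ζ` -/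
theorem HN_core (F : Fuchs Γ) {κ : Γ} {p q : ℂ} (hκ : F.AR κ p q)
    (hgap : ∀ ξ : ℂ, ‖ξ‖ = 1 → ξ ≠ p → 0 < (eta p q ξ).re → ξ ∉ F.lim) {ζ x : ℂ} (hζ : ‖ζ‖ = 1)
    (hζp : ζ ≠ p) (hζ0 : 0 < (eta p q ζ).re) {J : Set ℂ} (hJ1 : ∀ ξ ∈ J, ‖ξ‖ = 1)
    (hJl : ∀ ξ ∈ J, ξ ∉ F.lim) (hJc : IsPreconnected J) (hζJ : ζ ∈ closure J)
    (hx : ‖x‖ = 1) (hxJ : x ∈ closure J) (hxl : x ∈ F.lim) : ∃ g : Γ, g ≠ 1 ∧ F.act g ζ ∈ J := by
  have hp := hκ.np
  have hq := hκ.nq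
  have hpq := hκ.ne
  obtain ⟨lp, lq⟩ := AR.lim hκ
  have hJp : p ∉ J := fun h => hJl p h lp
  have hJq : q ∉ J := fun h => hJl q h lq
  set f : ℂ → ℝ := fun ξ => (eta p q ξ).re with hf
  have hfc : ContinuousOn f J := fun ξ hξ =>
    (HN_eta_cont (p := p) (q := q) (ξ := ξ) (fun h : ξ = p => hJp (h ▸ hξ))).continuousWithinAt
  have hf0 : ∀ ξ ∈ J, f ξ ≠ 0 := fun ξ hξ =>
    HN_eta_ne hp hq hpq (hJ1 ξ hξ) (fun h => hJp (h ▸ hξ)) (fun h => hJq (h ▸ hξ))
  have hζcl : f ζ ∈ closure (f '' J) := mem_closure_image (HN_eta_cont hζp) hζJ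
  have himg : IsPreconnected (f '' J) := hJc.image f hfc
  have hoc : (f '' J).OrdConnected := himg.ordConnected
  -- the coordinate is positive on `J`
  have hpos : ∀ ξ ∈ J, 0 < f ξ := by
    intro ξ hξ
    by_contra hn
    push Not at hn
    obtain ⟨_, ⟨ξ₀, hξ₀, rfl⟩, h2⟩ := Metric.mem_closure_iff.1 hζcl (f ζ) hζ0
    rw [Real.dist_eq, abs_lt] at h2
    have h3 : 0 < f ξ₀ := by linarith [h2.2]
    obtain ⟨ξ₁, hξ₁, h4⟩ := hoc.out ⟨ξ, hξ, rfl⟩ ⟨ξ₀, hξ₀, rfl⟩ ⟨hn, h3.le⟩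
    exact hf0 ξ₁ hξ₁ h4
  -- the multiplier
  have hlt := FD_lt hκ
  have hone := FD_mul_one (F := F) hp hq hpq hκ.fp hκ.fq
  set lam : ℝ := ‖F.dact κ q‖ with hlam
  have hlam1 : 1 < lam := by
    have h0 : 0 < ‖F.dact κ p‖ := norm_pos_iff.2 (dact_ne F κ hp.le)
    by_contra hcon
    push Not at hcon
    have : ‖F.dact κ p‖ * lam < 1 := by
      calc ‖F.dact κ p‖ * lam ≤ ‖F.dact κ p‖ * 1 := mul_le_mul_of_nonneg_left hcon h0.le
        _ < 1 := by rw [mul_one]; exact hlt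
    exact absurd hone this.ne
  have hlam0 : 0 < lam := by linarith
  have hact : ∀ y : ℂ, ‖y‖ = 1 → f (F.act κ y) = lam * f y := by
    intro y hy
    have h1 := eta_act F κ hp hq hy.le
    rw [hκ.fp, hκ.fq] at h1
    simp only [hf]
    rw [h1, Complex.re_ofReal_mul]
  have hne_p : ∀ (g : Γ) {y : ℂ}, ‖y‖ = 1 → F.act g p = p → y ≠ p → F.act g y ≠ p := by
    intro g y hy hg hyp h
    exact hyp (act_inj F g (by simp [hy]) (by simp [hp]) (h.trans hg.symm))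
  have hfpi : F.act κ⁻¹ p = p := (AR.inv hκ).fq
  have hmem : ∀ g : Γ, F.act g p = p → f (F.act g ζ) ∈ f '' J → F.act g ζ ∈ J := by
    intro g hg h
    obtain ⟨ξ, hξ, h1⟩ := h
    have h2 := HN_inj hp hq hpq (hJ1 ξ hξ) (act_eq F g hζ) (fun h => hJp (h ▸ hξ))
      (hne_p g hζ hg hζp) h1
    rw [← h2]
    exact hξ
  have hζf : 0 < f ζ := hζ0
  by_cases hxp : x = p
  · -- the arc goes to `p`
    have hclp : p ∈ closure J := hxp ▸ hxJ
    refine ⟨κ, AR.ne_one hκ, hmem κ hκ.fp ?_⟩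
    rw [hact ζ hζ]
    obtain ⟨ξ₁, hξ₁, h1⟩ := HN_large hp hq hpq hJ1 hJp hpos hclp (lam * f ζ)
    have h2 : 0 < (lam - 1) * f ζ := mul_pos (by linarith) hζf
    obtain ⟨_, ⟨ξ₀, hξ₀, rfl⟩, h3⟩ := Metric.mem_closure_iff.1 hζcl _ h2
    rw [Real.dist_eq, abs_lt] at h3
    exact hoc.out ⟨ξ₀, hξ₀, rfl⟩ ⟨ξ₁, hξ₁, rfl⟩ ⟨by linarith [h3.1], h1.le⟩
  · -- the arc goes to `q`
    have hxcl : f x ∈ closure (f '' J) := mem_closure_image (HN_eta_cont hxp) hxJ
    have hx0 : f x ≤ 0 := by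
      by_contra hcon
      push Not at hcon
      exact hgap x hx hxp hcon hxl
    refine ⟨κ⁻¹, AR.ne_one (AR.inv hκ), hmem κ⁻¹ hfpi ?_⟩
    have h1 : lam * f (F.act κ⁻¹ ζ) = f ζ := by
      rw [← hact _ (act_eq F _ hζ), act_act_inv F κ hζ.le]
    set w : ℝ := f (F.act κ⁻¹ ζ) with hw
    have hw0 : 0 < w := by
      by_contra hcon
      push Not at hcon
      have : lam * w ≤ 0 := mul_nonpos_of_nonneg_of_nonpos hlam0.le hcon
      linarith
    have hwz : w < f ζ := by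
      rw [← h1]
      nlinarith
    obtain ⟨_, ⟨ξ₀, hξ₀, rfl⟩, h3⟩ := Metric.mem_closure_iff.1 hζcl (f ζ - w) (by linarith)
    rw [Real.dist_eq, abs_lt] at h3
    obtain ⟨_, ⟨ξ₁, hξ₁, rfl⟩, h4⟩ := Metric.mem_closure_iff.1 hxcl w hw0
    rw [Real.dist_eq, abs_lt] at h4
    exact hoc.out ⟨ξ₁, hξ₁, rfl⟩ ⟨ξ₀, hξ₀, rfl⟩ ⟨by linarith [h4.1], by linarith [h3.2]⟩

/-- the limit set of a cyclic group -/
theorem HN_cyc (F : Fuchs Γ) {κ : Γ} {p q : ℂ} (hκ : F.AR κ p q)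
    (hz : ∀ c, c ∈ Subgroup.zpowers κ) {ξ : ℂ} (hξ : ξ ∈ F.lim) : ξ = p ∨ ξ = q := by
  have h0 : ∀ {g : Γ} {a b : ℂ}, F.AR g a b → ξ ∈ closure (range fun n : ℕ => F.act (g ^ n) 0) →
      ξ = a := by
    intro g a b hg hcl
    have ht : Tendsto (fun n : ℕ => F.act (g ^ n) 0) atTop (𝓝 a) := hg.att 0 (by simp) (by
      intro h
      have := hg.nq
      rw [← h] at this
      simp at this)
    have hcpt := ht.isCompact_insert_range
    have hsub : closure (range fun n : ℕ => F.act (g ^ n) 0) ⊆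
        insert a (range fun n : ℕ => F.act (g ^ n) 0) :=
      closure_minimal (subset_insert _ _) hcpt.isClosed
    rcases hsub hcl with h | ⟨n, hn⟩
    · exact h
    · exfalso
      have h1 := act_lt F (g ^ n) (x := 0) (by simp)
      have h2 := lim_sphere F hξ
      rw [← hn] at h2
      exact absurd h2 h1.ne
  have h1 : (range fun g : Γ => F.act g 0) ⊆ (range fun n : ℕ => F.act (κ ^ n) 0) ∪
      (range fun n : ℕ => F.act (κ⁻¹ ^ n) 0) := by
    rintro _ ⟨g, rfl⟩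
    obtain ⟨n, rfl⟩ := Subgroup.mem_zpowers_iff.1 (hz g)
    obtain ⟨m, rfl | rfl⟩ := n.eq_nat_or_neg
    · left
      exact ⟨m, by simp⟩
    · right
      exact ⟨m, by simp⟩
  have h2 := closure_mono h1 hξ.2
  rw [closure_union] at h2
  rcases h2 with h | h
  · exact Or.inl (h0 hκ h)
  · exact Or.inr (h0 (AR.inv hκ) h)

/-- one of the two orders gives a positive coordinate -/
theorem HN_swap {p q : ℂ} (hp : ‖p‖ = 1) (hq : ‖q‖ = 1) (hpq : p ≠ q) {ξ : ℂ} (hξ : ‖ξ‖ = 1)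
    (h1 : ξ ≠ p) (h2 : ξ ≠ q) : 0 < (eta p q ξ).re ∨ 0 < (eta q p ξ).re := by
  by_contra hcon
  push Not at hcon
  obtain ⟨c1, c2⟩ := hcon
  have hx1 : p - ξ ≠ 0 := sub_ne_zero.2 (Ne.symm h1)
  have hx2 : q - ξ ≠ 0 := sub_ne_zero.2 (Ne.symm h2)
  have hpp : p * (starRingEnd ℂ) p = 1 := by
    rw [Complex.mul_conj, Complex.normSq_eq_norm_sq, hp]; norm_num
  have hqq : q * (starRingEnd ℂ) q = 1 := by
    rw [Complex.mul_conj, Complex.normSq_eq_norm_sq, hq]; norm_num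
  have e1 : eta p q ξ * eta q p ξ = -((1 - p * (starRingEnd ℂ) q) * (1 - q * (starRingEnd ℂ) p)) := by
    have hI := Complex.I_mul_I
    rw [eta, eta, div_mul_div_comm, div_eq_iff (mul_ne_zero hx1 hx2)]
    linear_combination ((1 - p * (starRingEnd ℂ) q) * (ξ - q) * (1 - q * (starRingEnd ℂ) p) *
      (ξ - p)) * hI
  have e2 : (1 - p * (starRingEnd ℂ) q) * (1 - q * (starRingEnd ℂ) p) = ((‖p - q‖ ^ 2 : ℝ) : ℂ) := by
    have h3 : (1 - q * (starRingEnd ℂ) p) = (starRingEnd ℂ) (1 - p * (starRingEnd ℂ) q) := by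
      rw [map_sub, map_one, map_mul, Complex.conj_conj, mul_comm]
    rw [h3, Complex.mul_conj, Complex.normSq_eq_norm_sq, pq_norm hp hq]
  rw [e2, HN_real hp hq hξ, HN_real hq hp hξ] at e1
  have e3 : (eta p q ξ).re * (eta q p ξ).re = -‖p - q‖ ^ 2 := by exact_mod_cast e1
  have h4 : 0 < ‖p - q‖ := norm_pos_iff.2 (sub_ne_zero.2 hpq)
  have h5 : 0 ≤ (eta p q ξ).re * (eta q p ξ).re := mul_nonneg_of_nonpos_of_nonpos c1 c2
  have h6 : 0 < ‖p - q‖ ^ 2 := by positivity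
  linarith

theorem gap_next (F : Fuchs Γ) (hI : F.Nonel → F.UC) {e : Elt Γ} (he : Norm F e) {ζ : ℂ}
    (hζ : ‖ζ‖ = 1) (hζl : ζ ∉ F.lim) (hf : e.H ζ = ζ) {J : Set ℂ}
    (hJ : J ⊆ (sphere 0 1 \ F.lim) \ {ζ}) (hJc : IsConnected J) (hJi : e.H '' J = J)
    (hJt : ∀ b ∈ J, Tendsto (fun n : ℕ => e.H^[n] b) atTop (𝓝 ζ)) {x : ℂ} (hx : ‖x‖ = 1)
    (hJx : ∀ b ∈ J, Tendsto (fun n : ℕ => e.Hi^[n] b) atTop (𝓝 x)) : x ∉ F.lim := by
  intro hxl
  have hJ1 : ∀ ξ ∈ J, ‖ξ‖ = 1 := fun ξ hξ => by simpa using (hJ hξ).1.1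
  have hJl : ∀ ξ ∈ J, ξ ∉ F.lim := fun ξ hξ => (hJ hξ).1.2
  obtain ⟨b, hb⟩ := hJc.nonempty
  have hJn : ∀ n : ℕ, e.H^[n] b ∈ J := by
    intro n
    induction n with
    | zero => exact hb
    | succ n ih =>
      rw [Function.iterate_succ_apply', ← hJi]
      exact ⟨_, ih, rfl⟩
  have hJin : ∀ n : ℕ, e.Hi^[n] b ∈ J := by
    intro n
    induction n with
    | zero => exact hb
    | succ n ih =>
      rw [Function.iterate_succ_apply']
      rw [← hJi] at ih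
      obtain ⟨b', hb', h1⟩ := ih
      rw [← h1, he.left b' (by simp [hJ1 b' hb'])]
      exact hb'
  have hζJ : ζ ∈ closure J := mem_closure_of_tendsto (hJt b hb) (Eventually.of_forall hJn)
  have hxJ : x ∈ closure J := mem_closure_of_tendsto (hJx b hb) (Eventually.of_forall hJin)
  -- a translate of `ζ` in `J`
  have hex : ∃ k : Γ, k ≠ 1 ∧ F.act k ζ ∈ J := by
    rcases elem F with h1 | ⟨κ, p, q, hκ, hz⟩ | hN
    · exfalso
      have h2 := hxl.2
      have h3 : (range fun g : Γ => F.act g 0) ⊆ {F.act 1 0} := by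
        rintro _ ⟨g, rfl⟩
        rw [h1 g]
        rfl
      have h4 := closure_mono h3 h2
      rw [closure_singleton] at h4
      have h5 : x = F.act 1 0 := h4
      rw [act_one F (by simp)] at h5
      rw [h5] at hx
      simp at hx
    · obtain ⟨lp, lq⟩ := AR.lim hκ
      have hζp : ζ ≠ p := fun h => hζl (h ▸ lp)
      have hζq : ζ ≠ q := fun h => hζl (h ▸ lq)
      rcases HN_swap hκ.np hκ.nq hκ.ne hζ hζp hζq with h | h
      · refine HN_core F hκ (fun ξ hξ hξp hξ0 hl => ?_) hζ hζp h hJ1 hJl hJc.isPreconnected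
          hζJ hx hxJ hxl
        rcases HN_cyc F hκ hz hl with h6 | h6
        · exact hξp h6
        · rw [h6] at hξ0
          simp [eta] at hξ0
      · refine HN_core F (AR.inv hκ) (fun ξ hξ hξp hξ0 hl => ?_) hζ hζq h hJ1 hJl
          hJc.isPreconnected hζJ hx hxJ hxl
        rcases HN_cyc F hκ hz hl with h6 | h6
        · rw [h6] at hξ0
          simp [eta] at hξ0
        · exact hξp h6
    · obtain ⟨n, κ, p, q, G⟩ := gaps F hN (hI hN)
      obtain ⟨g, i, hgp, hg0⟩ := G.all ζ hζ hζl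
      have hcA : ContinuousOn (F.act g) (closedBall 0 1) := act_cont F g
      have hJC : J ⊆ closedBall (0:ℂ) 1 := fun ξ hξ => by simp [hJ1 ξ hξ]
      have hcl : ∀ y : ℂ, ‖y‖ = 1 → y ∈ closure J → F.act g y ∈ closure (F.act g '' J) := by
        intro y hy hyJ
        exact ((hcA y (by simp [hy])).mono hJC).mem_closure_image hyJ
      obtain ⟨k, hk1, hkJ⟩ := HN_core F (G.ar i) (G.gap i) (act_eq F g hζ) hgp hg0
        (J := F.act g '' J) (x := F.act g x)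
        (by rintro _ ⟨ξ, hξ, rfl⟩; exact act_eq F g (hJ1 ξ hξ))
        (by
          rintro _ ⟨ξ, hξ, rfl⟩ h
          exact hJl ξ hξ ((lim_inv_iff F g (hJ1 ξ hξ)).1 h))
        (hJc.isPreconnected.image _ (hcA.mono hJC)) (hcl ζ hζ hζJ) (act_eq F g hx)
        (hcl x hx hxJ) (lim_inv F g hxl)
      refine ⟨g⁻¹ * k * g, ?_, ?_⟩
      · intro h
        apply hk1
        have : k = g * (g⁻¹ * k * g) * g⁻¹ := by group
        rw [this, h]
        group
      · obtain ⟨ξ, hξ, h5⟩ := hkJ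
        have h6 : F.act (g⁻¹ * k * g) ζ = ξ := by
          rw [act_mul F _ _ hζ.le, act_mul F _ _ (act_le F g hζ.le), ← h5,
            act_inv_act F g (hJ1 ξ hξ).le]
        rw [h6]
        exact hξ
  obtain ⟨k, hk1, hkJ⟩ := hex
  have ht := hJt _ hkJ
  -- the iterates are translates of `ζ`
  have hit : ∀ n : ℕ, e.H^[n] (F.act k ζ) = F.act (e.θ^[n] k) ζ := by
    intro n
    induction n with
    | zero => rfl
    | succ n ih =>
      rw [Function.iterate_succ_apply', ih, he.equi _ ζ (by simp [hζ]), hf,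
        Function.iterate_succ_apply']
  have hkn : ∀ n : ℕ, e.θ^[n] k ≠ 1 := by
    intro n
    induction n with
    | zero => exact hk1
    | succ n ih =>
      rw [Function.iterate_succ_apply']
      intro h
      apply ih
      exact e.θ.injective (h.trans (map_one e.θ).symm)
  have ht' : Tendsto (fun n : ℕ => F.act (e.θ^[n] k) ζ) atTop (𝓝 ζ) := ht.congr hit
  have hζC : ζ ∈ closedBall (0:ℂ) 1 := by simp [hζ]
  by_cases hfin : ∀ a, {n : ℕ | e.θ^[n] k = a}.Finite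
  · obtain ⟨φ, hφ, c, hc, d, hd, _, _, hu, _⟩ := conv F hfin
    have h1 := conv_seq F (g := fun n => e.θ^[φ n] k) hu (y := fun _ => ζ) (x := ζ)
      (fun _ => hζC) tendsto_const_nhds (fun h => hζl (h ▸ hd))
    have h2 := ht'.comp hφ.tendsto_atTop
    have h3 : ζ = c := tendsto_nhds_unique h2 h1
    exact hζl (h3 ▸ hc)
  · push Not at hfin
    obtain ⟨a, ha⟩ := hfin
    have hfr : ∃ᶠ n in atTop, e.θ^[n] k = a := Nat.frequently_atTop_iff_infinite.2 ha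
    have hfa : F.act a ζ = ζ := by
      by_contra hne
      have h1 : ∀ᶠ n in atTop, F.act (e.θ^[n] k) ζ ≠ F.act a ζ :=
        ht'.eventually_ne (Ne.symm hne)
      obtain ⟨n, h2, h3⟩ := (hfr.and_eventually h1).exists
      exact h3 (by rw [h2])
    obtain ⟨n, hn⟩ := hfr.exists
    have ha1 : a ≠ 1 := hn ▸ hkn n
    obtain ⟨p', q', H⟩ := exists_AR F ha1
    rcases AR.fixed H hζ.le hfa with h | h
    · exact hζl (h ▸ (AR.lim H).1)
    · exact hζl (h ▸ (AR.lim H).2)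


end TN
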