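import Pool.Agent.H36.DG.LLa
import Pool.Agent.H36.DS.LA

/-!
MA (the invariant measure on `X`).  `mX X ρ B = ∫⁻ x in B ∩ X, ofReal (ρ x)` for measurable `B` (`withDensity_apply`, `Measure.restrict_apply`).
`mX_G`: `G` is injective and differentiable on the measurable set `B ⊆ X` (`X` open): `G '' B` is measurable (`MeasureTheory.measurable_image_of_fderivWithin` or
`MeasurableSet.image_of_continuousOn_injOn`), and the change of variables formula (`lintegral_image_eq_lintegral_abs_det_fderiv_mul`) gives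
`∫⁻ y in G '' B, ofReal (ρ y) = ∫⁻ x in B, ofReal |det DG x| * ofReal (ρ (G x)) = ∫⁻ x in B, ofReal (ρ x)` (`area`; `det DG x > 0`).  The same for `A c` with `ρinv` and `Deck.fd`.
`mX_pos`: `ρ > 0` on the open nonempty set `B`, `volume B > 0` (`withDensity` positive: `lintegral_pos_iff_support` or a small ball on which `ρ ≥ ε`).  `mX_cpt`: `ρ` is bounded on `C`.
-/

namespace CV

open Metric Set Filter Topology Function DS TN MeasureTheory

section
variable {S : Type} [MetricSpace S] {X : Set ℂ} {Γ : Type} [Group Γ]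
  {A : Γ → ℂ → ℂ} {p : ℂ → S} {g gi : S → S} {G Gi : ℂ → ℂ} {θ : Γ ≃* Γ} {ρ : ℂ → ℝ}

omit [MetricSpace S] in
theorem MA_apply {B : Set ℂ} (hBX : B ⊆ X) (hB : MeasurableSet B) :
    mX X ρ B = ∫⁻ x in B, ENNReal.ofReal (ρ x) := by
  unfold mX
  rw [Measure.restrict_apply hB, inter_eq_left.2 hBX, withDensity_apply _ hB]

theorem MA_gen {T : ℂ → ℂ} {T' : ℂ → ℂ →L[ℝ] ℂ} {B : Set ℂ}
    (hB : MeasurableSet B) (hT : ∀ x ∈ B, HasFDerivWithinAt T (T' x) B x) (hi : InjOn T B)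
    (hm : MapsTo T B X) :
    MeasurableSet (T '' B) ∧
      mX X ρ (T '' B) = ∫⁻ x in B, ENNReal.ofReal (|(T' x).det|) * ENNReal.ofReal (ρ (T x)) := by
  have h1 := measurable_image_of_fderivWithin hB hT hi
  refine ⟨h1, ?_⟩
  rw [MA_apply (hm.image_subset) h1, lintegral_image_eq_lintegral_abs_det_fderiv_mul _ hB hT hi]

theorem MA_gen2 {T : ℂ → ℂ} {T' : ℂ → ℂ →L[ℝ] ℂ} {B : Set ℂ} (hBX : B ⊆ X)
    (hB : MeasurableSet B) (hT : ∀ x ∈ B, HasFDerivWithinAt T (T' x) B x) (hi : InjOn T B)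
    (hm : MapsTo T B X) (hρ : ∀ x ∈ B, |(T' x).det| * ρ (T x) = ρ x) :
    MeasurableSet (T '' B) ∧ mX X ρ (T '' B) = mX X ρ B := by
  obtain ⟨h1, h2⟩ := MA_gen (ρ := ρ) hB hT hi hm
  refine ⟨h1, ?_⟩
  rw [h2, MA_apply hBX hB]
  refine setLIntegral_congr_fun hB fun x hx => ?_
  rw [← ENNReal.ofReal_mul (abs_nonneg _), hρ x hx]

theorem mX_G (D : Deck X A p) (L : Lift X A p g gi G Gi θ ρ) {B : Set ℂ} (hBX : B ⊆ X)
    (hB : MeasurableSet B) : MeasurableSet (G '' B) ∧ mX X ρ (G '' B) = mX X ρ B := by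
  refine MA_gen2 (T' := fun x => fderiv ℝ G x) hBX hB (fun x hx => ?_) ?_ (L.mG.mono_left hBX)
    fun x hx => ?_
  · have h1 : ContDiffAt ℝ 1 G x := L.c1.contDiffAt (D.opn.mem_nhds (hBX hx))
    exact (h1.differentiableAt one_ne_zero).hasFDerivAt.hasFDerivWithinAt
  · intro x hx y hy h
    rw [← L.GiG x (hBX hx), h, L.GiG y (hBX hy)]
  · have h1 := L.area x (hBX hx)
    have h2 := L.ρpos x (hBX hx)
    have h3 := L.ρpos _ (L.mG (hBX hx))
    have h4 : 0 < (fderiv ℝ G x).det := by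
      rw [← h1] at h2
      exact pos_of_mul_pos_right h2 h3.le
    rw [abs_of_pos h4, mul_comm]
    exact h1

theorem mX_A (D : Deck X A p) (L : Lift X A p g gi G Gi θ ρ) (c : Γ) {B : Set ℂ} (hBX : B ⊆ X)
    (hB : MeasurableSet B) : MeasurableSet (A c '' B) ∧ mX X ρ (A c '' B) = mX X ρ B := by
  refine MA_gen2 (T' := fun x => fderiv ℝ (A c) x) hBX hB (fun x hx => ?_)
    ((D.inj c).mono hBX) ((D.maps c).mono_left hBX) fun x hx => ?_
  · exact ((D.fd c (hBX hx)).1.differentiableAt.restrictScalars ℝ).hasFDerivAt.hasFDerivWithinAt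
  · rw [(D.fd c (hBX hx)).2.2.1, abs_of_nonneg (by positivity), mul_comm]
    exact L.ρinv c x (hBX hx)

theorem mX_pos (D : Deck X A p) (L : Lift X A p g gi G Gi θ ρ) {B : Set ℂ} (hBX : B ⊆ X)
    (hB : IsOpen B) (hn : B.Nonempty) : 0 < mX X ρ B := by
  obtain ⟨x, hx⟩ := hn
  have hρ := L.ρpos x (hBX hx)
  have hc : ContinuousAt ρ x := L.ρc.continuousAt (D.opn.mem_nhds (hBX hx))
  have h1 : ∀ᶠ y in 𝓝 x, ρ x / 2 < ρ y := hc.eventually_const_lt (by linarith)
  obtain ⟨r, hr, hball⟩ := Metric.mem_nhds_iff.1 (inter_mem h1 (hB.mem_nhds hx))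
  have h2 : ball x r ⊆ B := fun y hy => (hball hy).2
  rw [MA_apply hBX hB.measurableSet]
  have h3 : ENNReal.ofReal (ρ x / 2) * volume (ball x r) ≤ ∫⁻ y in B, ENNReal.ofReal (ρ y) := by
    rw [← setLIntegral_const]
    refine (setLIntegral_mono' measurableSet_ball fun y hy => ?_).trans
      (lintegral_mono_set h2)
    exact ENNReal.ofReal_le_ofReal (hball hy).1.le
  refine lt_of_lt_of_le ?_ h3
  exact ENNReal.mul_pos (by simpa using by linarith) (measure_ball_pos _ _ hr).ne'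

theorem mX_cpt (D : Deck X A p) (L : Lift X A p g gi G Gi θ ρ) {C : Set ℂ} (hC : IsCompact C)
    (hCX : C ⊆ X) : mX X ρ C < ⊤ := by
  have _ := D
  obtain ⟨M, hM⟩ := hC.exists_bound_of_continuousOn (L.ρc.mono hCX)
  rw [MA_apply hCX hC.measurableSet]
  have h1 : ∫⁻ x in C, ENNReal.ofReal (ρ x) ≤ ENNReal.ofReal M * volume C := by
    rw [← setLIntegral_const]
    refine setLIntegral_mono' hC.measurableSet fun x hx => ?_
    exact ENNReal.ofReal_le_ofReal ((le_abs_self _).trans (hM x hx))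
  exact lt_of_le_of_lt h1 (ENNReal.mul_lt_top ENNReal.ofReal_lt_top hC.measure_lt_top)

/-- holomorphic change of variables -/
theorem mX_hol (D : Deck X A p) (L : Lift X A p g gi G Gi θ ρ) {ψ : ℂ → ℂ} {B : Set ℂ}
    (hB : IsOpen B) (hψ : DifferentiableOn ℂ ψ B) (hi : InjOn ψ B) (hm : MapsTo ψ B X) :
    ∫⁻ z in B, ENNReal.ofReal ((√(ρ (ψ z)) * ‖deriv ψ z‖) ^ 2) = mX X ρ (ψ '' B) := by
  have _ := D
  have hd : ∀ x ∈ B, HasDerivAt ψ (deriv ψ x) x := fun x hx =>
    (hψ.differentiableAt (hB.mem_nhds hx)).hasDerivAt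
  have h1 : ∀ x ∈ B, HasFDerivWithinAt ψ
      ((ContinuousLinearMap.toSpanSingleton ℂ (deriv ψ x)).restrictScalars ℝ) B x := by
    intro x hx
    exact ((hd x hx).hasFDerivAt.restrictScalars ℝ).hasFDerivWithinAt
  have h2 := measurable_image_of_fderivWithin hB.measurableSet h1 hi
  rw [MA_apply hm.image_subset h2,
    lintegral_image_eq_lintegral_abs_det_fderiv_mul _ hB.measurableSet h1 hi]
  refine setLIntegral_congr_fun hB.measurableSet fun x hx => ?_
  have h3 : (((ContinuousLinearMap.toSpanSingleton ℂ (deriv ψ x)).restrictScalars ℝ)).det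
      = ‖deriv ψ x‖ ^ 2 := LA_det _
  rw [h3, abs_of_nonneg (by positivity), ← ENNReal.ofReal_mul (by positivity), mul_pow,
    Real.sq_sqrt (L.ρpos _ (hm hx)).le, mul_comm]

end

end CV
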