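import Pool.Agent.H36.DG.TU
import Pool.Agent.H36.DG.MA

/-!
INb: `in_meas`, see the parts `hν`, `hpos`, `hfin` below.  (no fixed prime end of the exterior of an invariant nontrivial island).  Apply `no_fixed_end` (DS/JF) with `K = q '' Y`, `E = sphere 0 1`, `g = gs`, `gi = gsi`, `ν = Measure.map (fun x => q (τ x)) (mX X ρ)` (`q ∘ τ` is measurable on `X`: `ContinuousOn.aemeasurable`),
`SP = SPS X p g Hyp (fun x => q (τ x))`.  Facts: `τ = id` on `V ⊇ Y`, so `gs '' (q '' Y) = q '' Y` by `G '' Y = Y`.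
`hν`: `{x ∈ X | q (τ x) ∈ gs '' B} = G '' {x ∈ X | q (τ x) ∈ B}` (`gs`, `gsi` inverse, `gsi (q (τ x)) = q (τ (Gi x))`), `mX_G`.  `hpos`: a nonempty open `O'` of the sphere contains some `q z` (`z = τ (τi z)`): the open set `{x ∈ X | q (τ x) ∈ O'}` is nonempty (a nonempty open set is not
`{O}`: `p_lim`/`q_lim`, or use `O' \ {O}`; the sphere has no isolated point; see `XB`/`TBase`), `mX_pos`.  `hSP`: `spx_back`.
`hfin`: let `V₁` be open, `Y ⊆ V₁`, `closure V₁` compact, in `V`; `S2 \ q '' V₁` is compact in `Kᶜ`, its image under `u` is compact in `ball 0 1`, so it is in `closedBall 0 ρ'`, `ρ' < 1`; then `φ '' (ball 0 1 ∩ ball ζ (1 - ρ')) ⊆ q '' V₁`, of measure `≤ mX X ρ (closure V₁) < ⊤`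
(`mX_cpt`; `τ = id` on `V`; `q (τ x) ∈ q '' V₁` implies `τ x ∈ V₁`, `x = τi (τ x) ∈ V₁`).
`hloc`: `m > 0`, `hb^[m] ζ = ζ`: the maps `hb^[m]`, `hbi^[m]` are an `EndMap` for `gs^[m]`, `gsi^[m]` (`endMap_iter`, DS/HB).  `exists_principal` (DS/XC): `P₁ ∈ K`, `Principal φ ζ P₁`; `P₁ = q P`, `P ∈ Y`.  `gs^[m] P₁ = P₁`: as in `SL_fix` (DS/SL; its proof: `fixPE_of`, `near_fixed`, needs a `PChart`
with `P' ∈ K`, `P' ≠ P₁`: `pole_chart` in DG/GE; `Y` is nontrivial).  So `q (G^[m] P) = q P`, `G^[m] P = P` (`G^[i] P ∈ Y ⊆ V`).  With `Lift.pow`, `Cond.pow`, `Dom.pow`: `Cond.one`, then `ell_end` or `hyp_end` for `gs^[m]`, `G^[m]`, on the open set `V' = {z ∈ V | G^[i] z ∈ V for i ≤ m}`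
(there `gs^[m] (q z) = q (G^[m] z)`), `j = q ∘ τ`, `K = q '' Y`, `P' ∈ K`, `hKc`: a connected `T ⊆ X \ U` that meets `Y` is contained in `Y` (`Y` is a component).  `spx_pow`; `(gs^[m])^[2] = gs^[2 * m]`.
`hnext`: `E = sphere 0 1`.
-/

namespace CV

open Metric Set Filter Topology Function DS TN MeasureTheory

/-- a closed ball of radius less than one contains a compact subset of the open unit disc -/
theorem INb_ball {C : Set ℂ} (hC : IsCompact C) (hC1 : C ⊆ ball (0:ℂ) 1) :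
    ∃ r < 1, 0 ≤ r ∧ ∀ z ∈ C, ‖z‖ ≤ r := by
  rcases C.eq_empty_or_nonempty with h0 | h0
  · exact ⟨0, one_pos, le_rfl, fun z hz => absurd hz (by rw [h0]; simp)⟩
  · obtain ⟨z₀, hz₀, hmax⟩ := hC.exists_isMaxOn h0 continuous_norm.continuousOn
    refine ⟨‖z₀‖, by simpa using hC1 hz₀, norm_nonneg _, fun z hz => hmax hz⟩

/-- the preimage of a measurable set in `X` -/
theorem INb_ms {X : Set ℂ} (hX : MeasurableSet X) {j : ℂ → S2} (hj : ContinuousOn j X) {B : Set S2}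
    (hB : MeasurableSet B) : MeasurableSet (X ∩ j ⁻¹' B) := by
  have h1 : MeasurableSet {x : X | j x ∈ B} :=
    (continuousOn_iff_continuous_domRestrict.1 hj).measurable hB
  have h2 := hX.subtype_image h1
  convert h2 using 1
  ext x
  simp [and_comm]

section
variable {S : Type} [MetricSpace S] [CompactSpace S] {X : Set ℂ} {Γ : Type} [Group Γ]
  {A : Γ → ℂ → ℂ} {p : ℂ → S} {g gi : S → S} {G Gi : ℂ → ℂ} {θ : Γ ≃* Γ} {ρ : ℂ → ℝ}
  {Hyp : S → Prop} {U : Set ℂ} {N : Subgroup Γ}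

theorem in_meas (D : Deck X A p) (L : Lift X A p g gi G Gi θ ρ)
    (M : Dom X A p g G U N) {Y : Set ℂ} (hY : Island X U Y) {O : S2} {pp : S2 → ℂ} {q : ℂ → S2}
    (hS : SC O pp q) {τ τi : ℂ → ℂ} {V : Set ℂ} (hT : Tau X Y τ τi V) {gs gsi : S2 → S2}
    (hgig : ∀ x, gsi (gs x) = x) (hggi : ∀ x, gs (gsi x) = x)
    (hgs : ∀ z ∈ X, gs (q (τ z)) = q (τ (G z)))
    (hgsi : ∀ z ∈ X, gsi (q (τ z)) = q (τ (Gi z))) {φ : ℂ → S2} {u : S2 → ℂ}
    (hD : DiscMap (q '' Y) φ u) :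
    ∃ ν : Measure S2, (∀ B, MeasurableSet B → MeasurableSet (gs '' B) → ν (gs '' B) = ν B) ∧
      (∀ O' : Set S2, IsOpen O' → O'.Nonempty → 0 < ν O') ∧
      ∀ ζ : ℂ, ‖ζ‖ = 1 → ∃ ρ' > 0, ν (φ '' (ball 0 1 ∩ ball ζ ρ')) < ⊤ := by
  have hXm : MeasurableSet X := D.opn.measurableSet
  have hqc : Continuous q := hS.q_smooth.continuous
  have hj : ContinuousOn (fun x => q (τ x)) X := hqc.comp_continuousOn hT.cτ
  set j : ℂ → S2 := fun x => q (τ x) with hjdef
  have hae : AEMeasurable j (mX X ρ) := hj.aemeasurable hXm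
  have hres : ∀ s : Set ℂ, mX X ρ s = mX X ρ (X ∩ s) := by
    intro s
    unfold mX
    rw [Measure.restrict_apply' hXm, Measure.restrict_apply' hXm]
    congr 1
    ext x
    simp only [mem_inter_iff]
    tauto
  have hν : ∀ B, MeasurableSet B → Measure.map j (mX X ρ) B = mX X ρ (X ∩ j ⁻¹' B) := by
    intro B hB
    rw [Measure.map_apply_of_aemeasurable hae hB]
    exact hres _
  refine ⟨Measure.map j (mX X ρ), ?_, ?_, ?_⟩
  · intro B hB hgB
    rw [hν _ hB, hν _ hgB]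
    have h1 : X ∩ j ⁻¹' (gs '' B) = G '' (X ∩ j ⁻¹' B) := by
      ext x
      constructor
      · rintro ⟨hx, b, hb, hbx⟩
        refine ⟨Gi x, ⟨L.mGi hx, ?_⟩, L.GGi x hx⟩
        show q (τ (Gi x)) ∈ B
        rw [← hgsi x hx]
        have h2 : gs b = q (τ x) := hbx
        rw [← h2, hgig]
        exact hb
      · rintro ⟨y, ⟨hy, hyB⟩, rfl⟩
        refine ⟨L.mG hy, q (τ y), hyB, ?_⟩
        exact hgs y hy
    rw [h1]
    exact (mX_G D L inter_subset_left (INb_ms hXm hj hB)).2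
  · intro O' hO' hne
    rw [hν _ hO'.measurableSet]
    refine mX_pos D L inter_subset_left (hj.isOpen_inter_preimage D.opn hO') ?_
    have hz : ∃ z, q z ∈ O' := by
      obtain ⟨x, hx⟩ := hne
      by_cases hxO : x = O
      · have h1 : ∀ᶠ z in cocompact ℂ, q z ∈ O' :=
          hS.q_lim.eventually (hO'.mem_nhds (hxO ▸ hx))
        exact h1.exists
      · exact ⟨pp x, by rw [hS.qp x hxO]; exact hx⟩
    obtain ⟨z, hz⟩ := hz
    refine ⟨τi z, hT.mτi z, ?_⟩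
    show q (τ (τi z)) ∈ O'
    rw [hT.right]
    exact hz
  · intro ζ hζ
    obtain ⟨V₁, hV₁o, hYV₁, hV₁V, hV₁c⟩ := exists_open_between_and_isCompact_closure hY.cpt hT.opn
      hT.sub
    have hqV : IsOpen (q '' V₁) := by
      have h1 : q '' V₁ = {O}ᶜ ∩ pp ⁻¹' V₁ := by
        ext x
        constructor
        · rintro ⟨z, hz, rfl⟩
          refine ⟨hS.q_ne z, ?_⟩
          show pp (q z) ∈ V₁
          rw [hS.pq]
          exact hz
        · rintro ⟨hx, hxV⟩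
          exact ⟨pp x, hxV, hS.qp x hx⟩
      rw [h1]
      exact hS.p_smooth.continuousOn.isOpen_inter_preimage isClosed_singleton.isOpen_compl hV₁o
    have hKc : IsCompact (q '' V₁)ᶜ := hqV.isClosed_compl.isCompact
    have hKs : (q '' V₁)ᶜ ⊆ (q '' Y)ᶜ := compl_subset_compl.2 (image_mono hYV₁)
    obtain ⟨r, hr1, hr0, hr⟩ := INb_ball (hKc.image_of_continuousOn (hD.u_cont.mono hKs))
      (by rintro _ ⟨x, hx, rfl⟩; exact hD.u_maps (hKs hx))
    refine ⟨1 - r, by linarith, ?_⟩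
    have hsub : φ '' (ball 0 1 ∩ ball ζ (1 - r)) ⊆ q '' V₁ := by
      rintro _ ⟨z, ⟨hz1, hz2⟩, rfl⟩
      by_contra hcon
      have h1 := hr (u (φ z)) ⟨φ z, hcon, rfl⟩
      rw [hD.uφ z hz1] at h1
      have h2 : ‖z - ζ‖ < 1 - r := by simpa [dist_eq_norm] using hz2
      have h3 : ‖ζ‖ ≤ ‖z‖ + ‖z - ζ‖ := by
        have h4 := norm_sub_le z (z - ζ)
        simpa using h4
      linarith
    refine lt_of_le_of_lt (measure_mono hsub) ?_
    rw [hν _ hqV.measurableSet]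
    refine lt_of_le_of_lt (measure_mono ?_) (mX_cpt D L hV₁c (hV₁V.trans hT.VX))
    rintro x ⟨hx, v, hv, hvx⟩
    have h1 : q v = q (τ x) := hvx
    have h2 : v = τ x := by rw [← hS.pq v, h1, hS.pq]
    have h3 : τi (τ x) = x := hT.left x hx
    have hvV : v ∈ V := hV₁V (subset_closure hv)
    have h4 : τi v = v := (hT.id v hvV).2
    rw [← h2, h4] at h3
    rw [← h3]
    exact subset_closure hv

end

end CV
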