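import Pool.Agent.H36.DG.INa
import Pool.Agent.H36.DG.INb
import Pool.Agent.H36.DG.SPB
import Pool.Agent.H36.DS.JF

/-!
IN (no fixed prime end of the exterior of an invariant nontrivial island).  Apply `no_fixed_end` (DS/JF) with `K = q '' Y`, `E = sphere 0 1`, `g = gs`, `gi = gsi`, `ν = Measure.map (fun x => q (τ x)) (mX X ρ)` (`q ∘ τ` is measurable on `X`: `ContinuousOn.aemeasurable`),
`SP = SPS X p g Hyp (fun x => q (τ x))`.  Facts: `τ = id` on `V ⊇ Y`, so `gs '' (q '' Y) = q '' Y` by `G '' Y = Y`.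
`hν`: `{x ∈ X | q (τ x) ∈ gs '' B} = G '' {x ∈ X | q (τ x) ∈ B}` (`gs`, `gsi` inverse, `gsi (q (τ x)) = q (τ (Gi x))`), `mX_G`.  `hpos`: a nonempty open `O'` of the sphere contains some `q z` (`z = τ (τi z)`): the open set `{x ∈ X | q (τ x) ∈ O'}` is nonempty (a nonempty open set is not
`{O}`: `p_lim`/`q_lim`, or use `O' \ {O}`; the sphere has no isolated point; see `XB`/`TBase`), `mX_pos`.  `hSP`: `spx_back`.
`hfin`: let `V₁` be open, `Y ⊆ V₁`, `closure V₁` compact, in `V`; `S2 \ q '' V₁` is compact in `Kᶜ`, its image under `u` is compact in `ball 0 1`, so it is in `closedBall 0 ρ'`, `ρ' < 1`; then `φ '' (ball 0 1 ∩ ball ζ (1 - ρ')) ⊆ q '' V₁`, of measure `≤ mX X ρ (closure V₁) < ⊤`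
(`mX_cpt`; `τ = id` on `V`; `q (τ x) ∈ q '' V₁` implies `τ x ∈ V₁`, `x = τi (τ x) ∈ V₁`).
`hloc`: `m > 0`, `hb^[m] ζ = ζ`: the maps `hb^[m]`, `hbi^[m]` are an `EndMap` for `gs^[m]`, `gsi^[m]` (`endMap_iter`, DS/HB).  `exists_principal` (DS/XC): `P₁ ∈ K`, `Principal φ ζ P₁`; `P₁ = q P`, `P ∈ Y`.  `gs^[m] P₁ = P₁`: as in `SL_fix` (DS/SL; its proof: `fixPE_of`, `near_fixed`, needs a `PChart`
with `P' ∈ K`, `P' ≠ P₁`: `pole_chart` in DG/GE; `Y` is nontrivial).  So `q (G^[m] P) = q P`, `G^[m] P = P` (`G^[i] P ∈ Y ⊆ V`).  With `Lift.pow`, `Cond.pow`, `Dom.pow`: `Cond.one`, then `ell_end` or `hyp_end` for `gs^[m]`, `G^[m]`, on the open set `V' = {z ∈ V | G^[i] z ∈ V for i ≤ m}`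
(there `gs^[m] (q z) = q (G^[m] z)`), `j = q ∘ τ`, `K = q '' Y`, `P' ∈ K`, `hKc`: a connected `T ⊆ X \ U` that meets `Y` is contained in `Y` (`Y` is a component).  `spx_pow`; `(gs^[m])^[2] = gs^[2 * m]`.
`hnext`: `E = sphere 0 1`.
-/

namespace CV

open Metric Set Filter Topology Function DS TN MeasureTheory

section
variable {S : Type} [MetricSpace S] [CompactSpace S] {X : Set ℂ} {Γ : Type} [Group Γ]
  {A : Γ → ℂ → ℂ} {p : ℂ → S} {g gi : S → S} {G Gi : ℂ → ℂ} {θ : Γ ≃* Γ} {ρ : ℂ → ℝ}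
  {Hyp : S → Prop} {U : Set ℂ} {N : Subgroup Γ}

theorem island_noend (D : Deck X A p) (L : Lift X A p g gi G Gi θ ρ)
    (C : Cond X A p g gi G Hyp) (M : Dom X A p g G U N) {Y : Set ℂ} (hY : Island X U Y)
    (hGY : G '' Y = Y) (hn : Y.Nontrivial) {O : S2} {pp : S2 → ℂ} {q : ℂ → S2} (hS : SC O pp q)
    {τ τi : ℂ → ℂ} {V : Set ℂ} (hT : Tau X Y τ τi V) {gs gsi : S2 → S2} (hg : Continuous gs)
    (hgi : Continuous gsi) (hgig : ∀ x, gsi (gs x) = x) (hggi : ∀ x, gs (gsi x) = x)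
    (hgs : ∀ z ∈ X, gs (q (τ z)) = q (τ (G z)))
    (hgsi : ∀ z ∈ X, gsi (q (τ z)) = q (τ (Gi z))) :
    ∀ (φ : ℂ → S2) (u : S2 → ℂ) (hb hbi : ℂ → ℂ), DiscMap (q '' Y) φ u →
      EndMap φ u gs gsi hb hbi → ∀ ζ ∈ sphere (0:ℂ) 1, hb ζ ≠ ζ := by
  intro φ u hb hbi hD hE
  obtain ⟨ν, hν, hpos, hfin⟩ := in_meas D L M hY hS hT hgig hggi hgs hgsi hD
  have hqc : Continuous q := hS.q_smooth.continuous
  have hK : IsClosed (q '' Y) := (hY.cpt.image hqc).isClosed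
  have hYX : Y ⊆ X := hT.sub.trans hT.VX
  have hq1 : ∀ y ∈ Y, gs (q y) = q (G y) := by
    intro y hy
    have h1 := hgs y (hYX hy)
    have h2 : G y ∈ Y := hGY ▸ mem_image_of_mem G hy
    rwa [(hT.id y (hT.sub hy)).1, (hT.id _ (hT.sub h2)).1] at h1
  have hgK : gs '' (q '' Y) = q '' Y := by
    ext x
    constructor
    · rintro ⟨_, ⟨y, hy, rfl⟩, rfl⟩
      exact ⟨G y, hGY ▸ mem_image_of_mem G hy, (hq1 y hy).symm⟩
    · rintro ⟨y, hy, rfl⟩
      rw [← hGY] at hy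
      obtain ⟨y', hy', rfl⟩ := hy
      exact ⟨q y', mem_image_of_mem q hy', hq1 y' hy'⟩
  have hgsB : ∀ B : Set S2, MeasurableSet B → MeasurableSet (gs '' B) := by
    intro B hB
    have h1 : gs '' B = gsi ⁻¹' B := by
      ext x
      constructor
      · rintro ⟨y, hy, rfl⟩
        show gsi (gs y) ∈ B
        rw [hgig]
        exact hy
      · intro hx
        exact ⟨gsi x, hx, hggi x⟩
    rw [h1]
    exact hgi.measurable hB
  have hSP : ∀ x, SPS X p g Hyp (fun x => q (τ x)) x → SPS X p g Hyp (fun x => q (τ x)) (gsi x) := by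
    rintro x ⟨y, hy, hyx, hsp⟩
    have h1 : q (τ y) = x := hyx
    refine ⟨Gi y, L.mGi hy, ?_, spx_back D L C hsp⟩
    show q (τ (Gi y)) = gsi x
    rw [← h1, hgsi y hy]
  have hEb : hb '' sphere (0:ℂ) 1 = sphere 0 1 := by
    ext x
    constructor
    · rintro ⟨y, hy, rfl⟩
      exact hE.bs hy
    · intro hx
      exact ⟨hbi x, hE.bis hx, hE.bbi x (sphere_subset_closedBall hx)⟩
  have hfin' : ∀ ζ ∈ sphere (0:ℂ) 1, ∃ ρ' > 0, ν (φ '' (ball 0 1 ∩ ball ζ ρ')) < ⊤ :=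
    fun ζ hζ => hfin ζ (mem_sphere_zero_iff_norm.1 hζ)
  refine no_fixed_end hK hD hg hgi hggi hgig hgK hE ν (fun B _ hB => hν B hB (hgsB B hB))
    (fun O' _ hO hne => hpos O' hO hne) hSP subset_rfl (fun ζ _ => ⟨1, one_pos, inter_subset_left⟩)
    hEb hfin' ?_ ?_
  · intro ζ hζ m hm hf
    exact in_loc D L C M hY hGY hn hS hT hg hgi hgig hggi hgs hgsi hD hE
      (mem_sphere_zero_iff_norm.1 hζ) hm hf
      ⟨ν, fun B _ hB => hν B hB (hgsB B hB), fun O' _ hO hne => hpos O' hO hne, hfin' ζ hζ⟩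
  · intro _ _ _ _ _ _ _ _ _ _ e he _
    exact he

end

end CV
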