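import Pool.Agent.H36.DG.TU
import Pool.Agent.H36.DG.HE
import Pool.Agent.H36.DG.GE
import Pool.Agent.H36.DS.XC
import Pool.Agent.H36.DS.XD
import Pool.Agent.H36.DS.HB
import Pool.Agent.H36.DS.SL

/-!
INa: `in_loc`, see the part `hloc` below.  (no fixed prime end of the exterior of an invariant nontrivial island).  Apply `no_fixed_end` (DS/JF) with `K = q '' Y`, `E = sphere 0 1`, `g = gs`, `gi = gsi`, `ν = Measure.map (fun x => q (τ x)) (mX X ρ)` (`q ∘ τ` is measurable on `X`: `ContinuousOn.aemeasurable`),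
`SP = SPS X p g Hyp (fun x => q (τ x))`.  Facts: `τ = id` on `V ⊇ Y`, so `gs '' (q '' Y) = q '' Y` by `G '' Y = Y`.
`hν`: `{x ∈ X | q (τ x) ∈ gs '' B} = G '' {x ∈ X | q (τ x) ∈ B}` (`gs`, `gsi` inverse, `gsi (q (τ x)) = q (τ (Gi x))`), `mX_G`.  `hpos`: a nonempty open `O'` of the sphere contains some `q z` (`z = τ (τi z)`): the open set `{x ∈ X | q (τ x) ∈ O'}` is nonempty (a nonempty open set is not
`{O}`: `p_lim`/`q_lim`, or use `O' \ {O}`; the sphere has no isolated point; see `XB`/`TBase`), `mX_pos`.  `hSP`: `spx_back`.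
`hfin`: let `V₁` be open, `Y ⊆ V₁`, `closure V₁` compact, in `V`; `S2 \ q '' V₁` is compact in `Kᶜ`, its image under `u` is compact in `ball 0 1`, so it is in `closedBall 0 ρ'`, `ρ' < 1`; then `φ '' (ball 0 1 ∩ ball ζ (1 - ρ')) ⊆ q '' V₁`, of measure `≤ mX X ρ (closure V₁) < ⊤`
(`mX_cpt`; `τ = id` on `V`; `q (τ x) ∈ q '' V₁` implies `τ x ∈ V₁`, `x = τi (τ x) ∈ V₁`).
`hloc`: `m > 0`, `hb^[m] ζ = ζ`: the maps `hb^[m]`, `hbi^[m]` are an `EndMap` for `gs^[m]`, `gsi^[m]` (`endMap_iter`, DS/HB).  `exists_principal` (DS/XC): `P₁ ∈ K`, `Principal φ ζ P₁`; `P₁ = q P`, `P ∈ Y`.  `gs^[m] P₁ = P₁`: as in `SL_fix` (DS/SL; its proof: `fixPE_of`, `near_fixed`, needs a `PChart`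
with `P' ∈ K`, `P' ≠ P₁`: `pole_chart` in DG/GE; `Y` is nontrivial).  So `q (G^[m] P) = q P`, `G^[m] P = P` (`G^[i] P ∈ Y ⊆ V`).  With `Lift.pow`, `Cond.pow`, `Dom.pow`: `Cond.one`, then `ell_end` or `hyp_end` for `gs^[m]`, `G^[m]`, on the open set `V' = {z ∈ V | G^[i] z ∈ V for i ≤ m}`
(there `gs^[m] (q z) = q (G^[m] z)`), `j = q ∘ τ`, `K = q '' Y`, `P' ∈ K`, `hKc`: a connected `T ⊆ X \ U` that meets `Y` is contained in `Y` (`Y` is a component).  `spx_pow`; `(gs^[m])^[2] = gs^[2 * m]`.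
`hnext`: `E = sphere 0 1`.
-/

namespace CV

open Metric Set Filter Topology Function DS TN MeasureTheory

theorem INa_inv {α : Type*} {f fi : α → α} (h : ∀ x, f (fi x) = x) (n : ℕ) :
    ∀ x, f^[n] (fi^[n] x) = x := by
  induction n with
  | zero => intro x; rfl
  | succ n ih =>
    intro x
    rw [Function.iterate_succ_apply, Function.iterate_succ_apply', h, ih]

/-- a principal point of a fixed prime end is a fixed point -/
theorem INa_fix {g gi : S2 → S2} (hg : Continuous g) (hgi : Continuous gi)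
    (hggi : ∀ x, g (gi x) = x) (hgig : ∀ x, gi (g x) = x) {K : Set S2}
    (hK : IsClosed K) {φ : ℂ → S2} {u : S2 → ℂ} (hD : DiscMap K φ u)
    (hgK : g '' K = K) (ν : Measure S2)
    (hν : ∀ B ⊆ Kᶜ, MeasurableSet B → ν (g '' B) = ν B)
    (hpos : ∀ O ⊆ Kᶜ, IsOpen O → O.Nonempty → 0 < ν O) {hb hbi : ℂ → ℂ}
    (hE : EndMap φ u g gi hb hbi) {ζ : ℂ} (hζ : ‖ζ‖ = 1) (hfix : hb ζ = ζ)
    (hfin : ∃ ρ > 0, ν (φ '' (ball 0 1 ∩ ball ζ ρ)) < ⊤)
    {P P' : S2} (hP : P ∈ K) (hPr : Principal φ ζ P) {χ : S2 → ℂ} {κ : ℂ → S2}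
    (hχ : PChart K P P' χ κ) : g P = P := by
  obtain ⟨μ, H⟩ := fixPE_of hK hD hg hgi hggi hgig hgK ν hν hpos hχ hP hζ hfin
    (fixes_end hE hζ hfix) hPr (r₀ := 1) one_pos
  have hnear := near_fixed H
  choose z hzW hz1 hz2 using fun n : ℕ => hnear (1 / ((n : ℝ) + 1)) (by positivity)
  have hlim : Tendsto (fun n : ℕ => 1 / ((n : ℝ) + 1)) atTop (𝓝 0) :=
    tendsto_one_div_add_atTop_nhds_zero_nat
  have t1 : Tendsto z atTop (𝓝 0) :=
    squeeze_zero_norm (fun n => (hz1 n).le) hlim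
  have t2 : Tendsto (fun n => χ (g (κ (z n)))) atTop (𝓝 0) :=
    squeeze_zero_norm (fun n => (hz2 n).le) hlim
  have t3 : Tendsto (fun n => g (κ (z n))) atTop (𝓝 (g P)) := by
    have := ((hg.comp hχ.κ_cont).tendsto 0).comp t1
    rw [comp_apply, hχ.κ0] at this
    exact this
  have t4 : Tendsto (fun n => κ (χ (g (κ (z n))))) atTop (𝓝 P) := by
    have := (hχ.κ_cont.tendsto 0).comp t2
    rw [hχ.κ0] at this
    exact this
  have e : (fun n => κ (χ (g (κ (z n))))) = fun n => g (κ (z n)) := by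
    funext n
    apply hχ.κχ
    intro h
    have h1 : κ (z n) ∈ Kᶜ := hzW n
    apply h1
    have h2 : g (κ (z n)) ∈ g '' K := by rw [hgK, h]; exact hχ.hP'
    obtain ⟨k, hk, hke⟩ := h2
    have h3 := congrArg gi hke
    rw [hgig, hgig] at h3
    rw [← h3]; exact hk
  rw [e] at t4
  exact tendsto_nhds_unique t3 t4

theorem INa_meas {g gi : S2 → S2} (hgi : Continuous gi)
    (hggi : ∀ x, g (gi x) = x) (hgig : ∀ x, gi (g x) = x) {K : Set S2}
    (hgK : MapsTo g Kᶜ Kᶜ) {ν : Measure S2}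
    (hν : ∀ B ⊆ Kᶜ, MeasurableSet B → ν (g '' B) = ν B) (n : ℕ) {B : Set S2} (hB : B ⊆ Kᶜ)
    (hm : MeasurableSet B) : g^[n] '' B ⊆ Kᶜ ∧ MeasurableSet (g^[n] '' B) ∧
      ν (g^[n] '' B) = ν B := by
  induction n with
  | zero => simp [hB, hm]
  | succ n ih =>
    obtain ⟨i1, i2, i3⟩ := ih
    have h1 : g^[n + 1] '' B = g '' (g^[n] '' B) := by
      rw [Function.iterate_succ', image_comp]
    have h2 : g '' (g^[n] '' B) = gi ⁻¹' (g^[n] '' B) := by
      ext y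
      constructor
      · rintro ⟨x, hx, rfl⟩
        show gi (g x) ∈ g^[n] '' B
        rw [hgig]; exact hx
      · intro hy
        exact ⟨gi y, hy, hggi y⟩
    rw [h1]
    refine ⟨?_, ?_, (hν _ i1 i2).trans i3⟩
    · rintro _ ⟨x, hx, rfl⟩
      exact hgK (i1 hx)
    · rw [h2]
      exact hgi.measurable i2

section
variable {S : Type} [MetricSpace S] [CompactSpace S] {X : Set ℂ} {Γ : Type} [Group Γ]
  {A : Γ → ℂ → ℂ} {p : ℂ → S} {g gi : S → S} {G Gi : ℂ → ℂ} {θ : Γ ≃* Γ} {ρ : ℂ → ℝ}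
  {Hyp : S → Prop} {U : Set ℂ} {N : Subgroup Γ}

/-- the local data at a fixed prime end of an island -/
theorem in_loc (D : Deck X A p) (L : Lift X A p g gi G Gi θ ρ)
    (C : Cond X A p g gi G Hyp) (M : Dom X A p g G U N) {Y : Set ℂ} (hY : Island X U Y)
    (hGY : G '' Y = Y) (hn : Y.Nontrivial) {O : S2} {pp : S2 → ℂ} {q : ℂ → S2} (hS : SC O pp q)
    {τ τi : ℂ → ℂ} {V : Set ℂ} (hT : Tau X Y τ τi V) {gs gsi : S2 → S2} (hg : Continuous gs)
    (hgi : Continuous gsi) (hgig : ∀ x, gsi (gs x) = x) (hggi : ∀ x, gs (gsi x) = x)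
    (hgs : ∀ z ∈ X, gs (q (τ z)) = q (τ (G z)))
    (hgsi : ∀ z ∈ X, gsi (q (τ z)) = q (τ (Gi z))) {φ : ℂ → S2} {u : S2 → ℂ} {hb hbi : ℂ → ℂ}
    (hD : DiscMap (q '' Y) φ u) (hE : EndMap φ u gs gsi hb hbi) {ζ : ℂ} (hζ : ‖ζ‖ = 1) {m : ℕ}
    (hm : 0 < m) (hf : hb^[m] ζ = ζ)
    (hν : ∃ ν : Measure S2, (∀ B ⊆ (q '' Y)ᶜ, MeasurableSet B → ν (gs '' B) = ν B) ∧
      (∀ O' ⊆ (q '' Y)ᶜ, IsOpen O' → O'.Nonempty → 0 < ν O') ∧
      ∃ ρ' > 0, ν (φ '' (ball 0 1 ∩ ball ζ ρ')) < ⊤) :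
    ∃ P₁ ∈ q '' Y, Principal φ ζ P₁ ∧ (EllPt (q '' Y) (gs^[m]) P₁ ∨
      ∃ (P' : S2) (χ : S2 → ℂ) (κ : ℂ → S2) (r lp km kp : ℝ),
        HypChart (q '' Y) (SPS X p g Hyp (fun x => q (τ x))) (gs^[2 * m]) P₁ P' χ κ r lp km kp) := by
  obtain ⟨ν, hν1, hν2, hν3⟩ := hν
  have hqc : Continuous q := hS.q_smooth.continuous
  have hqi : Function.Injective q := fun a b h => by
    have := congrArg pp h
    rwa [hS.pq, hS.pq] at this
  have hK : IsClosed (q '' Y) := (hY.cpt.image hqc).isClosed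
  have hstep : ∀ z ∈ V, G z ∈ V → gs (q z) = q (G z) := by
    intro z hz hGz
    have h1 := hgs z (hT.VX hz)
    rwa [(hT.id z hz).1, (hT.id _ hGz).1] at h1
  have hGYm : ∀ z ∈ Y, G z ∈ Y := fun z hz => by
    rw [← hGY]
    exact mem_image_of_mem G hz
  have hgsK : gs '' (q '' Y) = q '' Y := by
    ext x
    constructor
    · rintro ⟨_, ⟨z, hz, rfl⟩, rfl⟩
      exact ⟨G z, hGYm z hz, (hstep z (hT.sub hz) (hT.sub (hGYm z hz))).symm⟩
    · rintro ⟨z, hz, rfl⟩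
      rw [← hGY] at hz
      obtain ⟨w, hw, rfl⟩ := hz
      exact ⟨q w, ⟨w, hw, rfl⟩, hstep w (hT.sub hw) (hT.sub (hGYm w hw))⟩
  have hgKc : MapsTo gs (q '' Y)ᶜ (q '' Y)ᶜ := by
    intro x hx h
    rw [← hgsK] at h
    obtain ⟨y, hy, hyx⟩ := h
    have := congrArg gsi hyx
    rw [hgig, hgig] at this
    exact hx (this ▸ hy)
  have hgiKc : MapsTo gsi (q '' Y)ᶜ (q '' Y)ᶜ := by
    intro x hx h
    apply hx
    rw [← hgsK]
    exact ⟨gsi x, h, hggi x⟩
  have hEm := endMap_iter hD hgKc hgiKc hE m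
  have hgmK : gs^[m] '' (q '' Y) = q '' Y := by
    clear hEm hf hm
    induction m with
    | zero => simp
    | succ m ih => rw [Function.iterate_succ, image_comp, hgsK, ih]
  obtain ⟨P₁, hP₁, hPr⟩ := exists_principal hK hD hζ
  refine ⟨P₁, hP₁, hPr, ?_⟩
  obtain ⟨P, hPY, rfl⟩ := hP₁
  obtain ⟨P'', hP''Y, hP''⟩ := hn.exists_ne P
  have hne : q P ≠ q P'' := fun h => hP'' (hqi h).symm
  have hP'K : q P'' ∈ q '' Y := ⟨P'', hP''Y, rfl⟩
  have hPK : q P ∈ q '' Y := ⟨P, hPY, rfl⟩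
  obtain ⟨χ₀, κ₀, c, ρ₀, -, hχ₀, -⟩ := DG.pole_chart hS hP'K hne
  have hfixP : gs^[m] (q P) = q P :=
    INa_fix (hg.iterate m) (hgi.iterate m) (INa_inv hggi m) (INa_inv hgig m) hK hD hgmK ν
      (fun B hB hBm => (INa_meas hgi hggi hgig hgKc hν1 m hB hBm).2.2) hν2 hEm hζ hf hν3
      hPK hPr hχ₀
  -- the lift
  have hiterY : ∀ i, G^[i] P ∈ Y := by
    intro i
    induction i with
    | zero => exact hPY
    | succ i ih =>
      rw [Function.iterate_succ_apply']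
      exact hGYm _ ih
  have hVsub : ∀ z, (∀ i ≤ m, G^[i] z ∈ V) → ∀ i ≤ m, gs^[i] (q z) = q (G^[i] z) := by
    intro z hz i
    induction i with
    | zero => intro _; rfl
    | succ i ih =>
      intro hi
      rw [Function.iterate_succ_apply', ih (by omega), Function.iterate_succ_apply']
      refine hstep _ (hz i (by omega)) ?_
      rw [← Function.iterate_succ_apply' G i z]
      exact hz (i + 1) hi
  have hPX : P ∈ X := hT.VX (hT.sub hPY)
  have hGm : G^[m] P = P := by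
    apply hqi
    rw [← hVsub P (fun i _ => hT.sub (hiterY i)) m le_rfl, hfixP]
  obtain ⟨θm, -, Lm⟩ := L.pow D m
  have Cm := C.pow D L hm
  have Mm := M.pow L.cg hm
  have hXo : IsOpen X := by
    rcases D.hX with ⟨h, -⟩ | ⟨h, -⟩
    · rw [h]; exact isOpen_univ
    · rw [h]; exact isOpen_ball
  have hGc : ∀ i, ContinuousOn (G^[i]) X ∧ MapsTo (G^[i]) X X := by
    intro i
    induction i with
    | zero => exact ⟨continuousOn_id, mapsTo_id _⟩
    | succ i ih =>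
      rw [Function.iterate_succ']
      exact ⟨L.c1.continuousOn.comp ih.1 ih.2, L.mG.comp ih.2⟩
  set V' : Set ℂ := {z | ∀ i ≤ m, G^[i] z ∈ V} with hV'
  have hV'V : V' ⊆ V := fun z hz => hz 0 (Nat.zero_le _)
  have hV'o : IsOpen V' := by
    have h1 : V' = ⋂ i ∈ Finset.range (m + 1), (V ∩ G^[i] ⁻¹' V) := by
      ext z
      simp only [hV', mem_ofPred_eq, mem_iInter, mem_inter_iff, mem_preimage, Finset.mem_range,
        Nat.lt_succ_iff]
      constructor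
      · intro h i hi
        exact ⟨h 0 (Nat.zero_le _), h i hi⟩
      · intro h i hi
        exact (h i hi).2
    rw [h1]
    refine isOpen_biInter_finset fun i _ => ?_
    exact ((hGc i).1.mono hT.VX).isOpen_inter_preimage hT.opn hT.opn
  have hPV' : P ∈ V' := fun i _ => hT.sub (hiterY i)
  have hgsm : ∀ z ∈ V', gs^[m] (q z) = q (G^[m] z) := fun z hz => hVsub z hz m le_rfl
  obtain ⟨-, htr | ⟨hH, htr⟩⟩ := Cm.one D Lm hPX hGm
  · left
    exact ell_end D Lm Cm hS hP'K hPX hGm hPK hne hV'o hPV' (hV'V.trans hT.VX) hgsm htr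
  · right
    have hKc : ∀ T ⊆ X \ U, IsPreconnected T → ∀ x ∈ T, q x ∈ q '' Y → ∀ y ∈ T,
        q y ∈ q '' Y := by
      intro T hTs hTc x hx hxY y hy
      obtain ⟨x', hx', hxx⟩ := hxY
      rw [hqi hxx] at hx'
      obtain ⟨x₀, hx₀, hYe⟩ := hY.comp
      rw [hYe] at hx'
      have h1 := hTc.subset_connectedComponentIn hx hTs
      rw [← connectedComponentIn_eq hx'] at h1
      refine ⟨y, ?_, rfl⟩
      rw [hYe]
      exact h1 hy
    have hji : InjOn (fun x => q (τ x)) X := by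
      intro x hx y hy h
      have h1 := hqi h
      have h2 := congrArg τi h1
      rwa [hT.left x hx, hT.left y hy] at h2
    obtain ⟨χ, κ, r, lp, km, kp, hch⟩ := hyp_end D Lm Cm Mm hS hP'K hPX hGm hPK hne hKc hV'o hPV'
      (hV'V.trans hT.VX) hgsm (j := fun x => q (τ x))
      (fun z hz => by rw [(hT.id z (hV'V hz)).1]) hji hH htr
    refine ⟨q P'', χ, κ, r, lp, km, kp, ?_⟩
    have e1 : SPS X p (g^[m]) Hyp (fun x => q (τ x)) = SPS X p g Hyp (fun x => q (τ x)) := by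
      funext s
      unfold SPS
      simp only [spx_pow L.cg hm]
    have e2 : (gs^[m])^[2] = gs^[2 * m] := by
      rw [mul_comm, Function.iterate_mul]
    rw [e1, e2] at hch
    exact hch

end

end CV
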