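import Pool.Agent.H36.DG.IN
import Pool.Agent.H36.DS.TS
import Pool.Agent.H36.DS.TBase

/-!
IS (the star property of invariant islands, block B6).
`island_star_nt`: `exists_tau`, `tau_lift`, `exists_SC`, `star_of_ends` (DS/TS) with `K = Y` (`island_top`) and `island_noend` give `Star (fun z => pp (gs (q z))) k Y`; on the neighbourhood `V ∩ G ⁻¹' V` of `Y` the map `pp ∘ gs ∘ q` is equal to `G` (`τ = id` on `V`).  Apply it with `N ∩ V ∩ G ⁻¹' V`.
`island_star_pt`: `Y = {P}`, `G P = P`.  `Cond.one`: if `Hyp (p P)`, `2 < |tr|`: `hyp_arc` gives a connected `T ⊆ StabX X p g P ⊆ X \ U` (`M.stab`, `C.per`) containing `P` and another point; it is contained in the component `Y = {P}`: contradiction.  So `|tr| < 2`,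
`det (B - 1) = 2 - tr B > 0` for `B = fderiv ℝ G P`; `star_point` (DS/ID).
`island_index'`: `L' = Lift.mul (Lift.pow ..)` etc. for `H' x = A c (G^[n] x)`, `k ∈ Y` arbitrary, `island_star` with `V ∩ X`.  If `H = H'` on `X`: direct (`frontier O ⊆ closure O ⊆ X`).  If `H = Gi^[n] (A c⁻¹ x)` on `X`: apply it with the neighbourhood `V₁ = {x ∈ V ∩ X | H' x ∈ V ∩ X}` to get `O₁`, and put
`O = H' '' O₁` (open: `H'` is a homeomorphism of `X`; `closure O = H' '' closure O₁`, `closure O₁` is compact in `X`; `frontier O = H' '' frontier O₁`; `H' '' Y = Y`).  For `x = H' y`, `y ∈ frontier O₁`: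
`(H x - x) / (x - k) = (y - H' y) / (H' y - k) = - ((H' y - y) / (y - k)) / ((H' y - k) / (y - k))` has a logarithm (`IC_log_div`, `IC_log_neg`, `IC_log_comp` with `H`).
-/

namespace CV

open Metric Set Filter Topology Function DS TN MeasureTheory

section
variable {S : Type} [MetricSpace S] [CompactSpace S] {X : Set ℂ} {Γ : Type} [Group Γ]
  {A : Γ → ℂ → ℂ} {p : ℂ → S} {g gi : S → S} {G Gi : ℂ → ℂ} {θ : Γ ≃* Γ} {ρ : ℂ → ℝ}
  {Hyp : S → Prop} {U : Set ℂ} {N : Subgroup Γ}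

theorem island_star_nt (D : Deck X A p) (L : Lift X A p g gi G Gi θ ρ)
    (C : Cond X A p g gi G Hyp) (M : Dom X A p g G U N) {Y : Set ℂ} (hY : Island X U Y)
    (hGY : G '' Y = Y) (hn : Y.Nontrivial) {k : ℂ} (hk : k ∈ Y) : Star G k Y := by
  obtain ⟨hYc, hYconn, hYX, hYcc⟩ := island_top D M hY
  have hX : X = univ ∨ X = ball (0:ℂ) 1 := by
    rcases D.hX with h | h
    · exact Or.inl h.1
    · exact Or.inr h.1
  obtain ⟨τ, τi, V, hT⟩ := exists_tau hX hYc hYX
  obtain ⟨O⟩ : Nonempty S2 := TBase_conn.toNonempty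
  obtain ⟨pp, q, hS⟩ := exists_SC O
  obtain ⟨gs, gsi, hgs, hgsi, h1, h2, h3, h4⟩ := tau_lift D L hT hS
  have hGY' : ∀ z ∈ Y, G z ∈ Y := fun z hz => hGY ▸ mem_image_of_mem G hz
  have hloc : ∀ z ∈ V, G z ∈ V → gs (q z) = q (G z) := by
    intro z hz hGz
    have e1 := h3 z (hT.VX hz)
    rwa [(hT.id z hz).1, (hT.id (G z) hGz).1] at e1
  have hgK : gs '' (q '' Y) = q '' Y := by
    ext w
    constructor
    · rintro ⟨_, ⟨z, hz, rfl⟩, rfl⟩
      rw [hloc z (hT.sub hz) (hT.sub (hGY' z hz))]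
      exact mem_image_of_mem q (hGY' z hz)
    · rintro ⟨z, hz, rfl⟩
      rw [← hGY] at hz
      obtain ⟨y, hy, rfl⟩ := hz
      exact ⟨q y, mem_image_of_mem q hy, hloc y (hT.sub hy) (hT.sub (hGY' y hy))⟩
  have hno := island_noend D L C M hY hGY hn hS hT hgs hgsi h1 h2 h3 h4
  have hStar := star_of_ends hS hgs hgsi h2 h1 hYc hYconn hn hYcc hgK hno hk
  intro W hW hYW
  have hopen : IsOpen (V ∩ G ⁻¹' V) :=
    (L.c1.continuousOn.mono hT.VX).isOpen_inter_preimage hT.opn hT.opn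
  obtain ⟨O', hO1, hO2, hO3, hO4, hO5, hO6, hO7⟩ := hStar (W ∩ (V ∩ G ⁻¹' V)) (hW.inter hopen)
    (fun z hz => ⟨hYW hz, hT.sub hz, hT.sub (hGY' z hz)⟩)
  have heq : ∀ z ∈ closure O', pp (gs (q z)) = G z := by
    intro z hz
    have h5 := hO3 hz
    rw [hloc z h5.2.1 h5.2.2, hS.pq]
  have hfr : ∀ z ∈ frontier O', G z = pp (gs (q z)) := fun z hz =>
    (heq z (frontier_subset_closure hz)).symm
  refine ⟨O', hO1, hO2, fun z hz => (hO3 hz).1, hO4, ?_, ?_, ?_⟩
  · exact IC_log_congr hO5 (fun z hz => by rw [hfr z hz])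
  · exact IC_log_congr hO6 (fun z hz => by rw [hfr z hz])
  · intro z hz hzY h
    exact hO7 z hz hzY ((heq z hz).trans h)

end

end CV
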