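import Pool.Agent.H36.DG.Defs
import Pool.Agent.H36.DS.LA

/-!
LLa (lifts: composition with deck transformations, powers, inverse).
`Deck.fd`: `A c` is `x ↦ x + l` or `mob u b`, `‖u‖ = 1`, `‖b‖ < 1`; by `Deck.hol` it is holomorphic on the open set `X`, with inverse `A c⁻¹`, so the
derivative is not zero (chain rule for `A c⁻¹ (A c y) = y` near `x`); the real derivative is the multiplication by `deriv (A c) x`, whose
determinant is `‖·‖ ^ 2` (`LA_det` in Pool/Agent/H36/DS/LA.lean).
`Lift.mul`: `equi`: `A c (G (A d x)) = A c (A (θ d) (G x)) = A (c * θ d) (G x) = A (c * θ d * c⁻¹) (A c (G x))` (`Deck.mul`); `lift`: `Deck.fibre`;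
`area`: chain rule, `ρinv` and `Deck.fd`.  `Lift.pow`: induction on `n` (`θn = ` the composition of `n` copies of `θ`), using `Lift.iter` (DK); for
`area` the chain rule.  `Lift.symm`: `Lift.equi_inv` (DK); `lift`: `g (p (Gi x)) = p (G (Gi x)) = p x`; `area` at `Gi x` and
`det (DG (Gi x)) * det (DGi x) = 1`.
-/

namespace CV

open Metric Set Filter Topology Function DS TN

section
variable {S : Type} [MetricSpace S] {X : Set ℂ} {Γ : Type} [Group Γ]
  {A : Γ → ℂ → ℂ} {p : ℂ → S} {g gi : S → S} {G Gi : ℂ → ℂ} {θ : Γ ≃* Γ} {ρ : ℂ → ℝ}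

theorem LLa_fd {f : ℂ → ℂ} {d x : ℂ} (h : HasDerivAt f d x) :
    HasFDerivAt f ((ContinuousLinearMap.toSpanSingleton ℂ d).restrictScalars ℝ : ℂ →L[ℝ] ℂ) x :=
  h.hasFDerivAt.restrictScalars ℝ

theorem Deck.fd (D : Deck X A p) (c : Γ) {x : ℂ} (hx : x ∈ X) :
    HasDerivAt (A c) (deriv (A c) x) x ∧ deriv (A c) x ≠ 0 ∧
      (fderiv ℝ (A c) x).det = ‖deriv (A c) x‖ ^ 2 ∧
      ∀ w, fderiv ℝ (A c) x w = deriv (A c) x * w := by
  have h1 : HasDerivAt (A c) (deriv (A c) x) x :=
    ((D.hol c).differentiableAt (D.opn.mem_nhds hx)).hasDerivAt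
  have h2 : HasDerivAt (A c⁻¹) (deriv (A c⁻¹) (A c x)) (A c x) :=
    ((D.hol c⁻¹).differentiableAt (D.opn.mem_nhds (D.maps c hx))).hasDerivAt
  have h3 : HasDerivAt (fun y => A c⁻¹ (A c y)) (deriv (A c⁻¹) (A c x) * deriv (A c) x) x :=
    h2.comp x h1
  have h4 : (fun y => A c⁻¹ (A c y)) =ᶠ[𝓝 x] id := by
    filter_upwards [D.opn.mem_nhds hx] with y hy
    exact D.inv_left c hy
  have h5 : HasDerivAt (fun y => A c⁻¹ (A c y)) 1 x := (hasDerivAt_id x).congr_of_eventuallyEq h4
  have h6 := h3.unique h5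
  have h7 := (LLa_fd h1).fderiv
  refine ⟨h1, ?_, ?_, ?_⟩
  · intro h0
    rw [h0, mul_zero] at h6
    exact zero_ne_one h6
  · rw [h7, LA_det]
  · intro w
    rw [h7]
    simp [mul_comm]

theorem LLa_detid : (ContinuousLinearMap.id ℝ ℂ).det = 1 := by
  show LinearMap.det (LinearMap.id : ℂ →ₗ[ℝ] ℂ) = 1
  exact LinearMap.det_id

theorem LLa_smooth (D : Deck X A p) (c : Γ) : ContDiffOn ℝ 1 (A c) X :=
  ((D.hol c).contDiffOn D.opn).restrict_scalars ℝ

theorem Lift.mul (D : Deck X A p) (L : Lift X A p g gi G Gi θ ρ) (c : Γ) :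
    Lift X A p g gi (fun x => A c (G x)) (fun x => Gi (A c⁻¹ x)) (θ.trans (MulAut.conj c)) ρ where
  cg := L.cg
  cgi := L.cgi
  ggi := L.ggi
  gig := L.gig
  mG := (D.maps c).comp L.mG
  mGi := L.mGi.comp (D.maps c⁻¹)
  GiG := by
    intro x hx
    show Gi (A c⁻¹ (A c (G x))) = x
    rw [D.inv_left c (L.mG hx), L.GiG x hx]
  GGi := by
    intro x hx
    show A c (G (Gi (A c⁻¹ x))) = x
    rw [L.GGi _ (D.maps c⁻¹ hx), D.inv_right c hx]
  c1 := (LLa_smooth D c).comp L.c1 L.mG
  c1i := L.c1i.comp (LLa_smooth D c⁻¹) (D.maps c⁻¹)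
  equi := by
    intro d x hx
    show A c (G (A d x)) = A (c * θ d * c⁻¹) (A c (G x))
    rw [L.equi d x hx, ← D.mul c _ _ (L.mG hx), ← D.mul _ c _ (L.mG hx), inv_mul_cancel_right]
  lift := by
    intro x hx
    show p (A c (G x)) = g (p x)
    rw [D.fibre c (L.mG hx), L.lift x hx]
  ρc := L.ρc
  ρpos := L.ρpos
  ρinv := L.ρinv
  area := by
    intro x hx
    have hG : HasFDerivAt G (fderiv ℝ G x) x :=
      ((L.c1.differentiableOn one_ne_zero).differentiableAt (D.opn.mem_nhds hx)).hasFDerivAt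
    obtain ⟨h1, -, h3, -⟩ := D.fd c (L.mG hx)
    have hA : HasFDerivAt (A c) (fderiv ℝ (A c) (G x)) (G x) :=
      (LLa_fd h1).differentiableAt.hasFDerivAt
    have h4 := (hA.comp x hG).fderiv
    have h5 : fderiv ℝ (fun x => A c (G x)) x = (fderiv ℝ (A c) (G x)).comp (fderiv ℝ G x) := h4
    show ρ (A c (G x)) * (fderiv ℝ (fun x => A c (G x)) x).det = ρ x
    rw [h5]
    have h6 : ((fderiv ℝ (A c) (G x)).comp (fderiv ℝ G x)).det =
        (fderiv ℝ (A c) (G x)).det * (fderiv ℝ G x).det := by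
      simp only [ContinuousLinearMap.det, ContinuousLinearMap.toLinearMap_comp]
      exact LinearMap.det_comp _ _
    rw [h6, h3, ← mul_assoc, L.ρinv c _ (L.mG hx), L.area x hx]

theorem Lift.pow (D : Deck X A p) (L : Lift X A p g gi G Gi θ ρ) (n : ℕ) :
    ∃ θn : Γ ≃* Γ, (∀ d, θn d = θ^[n] d) ∧
      Lift X A p (g^[n]) (gi^[n]) (G^[n]) (Gi^[n]) θn ρ := by
  induction n with
  | zero =>
    refine ⟨MulEquiv.refl Γ, fun d => rfl, ?_⟩
    constructor
    · exact continuous_id
    · exact continuous_id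
    · intro s; rfl
    · intro s; rfl
    · exact mapsTo_id X
    · exact mapsTo_id X
    · intro x _; rfl
    · intro x _; rfl
    · exact contDiffOn_id
    · exact contDiffOn_id
    · intro c x _; rfl
    · intro x _; rfl
    · exact L.ρc
    · exact L.ρpos
    · exact L.ρinv
    · intro x _
      show ρ x * (fderiv ℝ id x).det = ρ x
      rw [fderiv_id, LLa_detid, mul_one]
  | succ n ih =>
    obtain ⟨θn, hθ, M⟩ := ih
    obtain ⟨i1, i2, i3, i4, i5, i6, i7, i8⟩ := L.iter (n + 1)
    refine ⟨θn.trans θ, ?_, ?_⟩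
    · intro d
      rw [iterate_succ_apply']
      show θ (θn d) = _
      rw [hθ]
    · constructor
      · rw [iterate_succ']; exact L.cg.comp M.cg
      · rw [iterate_succ']; exact L.cgi.comp M.cgi
      · intro s
        rw [iterate_succ_apply, iterate_succ_apply', L.ggi, M.ggi]
      · intro s
        rw [iterate_succ_apply, iterate_succ_apply', L.gig, M.gig]
      · exact i1
      · exact i2
      · exact i3
      · exact i4
      · exact i5
      · exact i6
      · intro c x hx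
        rw [i7 c x hx]
        congr 1
        rw [iterate_succ_apply']
        show θ _ = θ (θn c)
        rw [hθ]
      · exact i8
      · exact L.ρc
      · exact L.ρpos
      · exact L.ρinv
      · intro x hx
        have hG : HasFDerivAt G (fderiv ℝ G (G^[n] x)) (G^[n] x) :=
          ((L.c1.differentiableOn one_ne_zero).differentiableAt
            (D.opn.mem_nhds (M.mG hx))).hasFDerivAt
        have hGn : HasFDerivAt (G^[n]) (fderiv ℝ (G^[n]) x) x :=
          ((M.c1.differentiableOn one_ne_zero).differentiableAt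
            (D.opn.mem_nhds hx)).hasFDerivAt
        have h4 := (hG.comp x hGn).fderiv
        rw [← iterate_succ'] at h4
        rw [h4]
        have h6 : ((fderiv ℝ G (G^[n] x)).comp (fderiv ℝ (G^[n]) x)).det =
            (fderiv ℝ G (G^[n] x)).det * (fderiv ℝ (G^[n]) x).det := by
          simp only [ContinuousLinearMap.det, ContinuousLinearMap.toLinearMap_comp]
          exact LinearMap.det_comp _ _
        rw [h6, iterate_succ_apply', ← mul_assoc, L.area _ (M.mG hx), M.area x hx]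

theorem Lift.symm (D : Deck X A p) (L : Lift X A p g gi G Gi θ ρ) :
    Lift X A p gi g Gi G θ.symm ρ where
  cg := L.cgi
  cgi := L.cg
  ggi := L.gig
  gig := L.ggi
  mG := L.mGi
  mGi := L.mG
  GiG := L.GGi
  GGi := L.GiG
  c1 := L.c1i
  c1i := L.c1
  equi := by
    intro c x hx
    have h1 := L.equi_inv D (θ.symm c) hx
    rw [MulEquiv.apply_symm_apply] at h1
    exact h1
  lift := by
    intro x hx
    have h1 := L.lift (Gi x) (L.mGi hx)
    rw [L.GGi x hx] at h1
    rw [h1, L.gig]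
  ρc := L.ρc
  ρpos := L.ρpos
  ρinv := L.ρinv
  area := by
    intro x hx
    have hG : HasFDerivAt G (fderiv ℝ G (Gi x)) (Gi x) :=
      ((L.c1.differentiableOn one_ne_zero).differentiableAt
        (D.opn.mem_nhds (L.mGi hx))).hasFDerivAt
    have hGi : HasFDerivAt Gi (fderiv ℝ Gi x) x :=
      ((L.c1i.differentiableOn one_ne_zero).differentiableAt (D.opn.mem_nhds hx)).hasFDerivAt
    have h4 := hG.comp x hGi
    have h5 : (G ∘ Gi) =ᶠ[𝓝 x] id := by
      filter_upwards [D.opn.mem_nhds hx] with y hy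
      exact L.GGi y hy
    have h6 := (hasFDerivAt_id (𝕜 := ℝ) x).congr_of_eventuallyEq h5
    have h7 := h4.unique h6
    have h8 : (fderiv ℝ G (Gi x)).det * (fderiv ℝ Gi x).det = 1 := by
      have h9 : ((fderiv ℝ G (Gi x)).comp (fderiv ℝ Gi x)).det =
          (fderiv ℝ G (Gi x)).det * (fderiv ℝ Gi x).det := by
        simp only [ContinuousLinearMap.det, ContinuousLinearMap.toLinearMap_comp]
        exact LinearMap.det_comp _ _
      rw [← h9, h7, LLa_detid]
    have h10 := L.area (Gi x) (L.mGi hx)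
    rw [L.GGi x hx] at h10
    rw [← h10, mul_assoc, h8, mul_one]

end

end CV
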