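import Pool.Agent.H36.DS.LA

/-!
LR (length-area: short arcs and short radial segments at all small scales).  Coordinates `z = ζ * (1 - LA_pt s t)`, `dist z ζ = s`, `z ∈ ball 0 1 ↔ s / 2 < cos t` (`LA_lens`).
Let `K w = k (ζ * (1 - w))` on `Ω = {w ∈ ball 1 1, ‖w‖ < r₀}`, `0` outside.  `∫⁻ K ^ 2 < ⊤`, so (monotone limit, `MeasureTheory.tendsto_measure_iInter` for `withDensity`, or
`MeasureTheory.exists_pos_setLIntegral_lt_of_measure_lt`) the integral over `{‖w‖ < r}` tends to `0` for `r → 0`.  By `LA_polar` it is `∫⁻ s in Ioo 0 r, ∫⁻ t in Ioo (-π) π, s K(s,t)²`.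
Arcs: if `ℓ s = ∫⁻ t in Ioo (-π) π, s K ≥ ε` for all `s ∈ (r/2, r)` then (`LA_amgm`, as in `LA_short`) `∫⁻ t, s K² ≥ ε² / (4 π s)` up to a constant, so the integral over `(r/2, r)` is
`≥ c ε² log 2`, a constant: impossible for small `r`.
Radial: `∫⁻ t in Ioo (-π/4) (π/4), (∫⁻ s in Ioo (r/4) r, K ds)² dt ≤ ∫⁻∫⁻ K² s ds dt * ∫ ds / s = (small) * log 4` (Cauchy-Schwarz, or again the pointwise inequality
`2 x y ≤ λ x² s + y² / (λ s)`), so for some `t` the inner integral is `< ε`.
-/

namespace DG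
open Metric Set Filter Topology DS MeasureTheory

theorem LR_mp {ζ : ℂ} (hζ : ‖ζ‖ = 1) :
    MeasurePreserving (fun w : ℂ => ζ * (1 - w)) volume volume := by
  have hc : ζ ∈ Submonoid.unitSphere ℂ := mem_sphere_zero_iff_norm.2 hζ
  have h1 : MeasurePreserving (rotation ⟨ζ, hc⟩ : ℂ → ℂ) volume volume :=
    (rotation ⟨ζ, hc⟩).measurePreserving
  have h2 : MeasurePreserving (fun w : ℂ => 1 - w) volume volume := by
    have h3 := (measurePreserving_add_left (volume : Measure ℂ) 1).comp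
      (Measure.measurePreserving_neg (volume : Measure ℂ))
    have h4 : (fun w : ℂ => 1 - w) = (fun w : ℂ => 1 + w) ∘ (Neg.neg : ℂ → ℂ) := by
      funext w
      simp [sub_eq_add_neg]
    rw [h4]
    exact h3
  exact h1.comp h2

theorem LR_maps {ζ : ℂ} (hζ : ‖ζ‖ = 1) (r₀ : ℝ) (w : ℂ) :
    ζ * (1 - w) ∈ ball (0:ℂ) 1 ∩ ball ζ r₀ ↔ w ∈ ball (1:ℂ) 1 ∩ ball 0 r₀ := by
  have h1 : ζ * (1 - w) ∈ ball (0:ℂ) 1 ↔ w ∈ ball (1:ℂ) 1 := by
    rw [mem_ball_zero_iff, norm_mul, hζ, one_mul, mem_ball, dist_eq_norm, norm_sub_rev]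
  have h2 : ζ * (1 - w) ∈ ball ζ r₀ ↔ w ∈ ball (0:ℂ) r₀ := by
    rw [mem_ball, dist_eq_norm]
    have : ζ * (1 - w) - ζ = -(ζ * w) := by ring
    rw [this, norm_neg, norm_mul, hζ, one_mul, mem_ball_zero_iff]
  rw [mem_inter_iff, mem_inter_iff, h1, h2]

theorem LR_norm {s t : ℝ} (hs : 0 < s) : ‖LA_pt s t‖ = s := by
  rw [LA_pt_eq, norm_mul, Complex.norm_exp_ofReal_mul_I, Complex.norm_real,
    Real.norm_of_nonneg hs.le, mul_one]

/-- the mass of `s F` in polar coordinates over `0 < s < r` is at most the mass of `F` over the ball -/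
theorem LR_polar {F : ℂ → ENNReal} (hF : Measurable F) {r : ℝ} :
    ∫⁻ s in Ioo (0:ℝ) r, ∫⁻ t in Ioo (-Real.pi) Real.pi, ENNReal.ofReal s * F (LA_pt s t) ≤
      ∫⁻ w in ball (0:ℂ) r, F w := by
  rw [← lintegral_indicator isOpen_ball.measurableSet, ← LA_polar (hF.indicator isOpen_ball.measurableSet)]
  calc ∫⁻ s in Ioo (0:ℝ) r, ∫⁻ t in Ioo (-Real.pi) Real.pi, ENNReal.ofReal s * F (LA_pt s t)
      = ∫⁻ s in Ioo (0:ℝ) r, ∫⁻ t in Ioo (-Real.pi) Real.pi, ENNReal.ofReal s *
          (ball (0:ℂ) r).indicator F (s * (Real.cos t + Real.sin t * Complex.I)) := by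
        apply setLIntegral_congr_fun measurableSet_Ioo
        intro s hs
        apply lintegral_congr
        intro t
        have h1 : (s * (Real.cos t + Real.sin t * Complex.I) : ℂ) ∈ ball (0:ℂ) r := by
          have : ‖LA_pt s t‖ < r := by rw [LR_norm hs.1]; exact hs.2
          rw [mem_ball_zero_iff]
          exact this
        rw [indicator_of_mem h1]
        rfl
    _ ≤ _ := lintegral_mono_set Ioo_subset_Ioi_self

theorem short_arcs {k : ℂ → ℝ} {ζ : ℂ} (hζ : ‖ζ‖ = 1) {r₀ : ℝ} (hr₀ : 0 < r₀)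
    (hk : ContinuousOn k (ball 0 1 ∩ ball ζ r₀)) (hk0 : ∀ z, 0 ≤ k z)
    (hfin : ∫⁻ z in ball (0:ℂ) 1 ∩ ball ζ r₀, ENNReal.ofReal (k z ^ 2) < ⊤) {ε : ℝ} (hε : 0 < ε) :
    ∃ r₁ > 0, r₁ < 1 ∧ r₁ < r₀ ∧ ∀ r, 0 < r → r < r₁ →
      (∃ s, r / 2 < s ∧ s < r ∧ ∫⁻ t in Ioo (-Real.pi) Real.pi, ENNReal.ofReal
        ((ball (1:ℂ) 1).indicator (fun w => s * k (ζ * (1 - w))) (LA_pt s t)) <
          ENNReal.ofReal ε) ∧
      ∃ t, |t| < Real.pi / 4 ∧ ∫⁻ s in Ioo (r / 4) r, ENNReal.ofReal
        (k (ζ * (1 - LA_pt s t))) < ENNReal.ofReal ε := by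
  classical
  have hpi := Real.pi_pos
  have hΩ : MeasurableSet (ball (0:ℂ) 1 ∩ ball ζ r₀) := (isOpen_ball.inter isOpen_ball).measurableSet
  set Kz : ℂ → ℝ := (ball (0:ℂ) 1 ∩ ball ζ r₀).indicator k with hKz
  have hKzm : Measurable Kz := by
    rw [hKz, ← Set.piecewise_eq_indicator]
    exact ContinuousOn.measurable_piecewise hk continuousOn_const hΩ
  set K : ℂ → ℝ := fun w => Kz (ζ * (1 - w)) with hK
  have hKm : Measurable K := hKzm.comp (by fun_prop)
  have hKeq : ∀ w, w ∈ ball (1:ℂ) 1 → w ∈ ball (0:ℂ) r₀ → K w = k (ζ * (1 - w)) := by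
    intro w h1 h2
    simp only [hK, hKz]
    rw [indicator_of_mem ((LR_maps hζ r₀ w).2 ⟨h1, h2⟩)]
  have hKzero : ∀ w, w ∉ ball (1:ℂ) 1 → K w = 0 := by
    intro w h1
    simp only [hK, hKz]
    rw [indicator_of_notMem fun h => h1 ((LR_maps hζ r₀ w).1 h).1]
  have hK0 : ∀ w, 0 ≤ K w := by
    intro w
    simp only [hK, hKz]
    exact indicator_nonneg (fun z _ => hk0 z) _
  set F : ℂ → ENNReal := fun w => ENNReal.ofReal (K w ^ 2) with hF
  have hFm : Measurable F := (hKm.pow_const 2).ennreal_ofReal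
  have hFfin : ∫⁻ w, F w ≠ ⊤ := by
    have h1 := (LR_mp hζ).lintegral_comp (f := fun z => ENNReal.ofReal (Kz z ^ 2))
      (hKzm.pow_const 2).ennreal_ofReal
    have h2 : ∫⁻ w, F w = ∫⁻ z, ENNReal.ofReal (Kz z ^ 2) := h1
    have h3 : ∫⁻ z, ENNReal.ofReal (Kz z ^ 2) =
        ∫⁻ z in ball (0:ℂ) 1 ∩ ball ζ r₀, ENNReal.ofReal (k z ^ 2) := by
      rw [← lintegral_indicator hΩ]
      apply lintegral_congr
      intro z
      simp only [hKz]
      by_cases hz : z ∈ ball (0:ℂ) 1 ∩ ball ζ r₀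
      · rw [indicator_of_mem hz, indicator_of_mem hz]
      · rw [indicator_of_notMem hz, indicator_of_notMem hz]
        simp
    rw [h2, h3]
    exact hfin.ne
  -- small mass near the point
  obtain ⟨δ, hδ, hδs⟩ := exists_pos_setLIntegral_lt_of_measure_lt hFfin
    (ε := ENNReal.ofReal (ε ^ 2 / (8 * Real.pi))) (by
      rw [Ne, ENNReal.ofReal_eq_zero, not_le]
      positivity)
  obtain ⟨r₂, hr₂, hr₂δ⟩ : ∃ r₂ : ℝ, 0 < r₂ ∧ volume (ball (0:ℂ) r₂) < δ := by
    rcases eq_or_ne δ ⊤ with rfl | hδt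
    · exact ⟨1, one_pos, measure_ball_lt_top⟩
    · have hδ' : 0 < δ.toReal := ENNReal.toReal_pos hδ.ne' hδt
      refine ⟨min 1 (δ.toReal / (2 * Real.pi)), lt_min one_pos (by positivity), ?_⟩
      set r := min 1 (δ.toReal / (2 * Real.pi)) with hr
      have hr0 : 0 < r := lt_min one_pos (by positivity)
      have h1 : r ^ 2 * Real.pi ≤ δ.toReal / 2 := by
        have h2 : r ≤ 1 := min_le_left _ _
        have h3 : r ≤ δ.toReal / (2 * Real.pi) := min_le_right _ _
        have h4 : r ^ 2 ≤ r := by nlinarith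
        calc r ^ 2 * Real.pi ≤ δ.toReal / (2 * Real.pi) * Real.pi := by
              apply mul_le_mul_of_nonneg_right (h4.trans h3) hpi.le
          _ = δ.toReal / 2 := by field_simp
      rw [Complex.volume_ball]
      have h5 : ENNReal.ofReal r ^ 2 * (NNReal.pi : ENNReal) = ENNReal.ofReal (r ^ 2 * Real.pi) := by
        rw [ENNReal.ofReal_mul (by positivity), ENNReal.ofReal_pow hr0.le]
        congr 1
        rw [← NNReal.coe_real_pi, ENNReal.ofReal_coe_nnreal]
      rw [h5, ENNReal.ofReal_lt_iff_lt_toReal (by positivity) hδt]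
      linarith
  set r₁ := min r₂ (min (1 / 2) (r₀ / 2)) with hr₁
  have hr₁0 : 0 < r₁ := lt_min hr₂ (lt_min (by norm_num) (by linarith))
  have hr₁1 : r₁ < 1 := by
    have : r₁ ≤ 1 / 2 := (min_le_right _ _).trans (min_le_left _ _)
    linarith
  have hr₁r : r₁ < r₀ := by
    have : r₁ ≤ r₀ / 2 := (min_le_right _ _).trans (min_le_right _ _)
    linarith
  have hmass : ∫⁻ w in ball (0:ℂ) r₁, F w < ENNReal.ofReal (ε ^ 2 / (8 * Real.pi)) :=
    hδs _ (lt_of_le_of_lt (measure_mono (ball_subset_ball (min_le_left _ _))) hr₂δ)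
  have hpol := (LR_polar hFm (r := r₁)).trans_lt hmass
  refine ⟨r₁, hr₁0, hr₁1, hr₁r, fun r hr hrr => ⟨?_, ?_⟩⟩
  · -- arcs
    by_contra hcon
    push Not at hcon
    have h1 : ∀ s ∈ Ioo (r / 2) r, ENNReal.ofReal (ε ^ 2 / (4 * Real.pi) / r) ≤
        ∫⁻ t in Ioo (-Real.pi) Real.pi, ENNReal.ofReal s * F (LA_pt s t) := by
      intro s hs
      have hs0 : 0 < s := by linarith [hs.1]
      have h3 := LA_amgm hε _ (hcon s hs.1 hs.2)
      have h4 : ∀ t : ℝ, ENNReal.ofReal (((ball (1:ℂ) 1).indicator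
          (fun w => s * k (ζ * (1 - w))) (LA_pt s t)) ^ 2) =
          ENNReal.ofReal s * (ENNReal.ofReal s * F (LA_pt s t)) := by
        intro t
        simp only [hF]
        rw [← ENNReal.ofReal_mul hs0.le, ← ENNReal.ofReal_mul hs0.le]
        congr 1
        by_cases hx : LA_pt s t ∈ ball (1:ℂ) 1
        · rw [indicator_of_mem hx, hKeq _ hx]
          · ring
          · rw [mem_ball_zero_iff, LR_norm hs0]
            linarith [hs.2]
        · rw [indicator_of_notMem hx, hKzero _ hx]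
          ring
      simp only [h4] at h3
      rw [lintegral_const_mul' _ _ ENNReal.ofReal_ne_top] at h3
      calc ENNReal.ofReal (ε ^ 2 / (4 * Real.pi) / r)
          ≤ ENNReal.ofReal (ε ^ 2 / (4 * Real.pi) / s) := by
            apply ENNReal.ofReal_le_ofReal
            exact div_le_div_of_nonneg_left (by positivity) hs0 hs.2.le
        _ ≤ _ := by
            rw [ENNReal.ofReal_div_of_pos hs0]
            apply ENNReal.div_le_of_le_mul
            exact h3.trans_eq (mul_comm _ _)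
    have h5 : ENNReal.ofReal (ε ^ 2 / (8 * Real.pi)) ≤
        ∫⁻ s in Ioo (0:ℝ) r₁, ∫⁻ t in Ioo (-Real.pi) Real.pi, ENNReal.ofReal s * F (LA_pt s t) := by
      calc ENNReal.ofReal (ε ^ 2 / (8 * Real.pi))
          = ∫⁻ s in Ioo (r / 2) r, ENNReal.ofReal (ε ^ 2 / (4 * Real.pi) / r) := by
            rw [setLIntegral_const, Real.volume_Ioo, ← ENNReal.ofReal_mul (by positivity)]
            congr 1
            field_simp
            ring
        _ ≤ ∫⁻ s in Ioo (r / 2) r, ∫⁻ t in Ioo (-Real.pi) Real.pi,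
              ENNReal.ofReal s * F (LA_pt s t) := setLIntegral_mono' measurableSet_Ioo h1
        _ ≤ _ := by
            apply lintegral_mono_set
            intro s hs
            exact ⟨by linarith [hs.1], by linarith [hs.2]⟩
    exact absurd hpol (not_lt.2 h5)
  · -- radial segments
    by_contra hcon
    push Not at hcon
    have h1 : ∀ t ∈ Ioo (-(Real.pi / 4)) (Real.pi / 4), ENNReal.ofReal (ε ^ 2 / 3) ≤
        ∫⁻ s in Ioo (r / 4) r, ENNReal.ofReal s * F (LA_pt s t) := by
      intro t ht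
      have h2 := hcon t (abs_lt.2 ht)
      have hcos : 1 / 2 < Real.cos t := by
        rw [← Real.cos_pi_div_three, ← Real.cos_abs t]
        apply Real.cos_lt_cos_of_nonneg_of_le_pi (abs_nonneg t) (by linarith)
        have := abs_lt.2 ht
        linarith
      have h3 : ∀ s ∈ Ioo (r / 4) r, ENNReal.ofReal (k (ζ * (1 - LA_pt s t))) ≤
          ENNReal.ofReal (3 / (2 * ε)) * (ENNReal.ofReal s * F (LA_pt s t)) +
            ENNReal.ofReal (2 * ε / (3 * r)) := by
        intro s hs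
        have hs0 : 0 < s := by linarith [hs.1]
        have hx : LA_pt s t ∈ ball (1:ℂ) 1 := by
          rw [LA_lens hs0]
          linarith [hs.2]
        have hy : LA_pt s t ∈ ball (0:ℂ) r₀ := by
          rw [mem_ball_zero_iff, LR_norm hs0]
          linarith [hs.2]
        rw [← hKeq _ hx hy]
        simp only [hF]
        rw [← ENNReal.ofReal_mul hs0.le, ← ENNReal.ofReal_mul (by positivity),
          ← ENNReal.ofReal_add (by positivity) (by positivity)]
        apply ENNReal.ofReal_le_ofReal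
        set y := K (LA_pt s t) with hy
        have h4 : ε / (6 * s) ≤ 2 * ε / (3 * r) := by
          rw [div_le_div_iff₀ (by positivity) (by positivity)]
          nlinarith [hs.1]
        have h5 : y ≤ 3 / (2 * ε) * (s * y ^ 2) + ε / (6 * s) := by
          have h6 : 3 / (2 * ε) * (s * y ^ 2) + ε / (6 * s) - y =
              3 * s / (2 * ε) * (y - ε / (3 * s)) ^ 2 := by
            field_simp
            ring
          have h7 : 0 ≤ 3 * s / (2 * ε) * (y - ε / (3 * s)) ^ 2 := by positivity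
          linarith
        linarith
      have h4 : ENNReal.ofReal ε ≤ ENNReal.ofReal (3 / (2 * ε)) *
          (∫⁻ s in Ioo (r / 4) r, ENNReal.ofReal s * F (LA_pt s t)) + ENNReal.ofReal (ε / 2) := by
        refine h2.trans ((setLIntegral_mono' measurableSet_Ioo h3).trans ?_)
        rw [lintegral_add_right _ measurable_const, lintegral_const_mul' _ _ ENNReal.ofReal_ne_top,
          setLIntegral_const, Real.volume_Ioo, ← ENNReal.ofReal_mul (by positivity)]
        have : 2 * ε / (3 * r) * (r - r / 4) = ε / 2 := by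
          field_simp
          ring
        rw [this]
      by_contra h5
      push Not at h5
      have h6 : ENNReal.ofReal (3 / (2 * ε)) *
          (∫⁻ s in Ioo (r / 4) r, ENNReal.ofReal s * F (LA_pt s t)) < ENNReal.ofReal (ε / 2) := by
        calc _ < ENNReal.ofReal (3 / (2 * ε)) * ENNReal.ofReal (ε ^ 2 / 3) := by
              apply ENNReal.mul_lt_mul_right (by positivity) ENNReal.ofReal_ne_top h5
          _ = ENNReal.ofReal (ε / 2) := by
              rw [← ENNReal.ofReal_mul (by positivity)]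
              congr 1
              field_simp
      have h7 : ENNReal.ofReal (ε / 2) + ENNReal.ofReal (3 / (2 * ε)) *
          (∫⁻ s in Ioo (r / 4) r, ENNReal.ofReal s * F (LA_pt s t)) <
          ENNReal.ofReal (ε / 2) + ENNReal.ofReal (ε / 2) :=
        ENNReal.add_lt_add_left ENNReal.ofReal_ne_top h6
      rw [← ENNReal.ofReal_add (by positivity) (by positivity), add_halves, add_comm] at h7
      exact absurd (h4.trans_lt h7) (lt_irrefl _)
    have hmeas : Measurable (Function.uncurry fun t s : ℝ => ENNReal.ofReal s * F (LA_pt s t)) := by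
      have e1 : Measurable fun x : ℝ × ℝ => ENNReal.ofReal x.2 := measurable_snd.ennreal_ofReal
      have e2 : Measurable fun x : ℝ × ℝ => F (LA_pt x.2 x.1) := by
        apply hFm.comp
        unfold LA_pt
        fun_prop
      exact e1.mul e2
    have h5 : ENNReal.ofReal (ε ^ 2 / (8 * Real.pi)) ≤
        ∫⁻ s in Ioo (0:ℝ) r₁, ∫⁻ t in Ioo (-Real.pi) Real.pi, ENNReal.ofReal s * F (LA_pt s t) := by
      calc ENNReal.ofReal (ε ^ 2 / (8 * Real.pi))
          ≤ ENNReal.ofReal (Real.pi / 2 * (ε ^ 2 / 3)) := by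
            apply ENNReal.ofReal_le_ofReal
            rw [div_le_iff₀ (by positivity)]
            have : 3 < Real.pi := Real.pi_gt_three
            have h8 : (1:ℝ) ≤ Real.pi / 2 * (1 / 3) * (8 * Real.pi) := by nlinarith
            nlinarith [sq_nonneg ε, mul_le_mul_of_nonneg_left h8 (sq_nonneg ε)]
        _ = ∫⁻ t in Ioo (-(Real.pi / 4)) (Real.pi / 4), ENNReal.ofReal (ε ^ 2 / 3) := by
            rw [setLIntegral_const, Real.volume_Ioo, ← ENNReal.ofReal_mul (by positivity)]
            congr 1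
            ring
        _ ≤ ∫⁻ t in Ioo (-(Real.pi / 4)) (Real.pi / 4), ∫⁻ s in Ioo (r / 4) r,
              ENNReal.ofReal s * F (LA_pt s t) := setLIntegral_mono' measurableSet_Ioo h1
        _ = ∫⁻ s in Ioo (r / 4) r, ∫⁻ t in Ioo (-(Real.pi / 4)) (Real.pi / 4),
              ENNReal.ofReal s * F (LA_pt s t) := lintegral_lintegral_swap hmeas.aemeasurable
        _ ≤ ∫⁻ s in Ioo (r / 4) r, ∫⁻ t in Ioo (-Real.pi) Real.pi,
              ENNReal.ofReal s * F (LA_pt s t) := by
            apply lintegral_mono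
            intro s
            exact lintegral_mono_set fun t ht => ⟨by linarith [ht.1], by linarith [ht.2]⟩
        _ ≤ _ := by
            apply lintegral_mono_set
            intro s hs
            exact ⟨by linarith [hs.1], by linarith [hs.2]⟩
    exact absurd hpol (not_lt.2 h5)

end DG
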