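import Pool.Agent.H36.DG.MA

/-!
LS (short curves have small image in `S`).  Let `C ⊆ X` be compact with `∀ x ∈ X, ∃ c, A c x ∈ C` (`Deck.coc`); if `C = ∅` then `X = ∅`, impossible.  There is `η₀ > 0` such that
`C' = cthickening η₀ C ⊆ X`, compact (`IsCompact.exists_cthickening_subset_open`).  `p` is uniformly continuous on `C'`: there is `0 < η ≤ η₀` with `dist (p x) (p y) < ε` for `x ∈ C`, `dist x y ≤ η`.
`√ρ ≥ λ₀ > 0` on `C'`.  Take `δ = λ₀ * η`.  Given `γ`: choose `c` with `A c (γ a) ∈ C` and put `σ t = A c (γ t)`, `σ' t = deriv (A c) (γ t) * γ' t`.  By `ρinv`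
`√(ρ (σ t)) * ‖σ' t‖ = √(ρ (γ t)) * ‖γ' t‖`, so `∫⁻ √ρ(σ) ‖σ'‖ < δ`.  Claim: `dist (σ t) (σ a) ≤ η` for all `t ∈ [a, b]`.  Otherwise let `t₁` be the infimum of the `t` with
`dist (σ t) (σ a) > η`; then `dist (σ t₁) (σ a) ≥ η` and `σ t ∈ C'` for `t ∈ [a, t₁]`, so
`η ≤ dist (σ t₁) (σ a) ≤ ∫ ‖σ'‖ ≤ λ₀⁻¹ ∫ √ρ(σ) ‖σ'‖ < η` (fundamental theorem of calculus, as in `LA_arc`, Pool/Agent/H36/DS/LA.lean).  So `dist (p (γ a)) (p (γ b)) =
dist (p (σ a)) (p (σ b)) < ε` (`Deck.fibre`).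
-/

namespace CV

open Metric Set Filter Topology Function DS TN MeasureTheory

section
variable {S : Type} [MetricSpace S] {X : Set ℂ} {Γ : Type} [Group Γ]
  {A : Γ → ℂ → ℂ} {p : ℂ → S} {g gi : S → S} {G Gi : ℂ → ℂ} {θ : Γ ≃* Γ} {ρ : ℂ → ℝ}

theorem len_dist [CompactSpace S] (D : Deck X A p) (L : Lift X A p g gi G Gi θ ρ) {ε : ℝ}
    (hε : 0 < ε) : ∃ δ > 0, ∀ (a b : ℝ) (γ γ' : ℝ → ℂ), a ≤ b → (∀ t ∈ Icc a b, γ t ∈ X) →
      (∀ t ∈ Icc a b, HasDerivAt γ (γ' t) t) → ContinuousOn γ' (Icc a b) →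
      ∫⁻ t in Icc a b, ENNReal.ofReal (√(ρ (γ t)) * ‖γ' t‖) < ENNReal.ofReal δ →
      dist (p (γ a)) (p (γ b)) < ε := by
  obtain ⟨C, hCX, hC, hcoc⟩ := D.coc
  obtain ⟨η₀, hη₀, hthick⟩ := hC.exists_cthickening_subset_open D.opn hCX
  have hC' : IsCompact (cthickening η₀ C) := hC.cthickening
  have huc := hC'.uniformContinuousOn_of_continuous (D.pc.mono hthick)
  obtain ⟨η₁, hη₁, huc⟩ := Metric.uniformContinuousOn_iff.1 huc ε hε
  obtain ⟨l, hl, hlam⟩ := hC'.exists_forall_le' (f := fun x => √(ρ x)) (a := 0)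
    ((L.ρc.mono hthick).sqrt) (fun x hx => Real.sqrt_pos.2 (L.ρpos x (hthick hx)))
  set η : ℝ := min η₀ (η₁ / 2) with hη
  have hη0 : 0 < η := lt_min hη₀ (by positivity)
  refine ⟨l * η, mul_pos hl hη0, ?_⟩
  intro a b γ γ' hab hγX hγd hγc hint
  obtain ⟨c, hc⟩ := hcoc (γ a) (hγX a (left_mem_Icc.2 hab))
  set σ : ℝ → ℂ := fun t => A c (γ t) with hσ
  set σ' : ℝ → ℂ := fun t => deriv (A c) (γ t) * γ' t with hσ'
  have hd : ∀ t ∈ Icc a b, HasDerivAt σ (σ' t) t := by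
    intro t ht
    have h1 : HasDerivAt (A c) (deriv (A c) (γ t)) (γ t) :=
      ((D.hol c).differentiableAt (D.opn.mem_nhds (hγX t ht))).hasDerivAt
    exact h1.comp_of_eq t (hγd t ht) rfl
  have hγcont : ContinuousOn γ (Icc a b) := fun t ht => (hγd t ht).continuousAt.continuousWithinAt
  have hσcont : ContinuousOn σ (Icc a b) := fun t ht => (hd t ht).continuousAt.continuousWithinAt
  have hσ'c : ContinuousOn σ' (Icc a b) := by
    apply ContinuousOn.mul _ hγc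
    exact (((D.hol c).deriv D.opn).continuousOn).comp hγcont (fun t ht => hγX t ht)
  have hw : ∀ t ∈ Icc a b, √(ρ (σ t)) * ‖σ' t‖ = √(ρ (γ t)) * ‖γ' t‖ := by
    intro t ht
    have h1 := L.ρinv c (γ t) (hγX t ht)
    have h2 : √(ρ (γ t)) = √(ρ (σ t)) * ‖deriv (A c) (γ t)‖ := by
      rw [← h1, Real.sqrt_mul' _ (by positivity), Real.sqrt_sq (norm_nonneg _)]
    rw [h2, hσ', norm_mul, mul_assoc]
  have key : ∀ t ∈ Icc a b, dist (σ t) (σ a) < η := by
    by_contra hcon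
    push Not at hcon
    obtain ⟨t₀, ht₀, ht₀'⟩ := hcon
    have hTc : IsCompact {t ∈ Icc a b | η ≤ dist (σ t) (σ a)} := by
      apply IsCompact.of_isClosed_subset isCompact_Icc _ (fun t ht => ht.1)
      have hdc : ContinuousOn (fun t => Dist.dist (σ t) (σ a)) (Icc a b) :=
        continuous_dist.comp_continuousOn (hσcont.prodMk continuousOn_const)
      exact hdc.preimage_isClosed_of_isClosed isClosed_Icc isClosed_Ici
    obtain ⟨t₁, ⟨ht₁, ht₁'⟩, hmin⟩ := hTc.exists_isLeast ⟨t₀, ht₀, ht₀'⟩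
    have hlt : ∀ t ∈ Ioo a t₁, dist (σ t) (σ a) < η := by
      intro t ht
      by_contra h
      have := hmin (⟨⟨ht.1.le, ht.2.le.trans ht₁.2⟩, not_lt.1 h⟩ : t ∈ {t ∈ Icc a b | η ≤ dist (σ t) (σ a)})
      exact absurd ht.2 (not_lt.2 this)
    have hsub : uIcc a t₁ ⊆ Icc a b := by
      rw [uIcc_of_le ht₁.1]
      exact Icc_subset_Icc le_rfl ht₁.2
    have hftc := intervalIntegral.integral_eq_sub_of_hasDerivAt (fun t ht => hd t (hsub ht))
      (hσ'c.mono hsub).intervalIntegrable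
    have h1 : ENNReal.ofReal (dist (σ t₁) (σ a)) ≤ ∫⁻ t in Ioo a t₁, ‖σ' t‖ₑ := by
      rw [dist_eq_norm, ← hftc, intervalIntegral.integral_of_le ht₁.1, ofReal_norm]
      refine (enorm_integral_le_lintegral_enorm _).trans ?_
      exact (setLIntegral_congr Ioo_ae_eq_Ioc).ge
    have h2 : ENNReal.ofReal (l * η) ≤ ∫⁻ t in Icc a b, ENNReal.ofReal (√(ρ (γ t)) * ‖γ' t‖) := by
      calc ENNReal.ofReal (l * η) = ENNReal.ofReal l * ENNReal.ofReal η := ENNReal.ofReal_mul hl.le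
        _ ≤ ENNReal.ofReal l * ENNReal.ofReal (dist (σ t₁) (σ a)) := by gcongr
        _ ≤ ENNReal.ofReal l * ∫⁻ t in Ioo a t₁, ‖σ' t‖ₑ := by gcongr
        _ = ∫⁻ t in Ioo a t₁, ENNReal.ofReal l * ‖σ' t‖ₑ :=
            (lintegral_const_mul' _ _ ENNReal.ofReal_ne_top).symm
        _ ≤ ∫⁻ t in Ioo a t₁, ENNReal.ofReal (√(ρ (γ t)) * ‖γ' t‖) := by
            apply setLIntegral_mono' measurableSet_Ioo
            intro t ht
            have htI : t ∈ Icc a b := ⟨ht.1.le, ht.2.le.trans ht₁.2⟩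
            rw [← hw t htI, ← ofReal_norm, ← ENNReal.ofReal_mul hl.le]
            apply ENNReal.ofReal_le_ofReal
            apply mul_le_mul_of_nonneg_right _ (norm_nonneg _)
            apply hlam
            exact mem_cthickening_of_dist_le (σ t) (σ a) η₀ C hc
              ((hlt t ht).le.trans (min_le_left _ _))
        _ ≤ ∫⁻ t in Icc a b, ENNReal.ofReal (√(ρ (γ t)) * ‖γ' t‖) :=
            lintegral_mono_set (fun t ht => ⟨ht.1.le, ht.2.le.trans ht₁.2⟩)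
    exact absurd hint (not_lt.2 h2)
  have hb := key b (right_mem_Icc.2 hab)
  have hσa : σ a ∈ cthickening η₀ C := self_subset_cthickening C hc
  have hσb : σ b ∈ cthickening η₀ C :=
    mem_cthickening_of_dist_le (σ b) (σ a) η₀ C hc (hb.le.trans (min_le_left _ _))
  have hfin := huc (σ a) hσa (σ b) hσb (by
    rw [dist_comm]
    refine hb.trans_le ((min_le_right _ _).trans ?_)
    linarith)
  have e1 : p (σ a) = p (γ a) := D.fibre c (hγX a (left_mem_Icc.2 hab))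
  have e2 : p (σ b) = p (γ b) := D.fibre c (hγX b (right_mem_Icc.2 hab))
  rwa [e1, e2] at hfin

end

end CV
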