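import Pool.Agent.H36.DG.WA
import Pool.Agent.H36.DG.Defs

/-!
WB (the covering is injective near a prime end outside the limit set).  If `p (ψ z) = p (ψ w)`, `z ≠ w` in `ball 0 1 ∩ ball ζ r`: `A c (ψ z) = ψ w` for some `c` (`Deck.fib`), `c ∈ N` by
`fil_same` (CV/B1), so `F.act c z = v (A c (ψ z)) = w` (`Act`, `Riem`), `c ≠ 1` (else `w = z`), contradiction to `wander` for `F`.
-/

namespace CV

open Metric Set Filter Topology Function DS TN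

section
variable {S : Type} [MetricSpace S] {X : Set ℂ} {Γ : Type} [Group Γ]
  {A : Γ → ℂ → ℂ} {p : ℂ → S} {g : S → S} {G : ℂ → ℂ} {U : Set ℂ} {N : Subgroup Γ}
  {ψ v : ℂ → ℂ} {F : Fuchs N}

theorem inj_near (D : Deck X A p) (M : Dom X A p g G U N) (R : Riem (fil X U) ψ v)
    (hF : Act A ψ v F) {ζ : ℂ} (hζ : ‖ζ‖ = 1) (h : ζ ∉ F.lim) :
    ∃ r > 0, InjOn (fun z => p (ψ z)) (ball 0 1 ∩ ball ζ r) := by
  obtain ⟨r, hr, hw⟩ := wander F hζ h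
  refine ⟨r, hr, ?_⟩
  rintro z ⟨hz1, hz2⟩ w ⟨hw1, hw2⟩ hzw
  have hzW : ψ z ∈ fil X U := R.mψ hz1
  have hwW : ψ w ∈ fil X U := R.mψ hw1
  obtain ⟨c, hc⟩ := (D.fib _ (fil_sub hzW) _ (fil_sub hwW)).1 hzw
  have hcN : c ∈ N := fil_same D M hzW (by rw [hc]; exact hwW)
  have h1 : F.act ⟨c, hcN⟩ z = w := by
    rw [hF ⟨c, hcN⟩ z hz1]
    show v (A c (ψ z)) = w
    rw [hc, R.vψ w hw1]
  by_contra hne
  have hc1 : (⟨c, hcN⟩ : N) ≠ 1 := by
    intro h2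
    have h3 : c = 1 := congrArg Subtype.val h2
    apply hne
    have h4 : ψ z = ψ w := by rw [← hc, h3, D.one _ (fil_sub hzW)]
    rw [← R.vψ z hz1, h4, R.vψ w hw1]
  have h2 := hw ⟨c, hcN⟩ hc1 z (ball_subset_closedBall hz1) (mem_ball.1 hz2)
  rw [h1] at h2
  exact absurd (mem_ball.1 hw2) (not_lt.2 h2)

end

end CV
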