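import Pool.Agent.H36.DG.LS
import Pool.Agent.H36.DG.LR
import Pool.Agent.H36.DG.WB
import Pool.Agent.H36.DG.MB

/-!
LT (short arcs and radial segments at a prime end outside the limit set, measured in `S`).  `k z = √(ρ (ψ z)) * ‖deriv ψ z‖`, continuous on the disc.  By `inj_near` there is `r₀` with `p ∘ ψ` injective on
`B = ball 0 1 ∩ ball ζ r₀`; `∫⁻_B k² = mX X ρ (ψ '' B)` (`mX_hol`) `< ⊤` (`mX_fin`; `ψ '' B` is open).  `short_arcs` with the `δ` of `len_dist` for `ε`.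
Two points `z, w` of the arc `ball 0 1 ∩ sphere ζ s` are `ζ * (1 - LA_pt s t)` with `s / 2 < cos t`, `-π < t < π` (as in `LA_norm`, Pool/Agent/H36/DS/LA.lean); apply `len_dist` to
`γ t = ψ (ζ * (1 - LA_pt s t))` between the two parameters (`LA_cos`), `‖γ' t‖ = s ‖deriv ψ‖` (`LA_pt_deriv`).  Radial segments: `γ s = ψ (ζ * (1 - LA_pt s t))`, `‖γ' s‖ = ‖deriv ψ‖`; for
`|t| < π / 4` and `s < 1` the points are in the disc.
-/

namespace CV

open Metric Set Filter Topology Function DS TN MeasureTheory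

section
variable {S : Type} [MetricSpace S] {X : Set ℂ} {Γ : Type} [Group Γ]
  {A : Γ → ℂ → ℂ} {p : ℂ → S} {g gi : S → S} {G Gi : ℂ → ℂ} {θ : Γ ≃* Γ} {ρ : ℂ → ℝ}
  {U : Set ℂ} {N : Subgroup Γ} {ψ v : ℂ → ℂ} {F : Fuchs N}

theorem LT_len_lt {δ : ℝ} {ψ : ℂ → ℂ} (hψ : DifferentiableOn ℂ ψ (ball 0 1)) {k : ℂ → ℝ}
    (hk : ∀ z, k z = √(ρ (ψ z)) * ‖deriv ψ z‖) (c c' : ℝ → ℂ) {a b : ℝ} (m : ℝ → ℝ)
    (hmem : ∀ t ∈ Icc a b, c t ∈ ball (0:ℂ) 1) (hc : ∀ t ∈ Icc a b, HasDerivAt c (c' t) t)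
    (hcc : ContinuousOn c' (Icc a b)) (hm : ∀ t ∈ Icc a b, ‖c' t‖ = m t)
    (hlt : ∫⁻ t in Icc a b, ENNReal.ofReal (m t * k (c t)) < ENNReal.ofReal δ) :
    (∀ t ∈ Icc a b, HasDerivAt (fun t => ψ (c t)) (deriv ψ (c t) * c' t) t) ∧
    ContinuousOn (fun t => deriv ψ (c t) * c' t) (Icc a b) ∧
    ∫⁻ t in Icc a b, ENNReal.ofReal (√(ρ (ψ (c t))) * ‖deriv ψ (c t) * c' t‖) <
      ENNReal.ofReal δ := by
  refine ⟨fun t ht => ?_, ?_, ?_⟩
  · have h1 : HasDerivAt ψ (deriv ψ (c t)) (c t) :=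
      (hψ.differentiableAt (isOpen_ball.mem_nhds (hmem t ht))).hasDerivAt
    exact h1.comp_of_eq t (hc t ht) rfl
  · apply ContinuousOn.mul _ hcc
    have h1 : ContinuousOn (deriv ψ) (ball 0 1) := (hψ.deriv isOpen_ball).continuousOn
    exact h1.comp (fun t ht => (hc t ht).continuousAt.continuousWithinAt) hmem
  · refine lt_of_eq_of_lt (setLIntegral_congr_fun measurableSet_Icc fun t ht => ?_) hlt
    change ENNReal.ofReal (√(ρ (ψ (c t))) * ‖deriv ψ (c t) * c' t‖) =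
      ENNReal.ofReal (m t * k (c t))
    rw [hk, norm_mul, hm t ht]
    congr 1
    ring

theorem small_S [CompactSpace S] (D : Deck X A p) (L : Lift X A p g gi G Gi θ ρ)
    (M : Dom X A p g G U N) (R : Riem (fil X U) ψ v) (hF : Act A ψ v F) {ζ : ℂ} (hζ : ‖ζ‖ = 1)
    (h : ζ ∉ F.lim) {ε : ℝ} (hε : 0 < ε) : ∃ r₁ > 0, r₁ < 1 ∧ ∀ r, 0 < r → r < r₁ →
      (∃ s, r / 2 < s ∧ s < r ∧ ∀ z ∈ ball (0:ℂ) 1, ∀ w ∈ ball (0:ℂ) 1, dist z ζ = s →
        dist w ζ = s → dist (p (ψ z)) (p (ψ w)) < ε) ∧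
      ∃ t, |t| < Real.pi / 4 ∧ ∀ s ∈ Ioo (r / 4) r, ∀ s' ∈ Ioo (r / 4) r,
        dist (p (ψ (ζ * (1 - LA_pt s t)))) (p (ψ (ζ * (1 - LA_pt s' t)))) < ε := by
  classical
  obtain ⟨δ, hδ, hlen⟩ := len_dist D L hε
  obtain ⟨r₀, hr₀, hinj⟩ := inj_near D M R hF hζ h
  set k : ℂ → ℝ := fun z => √(ρ (ψ z)) * ‖deriv ψ z‖ with hkdef
  have hψX : ∀ z ∈ ball (0:ℂ) 1, ψ z ∈ X := fun z hz => (R.mψ hz).1
  have hψc : ContinuousOn ψ (ball 0 1) := R.dψ.continuousOn
  have hψinj : InjOn ψ (ball 0 1) := by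
    intro z hz w hw hzw
    rw [← R.vψ z hz, ← R.vψ w hw, hzw]
  have hB : ball (0:ℂ) 1 ∩ ball ζ r₀ ⊆ ball 0 1 := inter_subset_left
  have hBo : IsOpen (ball (0:ℂ) 1 ∩ ball ζ r₀) := isOpen_ball.inter isOpen_ball
  have hkc : ContinuousOn k (ball 0 1 ∩ ball ζ r₀) := by
    apply ContinuousOn.mul
    · exact ((L.ρc.comp hψc hψX).sqrt).mono hB
    · exact (((R.dψ.deriv isOpen_ball).continuousOn).norm).mono hB
  have hk0 : ∀ z, 0 ≤ k z := fun z => mul_nonneg (Real.sqrt_nonneg _) (norm_nonneg _)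
  have hfin : ∫⁻ z in ball (0:ℂ) 1 ∩ ball ζ r₀, ENNReal.ofReal (k z ^ 2) < ⊤ := by
    have h1 := mX_hol D L hBo (R.dψ.mono hB) (hψinj.mono hB) (fun z hz => hψX z (hB hz))
    obtain ⟨m, hm, hm2⟩ := mX_fin D L
    have h2 := hm2 (ψ '' (ball (0:ℂ) 1 ∩ ball ζ r₀))
      (by rintro _ ⟨z, hz, rfl⟩; exact hψX z (hB hz))
      (hBo.measurableSet.image_of_continuousOn_injOn (hψc.mono hB) (hψinj.mono hB))
      (by
        rintro _ ⟨z, hz, rfl⟩ _ ⟨w, hw, rfl⟩ hzw
        rw [hinj hz hw hzw])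
    exact lt_of_eq_of_lt h1 (h2.trans_lt hm)
  obtain ⟨r₁, hr₁, hr₁1, -, hr⟩ := DG.short_arcs hζ hr₀ hkc hk0 hfin hδ
  refine ⟨r₁, hr₁, hr₁1, fun r hr0 hrr => ?_⟩
  obtain ⟨⟨s, hs1, hs2, hs⟩, t, ht, hst⟩ := hr r hr0 hrr
  have hpt : ∀ s t : ℝ, LA_pt s t ∈ ball (1:ℂ) 1 → ζ * (1 - LA_pt s t) ∈ ball (0:ℂ) 1 := by
    intro s t hst
    rw [mem_ball_zero_iff, norm_mul, hζ, one_mul, norm_sub_rev, ← dist_eq_norm]
    exact hst
  refine ⟨⟨s, hs1, hs2, ?_⟩, t, ht, ?_⟩
  · have hs0 : 0 < s := by linarith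
    have key : ∀ a b : ℝ, -Real.pi < a → b < Real.pi → a ≤ b → s / 2 < Real.cos a →
        s / 2 < Real.cos b →
        dist (p (ψ (ζ * (1 - LA_pt s a)))) (p (ψ (ζ * (1 - LA_pt s b)))) < ε := by
      intro a b ha hb hab h1 h2
      have hball : ∀ t ∈ Icc a b, LA_pt s t ∈ ball (1:ℂ) 1 := fun t ht =>
        (LA_lens hs0).2 (LA_cos ha hb ht h1 h2)
      have hmem : ∀ t ∈ Icc a b, ζ * (1 - LA_pt s t) ∈ ball (0:ℂ) 1 := fun t ht =>
        hpt s t (hball t ht)
      have hder : ∀ t : ℝ, HasDerivAt (fun t : ℝ => ζ * (1 - LA_pt s t))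
          (ζ * -(s * (Complex.exp (t * Complex.I) * Complex.I))) t := fun t =>
        ((LA_pt_deriv s t).const_sub 1).const_mul ζ
      obtain ⟨g1, g2, g3⟩ := LT_len_lt (ρ := ρ) (δ := δ) R.dψ (k := k) (fun z => rfl)
        (fun t : ℝ => ζ * (1 - LA_pt s t))
        (fun t : ℝ => ζ * -(s * (Complex.exp (t * Complex.I) * Complex.I)))
        (fun _ => s) hmem (fun t _ => hder t) (by fun_prop)
        (fun t _ => by
          rw [norm_mul, hζ, one_mul, norm_neg, norm_mul, norm_mul,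
            Complex.norm_exp_ofReal_mul_I, Complex.norm_I, Complex.norm_real,
            Real.norm_of_nonneg hs0.le, mul_one, mul_one])
        (by
          refine lt_of_le_of_lt ?_ hs
          refine le_trans (le_of_eq (setLIntegral_congr_fun measurableSet_Icc fun t ht => ?_))
            (lintegral_mono_set (fun t ht => ⟨ha.trans_le ht.1, ht.2.trans_lt hb⟩))
          change ENNReal.ofReal (s * k (ζ * (1 - LA_pt s t))) = ENNReal.ofReal
            ((ball (1:ℂ) 1).indicator (fun w => s * k (ζ * (1 - w))) (LA_pt s t))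
          rw [indicator_of_mem (hball t ht)])
      exact hlen a b _ _ hab (fun t ht => hψX _ (hmem t ht)) g1 g2 g3
    have hpol : ∀ z : ℂ, z ∈ ball (0:ℂ) 1 → dist z ζ = s → ∃ a : ℝ, -Real.pi < a ∧
        a < Real.pi ∧ s / 2 < Real.cos a ∧ ζ * (1 - LA_pt s a) = z := by
      intro z hz hzs
      have hζ0 : ζ ≠ 0 := by
        intro h
        rw [h, norm_zero] at hζ
        exact zero_ne_one hζ
      set y : ℂ := 1 - z / ζ with hy
      have hyn : ‖y‖ = s := by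
        have : y = (ζ - z) / ζ := by rw [hy]; field_simp
        rw [this, norm_div, hζ, div_one, ← hzs, dist_comm, dist_eq_norm]
      have hyb : y ∈ ball (1:ℂ) 1 := by
        rw [mem_ball, dist_eq_norm]
        have : y - 1 = -(z / ζ) := by rw [hy]; ring
        rw [this, norm_neg, norm_div, hζ, div_one]
        exact mem_ball_zero_iff.1 hz
      have h1 : LA_pt s y.arg = y := by
        rw [LA_pt_eq, ← hyn]
        exact Complex.norm_mul_exp_arg_mul_I y
      have h2 : s / 2 < Real.cos y.arg := by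
        rw [← LA_lens hs0, h1]
        exact hyb
      refine ⟨y.arg, Complex.neg_pi_lt_arg y, lt_of_le_of_ne (Complex.arg_le_pi y) ?_, h2, ?_⟩
      · intro h3
        rw [h3, Real.cos_pi] at h2
        linarith
      · rw [h1, hy]
        field_simp
        ring
    intro z hz w hw hzs hws
    obtain ⟨a, ha1, ha2, ha3, rfl⟩ := hpol z hz hzs
    obtain ⟨b, hb1, hb2, hb3, rfl⟩ := hpol w hw hws
    rcases le_total a b with h | h
    · exact key a b ha1 hb2 h ha3 hb3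
    · rw [dist_comm]
      exact key b a hb1 ha2 h hb3 ha3
  · have hcos : (1:ℝ) / 2 < Real.cos t := by
      have h1 : Real.cos (Real.pi / 3) < Real.cos |t| := by
        apply Real.cos_lt_cos_of_nonneg_of_le_pi (abs_nonneg t)
        · linarith [Real.pi_pos]
        · linarith [Real.pi_pos]
      rw [Real.cos_pi_div_three, Real.cos_abs] at h1
      exact h1
    have key : ∀ a ∈ Ioo (r / 4) r, ∀ b ∈ Ioo (r / 4) r, a ≤ b →
        dist (p (ψ (ζ * (1 - LA_pt a t)))) (p (ψ (ζ * (1 - LA_pt b t)))) < ε := by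
      intro a ha b hb hab
      have ha0 : 0 < a := by linarith [ha.1]
      have hball : ∀ u ∈ Icc a b, LA_pt u t ∈ ball (1:ℂ) 1 := by
        intro u hu
        rw [LA_lens (ha0.trans_le hu.1)]
        linarith [hu.2, hb.2]
      have hmem : ∀ u ∈ Icc a b, ζ * (1 - LA_pt u t) ∈ ball (0:ℂ) 1 := fun u hu =>
        hpt u t (hball u hu)
      have hder : ∀ u : ℝ, HasDerivAt (fun u : ℝ => ζ * (1 - LA_pt u t))
          (ζ * -(Real.cos t + Real.sin t * Complex.I)) u := by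
        intro u
        have h1 : HasDerivAt (fun u : ℝ => (u : ℂ)) 1 u := Complex.ofRealCLM.hasDerivAt
        have h2 := ((h1.mul_const ((Real.cos t : ℂ) + Real.sin t * Complex.I)).const_sub
          1).const_mul ζ
        rw [one_mul] at h2
        exact h2
      obtain ⟨g1, g2, g3⟩ := LT_len_lt (ρ := ρ) (δ := δ) R.dψ (k := k) (fun z => rfl)
        (fun u : ℝ => ζ * (1 - LA_pt u t))
        (fun u : ℝ => ζ * -(Real.cos t + Real.sin t * Complex.I))
        (fun _ => 1) hmem (fun t _ => hder t) continuousOn_const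
        (fun u _ => by
          rw [norm_mul, hζ, one_mul, norm_neg]
          have h1 : ((Real.cos t : ℂ) + Real.sin t * Complex.I) =
              Complex.exp (t * Complex.I) := by
            rw [Complex.exp_mul_I, Complex.ofReal_cos, Complex.ofReal_sin]
          rw [h1, Complex.norm_exp_ofReal_mul_I])
        (by
          refine lt_of_le_of_lt ?_ hst
          refine le_trans (le_of_eq (setLIntegral_congr_fun measurableSet_Icc fun u hu => ?_))
            (lintegral_mono_set (fun u hu => ⟨ha.1.trans_le hu.1, hu.2.trans_lt hb.2⟩))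
          change ENNReal.ofReal (1 * k (ζ * (1 - LA_pt u t))) = ENNReal.ofReal
            (k (ζ * (1 - LA_pt u t)))
          rw [one_mul])
      exact hlen a b _ _ hab (fun t ht => hψX _ (hmem t ht)) g1 g2 g3
    intro a ha b hb
    rcases le_total a b with h | h
    · exact key a ha b hb h
    · rw [dist_comm]
      exact key b hb a ha h

end

end CV
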