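import Pool.Agent.H36.DG.LLa

/-!
QA (a lift is quasiconformal).  Let `C ⊆ X` be compact with `∀ x ∈ X, ∃ c, A c x ∈ C` (`Deck.coc`).  On `X` the function `‖DG x‖ ^ 2 / |det DG x|`
is continuous (`det DG x ≠ 0` by `area`, `ρpos`), so it is bounded by some `Kq` on `C`.  It is invariant: for `x ∈ X`, `y = A c x`, from
`G (A c x) = A (θ c) (G x)` near `x` (`Deck.fd`): `DG y (a w) = a' * DG x w` with `a = deriv (A c) x ≠ 0`, `a' = deriv (A (θ c)) (G x) ≠ 0`;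
so `‖DG y‖ ‖a‖ = ‖a'‖ ‖DG x‖` and `det DG y * ‖a‖ ^ 2 = ‖a'‖ ^ 2 * det DG x`.
-/

namespace CV

open Metric Set Filter Topology Function DS TN

section
variable {S : Type} [MetricSpace S] [CompactSpace S] {X : Set ℂ} {Γ : Type} [Group Γ]
  {A : Γ → ℂ → ℂ} {p : ℂ → S} {g gi : S → S} {G Gi : ℂ → ℂ} {θ : Γ ≃* Γ} {ρ : ℂ → ℝ}

theorem qc_lift (D : Deck X A p) (L : Lift X A p g gi G Gi θ ρ) :
    ∃ Kq : ℝ, ∀ x ∈ X, ‖fderiv ℝ G x‖ ^ 2 ≤ Kq * |(fderiv ℝ G x).det| := by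
  obtain ⟨C, hCX, hC, hcoc⟩ := D.coc
  have hcD : ContinuousOn (fderiv ℝ G) X := L.c1.continuousOn_fderiv_of_isOpen D.opn le_rfl
  have hdet : ∀ x ∈ X, (fderiv ℝ G x).det ≠ 0 := by
    intro x hx h
    have h1 := L.area x hx
    rw [h, mul_zero] at h1
    exact (L.ρpos x hx).ne h1
  have hcdet : ContinuousOn (fun x => (fderiv ℝ G x).det) X :=
    ContinuousLinearMap.continuous_det.comp_continuousOn hcD
  have hf : ContinuousOn (fun x => ‖fderiv ℝ G x‖ ^ 2 / |(fderiv ℝ G x).det|) C := by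
    refine ContinuousOn.div ((hcD.mono hCX).norm.pow 2) (hcdet.mono hCX).abs fun x hx => ?_
    exact abs_ne_zero.2 (hdet x (hCX hx))
  obtain ⟨K, hK⟩ := hC.exists_bound_of_continuousOn hf
  refine ⟨K, fun x hx => ?_⟩
  obtain ⟨c, hc⟩ := hcoc x hx
  have hy : A c x ∈ X := hCX hc
  have hGx : G x ∈ X := L.mG hx
  obtain ⟨h1, h2, h3, h4⟩ := D.fd c hx
  obtain ⟨k1, k2, k3, k4⟩ := D.fd (θ c) hGx
  have hdG : ∀ z ∈ X, DifferentiableAt ℝ G z := fun z hz =>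
    (L.c1.differentiableOn one_ne_zero).differentiableAt (D.opn.mem_nhds hz)
  have e1 : HasFDerivAt (fun z => G (A c z)) ((fderiv ℝ G (A c x)).comp (fderiv ℝ (A c) x)) x :=
    (hdG _ hy).hasFDerivAt.comp x
      ((h1.differentiableAt.restrictScalars ℝ).hasFDerivAt)
  have e2 : HasFDerivAt (fun z => A (θ c) (G z))
      ((fderiv ℝ (A (θ c)) (G x)).comp (fderiv ℝ G x)) x :=
    ((k1.differentiableAt.restrictScalars ℝ).hasFDerivAt).comp x (hdG x hx).hasFDerivAt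
  have e3 : HasFDerivAt (fun z => G (A c z))
      ((fderiv ℝ (A (θ c)) (G x)).comp (fderiv ℝ G x)) x := by
    refine e2.congr_of_eventuallyEq ?_
    filter_upwards [D.opn.mem_nhds hx] with z hz
    exact L.equi c z hz
  have he := e1.unique e3
  have hdd : (fderiv ℝ G (A c x)).det * ‖deriv (A c) x‖ ^ 2 =
      ‖deriv (A (θ c)) (G x)‖ ^ 2 * (fderiv ℝ G x).det := by
    have := congrArg ContinuousLinearMap.det he
    rw [← h3, ← k3]
    simpa [ContinuousLinearMap.det, ContinuousLinearMap.coe_comp, LinearMap.det_comp] using this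
  have hnn : ‖fderiv ℝ G x‖ ≤ ‖deriv (A (θ c)) (G x)‖⁻¹ * ‖deriv (A c) x‖ *
      ‖fderiv ℝ G (A c x)‖ := by
    refine ContinuousLinearMap.opNorm_le_bound _ (by positivity) fun w => ?_
    have h5 : deriv (A (θ c)) (G x) * fderiv ℝ G x w =
        fderiv ℝ G (A c x) (deriv (A c) x * w) := by
      rw [← k4, ← h4]
      exact (congrArg (fun T : ℂ →L[ℝ] ℂ => T w) he).symm
    have h6 : fderiv ℝ G x w = (deriv (A (θ c)) (G x))⁻¹ *
        fderiv ℝ G (A c x) (deriv (A c) x * w) := by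
      rw [← h5, inv_mul_cancel_left₀ k2]
    rw [h6, norm_mul, norm_inv, mul_assoc, mul_assoc]
    refine mul_le_mul_of_nonneg_left ?_ (by positivity)
    refine (ContinuousLinearMap.le_opNorm _ _).trans ?_
    rw [norm_mul]
    exact le_of_eq (by ring)
  have hKy := hK _ hc
  rw [Real.norm_eq_abs, abs_of_nonneg (by positivity),
    div_le_iff₀ (abs_pos.2 (hdet _ hy))] at hKy
  have ha : 0 < ‖deriv (A c) x‖ := norm_pos_iff.2 h2
  have ha' : 0 < ‖deriv (A (θ c)) (G x)‖ := norm_pos_iff.2 k2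
  have habs : |(fderiv ℝ G (A c x)).det| * ‖deriv (A c) x‖ ^ 2 =
      ‖deriv (A (θ c)) (G x)‖ ^ 2 * |(fderiv ℝ G x).det| := by
    have := congrArg abs hdd
    rw [abs_mul, abs_mul, abs_of_nonneg (sq_nonneg ‖deriv (A c) x‖),
      abs_of_nonneg (sq_nonneg ‖deriv (A (θ c)) (G x)‖)] at this
    exact this
  calc ‖fderiv ℝ G x‖ ^ 2 ≤ (‖deriv (A (θ c)) (G x)‖⁻¹ * ‖deriv (A c) x‖ *
      ‖fderiv ℝ G (A c x)‖) ^ 2 := pow_le_pow_left₀ (norm_nonneg _) hnn 2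
    _ = (‖deriv (A (θ c)) (G x)‖⁻¹) ^ 2 * ‖deriv (A c) x‖ ^ 2 * ‖fderiv ℝ G (A c x)‖ ^ 2 := by
      ring
    _ ≤ (‖deriv (A (θ c)) (G x)‖⁻¹) ^ 2 * ‖deriv (A c) x‖ ^ 2 *
        (K * |(fderiv ℝ G (A c x)).det|) := mul_le_mul_of_nonneg_left hKy (by positivity)
    _ = K * ((‖deriv (A (θ c)) (G x)‖⁻¹) ^ 2 *
        (|(fderiv ℝ G (A c x)).det| * ‖deriv (A c) x‖ ^ 2)) := by ring
    _ = K * |(fderiv ℝ G x).det| := by
      have h7 : ‖deriv (A (θ c)) (G x)‖⁻¹ ^ 2 * ‖deriv (A (θ c)) (G x)‖ ^ 2 = 1 := by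
        rw [← mul_pow, inv_mul_cancel₀ ha'.ne', one_pow]
      rw [habs, ← mul_assoc (‖deriv (A (θ c)) (G x)‖⁻¹ ^ 2), h7, one_mul]

end

end CV
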