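import Pool.Agent.H36.DG.Defs
import Pool.Agent.H36.DG.GD

/-!
TU (a homeomorphism of `X` onto the plane which is the identity near a compact set; complements of islands).
`exists_tau`: `X = univ`: identity, `V = univ`.  `X = ball 0 1`: `Y ⊆ ball 0 r₁`, `0 < r₁ < 1` (`Y` compact in the open ball); `τ z = z` for `‖z‖ ≤ r₁`, `τ z = ((1 - r₁) / (1 - ‖z‖)) • z` for `r₁ ≤ ‖z‖ < 1`;
`τi w = w` for `‖w‖ ≤ r₁`, `τi w = (‖w‖ + 1 - r₁)⁻¹ • w` for `‖w‖ ≥ r₁`; `V = ball 0 r₁`.
`island_top`: `Y` is compact, connected (`Island.basic`); `X \ Y` is preconnected by `compl_component` (DS/TB) with `S = X`, `V = U`, `K = Y` (`auxTB_max`); if `X = ball 0 1` then `Yᶜ = (X \ Y) ∪ {‖z‖ ≥ 1}`, the second set is connected and every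
point of the circle is a limit of points of `X \ Y` (`Y` is compact in the open ball).
`tau_lift`: `H = τ ∘ G ∘ τi`, a homeomorphism of the plane; `sphere_ext`.
-/

namespace CV

open Metric Set Filter Topology Function DS TN

/-- data of the homeomorphism -/
structure Tau (X Y : Set ℂ) (τ τi : ℂ → ℂ) (V : Set ℂ) : Prop where
  cτ : ContinuousOn τ X
  cτi : Continuous τi
  mτi : ∀ z, τi z ∈ X
  left : ∀ z ∈ X, τi (τ z) = z
  right : ∀ z, τ (τi z) = z
  opn : IsOpen V
  sub : Y ⊆ V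
  VX : V ⊆ X
  id : ∀ z ∈ V, τ z = z ∧ τi z = z

/-- the radial map of the disc onto the plane -/
noncomputable def TU_t (r : ℝ) (z : ℂ) : ℂ := ((1 - r) / (1 - max r ‖z‖)) • z

/-- its inverse -/
noncomputable def TU_s (r : ℝ) (w : ℂ) : ℂ := (max r ‖w‖ + 1 - r)⁻¹ • w

theorem TU_t_small {r : ℝ} (hr : r < 1) {z : ℂ} (hz : ‖z‖ ≤ r) : TU_t r z = z := by
  unfold TU_t
  rw [max_eq_left hz, div_self (by linarith), one_smul]

theorem TU_s_small {r : ℝ} {z : ℂ} (hz : ‖z‖ ≤ r) : TU_s r z = z := by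
  unfold TU_s
  rw [max_eq_left hz, show r + 1 - r = 1 by ring, inv_one, one_smul]

theorem TU_s_mem {r : ℝ} (hr : r < 1) (h0 : 0 < r) (w : ℂ) : ‖TU_s r w‖ < 1 := by
  rcases le_total ‖w‖ r with h | h
  · rw [TU_s_small h]; linarith
  · unfold TU_s
    rw [max_eq_right h, norm_smul, norm_inv, Real.norm_eq_abs,
      abs_of_pos (by linarith : 0 < ‖w‖ + 1 - r), inv_mul_lt_iff₀ (by linarith)]
    linarith

theorem TU_left {r : ℝ} (hr : r < 1) (h0 : 0 < r) {z : ℂ} (hz : ‖z‖ < 1) :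
    TU_s r (TU_t r z) = z := by
  rcases le_total ‖z‖ r with h | h
  · rw [TU_t_small hr h, TU_s_small h]
  · have h1 : 0 < 1 - ‖z‖ := by linarith
    have h2 : 0 < 1 - r := by linarith
    have hn : ‖TU_t r z‖ = (1 - r) / (1 - ‖z‖) * ‖z‖ := by
      unfold TU_t
      rw [max_eq_right h, norm_smul, Real.norm_eq_abs, abs_of_pos (by positivity)]
    have hge : r ≤ ‖TU_t r z‖ := by
      rw [hn]
      have : 1 ≤ (1 - r) / (1 - ‖z‖) := by
        rw [one_le_div h1]; linarith
      nlinarith [norm_nonneg z]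
    have e1 : ‖TU_t r z‖ + 1 - r = (1 - r) / (1 - ‖z‖) := by
      rw [hn]
      field_simp
      ring
    unfold TU_s
    rw [max_eq_right hge, e1]
    unfold TU_t
    rw [max_eq_right h, smul_smul, inv_mul_cancel₀ (by positivity), one_smul]

theorem TU_right {r : ℝ} (hr : r < 1) (h0 : 0 < r) (w : ℂ) : TU_t r (TU_s r w) = w := by
  rcases le_total ‖w‖ r with h | h
  · rw [TU_s_small h, TU_t_small hr h]
  · have h1 : 0 < ‖w‖ + 1 - r := by linarith
    have h2 : 0 < 1 - r := by linarith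
    have hn : ‖TU_s r w‖ = ‖w‖ / (‖w‖ + 1 - r) := by
      unfold TU_s
      rw [max_eq_right h, norm_smul, norm_inv, Real.norm_eq_abs, abs_of_pos h1, inv_mul_eq_div]
    have hge : r ≤ ‖TU_s r w‖ := by
      rw [hn, le_div_iff₀ h1]
      nlinarith
    have e1 : (1 - r) / (1 - ‖TU_s r w‖) = ‖w‖ + 1 - r := by
      rw [hn]
      have : 1 - ‖w‖ / (‖w‖ + 1 - r) = (1 - r) / (‖w‖ + 1 - r) := by
        field_simp
        ring
      rw [this]
      field_simp
    unfold TU_t
    rw [max_eq_right hge, e1]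
    unfold TU_s
    rw [max_eq_right h, smul_smul, mul_inv_cancel₀ (by positivity), one_smul]

theorem TU_rad {Y : Set ℂ} (hY : IsCompact Y) (hYX : Y ⊆ ball (0:ℂ) 1) :
    ∃ r : ℝ, 0 < r ∧ r < 1 ∧ Y ⊆ ball 0 r := by
  rcases Y.eq_empty_or_nonempty with rfl | hne
  · exact ⟨1 / 2, by norm_num, by norm_num, empty_subset _⟩
  · obtain ⟨y, hy, hmax⟩ := hY.exists_isMaxOn hne continuous_norm.continuousOn
    have hy1 : ‖y‖ < 1 := by simpa using hYX hy
    refine ⟨(1 + ‖y‖) / 2, by positivity, by linarith, fun z hz => ?_⟩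
    have : ‖z‖ ≤ ‖y‖ := hmax hz
    rw [mem_ball_zero_iff]
    linarith

/-- the exterior of the disc is preconnected -/
theorem TU_ext : IsPreconnected {z : ℂ | 1 ≤ ‖z‖} := by
  have hr : (1 : Cardinal) < Module.rank ℝ ℂ := by
    rw [Complex.rank_real_complex]; norm_num
  have h0 := (isConnected_compl_singleton_of_one_lt_rank hr (0:ℂ)).isPreconnected
  have hc : ContinuousOn (fun z : ℂ => (max 1 ‖z‖ / ‖z‖) • z) {0}ᶜ := by
    have h1 : ContinuousOn (fun z : ℂ => max 1 ‖z‖ / ‖z‖) {0}ᶜ := by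
      refine ContinuousOn.div (continuous_const.max continuous_norm).continuousOn
        continuous_norm.continuousOn fun z hz => ?_
      exact norm_ne_zero_iff.mpr hz
    exact h1.smul continuousOn_id
  have h2 := h0.image _ hc
  have : (fun z : ℂ => (max 1 ‖z‖ / ‖z‖) • z) '' {0}ᶜ = {z : ℂ | 1 ≤ ‖z‖} := by
    ext z
    constructor
    · rintro ⟨w, hw, rfl⟩
      have hw0 : 0 < ‖w‖ := norm_pos_iff.mpr hw
      change (1:ℝ) ≤ ‖(max 1 ‖w‖ / ‖w‖) • w‖
      rw [norm_smul, Real.norm_of_nonneg (by positivity), div_mul_cancel₀ _ hw0.ne']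
      exact le_max_left _ _
    · intro hz
      have hz1 : (1:ℝ) ≤ ‖z‖ := hz
      refine ⟨z, ?_, ?_⟩
      · intro h
        rw [mem_singleton_iff] at h
        rw [h, norm_zero] at hz1
        linarith
      · simp only
        rw [max_eq_right hz1, div_self (by linarith), one_smul]
  rwa [this] at h2

theorem exists_tau {X Y : Set ℂ} (hX : X = univ ∨ X = ball (0:ℂ) 1) (hY : IsCompact Y)
    (hYX : Y ⊆ X) : ∃ τ τi V, Tau X Y τ τi V := by
  rcases hX with rfl | rfl
  · exact ⟨fun z => z, fun z => z, univ, ⟨continuousOn_id, continuous_id, fun z => mem_univ _,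
      fun z _ => rfl, fun z => rfl, isOpen_univ, subset_univ _, subset_univ _,
      fun z _ => ⟨rfl, rfl⟩⟩⟩
  · obtain ⟨r, hr0, hr1, hYr⟩ := TU_rad hY hYX
    refine ⟨TU_t r, TU_s r, ball 0 r, ⟨?_, ?_, ?_, ?_, TU_right hr1 hr0, isOpen_ball, hYr,
      ball_subset_ball hr1.le, ?_⟩⟩
    · intro z hz
      rw [mem_ball_zero_iff] at hz
      have hpos : 1 - max r ‖z‖ ≠ 0 := by
        have : max r ‖z‖ < 1 := max_lt hr1 hz
        linarith
      have h1 : ContinuousAt (fun z : ℂ => 1 - max r ‖z‖) z :=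
        (continuous_const.sub (continuous_const.max continuous_norm)).continuousAt
      have h2 : ContinuousAt (fun z : ℂ => (1 - r) / (1 - max r ‖z‖)) z :=
        ContinuousAt.div continuousAt_const h1 hpos
      have : ContinuousAt (TU_t r) z := h2.smul (continuousAt_id (x := z))
      exact this.continuousWithinAt
    · have h1 : Continuous (fun w : ℂ => max r ‖w‖ + 1 - r) :=
        ((continuous_const.max continuous_norm).add continuous_const).sub continuous_const
      have h2 : Continuous (fun w : ℂ => (max r ‖w‖ + 1 - r)⁻¹) := by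
        refine h1.inv₀ fun w => ?_
        have : r ≤ max r ‖w‖ := le_max_left _ _
        have : 0 < max r ‖w‖ + 1 - r := by linarith
        exact this.ne'
      exact h2.smul continuous_id
    · intro z
      rw [mem_ball_zero_iff]
      exact TU_s_mem hr1 hr0 z
    · intro z hz
      exact TU_left hr1 hr0 (by simpa using hz)
    · intro z hz
      rw [mem_ball_zero_iff] at hz
      exact ⟨TU_t_small hr1 hz.le, TU_s_small hz.le⟩

section
variable {S : Type} [MetricSpace S] {X : Set ℂ} {Γ : Type} [Group Γ]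
  {A : Γ → ℂ → ℂ} {p : ℂ → S} {g gi : S → S} {G Gi : ℂ → ℂ} {θ : Γ ≃* Γ} {ρ : ℂ → ℝ}
  {U : Set ℂ} {N : Subgroup Γ}

theorem island_top (D : Deck X A p) (M : Dom X A p g G U N) {Y : Set ℂ} (hY : Island X U Y) :
    IsCompact Y ∧ IsConnected Y ∧ Y ⊆ X ∧ IsConnected Yᶜ := by
  obtain ⟨hc, hsub, -⟩ := hY.basic
  have hYX : Y ⊆ X := fun y hy => (hsub hy).1
  obtain ⟨x, hx, hYx⟩ := hY.comp
  have hXc : X = univ ∨ X = ball (0:ℂ) 1 := by
    rcases D.hX with h | h
    · exact Or.inl h.1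
    · exact Or.inr h.1
  have hXpre : IsPreconnected X := by
    rcases hXc with rfl | rfl
    · exact isPreconnected_univ
    · exact (convex_ball (0:ℂ) 1).isPreconnected
  have hpre : IsPreconnected (X \ Y) := by
    refine compl_component hXpre M.conn.isPreconnected M.conn.nonempty M.sub hc.isPreconnected
      hsub ?_
    intro C hC hCp hCK
    rw [hYx] at hCK ⊢
    exact auxTB_max x C hC hCp hCK
  have hUY : ∀ u ∈ U, u ∈ Yᶜ := fun u hu hy => (hsub hy).2 hu
  obtain ⟨u, hu⟩ := M.conn.nonempty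
  refine ⟨hY.cpt, hc, hYX, ⟨u, hUY u hu⟩, ?_⟩
  rcases hXc with rfl | rfl
  · rwa [compl_eq_univ_sdiff]
  · -- the disc
    obtain ⟨r, hr0, hr1, hYr⟩ := TU_rad hY.cpt hYX
    have h1cl : (1:ℂ) ∈ closure (ball (0:ℂ) 1 \ Y) := by
      rw [Metric.mem_closure_iff]
      intro ε hε
      set t : ℝ := max r (1 - ε / 2)
      have ht0 : 0 < t := lt_of_lt_of_le hr0 (le_max_left _ _)
      have ht1 : t < 1 := max_lt hr1 (by linarith)
      have htr : r ≤ t := le_max_left _ _
      have hte : 1 - ε / 2 ≤ t := le_max_right _ _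
      refine ⟨(t : ℂ), ⟨?_, ?_⟩, ?_⟩
      · rw [mem_ball_zero_iff, Complex.norm_real, Real.norm_of_nonneg ht0.le]
        exact ht1
      · intro h
        have := hYr h
        rw [mem_ball_zero_iff, Complex.norm_real, Real.norm_of_nonneg ht0.le] at this
        linarith
      · rw [dist_eq_norm, show (1:ℂ) - (t:ℂ) = ((1 - t : ℝ) : ℂ) by push_cast; ring,
          Complex.norm_real, Real.norm_of_nonneg (by linarith)]
        linarith
    have hA : IsPreconnected ((ball (0:ℂ) 1 \ Y) ∪ {1}) := by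
      refine hpre.subset_closure subset_union_left ?_
      rintro z (hz | hz)
      · exact subset_closure hz
      · rw [mem_singleton_iff] at hz
        rw [hz]
        exact h1cl
    have hu2 := IsPreconnected.union (1:ℂ) (Or.inr (mem_singleton (1:ℂ)))
      (show (1:ℂ) ∈ {z : ℂ | 1 ≤ ‖z‖} by simp) hA TU_ext
    have : Yᶜ = ((ball (0:ℂ) 1 \ Y) ∪ {1}) ∪ {z : ℂ | 1 ≤ ‖z‖} := by
      ext z
      constructor
      · intro hz
        by_cases h : ‖z‖ < 1
        · exact Or.inl (Or.inl ⟨by simpa using h, hz⟩)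
        · exact Or.inr (not_lt.mp h)
      · rintro ((hz | hz) | hz) hzY
        · exact hz.2 hzY
        · rw [mem_singleton_iff] at hz
          have := hYX hzY
          rw [hz] at this
          simp at this
        · have h1 := hYX hzY
          rw [mem_ball_zero_iff] at h1
          exact absurd hz (not_le.mpr h1)
    rw [this]
    exact hu2

theorem tau_lift (D : Deck X A p) (L : Lift X A p g gi G Gi θ ρ) {Y V : Set ℂ} {τ τi : ℂ → ℂ}
    (hT : Tau X Y τ τi V) {O : S2} {pp : S2 → ℂ} {q : ℂ → S2} (hS : SC O pp q) :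
    ∃ gs gsi : S2 → S2, Continuous gs ∧ Continuous gsi ∧ (∀ x, gsi (gs x) = x) ∧
      (∀ x, gs (gsi x) = x) ∧ (∀ z ∈ X, gs (q (τ z)) = q (τ (G z))) ∧
      ∀ z ∈ X, gsi (q (τ z)) = q (τ (Gi z)) := by
  have c1 : Continuous (fun z => τ (G (τi z))) :=
    hT.cτ.comp_continuous (L.c1.continuousOn.comp_continuous hT.cτi hT.mτi)
      fun z => L.mG (hT.mτi z)
  have c2 : Continuous (fun z => τ (Gi (τi z))) :=
    hT.cτ.comp_continuous (L.c1i.continuousOn.comp_continuous hT.cτi hT.mτi)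
      fun z => L.mGi (hT.mτi z)
  have h1 : ∀ z, τ (Gi (τi (τ (G (τi z))))) = z := by
    intro z
    rw [hT.left _ (L.mG (hT.mτi z)), L.GiG _ (hT.mτi z), hT.right]
  have h2 : ∀ z, τ (G (τi (τ (Gi (τi z))))) = z := by
    intro z
    rw [hT.left _ (L.mGi (hT.mτi z)), L.GGi _ (hT.mτi z), hT.right]
  obtain ⟨gs, gsi, k1, k2, k3, k4, -, -, k5, k6, -, -⟩ := DG.sphere_ext hS c1 c2 h1 h2
  refine ⟨gs, gsi, k1, k2, k3, k4, fun z hz => ?_, fun z hz => ?_⟩
  · rw [k5, hT.left z hz]
  · rw [k6, hT.left z hz]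

end

end CV
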