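import Pool.Agent.H12.TN.FD

/-!
WA (the group moves small neighbourhoods of a point outside the limit set).  Suppose not: for `n ≥ 1` there are `c_n ≠ 1`, `x_n` in the closed disc with
`dist x_n ζ < 1/n`, `dist (act c_n x_n) ζ < 1/n`.  If some value `c` is taken infinitely often: by continuity (`act_cont`) `act c ζ = ζ`, `c ≠ 1`; but the fixed points on the circle of a
nontrivial element are in the limit set (`FC`: the two fixed points are attracting and repelling, `Fuchs.AR` exists; they are limits of `act (c ^ n) 0`, `act (c⁻¹ ^ n) 0`): contradiction.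
Otherwise (pass to a subsequence on which each value is taken finitely often; `conv` in TN/FB needs `∀ a, {n | c n = a}.Finite`) `conv` gives `c_∞, d_∞ ∈ F.lim` with `act (c_n) → c_∞` uniformly off
`d_∞`; `ζ ≠ d_∞`, so by `conv_seq` `act c_n x_n → c_∞ ≠ ζ`: contradiction.
-/

namespace TN
open Metric Set Filter Topology DS

variable {Γ : Type} [Group Γ]

theorem wander (F : Fuchs Γ) {ζ : ℂ} (hζ : ‖ζ‖ = 1) (h : ζ ∉ F.lim) :
    ∃ r > 0, ∀ c, c ≠ 1 → ∀ x ∈ closedBall (0:ℂ) 1, dist x ζ < r → r ≤ dist (F.act c x) ζ := by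
  by_contra hcon
  push Not at hcon
  have h1 : ∀ n : ℕ, (0:ℝ) < 1 / ((n:ℝ) + 1) := fun n => Nat.one_div_pos_of_nat
  choose c hc1 x hx hxd hcd using fun n : ℕ => hcon (1 / ((n:ℝ) + 1)) (h1 n)
  have h2 : Tendsto (fun n : ℕ => 1 / ((n:ℝ) + 1)) atTop (𝓝 0) :=
    tendsto_one_div_add_atTop_nhds_zero_nat
  have hx' : Tendsto x atTop (𝓝 ζ) := by
    rw [tendsto_iff_dist_tendsto_zero]
    exact squeeze_zero (fun n => dist_nonneg) (fun n => (hxd n).le) h2
  have hc' : Tendsto (fun n => F.act (c n) (x n)) atTop (𝓝 ζ) := by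
    rw [tendsto_iff_dist_tendsto_zero]
    exact squeeze_zero (fun n => dist_nonneg) (fun n => (hcd n).le) h2
  by_cases hfin : ∀ a, {n | c n = a}.Finite
  · obtain ⟨φ, hφ, cc, hcc, d, hd, -, -, h3, -⟩ := conv F hfin
    have h4 := conv_seq F (g := fun n => c (φ n)) (c := cc) (d := d) (x := ζ) h3
      (y := fun n => x (φ n)) (fun n => hx _) (hx'.comp hφ.tendsto_atTop)
      (fun he => h (he ▸ hd))
    have h5 := tendsto_nhds_unique h4 (hc'.comp hφ.tendsto_atTop)
    exact h (h5 ▸ hcc)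
  · push Not at hfin
    obtain ⟨a, ha⟩ := hfin
    have hfr : ∃ᶠ n in atTop, c n = a := Nat.frequently_atTop_iff_infinite.2 ha
    obtain ⟨φ, hφ, hφa⟩ := extraction_of_frequently_atTop hfr
    have hane : a ≠ 1 := by
      rw [← hφa 0]
      exact hc1 _
    have hζb : ζ ∈ closedBall (0:ℂ) 1 := by simpa using hζ.le
    have h3 : Tendsto (fun n => x (φ n)) atTop (𝓝[closedBall (0:ℂ) 1] ζ) :=
      tendsto_nhdsWithin_iff.2 ⟨hx'.comp hφ.tendsto_atTop, Eventually.of_forall fun n => hx _⟩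
    have h4 : Tendsto (fun n => F.act a (x (φ n))) atTop (𝓝 (F.act a ζ)) :=
      (act_cont F a ζ hζb).tendsto.comp h3
    have h5 : Tendsto (fun n => F.act a (x (φ n))) atTop (𝓝 ζ) := by
      have h6 := hc'.comp hφ.tendsto_atTop
      refine h6.congr fun n => ?_
      simp only [Function.comp_apply, hφa n]
    have h6 : F.act a ζ = ζ := tendsto_nhds_unique h4 h5
    obtain ⟨p, q, hpq⟩ := exists_AR F hane
    rcases AR.fixed hpq hζ.le h6 with e | e
    · exact h (e ▸ (AR.lim hpq).1)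
    · exact h (e ▸ (AR.lim hpq).2)

end TN
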